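import Mathlib

/-! The inverse hyperbolic cosine on the upper half-plane, and the semigroup
`cosh √(arcosh ^ 2 + t)`. -/

set_option autoImplicit false

open Set Filter Topology Complex

namespace Pool.Agent.V1169.Arcosh

theorem cosh_re' (z : ℂ) : (cosh z).re = Real.cosh z.re * Real.cos z.im := by
  conv_lhs => rw [← re_add_im z, Complex.cosh_add, Complex.cosh_mul_I, Complex.sinh_mul_I]
  rw [← ofReal_cosh, ← ofReal_sinh, ← ofReal_cos, ← ofReal_sin]
  simp only [add_re, mul_re, ofReal_re, ofReal_im, mul_im, I_re, I_im]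
  ring

theorem cosh_im' (z : ℂ) : (cosh z).im = Real.sinh z.re * Real.sin z.im := by
  conv_lhs => rw [← re_add_im z, Complex.cosh_add, Complex.cosh_mul_I, Complex.sinh_mul_I]
  rw [← ofReal_cosh, ← ofReal_sinh, ← ofReal_cos, ← ofReal_sin]
  simp only [add_im, mul_re, ofReal_re, ofReal_im, mul_im, I_re, I_im]
  ring

/-- The half-strip. -/
def S : Set ℂ := {z | 0 < z.re ∧ 0 < z.im ∧ z.im < Real.pi}

theorem cosh_im_pos {z : ℂ} (hz : z ∈ S) : 0 < (cosh z).im := by
  rw [cosh_im']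
  exact mul_pos (Real.sinh_pos_iff.2 hz.1) (Real.sin_pos_of_pos_of_lt_pi hz.2.1 hz.2.2)

theorem cosh_inj {z w : ℂ} (hz : z ∈ S) (hw : w ∈ S) (h : cosh z = cosh w) : z = w := by
  rw [← Complex.cos_mul_I, ← Complex.cos_mul_I, Complex.cos_eq_cos_iff] at h
  obtain ⟨k, hk | hk⟩ := h
  · have h1 := congrArg Complex.re hk
    have h2 := congrArg Complex.im hk
    simp at h1 h2
    obtain ⟨-, hz2, hz3⟩ := hz
    obtain ⟨-, hw2, hw3⟩ := hw
    have hπ := Real.pi_pos
    have h3 : (k : ℝ) = 0 := by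
      have h4 : (k : ℝ) < 1 := by nlinarith
      have h5 : (-1 : ℝ) < k := by nlinarith
      have h6 : k < 1 := by exact_mod_cast h4
      have h7 : -1 < k := by exact_mod_cast h5
      have : k = 0 := by omega
      rw [this]
      simp
    rw [h3] at h1
    refine Complex.ext h2.symm ?_
    linarith
  · have h2 := congrArg Complex.im hk
    simp at h2
    have := hz.1
    have := hw.1
    linarith

/-- Principal square root. -/
noncomputable def Q (w : ℂ) : ℂ := w ^ (1 / 2 : ℂ)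

theorem Q_sq (w : ℂ) : Q w ^ 2 = w := by
  unfold Q
  rw [← Complex.cpow_nat_mul]
  norm_num

theorem Q_re_nonneg (w : ℂ) : 0 ≤ (Q w).re := by
  unfold Q
  rcases eq_or_ne w 0 with rfl | hw
  · rw [zero_cpow (by norm_num)]
    simp
  · rw [cpow_def_of_ne_zero hw, exp_re]
    have h1 : (log w * (1 / 2)).im = arg w / 2 := by
      have : log w * (1 / 2) = log w / 2 := by ring
      rw [this]
      have h2 : (log w / 2).im = (log w).im / 2 := by
        rw [show (2:ℂ) = ((2:ℝ):ℂ) by norm_num, div_ofReal_im]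
      rw [h2, log_im]
    rw [h1]
    refine mul_nonneg (Real.exp_pos _).le (Real.cos_nonneg_of_neg_pi_div_two_le_of_le ?_ ?_)
    · linarith [neg_pi_lt_arg w]
    · linarith [arg_le_pi w]

theorem Q_mem {w : ℂ} (hw : 0 < w.im) : 0 < (Q w).re ∧ 0 < (Q w).im := by
  have h1 := Q_re_nonneg w
  have h2 := congrArg Complex.im (Q_sq w)
  rw [sq, mul_im] at h2
  have h3 : 0 < (Q w).re * (Q w).im := by nlinarith
  have h4 : 0 < (Q w).re := by
    rcases h1.lt_or_eq with h | h
    · exact h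
    · rw [← h] at h3
      simp at h3
  exact ⟨h4, by
    by_contra h5
    push Not at h5
    nlinarith⟩

theorem Q_of_sq {z : ℂ} (hz : 0 < z.re) : Q (z ^ 2) = z := by
  have h1 : (Q (z ^ 2) - z) * (Q (z ^ 2) + z) = 0 := by
    have := Q_sq (z ^ 2)
    linear_combination this
  rcases mul_eq_zero.1 h1 with h | h
  · linear_combination h
  · exfalso
    have h2 := congrArg Complex.re h
    simp only [add_re, zero_re] at h2
    have h3 := Q_re_nonneg (z ^ 2)
    linarith

theorem mem_slitPlane {w : ℂ} (hw : 0 < w.im) : w ∈ slitPlane := Or.inr hw.ne'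

theorem differentiableAt_Q {w : ℂ} (hw : 0 < w.im) : DifferentiableAt ℂ Q w := by
  unfold Q
  exact differentiableAt_id.cpow (differentiableAt_const _) (mem_slitPlane hw)

/-- Auxiliary square root of `u ^ 2 - 1`. -/
noncomputable def zeta (u : ℂ) : ℂ := u + Q (u - 1) * Q (u + 1)

theorem zeta_mul (u : ℂ) : zeta u * (u - Q (u - 1) * Q (u + 1)) = 1 := by
  unfold zeta
  have h1 := Q_sq (u - 1)
  have h2 := Q_sq (u + 1)
  have h3 : (Q (u - 1) * Q (u + 1)) ^ 2 = (u - 1) * (u + 1) := by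
    rw [mul_pow, h1, h2]
  linear_combination -h3

theorem zeta_ne (u : ℂ) : zeta u ≠ 0 := left_ne_zero_of_mul_eq_one (zeta_mul u)

theorem zeta_inv (u : ℂ) : zeta u + (zeta u)⁻¹ = 2 * u := by
  have h1 : (zeta u)⁻¹ = u - Q (u - 1) * Q (u + 1) := inv_eq_of_mul_eq_one_right (zeta_mul u)
  rw [h1]
  unfold zeta
  ring

theorem zeta_im_pos {u : ℂ} (hu : 0 < u.im) : 0 < (zeta u).im := by
  have h1 := Q_mem (w := u - 1) (by simpa using hu)
  have h2 := Q_mem (w := u + 1) (by simpa using hu)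
  unfold zeta
  rw [add_im, mul_im]
  have := mul_pos h1.1 h2.2
  have := mul_pos h1.2 h2.1
  linarith

theorem one_lt_norm_zeta {u : ℂ} (hu : 0 < u.im) : 1 < ‖zeta u‖ := by
  by_contra h
  push Not at h
  have h1 := zeta_im_pos hu
  have h2 := congrArg Complex.im (zeta_inv u)
  rw [add_im, inv_im] at h2
  have h3 : (2 * u).im = 2 * u.im := by simp
  rw [h3] at h2
  have h4 : 0 < normSq (zeta u) := normSq_pos.2 (zeta_ne u)
  have h5 : normSq (zeta u) ≤ 1 := by
    rw [normSq_eq_norm_sq]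
    exact pow_le_one₀ (norm_nonneg _) h
  have h6 : (zeta u).im ≤ (zeta u).im / normSq (zeta u) := by
    rw [le_div_iff₀ h4]
    nlinarith
  rw [neg_div] at h2
  linarith

/-- Inverse hyperbolic cosine. -/
noncomputable def A (u : ℂ) : ℂ := log (zeta u)

theorem A_mem {u : ℂ} (hu : 0 < u.im) : A u ∈ S := by
  unfold A
  have h1 := zeta_im_pos hu
  refine ⟨?_, ?_, ?_⟩
  · rw [log_re]
    exact Real.log_pos (one_lt_norm_zeta hu)
  · rw [log_im]
    exact lt_of_le_of_ne (arg_nonneg_iff.2 h1.le) fun h => by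
      have := (arg_eq_zero_iff.1 h.symm).2
      linarith
  · rw [log_im]
    exact lt_of_le_of_ne (arg_le_pi _) fun h => by
      have := (arg_eq_pi_iff.1 h).2
      linarith

theorem cosh_A (u : ℂ) : cosh (A u) = u := by
  unfold A
  have h1 : cosh (log (zeta u)) = (zeta u + (zeta u)⁻¹) / 2 := by
    rw [Complex.cosh, exp_log (zeta_ne u), exp_neg, exp_log (zeta_ne u)]
  rw [h1, zeta_inv]
  ring

theorem A_cosh {z : ℂ} (hz : z ∈ S) : A (cosh z) = z :=
  cosh_inj (A_mem (cosh_im_pos hz)) hz (cosh_A _)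

theorem differentiableAt_A {u : ℂ} (hu : 0 < u.im) : DifferentiableAt ℂ A u := by
  have h1 : DifferentiableAt ℂ (fun u => Q (u - 1)) u :=
    DifferentiableAt.comp (g := Q) (f := fun u => u - 1) u
      (differentiableAt_Q (w := u - 1) (by simpa using hu)) (by fun_prop)
  have h2 : DifferentiableAt ℂ (fun u => Q (u + 1)) u :=
    DifferentiableAt.comp (g := Q) (f := fun u => u + 1) u
      (differentiableAt_Q (w := u + 1) (by simpa using hu)) (by fun_prop)
  have h3 : DifferentiableAt ℂ zeta u := by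
    unfold zeta
    exact differentiableAt_id.add (h1.mul h2)
  unfold A
  exact h3.clog (mem_slitPlane (zeta_im_pos hu))

/-! ### The semigroup -/

theorem sq_im_pos {z : ℂ} (hz : z ∈ S) : 0 < (z ^ 2).im := by
  rw [sq, mul_im]
  have := mul_pos hz.1 hz.2.1
  nlinarith

/-- Real and imaginary parts of the square root. -/
theorem sqrt_bounds {z : ℂ} (hz : z ∈ S) {t : ℝ} (ht : 0 ≤ t) :
    Q (z ^ 2 + t) ∈ S ∧ z.re ≤ (Q (z ^ 2 + t)).re ∧ (Q (z ^ 2 + t)).im ≤ z.im ∧
    (Q (z ^ 2 + t)).re ^ 2 = z.re ^ 2 - z.im ^ 2 + t + (Q (z ^ 2 + t)).im ^ 2 ∧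
    (Q (z ^ 2 + t)).re * (Q (z ^ 2 + t)).im = z.re * z.im := by
  have him : 0 < (z ^ 2 + t).im := by
    rw [add_im, ofReal_im, add_zero]
    exact sq_im_pos hz
  obtain ⟨h1, h2⟩ := Q_mem him
  have h3 := Q_sq (z ^ 2 + t)
  have hre := congrArg Complex.re h3
  have him' := congrArg Complex.im h3
  rw [sq, mul_re, sq, add_re, mul_re, ofReal_re] at hre
  rw [sq, mul_im, sq, add_im, mul_im, ofReal_im] at him'
  set a := (Q (z ^ 2 + t)).re with ha
  set b := (Q (z ^ 2 + t)).im with hb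
  have hzS := hz
  obtain ⟨hx, hy, hy'⟩ := hz
  have hab : a * b = z.re * z.im := by
    have : (Q (z * z + t)) = Q (z ^ 2 + t) := by rw [sq]
    rw [this, ← ha, ← hb] at him'
    linarith
  have hre' : a ^ 2 = z.re ^ 2 - z.im ^ 2 + t + b ^ 2 := by
    have : (Q (z * z + t)) = Q (z ^ 2 + t) := by rw [sq]
    rw [this, ← ha, ← hb] at hre
    nlinarith
  have hxa : z.re ≤ a := by
    by_contra hlt
    push Not at hlt
    have hby : z.im < b := by
      by_contra hle
      push Not at hle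
      have : a * b < z.re * z.im := by nlinarith
      linarith
    nlinarith
  have hby : b ≤ z.im := by
    by_contra hlt
    push Not at hlt
    have : z.re * z.im < a * b := by nlinarith
    linarith
  exact ⟨⟨h1, h2, by linarith⟩, hxa, hby, hre', hab⟩

/-- The semigroup in the upper half-plane. -/
noncomputable def psi (t : ℝ) (u : ℂ) : ℂ := cosh (Q (A u ^ 2 + t))

theorem psi_im_pos {u : ℂ} (hu : 0 < u.im) {t : ℝ} (ht : 0 ≤ t) : 0 < (psi t u).im :=
  cosh_im_pos (sqrt_bounds (A_mem hu) ht).1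

theorem A_psi {u : ℂ} (hu : 0 < u.im) {t : ℝ} (ht : 0 ≤ t) : A (psi t u) ^ 2 = A u ^ 2 + t := by
  unfold psi
  rw [A_cosh (sqrt_bounds (A_mem hu) ht).1, Q_sq]

theorem psi_zero {u : ℂ} (hu : 0 < u.im) : psi 0 u = u := by
  unfold psi
  rw [ofReal_zero, add_zero, Q_of_sq (A_mem hu).1, cosh_A]

theorem psi_add {u : ℂ} (hu : 0 < u.im) {s t : ℝ} (hs : 0 ≤ s) :
    psi (t + s) u = psi t (psi s u) := by
  have h1 := A_psi hu hs
  unfold psi at h1 ⊢
  rw [h1]
  congr 2
  push_cast
  ring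

theorem psi_ne {u : ℂ} (hu : 0 < u.im) {t : ℝ} (ht : 0 < t) : psi t u ≠ u := by
  intro h
  have h1 := A_psi hu ht.le
  rw [h] at h1
  have h2 : (t : ℂ) = 0 := by linear_combination -h1
  exact ht.ne' (by exact_mod_cast h2)

theorem continuousAt_psi {u : ℂ} (hu : 0 < u.im) {t : ℝ} :
    ContinuousAt (fun p : ℝ × ℂ => psi p.1 p.2) (t, u) := by
  have him : 0 < (A u ^ 2 + t).im := by
    rw [add_im, ofReal_im, add_zero]
    exact sq_im_pos (A_mem hu)
  have h1 : ContinuousAt (fun p : ℝ × ℂ => A p.2) (t, u) :=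
    ContinuousAt.comp (g := A) (f := fun p : ℝ × ℂ => p.2)
      (differentiableAt_A hu).continuousAt continuousAt_snd
  have h2 : ContinuousAt (fun p : ℝ × ℂ => A p.2 ^ 2 + p.1) (t, u) :=
    (h1.pow 2).add (continuous_ofReal.continuousAt.comp continuousAt_fst)
  have h3 : ContinuousAt (fun p : ℝ × ℂ => Q (A p.2 ^ 2 + p.1)) (t, u) :=
    ContinuousAt.comp (g := Q) (f := fun p : ℝ × ℂ => A p.2 ^ 2 + p.1)
      (differentiableAt_Q him).continuousAt h2
  exact ContinuousAt.comp (g := cosh) (f := fun p : ℝ × ℂ => Q (A p.2 ^ 2 + p.1))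
    Complex.continuous_cosh.continuousAt h3

theorem differentiableAt_psi {u : ℂ} (hu : 0 < u.im) {t : ℝ} : DifferentiableAt ℂ (psi t) u := by
  have him : 0 < (A u ^ 2 + t).im := by
    rw [add_im, ofReal_im, add_zero]
    exact sq_im_pos (A_mem hu)
  have h1 : DifferentiableAt ℂ (fun u => A u ^ 2 + t) u :=
    ((differentiableAt_A hu).pow 2).add (differentiableAt_const _)
  have h2 : DifferentiableAt ℂ (fun u => Q (A u ^ 2 + t)) u :=
    DifferentiableAt.comp (g := Q) (f := fun u => A u ^ 2 + t) u (differentiableAt_Q him) h1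
  exact DifferentiableAt.comp (g := cosh) (f := fun u => Q (A u ^ 2 + t)) u
    Complex.differentiable_cosh.differentiableAt h2

/-- Lower bound for the modulus of `cosh`. -/
theorem sinh_le_norm_cosh (z : ℂ) : Real.sinh z.re ≤ ‖cosh z‖ := by
  have h1 : Real.sinh z.re ^ 2 ≤ ‖cosh z‖ ^ 2 := by
    rw [← normSq_eq_norm_sq, normSq_apply, cosh_re', cosh_im']
    have h2 := Real.cosh_sq z.re
    have h3 := Real.sin_sq_add_cos_sq z.im
    nlinarith [sq_nonneg (Real.cos z.im), sq_nonneg (Real.sinh z.re)]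
  by_contra hlt
  push Not at hlt
  have h2 := norm_nonneg (cosh z)
  nlinarith

end Pool.Agent.V1169.Arcosh
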