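import Mathlib

set_option autoImplicit false

open Filter Topology Set MeasureTheory

namespace Pool.Agent.V1169.PI

abbrev Cant := ℕ → Bool
abbrev Hilb := ℕ → unitInterval

/-- `i`-th binary digit of a real number -/
noncomputable def dig (y : ℝ) (i : ℕ) : Bool := finTwoEquiv (Real.digits y 2 i)

lemma dig_eq (y : ℝ) (i : ℕ) : dig y i = finTwoEquiv (Fin.ofNat 2 ⌊y * 2 ^ (i+1)⌋₊) := by
  simp [dig, Real.digits]

lemma fromBinary_dig {y : ℝ} (hy : y ∈ Ico (0:ℝ) 1) : ((Real.fromBinary (dig y) : unitInterval) : ℝ) = y := by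
  have h := Real.ofDigits_digits (b := 2) (by norm_num) hy
  have h2 : ((Real.fromBinary (dig y) : unitInterval) : ℝ)
      = Real.ofDigits (fun i => finTwoEquiv.symm (dig y i)) := rfl
  rw [h2]
  have h3 : (fun i => finTwoEquiv.symm (dig y i)) = Real.digits y 2 := by
    funext i
    simp [dig]
  rw [h3, h]

lemma measurable_dig (i : ℕ) : Measurable (fun y : ℝ => dig y i) := by
  have h1 : Measurable (fun y : ℝ => ⌊y * 2 ^ (i+1)⌋₊) :=
    Nat.measurable_floor.comp (measurable_id.mul_const _)
  have h2 : Measurable (fun k : ℕ => finTwoEquiv (Fin.ofNat 2 k)) := measurable_from_nat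
  have h3 := h2.comp h1
  have h4 : (fun y : ℝ => dig y i)
      = (fun k : ℕ => finTwoEquiv (Fin.ofNat 2 k)) ∘ (fun y : ℝ => ⌊y * 2 ^ (i+1)⌋₊) := by
    funext y
    exact dig_eq y i
  rw [h4]
  exact h3

lemma floor_eventually {y₀ : ℝ} (h : ∀ k : ℕ, y₀ ≠ k) : ∀ᶠ y in 𝓝 y₀, ⌊y⌋₊ = ⌊y₀⌋₊ := by
  rcases lt_or_ge y₀ 0 with h0 | h0
  · filter_upwards [Iio_mem_nhds h0] with y hy
    rw [Nat.floor_of_nonpos h0.le, Nat.floor_of_nonpos (le_of_lt hy)]
  · have h1 : ((⌊y₀⌋₊ : ℕ) : ℝ) < y₀ := lt_of_le_of_ne (Nat.floor_le h0) (Ne.symm (h _))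
    have h2 : y₀ < (⌊y₀⌋₊ : ℝ) + 1 := Nat.lt_floor_add_one y₀
    filter_upwards [Ioo_mem_nhds h1 h2] with y hy
    rw [Nat.floor_eq_iff (le_trans (Nat.cast_nonneg _) hy.1.le)]
    exact ⟨hy.1.le, hy.2⟩

lemma dig_eventually {y₀ : ℝ} {i : ℕ} (h : ∀ k : ℕ, y₀ * 2 ^ (i+1) ≠ k) :
    ∀ᶠ y in 𝓝 y₀, dig y i = dig y₀ i := by
  have h1 : Tendsto (fun y : ℝ => y * 2 ^ (i+1)) (𝓝 y₀) (𝓝 (y₀ * 2 ^ (i+1))) :=
    (continuous_id.mul continuous_const).tendsto _
  filter_upwards [h1.eventually (floor_eventually h)] with y hy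
  rw [dig_eq, dig_eq, hy]

/-- the digit array -/
noncomputable def Ar (x : Hilb) (u : ℝ) (n : ℕ) (i : ℕ) : Bool :=
  match n with
  | 0 => dig u i
  | n+1 => dig (((x n : ℝ) + u) / 2) i

/-- the selection -/
noncomputable def D (x : Hilb) (u : ℝ) : Cant := cantorSpaceHomeomorphNatToCantorSpace.symm (Ar x u)

/-- the continuous surjection -/
noncomputable def psi (z : Cant) : Hilb := fun n =>
  Set.projIcc (0:ℝ) 1 zero_le_one
    (2 * (Real.fromBinary (cantorSpaceHomeomorphNatToCantorSpace z (n+1)) : ℝ)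
      - (Real.fromBinary (cantorSpaceHomeomorphNatToCantorSpace z 0) : ℝ))

lemma continuous_psi : Continuous psi := by
  apply continuous_pi
  intro n
  apply continuous_projIcc.comp
  have h1 : ∀ m : ℕ, Continuous (fun z : Cant =>
      ((Real.fromBinary (cantorSpaceHomeomorphNatToCantorSpace z m) : unitInterval) : ℝ)) := by
    intro m
    exact continuous_subtype_val.comp (Real.fromBinary_continuous.comp
      ((continuous_apply m).comp cantorSpaceHomeomorphNatToCantorSpace.continuous))
  exact (continuous_const.mul (h1 (n+1))).sub (h1 0)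

lemma psi_D (x : Hilb) {u : ℝ} (hu : u ∈ Ico (0:ℝ) 1) : psi (D x u) = x := by
  funext n
  unfold psi D
  rw [Homeomorph.apply_symm_apply]
  have h0 : ((Real.fromBinary (Ar x u 0) : unitInterval) : ℝ) = u := fromBinary_dig hu
  have h1 : ((Real.fromBinary (Ar x u (n+1)) : unitInterval) : ℝ) = ((x n : ℝ) + u) / 2 := by
    apply fromBinary_dig
    have := (x n).2.1
    have := (x n).2.2
    have := hu.1
    have := hu.2
    constructor <;> linarith
  rw [h0, h1]
  have h2 : 2 * (((x n : ℝ) + u) / 2) - u = (x n : ℝ) := by ring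
  rw [h2]
  exact Set.projIcc_val _ _

lemma measurable_D (x : Hilb) : Measurable (D x) := by
  apply (cantorSpaceHomeomorphNatToCantorSpace.symm.continuous.measurable).comp
  apply measurable_pi_lambda
  intro n
  apply measurable_pi_lambda
  intro i
  cases n with
  | zero => exact measurable_dig i
  | succ n =>
    have h : Measurable (fun u : ℝ => ((x n : ℝ) + u) / 2) := (measurable_const.add measurable_id).div_const _
    exact (measurable_dig i).comp h

lemma countable_bad (x : Hilb) :
    {u : ℝ | ∃ n i k : ℕ, (((x n : ℝ) + u) / 2) * 2 ^ (i+1) = k}.Countable := by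
  have h : {u : ℝ | ∃ n i k : ℕ, (((x n : ℝ) + u) / 2) * 2 ^ (i+1) = k}
      ⊆ ⋃ n : ℕ, ⋃ i : ℕ, ⋃ k : ℕ, {2 * ((k:ℝ) / 2 ^ (i+1)) - (x n : ℝ)} := by
    rintro u ⟨n, i, k, h⟩
    simp only [mem_iUnion, mem_singleton_iff]
    refine ⟨n, i, k, ?_⟩
    rw [← h]
    field_simp
    ring
  exact (Set.countable_iUnion fun n => Set.countable_iUnion fun i => Set.countable_iUnion fun k =>
    Set.countable_singleton _).mono h

lemma continuousAt_D (x₀ : Hilb) {u : ℝ}
    (h : u ∉ {u : ℝ | ∃ n i k : ℕ, (((x₀ n : ℝ) + u) / 2) * 2 ^ (i+1) = k}) :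
    ContinuousAt (fun x => D x u) x₀ := by
  have h1 : ContinuousAt (fun x => Ar x u) x₀ := by
    rw [continuousAt_pi]
    intro n
    rw [continuousAt_pi]
    intro i
    cases n with
    | zero => exact continuousAt_const
    | succ n =>
      have h2 : ∀ᶠ y in 𝓝 (((x₀ n : ℝ) + u) / 2), dig y i = dig (((x₀ n : ℝ) + u) / 2) i := by
        apply dig_eventually
        intro k hk
        exact h ⟨n, i, k, hk⟩
      have h3 : Tendsto (fun x : Hilb => ((x n : ℝ) + u) / 2) (𝓝 x₀) (𝓝 (((x₀ n : ℝ) + u) / 2)) := by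
        have : Continuous (fun x : Hilb => ((x n : ℝ) + u) / 2) :=
          ((continuous_subtype_val.comp (continuous_apply n)).add continuous_const).div_const _
        exact this.tendsto _
      have h4 := h3.eventually h2
      have h5 : ContinuousAt (fun _ : Hilb => dig (((x₀ n : ℝ) + u) / 2) i) x₀ := continuousAt_const
      refine h5.congr ?_
      filter_upwards [h4] with x hx
      exact hx.symm
  exact (cantorSpaceHomeomorphNatToCantorSpace.symm.continuous.continuousAt).comp h1

/-- averaging function -/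
noncomputable def avg (F : C(Cant, ℝ)) (x : Hilb) : ℝ := ∫ u in Ico (0:ℝ) 1, F (D x u)

lemma integrable_FD (F : C(Cant, ℝ)) (x : Hilb) :
    Integrable (fun u => F (D x u)) (volume.restrict (Ico (0:ℝ) 1)) := by
  refine Integrable.mono' (g := fun _ => ‖F‖) (by simp) ?_ ?_
  · exact (F.continuous.measurable.comp (measurable_D x)).aestronglyMeasurable
  · exact Eventually.of_forall fun u => F.norm_coe_le_norm _

lemma continuous_avg (F : C(Cant, ℝ)) : Continuous (avg F) := by
  rw [continuous_iff_continuousAt]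
  intro x₀
  apply continuousAt_of_dominated (bound := fun _ => ‖F‖)
  · exact Eventually.of_forall fun x => (integrable_FD F x).1
  · exact Eventually.of_forall fun x => Eventually.of_forall fun u => F.norm_coe_le_norm _
  · simp
  · have h1 : ∀ᵐ u ∂(volume.restrict (Ico (0:ℝ) 1)),
        u ∉ {u : ℝ | ∃ n i k : ℕ, (((x₀ n : ℝ) + u) / 2) * 2 ^ (i+1) = k} :=
      (countable_bad x₀).ae_notMem _
    filter_upwards [h1] with u hu
    exact F.continuous.continuousAt.comp (continuousAt_D x₀ hu)

lemma avg_const (c : ℝ) (F : C(Cant, ℝ)) (x : Hilb) (h : ∀ u ∈ Ico (0:ℝ) 1, F (D x u) = c) :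
    avg F x = c := by
  unfold avg
  rw [setIntegral_congr_fun measurableSet_Ico h]
  simp

/-- averaging operator -/
noncomputable def P : C(Cant, ℝ) →L[ℝ] C(Hilb, ℝ) :=
  LinearMap.mkContinuous
    { toFun := fun F => ⟨avg F, continuous_avg F⟩
      map_add' := by
        intro F G
        ext x
        simp only [avg, ContinuousMap.coe_mk, ContinuousMap.add_apply]
        exact integral_add (integrable_FD F x) (integrable_FD G x)
      map_smul' := by
        intro c F
        ext x
        simp only [avg, ContinuousMap.coe_mk, ContinuousMap.smul_apply, RingHom.id_apply]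
        exact integral_smul c _ } 1
    (by
      intro F
      rw [one_mul, ContinuousMap.norm_le _ (norm_nonneg _)]
      intro x
      simp only [LinearMap.coe_mk, AddHom.coe_mk, ContinuousMap.coe_mk, avg]
      have h := norm_setIntegral_le_of_norm_le_const (μ := volume) (s := Ico (0:ℝ) 1) (C := ‖F‖)
        (f := fun u => F (D x u)) (by simp) (fun u _ => F.norm_coe_le_norm _)
      simpa using h)

lemma P_apply (F : C(Cant, ℝ)) (x : Hilb) : P F x = avg F x := rfl

end Pool.Agent.V1169.PI
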