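import Mathlib
import Pool.Agent.V1169.PI1

set_option autoImplicit false

open Filter Topology Set MeasureTheory

namespace Pool.Agent.V1169.PI

section general
variable {K L M : Type*} [TopologicalSpace K] [CompactSpace K] [TopologicalSpace L] [CompactSpace L]
  [TopologicalSpace M] [CompactSpace M]

/-- positive unital operators -/
def PU (V : C(K,ℝ) →L[ℝ] C(L,ℝ)) : Prop :=
  (∀ f : C(K,ℝ), (∀ x, 0 ≤ f x) → ∀ y, 0 ≤ V f y) ∧ V 1 = 1

lemma PU.mono {V : C(K,ℝ) →L[ℝ] C(L,ℝ)} (hV : PU V) {f g : C(K,ℝ)} (h : ∀ x, f x ≤ g x) (y : L) :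
    V f y ≤ V g y := by
  have := hV.1 (g - f) (fun x => by simpa using h x) y
  rw [map_sub] at this
  simpa using this

lemma PU.abs_le {V : C(K,ℝ) →L[ℝ] C(L,ℝ)} (hV : PU V) {f : C(K,ℝ)} {ε : ℝ}
    (h : ∀ x, |f x| ≤ ε) (y : L) : |V f y| ≤ ε := by
  have h1 := hV.mono (f := f) (g := ε • (1 : C(K,ℝ))) (fun x => by simpa using (_root_.abs_le.1 (h x)).2) y
  have h2 := hV.mono (f := -(ε • (1 : C(K,ℝ)))) (g := f) (fun x => by simpa using (_root_.abs_le.1 (h x)).1) y
  rw [map_neg] at h2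
  rw [map_smul, hV.2] at h1 h2
  simp only [ContinuousMap.smul_apply, smul_eq_mul, ContinuousMap.neg_apply, ContinuousMap.one_apply,
    mul_one] at h1 h2
  exact _root_.abs_le.2 ⟨h2, h1⟩

lemma PU.norm_le {V : C(K,ℝ) →L[ℝ] C(L,ℝ)} (hV : PU V) (f : C(K,ℝ)) : ‖V f‖ ≤ ‖f‖ := by
  rw [ContinuousMap.norm_le _ (norm_nonneg _)]
  intro y
  exact hV.abs_le (fun x => f.norm_coe_le_norm x) y

lemma PU.comp {V : C(L,ℝ) →L[ℝ] C(M,ℝ)} {W : C(K,ℝ) →L[ℝ] C(L,ℝ)} (hV : PU V) (hW : PU W) :
    PU (V.comp W) :=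
  ⟨fun f hf y => hV.1 (W f) (hW.1 f hf) y, by simp [hW.2, hV.2]⟩

lemma PU_compCLM (h : C(L, K)) : PU (ContinuousMap.compCLM ℝ ℝ h) :=
  ⟨fun f hf y => hf (h y), by ext y; simp⟩

end general

lemma PU_P : PU P := by
  constructor
  · intro f hf x
    rw [P_apply]
    exact setIntegral_nonneg measurableSet_Ico fun u _ => hf _
  · ext x
    rw [P_apply]
    exact avg_const 1 1 x (fun u _ => rfl)

/-- section pair -/
def SP (K M : Type*) [TopologicalSpace K] [CompactSpace K] [TopologicalSpace M] [CompactSpace M] :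
    Prop :=
  ∃ J : C(M,ℝ) →L[ℝ] C(K,ℝ), ∃ ρ : C(K,ℝ) →L[ℝ] C(M,ℝ), PU J ∧ PU ρ ∧ ∀ q, ρ (J q) = q

lemma SP.trans {K M N : Type*} [TopologicalSpace K] [CompactSpace K] [TopologicalSpace M]
    [CompactSpace M] [TopologicalSpace N] [CompactSpace N] (h1 : SP K M) (h2 : SP M N) : SP K N := by
  obtain ⟨J1, r1, hJ1, hr1, h1⟩ := h1
  obtain ⟨J2, r2, hJ2, hr2, h2⟩ := h2
  exact ⟨J1.comp J2, r2.comp r1, hJ1.comp hJ2, hr2.comp hr1, fun q => by simp [h1, h2]⟩

/-- the factor map -/
lemma exists_theta {M : Type*} [TopologicalSpace M] [CompactSpace M] [T2Space M] [Nonempty M]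
    (e : C(M, Hilb)) (he : Function.Injective e) :
    ∃ θ : C(Cant, M), ∀ m, ∀ u ∈ Ico (0:ℝ) 1, θ (D (e m) u) = m := by
  have hemb : IsClosedEmbedding e := e.continuous.isClosedEmbedding he
  set A : Set Cant := psi ⁻¹' (range e) with hA
  have hAc : IsClosed A := hemb.isClosed_range.preimage continuous_psi
  have hmem : ∀ m, ∀ u ∈ Ico (0:ℝ) 1, D (e m) u ∈ A := by
    intro m u hu
    exact ⟨m, (psi_D (e m) hu).symm⟩
  have hAne : A.Nonempty := by
    obtain ⟨m⟩ := (inferInstance : Nonempty M)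
    exact ⟨_, hmem m 0 ⟨le_rfl, zero_lt_one⟩⟩
  obtain ⟨R, hR1, hR2, hR3⟩ := PiNat.exists_retraction_of_isClosed hAc hAne
  have hRA : ∀ z, R z ∈ A := fun z => hR2 ▸ mem_range_self z
  let hh : M ≃ₜ range e := hemb.isEmbedding.toHomeomorph
  refine ⟨⟨fun z => hh.symm ⟨psi (R z), hRA z⟩, ?_⟩, ?_⟩
  · apply hh.symm.continuous.comp
    exact Continuous.subtype_mk (continuous_psi.comp hR3) _
  · intro m u hu
    simp only [ContinuousMap.coe_mk]
    rw [Homeomorph.symm_apply_eq]
    apply Subtype.ext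
    show psi (R (D (e m) u)) = e m
    rw [hR1 _ (hmem m u hu), psi_D _ hu]

/-- Miljutin-type averaging: Cantor space maps onto `M` with an averaging operator -/
lemma SP_cantor {M : Type*} [TopologicalSpace M] [CompactSpace M] [T2Space M] [Nonempty M]
    (e : C(M, Hilb)) (he : Function.Injective e) : SP Cant M := by
  obtain ⟨θ, hθ⟩ := exists_theta e he
  refine ⟨ContinuousMap.compCLM ℝ ℝ θ, (ContinuousMap.compCLM ℝ ℝ e).comp P, PU_compCLM _,
    (PU_compCLM _).comp PU_P, ?_⟩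
  intro q
  ext m
  show avg (q.comp θ) (e m) = q m
  apply avg_const
  intro u hu
  show q (θ (D (e m) u)) = q m
  rw [hθ m u hu]

/-- extension operators from a copy of the Cantor space -/
lemma SP_to_cantor {K : Type*} [TopologicalSpace K] [CompactSpace K] [T2Space K]
    (e : C(K, Hilb)) (he : Function.Injective e) (j : C(Cant, K)) (hj : Function.Injective j) :
    SP K Cant := by
  obtain ⟨θ, hθ⟩ := exists_theta (e.comp j) (he.comp hj)
  refine ⟨(ContinuousMap.compCLM ℝ ℝ e).comp (P.comp (ContinuousMap.compCLM ℝ ℝ θ)),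
    ContinuousMap.compCLM ℝ ℝ j, (PU_compCLM _).comp (PU_P.comp (PU_compCLM _)), PU_compCLM _, ?_⟩
  intro q
  ext z
  show avg (q.comp θ) (e (j z)) = q z
  apply avg_const
  intro u hu
  show q (θ (D (e (j z)) u)) = q z
  exact congrArg q (hθ z u hu)

lemma exists_hilb (K : Type*) [TopologicalSpace K] [CompactSpace K]
    [TopologicalSpace.MetrizableSpace K] : ∃ e : C(K, Hilb), Function.Injective e := by
  letI := TopologicalSpace.metrizableSpaceMetric K
  obtain ⟨F, hF⟩ := Metric.PiNatEmbed.exists_embedding_to_hilbert_cube (X := K)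
  exact ⟨⟨F, hF.continuous⟩, hF.injective⟩

lemma exists_cantor (K : Type*) [TopologicalSpace K] [CompactSpace K]
    [TopologicalSpace.MetrizableSpace K] (hK : Uncountable K) :
    ∃ j : C(Cant, K), Function.Injective j := by
  letI := TopologicalSpace.metrizableSpaceMetric K
  haveI : PolishSpace K := inferInstance
  have h : ¬ (univ : Set K).Countable := by
    rw [Set.countable_univ_iff, not_countable_iff]
    exact hK
  obtain ⟨f, -, hf, hfi⟩ := isClosed_univ.exists_nat_bool_injection_of_not_countable h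
  exact ⟨⟨f, hf⟩, hfi⟩

/-- main output of this file -/
theorem SP_all (K N : Type*) [TopologicalSpace K] [CompactSpace K]
    [TopologicalSpace.MetrizableSpace K] (hK : Uncountable K) [TopologicalSpace N] [CompactSpace N]
    [TopologicalSpace.MetrizableSpace N] [Nonempty N] : SP K N := by
  obtain ⟨e, he⟩ := exists_hilb K
  obtain ⟨e', he'⟩ := exists_hilb N
  obtain ⟨j, hj⟩ := exists_cantor K hK
  exact (SP_to_cantor e he j hj).trans (SP_cantor e' he')

end Pool.Agent.V1169.PI
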