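import Mathlib
import Pool.Agent.V1169.PI2

set_option autoImplicit false
set_option linter.unusedSectionVars false

open Filter Topology Set

namespace Pool.Agent.V1169.PI

section abstract_part

variable {E F G : Type*} [NormedAddCommGroup E] [NormedSpace ℝ E] [CompleteSpace E]
  [NormedAddCommGroup F] [NormedSpace ℝ F] [CompleteSpace F]
  [NormedAddCommGroup G] [NormedSpace ℝ G] [CompleteSpace G]

lemma half_exists (B : G →L[ℝ] G) (hB : ∀ x, ‖B x‖ ≤ ‖x‖) (y : G) :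
    ∃ x, x + (1/2 : ℝ) • B x = y := by
  have h : ‖(-(1/2 : ℝ)) • B‖ < 1 := by
    have h1 : ‖B‖ ≤ 1 := B.opNorm_le_bound zero_le_one (fun x => by rw [one_mul]; exact hB x)
    rw [norm_smul]
    have h2 : ‖(-(1/2 : ℝ))‖ = 1/2 := by norm_num
    rw [h2]
    linarith
  set t : G →L[ℝ] G := (-(1/2 : ℝ)) • B with ht
  have h3 : (1 - t) * (((Units.oneSub t h)⁻¹ : (G →L[ℝ] G)ˣ) : G →L[ℝ] G) = 1 :=
    (Units.oneSub t h).mul_inv
  set W : G →L[ℝ] G := (((Units.oneSub t h)⁻¹ : (G →L[ℝ] G)ˣ) : G →L[ℝ] G) with hW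
  refine ⟨W y, ?_⟩
  have h4 : ((1 - t) * W) y = (1 : G →L[ℝ] G) y := by rw [h3]
  have h5 : W y - t (W y) = y := h4
  have h6 : t (W y) = (-(1/2 : ℝ)) • B (W y) := rfl
  rw [h6, neg_smul, sub_neg_eq_add] at h5
  exact h5

lemma half_zero (B : G →L[ℝ] G) (hB : ∀ x, ‖B x‖ ≤ ‖x‖) {x : G} (h : x + (1/2 : ℝ) • B x = 0) :
    x = 0 := by
  have h1 : x = -((1/2 : ℝ) • B x) := eq_neg_of_add_eq_zero_left h
  have h2 : ‖x‖ = (1/2) * ‖B x‖ := by
    conv_lhs => rw [h1]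
    rw [norm_neg, norm_smul]
    norm_num
  have h3 := hB x
  have h4 : ‖x‖ ≤ 0 := by linarith [norm_nonneg x]
  exact norm_le_zero_iff.1 h4

variable (J : G →L[ℝ] E) (ρ : E →L[ℝ] G) (A : G →L[ℝ] F) (C : G →L[ℝ] G) (Ps : F × G →L[ℝ] G)

/-- the forward operator -/
noncomputable def TT : E →L[ℝ] F × E :=
  (A.comp ρ).prod ((1/3 : ℝ) • ContinuousLinearMap.id ℝ E + (2/3 : ℝ) • (J.comp (C.comp ρ)))

/-- the backward operator -/
noncomputable def SS : F × E →L[ℝ] E :=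
  (1/3 : ℝ) • ContinuousLinearMap.snd ℝ F E
    + (2/3 : ℝ) • (J.comp (Ps.comp ((ContinuousLinearMap.fst ℝ F E).prod
        (ρ.comp (ContinuousLinearMap.snd ℝ F E)))))

lemma TT_apply (f : E) : TT J ρ A C f = (A (ρ f), (1/3 : ℝ) • f + (2/3 : ℝ) • J (C (ρ f))) := rfl

lemma SS_apply (h : F) (g : E) :
    SS J ρ Ps (h, g) = (1/3 : ℝ) • g + (2/3 : ℝ) • J (Ps (h, ρ g)) := rfl

variable {J ρ A C Ps}

theorem TT_bij (hρJ : ∀ q, ρ (J q) = q) (hA : ∀ h g, A (Ps (h, g)) = h)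
    (hC : ∀ h g, C (Ps (h, g)) = g) (hPs : ∀ q, Ps (A q, C q) = q)
    (hn : ∀ g, ‖Ps (0, g)‖ ≤ ‖g‖) : Function.Bijective (TT J ρ A C) := by
  set B : G →L[ℝ] G := Ps.comp (ContinuousLinearMap.inr ℝ F G) with hB
  have hBa : ∀ g, B g = Ps (0, g) := fun g => rfl
  have hBn : ∀ g, ‖B g‖ ≤ ‖g‖ := hn
  have hsplit : ∀ (h : F) (g : G), Ps (h, g) = Ps (h, 0) + B g := by
    intro h g
    rw [hBa, ← map_add]
    simp
  constructor
  · rw [injective_iff_map_eq_zero]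
    intro f hf
    rw [TT_apply] at hf
    have h1 : A (ρ f) = 0 := congrArg Prod.fst hf
    have h2 : (1/3 : ℝ) • f + (2/3 : ℝ) • J (C (ρ f)) = 0 := congrArg Prod.snd hf
    have h3 : (1/3 : ℝ) • ρ f + (2/3 : ℝ) • C (ρ f) = 0 := by
      have := congrArg ρ h2
      simpa [map_add, map_smul, hρJ] using this
    have h4 : C (ρ f) = -((1/2 : ℝ) • ρ f) := by
      have h5 : (3/2 : ℝ) • ((1/3 : ℝ) • ρ f + (2/3 : ℝ) • C (ρ f)) = 0 := by rw [h3, smul_zero]
      rw [smul_add, smul_smul, smul_smul] at h5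
      norm_num at h5
      have h6 := eq_neg_of_add_eq_zero_right h5
      rw [h6]
    have h5 : ρ f = B (-((1/2 : ℝ) • ρ f)) := by
      rw [hBa, ← h4, ← h1, hPs]
    have h6 : ρ f + (1/2 : ℝ) • B (ρ f) = 0 := by
      conv_lhs => rw [h5]
      rw [map_neg, map_smul]
      have h7 : B (ρ f) = B (ρ f) := rfl
      have h8 : -((1/2 : ℝ) • B (ρ f)) = ρ f := by
        rw [← map_smul, ← map_neg, ← h5]
      rw [h8, ← map_smul]
      have h9 : B ((1/2 : ℝ) • ρ f) = - ρ f := by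
        have h10 := h8
        rw [← map_smul] at h10
        rw [← h10, neg_neg]
        congr 1
        rw [h10]
      rw [h9]
      simp
    have h7 : ρ f = 0 := half_zero B hBn h6
    rw [h7, map_zero, map_zero, smul_zero, add_zero] at h2
    simpa using h2
  · rintro ⟨h, g⟩
    obtain ⟨q, hq⟩ := half_exists B hBn (Ps (h, (3/2 : ℝ) • ρ g))
    have h1 : q = Ps (h, (3/2 : ℝ) • ρ g - (1/2 : ℝ) • q) := by
      rw [hsplit] at hq ⊢
      rw [map_sub, map_smul B (1/2 : ℝ) q]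
      rw [← add_sub_assoc, ← hq]
      simp
    have h2 : A q = h := by rw [h1, hA]
    have h3 : C q = (3/2 : ℝ) • ρ g - (1/2 : ℝ) • q := by
      conv_lhs => rw [h1, hC]
    refine ⟨(3 : ℝ) • g - (2 : ℝ) • J (C q), ?_⟩
    have h4 : ρ ((3 : ℝ) • g - (2 : ℝ) • J (C q)) = q := by
      rw [map_sub, map_smul, map_smul, hρJ, h3, smul_sub, smul_smul, smul_smul]
      norm_num
    rw [TT_apply, h4, h2]
    refine Prod.ext rfl ?_
    show (1/3 : ℝ) • ((3 : ℝ) • g - (2 : ℝ) • J (C q)) + (2/3 : ℝ) • J (C q) = g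
    rw [smul_sub, smul_smul, smul_smul]
    norm_num

theorem SS_bij (hρJ : ∀ q, ρ (J q) = q) (hA : ∀ h g, A (Ps (h, g)) = h)
    (hC : ∀ h g, C (Ps (h, g)) = g) (hPs : ∀ q, Ps (A q, C q) = q)
    (hn : ∀ g, ‖C g‖ ≤ ‖g‖) : Function.Bijective (SS J ρ Ps) := by
  constructor
  · rw [injective_iff_map_eq_zero]
    rintro ⟨h, g⟩ hf
    rw [SS_apply] at hf
    set q := Ps (h, ρ g) with hq
    have hAq : A q = h := hA _ _
    have hCq : C q = ρ g := hC _ _
    have h3 : (1/3 : ℝ) • ρ g + (2/3 : ℝ) • q = 0 := by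
      have := congrArg ρ hf
      simpa [map_add, map_smul, hρJ] using this
    have h4 : q + (1/2 : ℝ) • C q = 0 := by
      have h5 : (3/2 : ℝ) • ((1/3 : ℝ) • ρ g + (2/3 : ℝ) • q) = 0 := by rw [h3, smul_zero]
      rw [smul_add, smul_smul, smul_smul] at h5
      norm_num at h5
      rw [hCq, add_comm]
      norm_num
      exact h5
    have h5 : q = 0 := half_zero C hn h4
    rw [h5, map_zero, smul_zero, add_zero] at hf
    have hg : g = 0 := by simpa using hf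
    have hh : h = 0 := by rw [← hAq, h5, map_zero]
    rw [hg, hh]
    rfl
  · intro f
    obtain ⟨q, hq⟩ := half_exists C hn ((3/2 : ℝ) • ρ f)
    have h1 : ρ ((3 : ℝ) • f - (2 : ℝ) • J q) = C q := by
      rw [map_sub, map_smul, map_smul, hρJ]
      have h2 : (2 : ℝ) • (q + (1/2 : ℝ) • C q) = (3 : ℝ) • ρ f := by
        rw [hq, smul_smul]; norm_num
      rw [← h2, smul_add, smul_smul]
      norm_num
    refine ⟨(A q, (3 : ℝ) • f - (2 : ℝ) • J q), ?_⟩
    rw [SS_apply, h1, hPs, smul_sub, smul_smul, smul_smul]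
    norm_num

end abstract_part

end Pool.Agent.V1169.PI
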