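import Mathlib
import Pool.Agent.V1169.PI3

set_option autoImplicit false
set_option linter.unusedSectionVars false

open Filter Topology Set

namespace Pool.Agent.V1169.PI

/-- the convergent sequence, as a closed set of 0-1 sequences -/
def NI : Set Cant := {z | ∀ i, z i = true → z (i+1) = true}

lemma isClosed_NI : IsClosed NI := by
  have h : NI = ⋂ i, {z : Cant | z i = true → z (i+1) = true} := by
    ext z
    simp [NI]
  rw [h]
  apply isClosed_iInter
  intro i
  have h1 : IsClosed {p : Bool × Bool | p.1 = true → p.2 = true} := isClosed_discrete _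
  have h2 : Continuous (fun z : Cant => (z i, z (i+1))) :=
    (continuous_apply i).prodMk (continuous_apply (i+1))
  exact h1.preimage h2

instance : CompactSpace NI := isCompact_iff_compactSpace.1 isClosed_NI.isCompact

lemma NI_true {z : Cant} (hz : z ∈ NI) (h0 : z 0 = true) : z = fun _ => true := by
  funext n
  induction n with
  | zero => exact h0
  | succ n ih => exact hz n ih

section
variable (M : Type*) [TopologicalSpace M] [CompactSpace M]

/-- the space `N` -/
abbrev NM := NI × M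

/-- embed `M` as the first layer -/
def aa : C(M, NM M) := ⟨fun m => (⟨fun _ => true, fun _ _ => rfl⟩, m), by fun_prop⟩

/-- prepend false -/
def consf (z : Cant) : Cant := fun n => Nat.casesOn n false z

lemma consf_mem {z : Cant} (hz : z ∈ NI) : consf z ∈ NI := by
  intro i
  cases i with
  | zero => intro h; exact absurd h (by simp [consf])
  | succ n => exact hz n

lemma continuous_consf : Continuous consf := by
  apply continuous_pi
  intro n
  cases n with
  | zero => exact continuous_const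
  | succ n => exact continuous_apply n

def cc : C(NM M, NM M) :=
  ⟨fun p => (⟨consf p.1.1, consf_mem p.1.2⟩, p.2),
    (Continuous.subtype_mk (continuous_consf.comp (continuous_subtype_val.comp continuous_fst)) _).prodMk
      continuous_snd⟩

lemma continuous_tlf : Continuous
    (fun p : NM M => ((⟨fun n => p.1.1 (n+1), fun n => p.1.2 (n+1)⟩ : NI), p.2)) := by
  refine Continuous.prodMk ?_ continuous_snd
  refine Continuous.subtype_mk ?_ _
  apply continuous_pi
  intro n
  exact (continuous_apply (n+1)).comp (continuous_subtype_val.comp continuous_fst)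

def tl : C(NM M, NM M) :=
  ⟨fun p => ((⟨fun n => p.1.1 (n+1), fun n => p.1.2 (n+1)⟩ : NI), p.2), continuous_tlf M⟩

lemma continuous_coord (n : ℕ) : Continuous (fun p : NM M => p.1.1 n) :=
  (continuous_apply n).comp (continuous_subtype_val.comp continuous_fst)

/-- indicator of the first layer -/
noncomputable def chi : C(NM M, ℝ) :=
  ⟨fun p => if p.1.1 0 = true then 1 else 0, by
    have h1 : Continuous (fun c : Bool => if c = true then (1:ℝ) else 0) :=
      continuous_of_discreteTopology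
    have h2 : Continuous (fun p : NM M => p.1.1 0) :=
      (continuous_apply 0).comp (continuous_subtype_val.comp continuous_fst)
    exact h1.comp h2⟩

lemma chi_apply (p : NM M) : chi M p = if p.1.1 0 = true then 1 else 0 := rfl

noncomputable def Ps : C(M, ℝ) × C(NM M, ℝ) →L[ℝ] C(NM M, ℝ) :=
  ((ContinuousLinearMap.mul ℝ C(NM M, ℝ) (chi M)).comp
      (ContinuousMap.compCLM ℝ ℝ (ContinuousMap.snd : C(NM M, M)))).comp
    (ContinuousLinearMap.fst ℝ C(M, ℝ) C(NM M, ℝ))
  + ((ContinuousLinearMap.mul ℝ C(NM M, ℝ) (1 - chi M)).comp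
      (ContinuousMap.compCLM ℝ ℝ (tl M))).comp
    (ContinuousLinearMap.snd ℝ C(M, ℝ) C(NM M, ℝ))

lemma Ps_apply (h : C(M,ℝ)) (g : C(NM M,ℝ)) (p : NM M) :
    Ps M (h, g) p = if p.1.1 0 = true then h p.2 else g (tl M p) := by
  have h1 : Ps M (h, g) p = chi M p * h p.2 + (1 - chi M p) * g (tl M p) := rfl
  rw [h1, chi_apply]
  split_ifs <;> simp

lemma Ps_aa (h : C(M,ℝ)) (g : C(NM M,ℝ)) :
    ContinuousMap.compCLM ℝ ℝ (aa M) (Ps M (h, g)) = h := by
  ext m
  show Ps M (h, g) (aa M m) = h m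
  rw [Ps_apply]
  simp [aa]

lemma Ps_cc (h : C(M,ℝ)) (g : C(NM M,ℝ)) :
    ContinuousMap.compCLM ℝ ℝ (cc M) (Ps M (h, g)) = g := by
  ext p
  show Ps M (h, g) (cc M p) = g p
  rw [Ps_apply]
  have h1 : (cc M p).1.1 0 = false := rfl
  rw [h1]
  simp only [Bool.false_eq_true, if_false]
  rfl

lemma Ps_id (q : C(NM M,ℝ)) :
    Ps M (ContinuousMap.compCLM ℝ ℝ (aa M) q, ContinuousMap.compCLM ℝ ℝ (cc M) q) = q := by
  ext p
  rw [Ps_apply]
  split_ifs with h
  · show q (aa M p.2) = q p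
    congr 1
    refine Prod.ext (Subtype.ext ?_) rfl
    exact (NI_true p.1.2 h).symm
  · show q (cc M (tl M p)) = q p
    congr 1
    refine Prod.ext (Subtype.ext ?_) rfl
    funext n
    cases n with
    | zero =>
      have : p.1.1 0 = false := by simpa using h
      rw [this]
      rfl
    | succ n => rfl

lemma Ps_norm (g : C(NM M,ℝ)) : ‖Ps M (0, g)‖ ≤ ‖g‖ := by
  rw [ContinuousMap.norm_le _ (norm_nonneg _)]
  intro p
  rw [Ps_apply]
  split_ifs
  · simp
  · exact g.norm_coe_le_norm _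

end

section
variable {K M : Type*} [TopologicalSpace K] [CompactSpace K] [TopologicalSpace M] [CompactSpace M]

/-- first half -/
lemma forward (h : SP K (NM M)) : ∃ T : C(K,ℝ) →L[ℝ] C(M,ℝ) × C(K,ℝ), Function.Bijective T ∧
    T 1 = (1, 1) ∧ ∀ f : C(K,ℝ), (∀ x, 0 ≤ f x) → (∀ x, 0 ≤ (T f).1 x) ∧ (∀ x, 0 ≤ (T f).2 x) := by
  obtain ⟨J, ρ, hJ, hρ, hρJ⟩ := h
  refine ⟨TT J ρ (ContinuousMap.compCLM ℝ ℝ (aa M)) (ContinuousMap.compCLM ℝ ℝ (cc M)),
    TT_bij hρJ (Ps_aa M) (Ps_cc M) (Ps_id M) (Ps_norm M), ?_, ?_⟩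
  · rw [TT_apply, hρ.2, (PU_compCLM (aa M)).2, (PU_compCLM (cc M)).2, hJ.2, ← add_smul]
    norm_num
  · intro f hf
    rw [TT_apply]
    have h1 := hρ.1 f hf
    refine ⟨(PU_compCLM (aa M)).1 _ h1, ?_⟩
    intro x
    have h2 := hJ.1 _ ((PU_compCLM (cc M)).1 _ h1) x
    have h3 := hf x
    show 0 ≤ (1/3 : ℝ) * f x + (2/3 : ℝ) * J (ContinuousMap.compCLM ℝ ℝ (cc M) (ρ f)) x
    positivity

/-- second half -/
lemma backward (h : SP K (NM M)) : ∃ S : C(M,ℝ) × C(K,ℝ) →L[ℝ] C(K,ℝ), Function.Bijective S ∧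
    S (1, 1) = 1 ∧ ∀ p : C(M,ℝ) × C(K,ℝ), (∀ x, 0 ≤ p.1 x) → (∀ x, 0 ≤ p.2 x) →
      ∀ x, 0 ≤ S p x := by
  obtain ⟨J, ρ, hJ, hρ, hρJ⟩ := h
  refine ⟨SS J ρ (Ps M), SS_bij hρJ (Ps_aa M) (Ps_cc M) (Ps_id M) (PU_compCLM (cc M)).norm_le,
    ?_, ?_⟩
  · rw [SS_apply, hρ.2]
    have h1 : Ps M (1, 1) = 1 := by
      ext p
      rw [Ps_apply]
      simp
    rw [h1, hJ.2, ← add_smul]
    norm_num
  · rintro ⟨h, g⟩ hh hg x
    rw [SS_apply]
    have h1 := hρ.1 g hg
    have h2 : ∀ p, 0 ≤ Ps M (h, ρ g) p := by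
      intro p
      rw [Ps_apply]
      split_ifs
      · exact hh _
      · exact h1 _
    have h3 := hJ.1 _ h2 x
    have h4 := hg x
    show 0 ≤ (1/3 : ℝ) * g x + (2/3 : ℝ) * J (Ps M (h, ρ g)) x
    positivity

end

theorem main (K L : Type*) [TopologicalSpace K] [CompactSpace K]
    [TopologicalSpace.MetrizableSpace K] (hK : Uncountable K)
    [TopologicalSpace L] [CompactSpace L]
    [TopologicalSpace.MetrizableSpace L] (hL : Uncountable L) :
    ∃ T : C(K,ℝ) ≃L[ℝ] C(L,ℝ), T 1 = 1 ∧ ∀ f : C(K,ℝ), (∀ x, 0 ≤ f x) → ∀ y, 0 ≤ T f y := by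
  have hKn : Nonempty K := by
    by_contra hne
    rw [not_nonempty_iff] at hne
    exact (not_countable_iff.2 hK) inferInstance
  have hLn : Nonempty L := by
    by_contra hne
    rw [not_nonempty_iff] at hne
    exact (not_countable_iff.2 hL) inferInstance
  have hNI : Nonempty NI := ⟨⟨fun _ => true, fun _ _ => rfl⟩⟩
  obtain ⟨T, hTb, hT1, hTp⟩ := forward (SP_all K (NM L) hK)
  obtain ⟨S, hSb, hS1, hSp⟩ := backward (SP_all L (NM K) hL)
  set W : C(K,ℝ) →L[ℝ] C(L,ℝ) := S.comp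
    (((ContinuousLinearMap.snd ℝ C(L,ℝ) C(K,ℝ)).prod (ContinuousLinearMap.fst ℝ C(L,ℝ) C(K,ℝ))).comp T)
    with hW
  have hWa : ∀ f, W f = S ((T f).2, (T f).1) := fun f => rfl
  have hWb : Function.Bijective W := by
    have h1 : (W : C(K,ℝ) → C(L,ℝ)) = S ∘ (Prod.swap ∘ T) := by
      funext f
      rfl
    rw [h1]
    exact hSb.comp (Prod.swap_bijective.comp hTb)
  refine ⟨ContinuousLinearEquiv.ofBijective W (LinearMap.ker_eq_bot.2 hWb.1)
    (LinearMap.range_eq_top.2 hWb.2), ?_, ?_⟩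
  · show W 1 = 1
    rw [hWa, hT1]
    exact hS1
  · intro f hf
    show ∀ y, 0 ≤ W f y
    rw [hWa]
    exact hSp _ (hTp f hf).2 (hTp f hf).1

end Pool.Agent.V1169.PI
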