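import Mathlib

set_option autoImplicit false
set_option linter.unusedSectionVars false

/-!
# Two-sided averaging in a Banach algebra
-/

namespace Pool.Agent.V1169.EL

variable {A : Type*} [NormedRing A] [NormOneClass A] [NormedAlgebra ℂ A]

/-- Cesàro means of the powers. -/
noncomputable def ces (a : A) (m : ℕ) : A := (m : ℂ)⁻¹ • ∑ i ∈ Finset.range m, a ^ i

theorem norm_pow_le_one {a : A} (ha : ‖a‖ ≤ 1) (i : ℕ) : ‖a ^ i‖ ≤ 1 :=
  (norm_pow_le a i).trans (pow_le_one₀ (norm_nonneg _) ha)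

theorem ces_norm {a : A} (ha : ‖a‖ ≤ 1) {m : ℕ} (hm : 1 ≤ m) : ‖ces a m‖ ≤ 1 := by
  unfold ces
  rw [norm_smul, norm_inv, Complex.norm_natCast]
  have h1 : ‖∑ i ∈ Finset.range m, a ^ i‖ ≤ m := by
    calc ‖∑ i ∈ Finset.range m, a ^ i‖ ≤ ∑ i ∈ Finset.range m, ‖a ^ i‖ := norm_sum_le _ _
      _ ≤ ∑ i ∈ Finset.range m, (1 : ℝ) := Finset.sum_le_sum fun i _ => norm_pow_le_one ha i
      _ = m := by simp
  have hm' : (0 : ℝ) < m := by exact_mod_cast hm
  rw [inv_mul_le_iff₀ hm']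
  simpa using h1

theorem ces_mul {a : A} (ha : ‖a‖ ≤ 1) {m : ℕ} (hm : 1 ≤ m) :
    ‖ces a m * a - ces a m‖ ≤ 2 / m := by
  have hm' : (0 : ℝ) < m := by exact_mod_cast hm
  have e : ces a m * a - ces a m = (m : ℂ)⁻¹ • (a ^ m - 1) := by
    unfold ces
    rw [smul_mul_assoc, ← smul_sub]
    congr 1
    have := geom_sum_mul a m
    rw [mul_sub, mul_one] at this
    exact this
  rw [e, norm_smul, norm_inv, Complex.norm_natCast, div_eq_inv_mul]
  gcongr
  calc ‖a ^ m - 1‖ ≤ ‖a ^ m‖ + ‖(1 : A)‖ := norm_sub_le _ _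
    _ ≤ 1 + 1 := by
        gcongr
        · exact norm_pow_le_one ha m
        · simp
    _ = 2 := by norm_num

theorem ces_comm_self (a : A) (m : ℕ) : a * ces a m = ces a m * a := by
  unfold ces
  rw [smul_mul_assoc, mul_smul_comm, Finset.mul_sum, Finset.sum_mul]
  congr 1
  apply Finset.sum_congr rfl
  intro i _
  rw [← pow_succ, ← pow_succ']

theorem ces_commute (a : A) (m n : ℕ) : Commute (ces a m) (ces a n) := by
  unfold ces
  apply Commute.smul_left
  apply Commute.smul_right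
  apply Commute.sum_left
  intro i _
  apply Commute.sum_right
  intro j _
  exact (Commute.refl a).pow_pow i j

theorem ces_mul' {a : A} (ha : ‖a‖ ≤ 1) {m : ℕ} (hm : 1 ≤ m) :
    ‖a * ces a m - ces a m‖ ≤ 2 / m := by
  rw [ces_comm_self]; exact ces_mul ha hm

theorem ces_mul_pow {a : A} (ha : ‖a‖ ≤ 1) {m : ℕ} (hm : 1 ≤ m) (s : ℕ) :
    ‖ces a m * a ^ s - ces a m‖ ≤ s * (2 / m) := by
  induction s with
  | zero => simp
  | succ s ih =>
    have e : ces a m * a ^ (s + 1) - ces a m =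
        (ces a m * a ^ s - ces a m) * a + (ces a m * a - ces a m) := by
      rw [pow_succ]; noncomm_ring
    rw [e]
    calc _ ≤ ‖(ces a m * a ^ s - ces a m) * a‖ + ‖ces a m * a - ces a m‖ := norm_add_le _ _
      _ ≤ ‖ces a m * a ^ s - ces a m‖ * 1 + 2 / m := by
          gcongr
          · exact (norm_mul_le _ _).trans (by gcongr)
          · exact ces_mul ha hm
      _ ≤ s * (2 / m) * 1 + 2 / m := by gcongr
      _ = ((s + 1 : ℕ) : ℝ) * (2 / m) := by push_cast; ring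

/-- `T_J = ∑_{s<J} α^s f β^{J-1-s}`. -/
noncomputable def TT (α β f : A) : ℕ → A
  | 0 => 0
  | (J + 1) => α ^ J * f + TT α β f J * β

theorem TT_norm {α β : A} (hα : ‖α‖ ≤ 1) (hβ : ‖β‖ ≤ 1) (f : A) (J : ℕ) :
    ‖TT α β f J‖ ≤ J * ‖f‖ := by
  induction J with
  | zero => simp [TT]
  | succ J ih =>
    rw [TT]
    calc _ ≤ ‖α ^ J * f‖ + ‖TT α β f J * β‖ := norm_add_le _ _
      _ ≤ 1 * ‖f‖ + ‖TT α β f J‖ * 1 := by
          gcongr
          · exact (norm_mul_le _ _).trans (by gcongr; exact norm_pow_le_one hα J)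
          · exact (norm_mul_le _ _).trans (by gcongr)
      _ ≤ 1 * ‖f‖ + (J * ‖f‖) * 1 := by gcongr
      _ = ((J + 1 : ℕ) : ℝ) * ‖f‖ := by push_cast; ring

theorem TT_ces {α β : A} (hα : ‖α‖ ≤ 1) (hβ : ‖β‖ ≤ 1) (f : A) {m n : ℕ} (hm : 1 ≤ m)
    (hn : 1 ≤ n) (J : ℕ) :
    ‖ces α m * TT α β f J * ces β n - (J : ℂ) • (ces α m * f * ces β n)‖ ≤
      (J : ℝ) ^ 2 * ‖f‖ * (1 / m + 1 / n) := by
  have hm' : (0 : ℝ) < m := by exact_mod_cast hm
  have hn' : (0 : ℝ) < n := by exact_mod_cast hn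
  induction J with
  | zero => simp [TT]
  | succ J ih =>
    have e : ces α m * TT α β f (J + 1) * ces β n
          - ((J + 1 : ℕ) : ℂ) • (ces α m * f * ces β n) =
        (ces α m * α ^ J - ces α m) * f * ces β n
        + ces α m * TT α β f J * (β * ces β n - ces β n)
        + (ces α m * TT α β f J * ces β n - (J : ℂ) • (ces α m * f * ces β n)) := by
      rw [TT]
      push_cast
      rw [add_smul, one_smul]
      noncomm_ring
    rw [e]
    have h1 : ‖(ces α m * α ^ J - ces α m) * f * ces β n‖ ≤ J * (2 / m) * ‖f‖ * 1 := by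
      calc _ ≤ ‖(ces α m * α ^ J - ces α m) * f‖ * ‖ces β n‖ := norm_mul_le _ _
        _ ≤ (‖(ces α m * α ^ J - ces α m)‖ * ‖f‖) * 1 := by
            gcongr
            · exact norm_mul_le _ _
            · exact ces_norm hβ hn
        _ ≤ _ := by gcongr; exact ces_mul_pow hα hm J
    have h2 : ‖ces α m * TT α β f J * (β * ces β n - ces β n)‖ ≤ (1 * (J * ‖f‖)) * (2 / n) := by
      calc _ ≤ ‖ces α m * TT α β f J‖ * ‖β * ces β n - ces β n‖ := norm_mul_le _ _
        _ ≤ (‖ces α m‖ * ‖TT α β f J‖) * (2 / n) := by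
            gcongr
            · exact norm_mul_le _ _
            · exact ces_mul' hβ hn
        _ ≤ _ := by
            gcongr
            · exact ces_norm hα hm
            · exact TT_norm hα hβ f J
    refine (norm_add₃_le).trans ?_
    refine (add_le_add (add_le_add h1 h2) ih).trans ?_
    push_cast
    have hf := norm_nonneg f
    have h3 : 0 ≤ ‖f‖ * (1 / m + 1 / n : ℝ) := by positivity
    have e2 : (J : ℝ) * (2 / m) * ‖f‖ * 1 + (1 * (J * ‖f‖)) * (2 / n)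
        + (J : ℝ) ^ 2 * ‖f‖ * (1 / m + 1 / n) = ((J : ℝ) ^ 2 + 2 * J) * (‖f‖ * (1 / m + 1 / n)) := by
      ring
    rw [e2]
    have e3 : ((J : ℝ) + 1) ^ 2 * ‖f‖ * (1 / m + 1 / n) =
        ((J : ℝ) + 1) ^ 2 * (‖f‖ * (1 / m + 1 / n)) := by ring
    rw [e3]
    apply mul_le_mul_of_nonneg_right _ h3
    nlinarith

theorem ces_small {α β f : A} (hα : ‖α‖ ≤ 1) (hβ : ‖β‖ ≤ 1) {C : ℝ} (hC : 0 ≤ C)
    (hK : ∀ J : ℕ, ‖TT α β f J‖ ≤ C * Real.sqrt J) {η : ℝ} (hη : 0 < η) :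
    ∃ N : ℕ, 1 ≤ N ∧ ∀ m n : ℕ, N ≤ m → N ≤ n → ‖ces α m * f * ces β n‖ ≤ η := by
  obtain ⟨J, hJ⟩ := exists_nat_ge ((2 * C / η) ^ 2 + 1)
  have hJ1 : (1 : ℝ) ≤ J := by
    have := sq_nonneg (2 * C / η); linarith
  have hJ0 : (0 : ℝ) < J := by linarith
  have hs : 2 * C / η ≤ Real.sqrt J := by
    apply Real.le_sqrt_of_sq_le
    linarith
  have hs' : C * Real.sqrt J ≤ η / 2 * J := by
    have h1 : C ≤ η / 2 * Real.sqrt J := by
      rw [div_le_iff₀ hη] at hs
      linarith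
    calc C * Real.sqrt J ≤ (η / 2 * Real.sqrt J) * Real.sqrt J := by gcongr
      _ = η / 2 * (Real.sqrt J * Real.sqrt J) := by ring
      _ = η / 2 * J := by rw [Real.mul_self_sqrt hJ0.le]
  obtain ⟨N, hN⟩ := exists_nat_ge (4 * J * ‖f‖ / η + 1)
  have hq : 0 ≤ 4 * J * ‖f‖ / η := by positivity
  have hN1 : (1 : ℝ) ≤ N := by linarith
  have hN0 : (0 : ℝ) < N := by linarith
  have hN1' : 1 ≤ N := by exact_mod_cast hN1
  refine ⟨N, hN1', ?_⟩
  intro m n hm hn
  have hm1 : 1 ≤ m := hN1'.trans hm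
  have hn1 : 1 ≤ n := hN1'.trans hn
  have hmR : (N : ℝ) ≤ m := by exact_mod_cast hm
  have hnR : (N : ℝ) ≤ n := by exact_mod_cast hn
  have h1 := TT_ces hα hβ f hm1 hn1 J
  have h2 : ‖ces α m * TT α β f J * ces β n‖ ≤ C * Real.sqrt J := by
    calc _ ≤ ‖ces α m * TT α β f J‖ * ‖ces β n‖ := norm_mul_le _ _
      _ ≤ (‖ces α m‖ * ‖TT α β f J‖) * 1 := by
          gcongr
          · exact norm_mul_le _ _
          · exact ces_norm hβ hn1
      _ ≤ (1 * (C * Real.sqrt J)) * 1 := by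
          gcongr
          · exact ces_norm hα hm1
          · exact hK J
      _ = _ := by ring
  have h3 : ‖(J : ℂ) • (ces α m * f * ces β n)‖ ≤
      C * Real.sqrt J + (J : ℝ) ^ 2 * ‖f‖ * (1 / m + 1 / n) := by
    have e : (J : ℂ) • (ces α m * f * ces β n) =
        ces α m * TT α β f J * ces β n -
          (ces α m * TT α β f J * ces β n - (J : ℂ) • (ces α m * f * ces β n)) := by abel
    rw [e]
    exact (norm_sub_le _ _).trans (add_le_add h2 h1)
  rw [norm_smul, Complex.norm_natCast] at h3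
  have h4 : (1 / m + 1 / n : ℝ) ≤ 2 / N := by
    have a1 : (1 / m : ℝ) ≤ 1 / N := one_div_le_one_div_of_le hN0 hmR
    have a2 : (1 / n : ℝ) ≤ 1 / N := one_div_le_one_div_of_le hN0 hnR
    calc (1 / m + 1 / n : ℝ) ≤ 1 / N + 1 / N := add_le_add a1 a2
      _ = 2 / N := by ring
  have h5 : (J : ℝ) ^ 2 * ‖f‖ * (1 / m + 1 / n) ≤ η / 2 * J := by
    calc (J : ℝ) ^ 2 * ‖f‖ * (1 / m + 1 / n) ≤ (J : ℝ) ^ 2 * ‖f‖ * (2 / N) := by gcongr
      _ = J * ((2 * J * ‖f‖) / N) := by ring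
      _ ≤ J * (η / 2) := by
          apply mul_le_mul_of_nonneg_left _ hJ0.le
          rw [div_le_iff₀ hN0]
          have : 4 * J * ‖f‖ / η ≤ N := by linarith
          rw [div_le_iff₀ hη] at this
          linarith
      _ = η / 2 * J := by ring
  have h6 : (J : ℝ) * ‖ces α m * f * ces β n‖ ≤ J * η := by
    calc _ ≤ _ := h3
      _ ≤ η / 2 * J + η / 2 * J := add_le_add hs' h5
      _ = J * η := by ring
  exact le_of_mul_le_mul_left h6 hJ0

end Pool.Agent.V1169.EL
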