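import Pool.Agent.V1169.EL1
import Pool.Agent.V1169.EL2

set_option autoImplicit false
set_option linter.unusedSectionVars false

/-!
# The square-root estimate in `ℓ¹(G)`
-/

namespace Pool.Agent.V1169.EL

open ComplexConjugate

theorem cs_real {ι : Type*} {u a b : ι → ℝ} (hu : ∀ i, 0 ≤ u i) (ha : ∀ i, 0 ≤ a i)
    (hb : ∀ i, 0 ≤ b i) (hsa : Summable a) (hsb : Summable b) (h : ∀ i, u i ^ 2 ≤ a i * b i) :
    Summable u ∧ (∑' i, u i) ^ 2 ≤ (∑' i, a i) * (∑' i, b i) := by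
  have h0 : ∀ t : ℝ, ∀ i, 2 * t * u i ≤ a i * (t * t) + b i := by
    intro t i
    rcases le_or_gt t 0 with ht | ht
    · have h1 : 2 * t * u i ≤ 0 := by
        have := mul_nonneg (neg_nonneg.2 ht) (hu i); linarith
      have h2 := mul_nonneg (ha i) (mul_self_nonneg t)
      have h3 := hb i
      linarith
    · apply le_of_sq_le_sq _ _
      · have h4 := mul_nonneg (ha i) (mul_self_nonneg t)
        have h5 := hb i
        have h6 : t ^ 2 * u i ^ 2 ≤ t ^ 2 * (a i * b i) :=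
          mul_le_mul_of_nonneg_left (h i) (sq_nonneg t)
        nlinarith [sq_nonneg (a i * (t * t) - b i)]
      · have h4 := mul_nonneg (ha i) (mul_self_nonneg t)
        have h5 := hb i
        linarith
  have hsu : Summable u := by
    refine Summable.of_nonneg_of_le hu (fun i => ?_) (hsa.add hsb)
    have := h0 1 i
    have h4 := ha i
    have h5 := hb i
    have h6 := hu i
    linarith
  refine ⟨hsu, ?_⟩
  have h1 : ∀ t : ℝ, 0 ≤ (∑' i, a i) * (t * t) + (-2 * ∑' i, u i) * t + ∑' i, b i := by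
    intro t
    have h2 : ∑' i, 2 * t * u i ≤ ∑' i, (a i * (t * t) + b i) :=
      Summable.tsum_le_tsum (h0 t) (hsu.mul_left _) ((hsa.mul_right _).add hsb)
    rw [tsum_mul_left, (hsa.mul_right _).tsum_add hsb, tsum_mul_right] at h2
    linarith
  have h2 := discrim_le_zero h1
  unfold discrim at h2
  nlinarith

theorem term_bound (c1 c2 T f : ℂ) (p s F C : ℝ) (h1 : ‖c1‖ = 1) (h2 : ‖c2‖ = 1)
    (hf : ‖f‖ = C * s) (hT : ‖T‖ ^ 2 ≤ p * F) :
    ‖conj c1 * p * f + T * (conj c2 * s)‖ ^ 2 ≤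
      (p * s) * (C ^ 2 * (p * s) + F * s + 2 * (conj c1 * conj T * (f * c2)).re) := by
  have e0 : ‖conj c1 * p * f + T * (conj c2 * s)‖ ^ 2 =
      ‖conj c1 * p * f‖ ^ 2 + ‖T * (conj c2 * s)‖ ^ 2 +
        2 * (conj c1 * p * f * conj (T * (conj c2 * s))).re := by
    rw [← Complex.normSq_eq_norm_sq, ← Complex.normSq_eq_norm_sq, ← Complex.normSq_eq_norm_sq,
      Complex.normSq_add]
  have e1 : ‖conj c1 * p * f‖ ^ 2 = p ^ 2 * (C * s) ^ 2 := by
    rw [norm_mul, norm_mul, Complex.norm_conj, h1, hf, Complex.norm_real, mul_pow, one_mul,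
      Real.norm_eq_abs, sq_abs]
  have e2 : ‖T * (conj c2 * s)‖ ^ 2 = ‖T‖ ^ 2 * s ^ 2 := by
    rw [norm_mul, norm_mul, Complex.norm_conj, h2, Complex.norm_real, mul_pow, one_mul,
      Real.norm_eq_abs, sq_abs]
  have e3 : conj c1 * p * f * conj (T * (conj c2 * s)) =
      ((p * s : ℝ) : ℂ) * (conj c1 * conj T * (f * c2)) := by
    simp only [map_mul, Complex.conj_conj, Complex.conj_ofReal]
    push_cast
    ring
  rw [e0, e1, e2, e3, Complex.re_ofReal_mul]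
  have h3 : ‖T‖ ^ 2 * s ^ 2 ≤ (p * F) * s ^ 2 := mul_le_mul_of_nonneg_right hT (sq_nonneg s)
  nlinarith

theorem term_nonneg (c1 c2 T f : ℂ) (p s F C : ℝ) (h1 : ‖c1‖ = 1) (h2 : ‖c2‖ = 1)
    (hf : ‖f‖ = C * s) (hT : ‖T‖ ^ 2 ≤ p * F) (hp : 0 ≤ p) (hs : 0 ≤ s) (hF : 0 ≤ F) :
    0 ≤ C ^ 2 * (p * s) + F * s + 2 * (conj c1 * conj T * (f * c2)).re := by
  rcases hs.eq_or_lt with hs0 | hs0
  · have : f = 0 := by
      rw [← norm_eq_zero, hf, ← hs0, mul_zero]
    rw [this, ← hs0]; simp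
  rcases hp.eq_or_lt with hp0 | hp0
  · have : T = 0 := by
      rw [← norm_eq_zero]
      rw [← hp0, zero_mul] at hT
      have := sq_nonneg ‖T‖
      have h3 : ‖T‖ ^ 2 = 0 := le_antisymm hT this
      exact pow_eq_zero_iff (two_ne_zero) |>.1 h3
    rw [this, ← hp0]; simp
    positivity
  have h3 := term_bound c1 c2 T f p s F C h1 h2 hf hT
  have h4 : 0 ≤ (p * s) * (C ^ 2 * (p * s) + F * s + 2 * (conj c1 * conj T * (f * c2)).re) :=
    (sq_nonneg _).trans h3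
  have h5 : 0 < p * s := mul_pos hp0 hs0
  by_contra h6
  push Not at h6
  have := mul_neg_of_pos_of_neg h5 h6
  linarith

variable {G : Type*} [Group G]

section main

variable (χ₁ χ₂ : G → ℂ) (f : L G)

/-- normalized modulus -/
noncomputable def sg (f : L G) (x : G) : ℝ := ‖f x‖ / ‖f‖

theorem sg_nonneg (x : G) : 0 ≤ sg f x := div_nonneg (norm_nonneg _) (norm_nonneg _)

theorem sg_hasSum {f : L G} (hf : f ≠ 0) : HasSum (sg f) 1 := by
  have h := (L_summable f).hasSum.div_const ‖f‖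
  rw [← L_norm, div_self (norm_ne_zero_iff.2 hf)] at h
  exact h

theorem sg_eq {f : L G} (hf : f ≠ 0) (x : G) : ‖f x‖ = ‖f‖ * sg f x := by
  unfold sg
  rw [mul_div_cancel₀ _ (norm_ne_zero_iff.2 hf)]

theorem tw_summable {χ : G → ℂ} (hχ : ∀ x, ‖χ x‖ = 1) {p : G → ℝ} (hp : Summable p) :
    Summable fun x => ‖conj (χ x) * (p x : ℂ)‖ := by
  have : (fun x => ‖conj (χ x) * (p x : ℂ)‖) = fun x => ‖p x‖ := by
    ext x
    rw [norm_mul, Complex.norm_conj, hχ, one_mul, Complex.norm_real]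
  rw [this]
  exact hp.norm

variable {χ₁ χ₂ f}

theorem main_induction (h1 : ∀ x, ‖χ₁ x‖ = 1) (m1 : ∀ x y, χ₁ (x * y) = χ₁ x * χ₁ y)
    (h2 : ∀ x, ‖χ₂ x‖ = 1) (hf : f ≠ 0)
    (hz : HasSum (fun x => f x * χ₂ x) 0) (α β : L G)
    (hα : ∀ x, α x = conj (χ₁ x) * (sg f x : ℂ)) (hβ : ∀ x, β x = conj (χ₂ x) * (sg f x : ℂ))
    (J : ℕ) :
    ∃ p F : G → ℝ, (∀ x, 0 ≤ p x) ∧ HasSum p 1 ∧ (∀ x, (α ^ J) x = conj (χ₁ x) * (p x : ℂ)) ∧
      (∀ x, 0 ≤ F x) ∧ HasSum F (‖f‖ ^ 2 * J) ∧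
      (∀ x, ‖(TT α β f J) x‖ ^ 2 ≤ p x * F x) := by
  classical
  have χ11 : χ₁ 1 = 1 := by
    have h := m1 1 1
    rw [mul_one] at h
    have h0 : χ₁ 1 ≠ 0 := by
      intro h'
      have := h1 1
      rw [h', norm_zero] at this
      norm_num at this
    exact (mul_left_cancel₀ h0 (by rw [mul_one]; exact h)).symm
  induction J with
  | zero =>
    refine ⟨fun x => if x = 1 then 1 else 0, fun _ => 0, ?_, ?_, ?_, ?_, ?_, ?_⟩
    · intro x; positivity
    · convert hasSum_single (f := fun x : G => if x = 1 then (1 : ℝ) else 0) 1 ?_ using 1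
      · simp
      · intro x hx; simp [hx]
    · intro x
      rw [pow_zero, one_apply]
      by_cases hx : x = 1
      · simp [hx, χ11]
      · simp [hx]
    · intro x; exact le_rfl
    · simp
    · intro x
      simp [TT, zero_apply]
  | succ J ih =>
    obtain ⟨p, F, hp0, hp, hαp, hF0, hF, hT⟩ := ih
    set T := TT α β f J with hTdef
    set σ := sg f with hσdef
    have hσ : HasSum σ 1 := sg_hasSum hf
    have hσ0 : ∀ x, 0 ≤ σ x := sg_nonneg f
    -- sums over pairs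
    have s1 : HasSum (fun q : G × G => p q.1 * σ q.2) 1 := by
      have := hp.mul hσ (hp.summable.mul_of_nonneg hσ.summable hp0 hσ0)
      simpa using this
    have s2 : HasSum (fun q : G × G => F q.1 * σ q.2) (‖f‖ ^ 2 * J) := by
      have := hF.mul hσ (hF.summable.mul_of_nonneg hσ.summable hF0 hσ0)
      simpa using this
    have s3 : HasSum (fun q : G × G => (conj (χ₁ q.1) * conj (T q.1)) * (f q.2 * χ₂ q.2)) 0 := by
      have n1 : Summable fun x => ‖conj (χ₁ x) * conj (T x)‖ := by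
        have : (fun x => ‖conj (χ₁ x) * conj (T x)‖) = fun x => ‖T x‖ := by
          ext x; rw [norm_mul, Complex.norm_conj, Complex.norm_conj, h1, one_mul]
        rw [this]; exact L_summable T
      have n2 : Summable fun x => ‖f x * χ₂ x‖ := by
        have : (fun x => ‖f x * χ₂ x‖) = fun x => ‖f x‖ := by
          ext x; rw [norm_mul, h2, mul_one]
        rw [this]; exact L_summable f
      have n3 : Summable fun q : G × G => (conj (χ₁ q.1) * conj (T q.1)) * (f q.2 * χ₂ q.2) :=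
        summable_mul_of_summable_norm (f := fun x => conj (χ₁ x) * conj (T x))
          (g := fun x => f x * χ₂ x) n1 n2
      have n4 : HasSum (fun x => conj (χ₁ x) * conj (T x)) (∑' x, conj (χ₁ x) * conj (T x)) :=
        n1.of_norm.hasSum
      have n5 := HasSum.mul (f := fun x => conj (χ₁ x) * conj (T x))
          (g := fun x => f x * χ₂ x) n4 hz n3
      rw [mul_zero] at n5
      exact n5
    have s3' : HasSum (fun q : G × G =>
        ((conj (χ₁ q.1) * conj (T q.1)) * (f q.2 * χ₂ q.2)).re) 0 := by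
      have := Complex.hasSum_re s3
      exact this
    set H : G × G → ℝ := fun q => ‖f‖ ^ 2 * (p q.1 * σ q.2) + F q.1 * σ q.2 +
      2 * ((conj (χ₁ q.1) * conj (T q.1)) * (f q.2 * χ₂ q.2)).re with hH
    have sH : HasSum H (‖f‖ ^ 2 * ((J + 1 : ℕ) : ℝ)) := by
      have h4 := ((s1.mul_left (‖f‖ ^ 2)).add s2).add (s3'.mul_left 2)
      have h5 : ‖f‖ ^ 2 * ((J + 1 : ℕ) : ℝ) = ‖f‖ ^ 2 * 1 + ‖f‖ ^ 2 * (J : ℝ) + 2 * 0 := by
        push_cast; ring
      rw [h5]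
      exact h4
    have hfσ : ∀ x, ‖f x‖ = ‖f‖ * σ x := fun x => sg_eq hf x
    have hHnn : ∀ q, 0 ≤ H q := by
      intro q
      have := term_nonneg (χ₁ q.1) (χ₂ q.2) (T q.1) (f q.2) (p q.1) (σ q.2) (F q.1) ‖f‖
        (h1 q.1) (h2 q.2) (hfσ q.2) (hT q.1) (hp0 q.1) (hσ0 q.2) (hF0 q.1)
      exact this
    obtain ⟨c1, c2⟩ := hasSum_conv s1
    obtain ⟨d1, d2⟩ := hasSum_conv sH
    refine ⟨fun x => ∑' y, p y * σ (y⁻¹ * x), fun x => ∑' y, H (y, y⁻¹ * x), ?_, c2, ?_, ?_, d2, ?_⟩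
    · intro x
      exact tsum_nonneg fun y => mul_nonneg (hp0 _) (hσ0 _)
    · intro x
      rw [pow_succ, mul_apply]
      have e : ∀ y, (α ^ J) y * α (y⁻¹ * x) = conj (χ₁ x) * ((p y * σ (y⁻¹ * x) : ℝ) : ℂ) := by
        intro y
        rw [hαp, hα]
        have h3 : χ₁ x = χ₁ y * χ₁ (y⁻¹ * x) := by rw [← m1]; congr 1; group
        rw [h3, map_mul]
        push_cast
        ring
      simp_rw [e]
      rw [tsum_mul_left, Complex.ofReal_tsum]
    · intro x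
      exact tsum_nonneg fun y => hHnn _
    · intro x
      have eT : (TT α β f (J + 1)) x =
          ∑' y, (conj (χ₁ y) * (p y : ℂ) * f (y⁻¹ * x) +
            T y * (conj (χ₂ (y⁻¹ * x)) * (σ (y⁻¹ * x) : ℂ))) := by
        rw [TT, add_apply, mul_apply, mul_apply,
          ← (mul_term_summable (α ^ J) f x).tsum_add (mul_term_summable T β x)]
        apply tsum_congr
        intro y
        rw [hαp, hβ]
      set u : G → ℝ := fun y => ‖conj (χ₁ y) * (p y : ℂ) * f (y⁻¹ * x) +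
            T y * (conj (χ₂ (y⁻¹ * x)) * (σ (y⁻¹ * x) : ℂ))‖ with hu
      have hb : ∀ y, u y ^ 2 ≤ (p y * σ (y⁻¹ * x)) * H (y, y⁻¹ * x) := by
        intro y
        have := term_bound (χ₁ y) (χ₂ (y⁻¹ * x)) (T y) (f (y⁻¹ * x)) (p y) (σ (y⁻¹ * x)) (F y)
          ‖f‖ (h1 y) (h2 (y⁻¹ * x)) (hfσ (y⁻¹ * x)) (hT y)
        exact this
      obtain ⟨k1, k2⟩ := cs_real (u := u) (a := fun y => p y * σ (y⁻¹ * x))
        (b := fun y => H (y, y⁻¹ * x)) (fun y => norm_nonneg _)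
        (fun y => mul_nonneg (hp0 y) (hσ0 (y⁻¹ * x))) (fun y => hHnn (y, y⁻¹ * x)) (c1 x) (d1 x)
        hb
      refine le_trans ?_ k2
      rw [eT]
      gcongr
      exact norm_tsum_le_tsum_norm k1

theorem sqrt_estimate (h1 : ∀ x, ‖χ₁ x‖ = 1) (m1 : ∀ x y, χ₁ (x * y) = χ₁ x * χ₁ y)
    (h2 : ∀ x, ‖χ₂ x‖ = 1) (hf : f ≠ 0)
    (hz : HasSum (fun x => f x * χ₂ x) 0) (α β : L G)
    (hα : ∀ x, α x = conj (χ₁ x) * (sg f x : ℂ)) (hβ : ∀ x, β x = conj (χ₂ x) * (sg f x : ℂ))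
    (J : ℕ) : ‖TT α β f J‖ ≤ ‖f‖ * Real.sqrt J := by
  obtain ⟨p, F, hp0, hp, -, hF0, hF, hT⟩ := main_induction h1 m1 h2 hf hz α β hα hβ J
  obtain ⟨k1, k2⟩ := cs_real (u := fun x => ‖(TT α β f J) x‖) (fun _ => norm_nonneg _) hp0 hF0
    hp.summable hF.summable hT
  rw [← L_norm, hp.tsum_eq, hF.tsum_eq, one_mul] at k2
  apply le_of_sq_le_sq _ (by positivity)
  rw [mul_pow, Real.sq_sqrt (Nat.cast_nonneg _)]
  exact k2

end main

end Pool.Agent.V1169.EL
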