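import Mathlib

set_option autoImplicit false
set_option linter.unusedSectionVars false

/-!
# Closed ideals of codimension two with a power-bounded generator
-/

namespace Pool.Agent.V1169.EL

section coords

variable {A : Type*} [Ring A] [Algebra ℂ A]

theorem exists_coords (I : Submodule ℂ A) (hideal : ∀ a ∈ I, ∀ b, a * b ∈ I ∧ b * a ∈ I)
    (hfin : Module.finrank ℂ (A ⧸ I) = 2) (a : A) (ha : a ∉ I ⊔ Submodule.span ℂ {(1 : A)}) :
    ∃ s t : A →ₗ[ℂ] ℂ, s 1 = 1 ∧ s a = 0 ∧ t 1 = 0 ∧ t a = 1 ∧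
      (∀ c ∈ I, s c = 0 ∧ t c = 0) ∧ ∀ c, c - (s c • (1 : A) + t c • a) ∈ I := by
  have hq1 : I.mkQ 1 ≠ 0 := by
    intro h
    rw [Submodule.mkQ_apply, Submodule.Quotient.mk_eq_zero] at h
    apply ha
    apply Submodule.mem_sup_left
    have := (hideal 1 h a).1
    rwa [one_mul] at this
  have hli : LinearIndependent ℂ ![I.mkQ 1, I.mkQ a] := by
    rw [LinearIndependent.pair_iff' hq1]
    intro r hr
    rw [← map_smul, ← sub_eq_zero, ← map_sub, Submodule.mkQ_apply,
      Submodule.Quotient.mk_eq_zero] at hr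
    apply ha
    have e : a = -(r • (1 : A) - a) + r • (1 : A) := by abel
    rw [e]
    exact Submodule.add_mem_sup (I.neg_mem hr)
      (Submodule.smul_mem _ _ (Submodule.mem_span_singleton_self _))
  set b := basisOfLinearIndependentOfCardEqFinrank hli (by simp [hfin]) with hb
  have hb0 : b 0 = I.mkQ 1 := by simp [hb]
  have hb1 : b 1 = I.mkQ a := by simp [hb]
  refine ⟨(b.coord 0) ∘ₗ I.mkQ, (b.coord 1) ∘ₗ I.mkQ, ?_, ?_, ?_, ?_, ?_, ?_⟩
  · rw [LinearMap.comp_apply, ← hb0]; simp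
  · rw [LinearMap.comp_apply, ← hb1]; simp
  · rw [LinearMap.comp_apply, ← hb0]; simp
  · rw [LinearMap.comp_apply, ← hb1]; simp
  · intro c hc
    have : I.mkQ c = 0 := by
      rw [Submodule.mkQ_apply, Submodule.Quotient.mk_eq_zero]; exact hc
    rw [LinearMap.comp_apply, LinearMap.comp_apply, this]
    simp
  · intro c
    rw [← Submodule.Quotient.mk_eq_zero, ← Submodule.mkQ_apply, map_sub, map_add, map_smul,
      map_smul, ← hb0, ← hb1]
    have := b.sum_repr (I.mkQ c)
    rw [Fin.sum_univ_two] at this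
    rw [sub_eq_zero]
    exact this.symm

theorem exists_char (I : Submodule ℂ A) (hideal : ∀ a ∈ I, ∀ b, a * b ∈ I ∧ b * a ∈ I)
    (a : A) (s t : A →ₗ[ℂ] ℂ) (hs1 : s 1 = 1) (hsa : s a = 0) (ht1 : t 1 = 0) (hta : t a = 1)
    (hI0 : ∀ c ∈ I, s c = 0 ∧ t c = 0) (hdec : ∀ c, c - (s c • (1 : A) + t c • a) ∈ I)
    (z : ℂ) (hz : z * z = t (a * a) * z + s (a * a)) :
    ∃ φ : A →ₐ[ℂ] ℂ, ∀ c, φ c = s c + t c * z := by
  set Lm : A →ₗ[ℂ] ℂ := s + z • t with hL
  have hLc : ∀ c, Lm c = s c + t c * z := by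
    intro c; rw [hL]; simp [mul_comm]
  refine ⟨AlgHom.ofLinearMap Lm ?_ ?_, ?_⟩
  · rw [hLc, hs1, ht1]; simp
  · intro c d
    set c0 := s c • (1 : A) + t c • a with hc0
    set d0 := s d • (1 : A) + t d • a with hd0
    have h1 : c * d - c0 * d0 ∈ I := by
      have e : c * d - c0 * d0 = (c - c0) * d + c0 * (d - d0) := by noncomm_ring
      rw [e]
      exact I.add_mem (hideal _ (hdec c) d).1 (hideal _ (hdec d) c0).2
    have h2 : Lm (c * d) = Lm (c0 * d0) := by
      have h3 := hI0 _ h1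
      have h4 : Lm (c * d - c0 * d0) = 0 := by rw [hLc, h3.1, h3.2]; simp
      rw [map_sub, sub_eq_zero] at h4
      exact h4
    have h5 : c0 * d0 = (s c * s d) • (1 : A) + (s c * t d + t c * s d) • a +
        (t c * t d) • (a * a) := by
      rw [hc0, hd0]
      simp only [add_mul, mul_add, smul_mul_assoc, mul_smul_comm, one_mul, mul_one]
      module
    rw [h2, h5, map_add, map_add, map_smul, map_smul, map_smul, hLc 1, hLc a, hLc (a * a), hs1,
      ht1, hsa, hta, hLc c, hLc d]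
    simp only [smul_eq_mul]
    linear_combination (-(t c * t d)) * hz
  · intro c
    exact hLc c

end coords

variable {A : Type*} [NormedRing A] [NormOneClass A] [NormedAlgebra ℂ A] [CompleteSpace A]

theorem classify (I : Submodule ℂ A) (hI : IsClosed (I : Set A))
    (hideal : ∀ a ∈ I, ∀ b, a * b ∈ I ∧ b * a ∈ I)
    (hfin : Module.finrank ℂ (A ⧸ I) = 2) (a b : A) (hab : a * b = 1)
    (hak : ∀ k : ℕ, ‖a ^ k‖ ≤ 1) (hbn : ‖b‖ ≤ 1)
    (ha : a ∉ I ⊔ Submodule.span ℂ {(1 : A)}) :
    ∃ (φ : Bool → (A →ₐ[ℂ] ℂ)) (ε : Bool → A), ε true + ε false = 1 ∧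
      (∀ i, φ i (ε (!i)) = 0) ∧ ∀ c, c ∈ I ↔ ∀ i, φ i c = 0 := by
  obtain ⟨s, t, hs1, hsa, ht1, hta, hI0, hdec⟩ := exists_coords I hideal hfin a ha
  -- roots
  obtain ⟨w, hw⟩ := IsAlgClosed.exists_pow_nat_eq (t (a * a) ^ 2 + 4 * s (a * a)) (n := 2)
    (by norm_num)
  set t0 := t (a * a) with ht0
  set s0 := s (a * a) with hs0
  set z₁ : ℂ := (t0 + w) / 2 with hz₁
  set z₂ : ℂ := (t0 - w) / 2 with hz₂
  have e1 : z₁ * z₁ = t0 * z₁ + s0 := by
    rw [hz₁]; linear_combination hw / 4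
  have e2 : z₂ * z₂ = t0 * z₂ + s0 := by
    rw [hz₂]; linear_combination hw / 4
  obtain ⟨φ₁, hφ₁⟩ := exists_char I hideal a s t hs1 hsa ht1 hta hI0 hdec z₁ e1
  obtain ⟨φ₂, hφ₂⟩ := exists_char I hideal a s t hs1 hsa ht1 hta hI0 hdec z₂ e2
  have hne : z₁ ≠ z₂ := by
    intro heq
    -- double root
    have hw0 : w = 0 := by
      have : (t0 + w) / 2 = (t0 - w) / 2 := heq
      linear_combination this
    have hz1 : ‖z₁‖ = 1 := by
      have h1 : ‖φ₁ a‖ ≤ 1 := by
        refine (AlgHom.norm_apply_le_self φ₁ a).trans ?_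
        have := hak 1
        rwa [pow_one] at this
      have h2 : ‖φ₁ b‖ ≤ 1 := (AlgHom.norm_apply_le_self φ₁ b).trans hbn
      have h3 : φ₁ a * φ₁ b = 1 := by rw [← map_mul, hab, map_one]
      have h4 : ‖φ₁ a‖ * ‖φ₁ b‖ = 1 := by rw [← norm_mul, h3, norm_one]
      have h5 : φ₁ a = z₁ := by rw [hφ₁, hsa, hta]; ring
      rw [← h5]
      have h6 := norm_nonneg (φ₁ a)
      have h7 := norm_nonneg (φ₁ b)
      apply le_antisymm h1
      nlinarith
    have hz0 : z₁ ≠ 0 := by
      intro h; rw [h, norm_zero] at hz1; norm_num at hz1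
    set m : A := z₁⁻¹ • a - 1 with hm
    have ham : a = z₁ • (1 + m) := by
      rw [hm, add_sub_cancel, smul_smul, mul_inv_cancel₀ hz0, one_smul]
    have hm2 : m * m ∈ I := by
      have h1 : m * m = (z₁⁻¹ * z₁⁻¹) • (a * a) - (2 * z₁⁻¹) • a + 1 := by
        rw [hm]
        simp only [sub_mul, mul_sub, smul_mul_assoc, mul_smul_comm, one_mul, mul_one]
        module
      have h2 := hdec (a * a)
      have h3 : m * m = (z₁⁻¹ * z₁⁻¹) • (a * a - (s (a * a) • (1 : A) + t (a * a) • a)) := by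
        rw [h1, ← hs0, ← ht0]
        have k1 : t0 = 2 * z₁ := by rw [hz₁, hw0]; ring
        have k2 : s0 = -(z₁ * z₁) := by
          have := e1; rw [k1] at this; linear_combination -this
        rw [k1, k2, smul_sub, smul_add, smul_smul, smul_smul]
        have k3 : z₁⁻¹ * z₁⁻¹ * -(z₁ * z₁) = -1 := by field_simp
        have k4 : z₁⁻¹ * z₁⁻¹ * (2 * z₁) = 2 * z₁⁻¹ := by field_simp
        rw [k3, k4, neg_smul, one_smul]
        abel
      rw [h3]
      exact I.smul_mem _ h2
    clear_value m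
    have hpow : ∀ k : ℕ, a ^ k - z₁ ^ k • (1 + (k : ℂ) • m) ∈ I := by
      intro k
      induction k with
      | zero => simp
      | succ k ih =>
        have e : a ^ (k + 1) - z₁ ^ (k + 1) • (1 + ((k + 1 : ℕ) : ℂ) • m) =
            (a ^ k - z₁ ^ k • (1 + (k : ℂ) • m)) * a + (z₁ ^ (k + 1) * k) • (m * m) := by
          have e' : (z₁ ^ k • (1 + (k : ℂ) • m)) * a =
              z₁ ^ (k + 1) • (1 + ((k + 1 : ℕ) : ℂ) • m) + (z₁ ^ (k + 1) * k) • (m * m) := by
            conv_lhs => rw [ham]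
            rw [smul_mul_assoc, mul_smul_comm, smul_smul, ← pow_succ, mul_smul, ← smul_add]
            congr 1
            push_cast
            simp only [add_mul, mul_add, smul_mul_assoc, one_mul, mul_one, add_smul, one_smul]
            abel
          rw [sub_mul, e', pow_succ]
          abel
        rw [e]
        exact I.add_mem (hideal _ ih a).1 (I.smul_mem _ hm2)
    have hmI : m ∈ I := by
      have hmc : m ∈ closure (I : Set A) := by
        rw [Metric.mem_closure_iff]
        intro δ hδ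
        obtain ⟨k, hk⟩ := exists_nat_gt (2 / δ + 1)
        have hq : 0 < 2 / δ := by positivity
        have hk1 : (0 : ℝ) < k := by linarith
        have hkC : (k : ℂ) ≠ 0 := by
          have : (k : ℝ) ≠ 0 := hk1.ne'
          exact_mod_cast this
        set i := a ^ k - z₁ ^ k • (1 + (k : ℂ) • m) with hi
        have hiI : i ∈ I := hpow k
        have hzk : z₁ ^ k ≠ 0 := pow_ne_zero _ hz0
        refine ⟨-(((k : ℂ)⁻¹ * (z₁ ^ k)⁻¹) • i), I.neg_mem (I.smul_mem _ hiI), ?_⟩
        have e3 : m - (-(((k : ℂ)⁻¹ * (z₁ ^ k)⁻¹) • i)) =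
            (k : ℂ)⁻¹ • ((z₁ ^ k)⁻¹ • a ^ k - 1) := by
          have e4 : m = (k : ℂ)⁻¹ • ((k : ℂ) • m) := by
            rw [smul_smul, inv_mul_cancel₀ hkC, one_smul]
          rw [sub_neg_eq_add, mul_smul]
          conv_lhs => rw [e4]
          rw [← smul_add]
          congr 1
          rw [hi, smul_sub, smul_smul, inv_mul_cancel₀ hzk, one_smul]
          abel
        rw [dist_eq_norm, e3, norm_smul, norm_inv, Complex.norm_natCast]
        have h1 : ‖(z₁ ^ k)⁻¹ • a ^ k - 1‖ ≤ 2 := by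
          calc _ ≤ ‖(z₁ ^ k)⁻¹ • a ^ k‖ + ‖(1 : A)‖ := norm_sub_le _ _
            _ ≤ 1 + 1 := by
                gcongr
                · rw [norm_smul, norm_inv, norm_pow, hz1, one_pow, inv_one, one_mul]
                  exact hak k
                · rw [norm_one]
            _ = 2 := by norm_num
        calc (k : ℝ)⁻¹ * ‖(z₁ ^ k)⁻¹ • a ^ k - 1‖ ≤ (k : ℝ)⁻¹ * 2 := by gcongr
          _ < δ := by
            rw [inv_mul_lt_iff₀ hk1]
            have : 2 / δ < k := by linarith
            rw [div_lt_iff₀ hδ] at this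
            exact this
      rwa [hI.closure_eq] at hmc
    have h1 := (hI0 m hmI).2
    rw [hm, map_sub, map_smul, hta, ht1, sub_zero, smul_eq_mul, mul_one] at h1
    exact inv_ne_zero hz0 h1
  have hd : z₁ - z₂ ≠ 0 := sub_ne_zero.2 hne
  refine ⟨fun i => if i then φ₁ else φ₂, fun i => if i then (z₁ - z₂)⁻¹ • (a - z₂ • (1 : A)) else
    (z₁ - z₂)⁻¹ • (z₁ • (1 : A) - a), ?_, ?_, ?_⟩
  · simp only [if_true, Bool.false_eq_true, if_false]
    rw [← smul_add]
    have : a - z₂ • (1 : A) + (z₁ • (1 : A) - a) = (z₁ - z₂) • (1 : A) := by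
      rw [sub_smul]; abel
    rw [this, smul_smul, inv_mul_cancel₀ hd, one_smul]
  · intro i
    cases i
    · simp only [Bool.not_false, if_true, Bool.false_eq_true, if_false]
      rw [map_smul, map_sub, map_smul, map_one, hφ₂ a, hsa, hta]
      simp
    · simp only [Bool.not_true, if_true, Bool.false_eq_true, if_false]
      rw [map_smul, map_sub, map_smul, map_one, hφ₁ a, hsa, hta]
      simp
  · intro c
    constructor
    · intro hc i
      have h := hI0 c hc
      cases i
      · simp [hφ₂, h.1, h.2]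
      · simp [hφ₁, h.1, h.2]
    · intro h
      have h1 := h true
      have h2 := h false
      simp only [if_true, Bool.false_eq_true, if_false] at h1 h2
      rw [hφ₁] at h1
      rw [hφ₂] at h2
      have h3 : t c * (z₁ - z₂) = 0 := by linear_combination h1 - h2
      have h4 : t c = 0 := by
        rcases mul_eq_zero.1 h3 with h | h
        · exact h
        · exact absurd h hd
      have h5 : s c = 0 := by rw [h4] at h1; simpa using h1
      have h6 := hdec c
      rw [h4, h5] at h6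
      simpa using h6

end Pool.Agent.V1169.EL
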