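import Pool.Agent.V1169.EL4
import Pool.Agent.V1169.EL5
import Pool.Agent.V1169.EL6

set_option autoImplicit false
set_option linter.unusedSectionVars false

/-!
# Closed ideals of codimension two in `ℓ¹(G)` are idempotent, for every discrete group `G`
-/

namespace Pool.Agent.V1169.EL

open ComplexConjugate

variable {G : Type*} [Group G]

open Classical in
/-- point mass -/
noncomputable def dl (x : G) : L G := lp.single 1 x (1 : ℂ)

open Classical in
theorem dl_apply (x y : G) : (dl x) y = if y = x then 1 else 0 := by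
  unfold dl
  rw [lp.single_apply]
  by_cases h : y = x
  · subst h; simp
  · simp [h]

theorem dl_one : (dl 1 : L G) = 1 := by
  classical
  apply L_ext
  intro x
  rw [dl_apply, one_apply]

theorem dl_mul (x y : G) : dl x * dl y = dl (x * y) := by
  classical
  apply L_ext
  intro z
  rw [mul_apply, tsum_eq_single x]
  · rw [dl_apply, dl_apply, dl_apply, if_pos rfl, one_mul]
    congr 1
    rw [inv_mul_eq_iff_eq_mul]
  · intro w hw
    rw [dl_apply, if_neg hw, zero_mul]

theorem dl_norm (x : G) : ‖dl x‖ = 1 := by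
  classical
  unfold dl
  rw [lp.norm_single (by norm_num)]
  simp

theorem dl_pow (x : G) (k : ℕ) : (dl x) ^ k = dl (x ^ k) := by
  induction k with
  | zero => rw [pow_zero, pow_zero, dl_one]
  | succ k ih => rw [pow_succ, pow_succ, ih, dl_mul]

theorem dl_hasSum (a : L G) : HasSum (fun x => a x • dl x) a := by
  classical
  have h := lp.hasSum_single (p := 1) (by norm_num) a
  have e : (fun x => a x • dl x) = fun x => lp.single 1 x (a x) := by
    funext x
    apply L_ext
    intro y
    rw [smul_apply, dl_apply, lp.single_apply]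
    by_cases h : y = x
    · subst h; simp
    · simp [h]
  rw [e]
  exact h

/-- The unitary character attached to a homomorphism. -/
noncomputable def ch (φ : L G →ₐ[ℂ] ℂ) (x : G) : ℂ := φ (dl x)

theorem ch_mul (φ : L G →ₐ[ℂ] ℂ) (x y : G) : ch φ (x * y) = ch φ x * ch φ y := by
  unfold ch; rw [← map_mul, dl_mul]

theorem ch_norm (φ : L G →ₐ[ℂ] ℂ) (x : G) : ‖ch φ x‖ = 1 := by
  have h : ∀ y : G, ‖ch φ y‖ ≤ 1 := fun y =>
    (AlgHom.norm_apply_le_self φ (dl y)).trans (dl_norm y).le
  have h1 : ch φ x * ch φ x⁻¹ = 1 := by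
    rw [← ch_mul, mul_inv_cancel]; unfold ch; rw [dl_one, map_one]
  have h2 : ‖ch φ x‖ * ‖ch φ x⁻¹‖ = 1 := by rw [← norm_mul, h1, norm_one]
  have h3 := h x
  have h4 := h x⁻¹
  have h5 := norm_nonneg (ch φ x)
  have h6 := norm_nonneg (ch φ x⁻¹)
  apply le_antisymm h3
  nlinarith

theorem ch_hasSum (φ : L G →ₐ[ℂ] ℂ) (a : L G) : HasSum (fun x => a x * ch φ x) (φ a) := by
  have h := (dl_hasSum a).map φ (map_continuous φ)
  convert h using 1
  ext x
  simp [ch]

theorem TT_zero (α β : L G) (J : ℕ) : TT α β (0 : L G) J = 0 := by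
  induction J with
  | zero => rfl
  | succ J ih => rw [TT, ih]; simp

theorem hyp_holds (φ ψ : L G →ₐ[ℂ] ℂ) (f : L G) (hf : ψ f = 0) :
    ∃ α β : L G, ‖α‖ ≤ 1 ∧ ‖β‖ ≤ 1 ∧ φ α = 1 ∧ ψ β = 1 ∧
      ∃ C : ℝ, 0 ≤ C ∧ ∀ J : ℕ, ‖TT α β f J‖ ≤ C * Real.sqrt J := by
  by_cases h0 : f = 0
  · refine ⟨1, 1, by simp, by simp, map_one _, map_one _, 0, le_rfl, ?_⟩
    intro J
    rw [h0, TT_zero]
    simp
  have hσ := sg_hasSum h0
  set α : L G := mk (fun x => conj (ch φ x) * (sg f x : ℂ)) (tw_summable (ch_norm φ) hσ.summable)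
    with hα
  set β : L G := mk (fun x => conj (ch ψ x) * (sg f x : ℂ)) (tw_summable (ch_norm ψ) hσ.summable)
    with hβ
  have key : ∀ (θ : L G →ₐ[ℂ] ℂ) (γ : L G), (∀ x, γ x = conj (ch θ x) * (sg f x : ℂ)) →
      ‖γ‖ ≤ 1 ∧ θ γ = 1 := by
    intro θ γ hγ
    constructor
    · rw [L_norm]
      have : (fun x => ‖γ x‖) = sg f := by
        ext x
        rw [hγ, norm_mul, Complex.norm_conj, ch_norm, one_mul, Complex.norm_real,
          Real.norm_of_nonneg (sg_nonneg f x)]
      rw [this, hσ.tsum_eq]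
    · have h1 := ch_hasSum θ γ
      have h2 : HasSum (fun x => ((sg f x : ℝ) : ℂ)) ((1 : ℝ) : ℂ) := Complex.hasSum_ofReal.2 hσ
      have h3 : (fun x => γ x * ch θ x) = fun x => ((sg f x : ℝ) : ℂ) := by
        ext x
        rw [hγ]
        have h4 : conj (ch θ x) * ch θ x = 1 := by
          rw [← Complex.normSq_eq_conj_mul_self, Complex.normSq_eq_norm_sq, ch_norm]
          simp
        linear_combination ((sg f x : ℝ) : ℂ) * h4
      rw [h3] at h1
      have := h1.unique h2
      simpa using this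
  have kα := key φ α (fun x => rfl)
  have kβ := key ψ β (fun x => rfl)
  refine ⟨α, β, kα.1, kβ.1, kα.2, kβ.2, ‖f‖, norm_nonneg _, ?_⟩
  have hz : HasSum (fun x => f x * ch ψ x) 0 := by
    have := ch_hasSum ψ f
    rwa [hf] at this
  exact sqrt_estimate (ch_norm φ) (ch_mul φ) (ch_norm ψ) h0 hz α β (fun x => rfl) (fun x => rfl)

/-- Main theorem: for every discrete group, closed ideals of codimension two of `ℓ¹(G)` are
idempotent. -/
theorem idempotent_codim_two (I : Submodule ℂ (L G)) (hI : IsClosed (I : Set (L G)))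
    (hideal : ∀ a ∈ I, ∀ b, a * b ∈ I ∧ b * a ∈ I)
    (hfin : Module.finrank ℂ (L G ⧸ I) = 2) :
    Submodule.span ℂ {h : L G | ∃ a ∈ I, ∃ b ∈ I, h = a * b} = I := by
  -- a point mass outside `I + ℂ 1`
  have hex : ∃ x : G, dl x ∉ I ⊔ Submodule.span ℂ {(1 : L G)} := by
    by_contra hcon
    push Not at hcon
    have hcl : IsClosed ((I ⊔ Submodule.span ℂ {(1 : L G)} : Submodule ℂ (L G)) : Set (L G)) :=
      Submodule.isClosed_sup_finiteDimensional _ _ hI
    have htop : ∀ a : L G, a ∈ I ⊔ Submodule.span ℂ {(1 : L G)} := by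
      intro a
      apply hcl.mem_of_tendsto (dl_hasSum a)
      filter_upwards with t
      exact Submodule.sum_mem _ fun i _ => Submodule.smul_mem _ _ (hcon i)
    have hsp : Submodule.span ℂ {I.mkQ (1 : L G)} = ⊤ := by
      rw [eq_top_iff]
      rintro y -
      obtain ⟨a, rfl⟩ := I.mkQ_surjective y
      obtain ⟨u, hu, v, hv, huv⟩ := Submodule.mem_sup.1 (htop a)
      obtain ⟨r, rfl⟩ := Submodule.mem_span_singleton.1 hv
      rw [← huv, map_add, map_smul]
      have : I.mkQ u = 0 := by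
        rw [Submodule.mkQ_apply, Submodule.Quotient.mk_eq_zero]; exact hu
      rw [this, zero_add]
      exact Submodule.smul_mem _ _ (Submodule.mem_span_singleton_self _)
    have h1 : Module.finrank ℂ (L G ⧸ I) ≤ 1 := by
      apply finrank_le_one (I.mkQ (1 : L G))
      intro w
      have hw : w ∈ Submodule.span ℂ {I.mkQ (1 : L G)} := by rw [hsp]; trivial
      exact Submodule.mem_span_singleton.1 hw
    omega
  obtain ⟨x, hx⟩ := hex
  obtain ⟨φ, ε, h1, h2, h3⟩ := classify I hI hideal hfin (dl x) (dl x⁻¹)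
    (by rw [dl_mul, mul_inv_cancel, dl_one]) (fun k => by rw [dl_pow, dl_norm]) (dl_norm _).le hx
  refine idempotent_abstract φ ε h1 h2 I hI hideal h3 ?_
  intro f hf i j
  exact hyp_holds (φ i) (φ j) f ((h3 f).1 hf j)

end Pool.Agent.V1169.EL
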