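import Pool.Agent.V1169.EM3

set_option autoImplicit false
set_option linter.unusedSectionVars false
set_option linter.unusedVariables false

/-!
# Closed cofinite ideals of `ℓ¹(G)` are idempotent, for every discrete group `G`
-/

namespace Pool.Agent.V1169.EM

open ComplexConjugate
open Pool.Agent.V1169.EL

attribute [local instance] Matrix.linftyOpNormedRing Matrix.linftyOpNormedAlgebra

theorem matComplete {A : Type*} [NormedRing A] [CompleteSpace A]
    {ι : Type*} [Fintype ι] [DecidableEq ι] :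
    @CompleteSpace (Matrix ι ι A) (@PseudoMetricSpace.toUniformSpace _
      (@SeminormedRing.toPseudoMetricSpace _ (@NormedRing.toSeminormedRing _
        Matrix.linftyOpNormedRing))) := by
  apply Metric.complete_of_cauchySeq_tendsto
  intro u hu
  have hent : ∀ i j, CauchySeq fun n => u n i j := by
    intro i j
    have hL : LipschitzWith 1 fun M : Matrix ι ι A => M i j :=
      LipschitzWith.of_dist_le_mul fun M N => by
        rw [dist_eq_norm, dist_eq_norm, NNReal.coe_one, one_mul]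
        exact entry_le (M - N) i j
    exact hL.uniformContinuous.comp_cauchySeq hu
  choose a ha using fun i j => cauchySeq_tendsto_of_complete (hent i j)
  refine ⟨Matrix.of a, ?_⟩
  rw [tendsto_iff_norm_sub_tendsto_zero]
  have h1 : Filter.Tendsto (fun n => ∑ i, ∑ j, ‖u n i j - a i j‖) Filter.atTop (nhds 0) := by
    have h2 : ∀ i j, Filter.Tendsto (fun n => ‖u n i j - a i j‖) Filter.atTop (nhds 0) :=
      fun i j => tendsto_iff_norm_sub_tendsto_zero.1 (ha i j)
    have h3 : Filter.Tendsto (fun n => ∑ i, ∑ j, ‖u n i j - a i j‖) Filter.atTop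
        (nhds (∑ i : ι, ∑ j : ι, (0 : ℝ))) :=
      tendsto_finsetSum _ fun i _ => tendsto_finsetSum _ fun j _ => h2 i j
    simpa using h3
  have h4 := h1.const_mul (Fintype.card ι : ℝ)
  rw [mul_zero] at h4
  refine squeeze_zero (fun n => norm_nonneg _) (fun n => ?_) h4
  apply norm_le_entries
  · exact Finset.sum_nonneg fun _ _ => Finset.sum_nonneg fun _ _ => norm_nonneg _
  · intro i j
    have e : (u n - Matrix.of a) i j = u n i j - a i j := rfl
    rw [e]
    have k1 : ‖u n i j - a i j‖ ≤ ∑ j, ‖u n i j - a i j‖ :=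
      Finset.single_le_sum (f := fun j => ‖u n i j - a i j‖) (fun _ _ => norm_nonneg _)
        (Finset.mem_univ j)
    have k2 : ∑ j, ‖u n i j - a i j‖ ≤ ∑ i, ∑ j, ‖u n i j - a i j‖ :=
      Finset.single_le_sum (f := fun i => ∑ j, ‖u n i j - a i j‖)
        (fun _ _ => Finset.sum_nonneg fun _ _ => norm_nonneg _) (Finset.mem_univ i)
    exact k1.trans k2

variable {G : Type*} [Group G]

theorem coord_exists (I : Submodule ℂ (L G)) (hI : IsClosed (I : Set (L G)))
    (hideal : ∀ a ∈ I, ∀ b, a * b ∈ I ∧ b * a ∈ I) [hfin : FiniteDimensional ℂ (L G ⧸ I)] :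
    Nonempty (Coord I (Fin (Module.finrank ℂ (L G ⧸ I)))) := by
  have : IsClosed (I : Set (L G)) := hI
  let b := Module.finBasis ℂ (L G ⧸ I)
  let x : Fin (Module.finrank ℂ (L G ⧸ I)) → L G := fun i => (I.mkQ_surjective (b i)).choose
  have hx : ∀ i, I.mkQ (x i) = b i := fun i => (I.mkQ_surjective (b i)).choose_spec
  let c : Fin (Module.finrank ℂ (L G ⧸ I)) → (L G →L[ℂ] ℂ) := fun i =>
    (LinearMap.toContinuousLinearMap (b.coord i)).comp I.mkQL
  have hc : ∀ i a, c i a = b.coord i (I.mkQ a) := fun i a => rfl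
  refine ⟨⟨x, c, ?_, ?_, ?_, hideal⟩⟩
  · intro i j
    rw [hc, hx]
    simp [Finsupp.single_apply, eq_comm]
  · intro i a ha
    have : I.mkQ a = 0 := by
      rw [Submodule.mkQ_apply, Submodule.Quotient.mk_eq_zero]; exact ha
    rw [hc, this, map_zero]
  · intro a
    rw [← Submodule.Quotient.mk_eq_zero, ← Submodule.mkQ_apply, map_sub, map_sum, sub_eq_zero]
    have := b.sum_repr (I.mkQ a)
    rw [← this]
    apply Finset.sum_congr rfl
    intro i _
    rw [map_smul, hx]
    rfl

theorem mem_of_hasSum' {κ : Type*} {I : Submodule ℂ (L G)} (hI : IsClosed (I : Set (L G)))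
    {x : κ → L G} {s : L G} (hs : HasSum x s) (hx : ∀ n, x n ∈ I) : s ∈ I := by
  apply hI.mem_of_tendsto hs
  filter_upwards with t
  exact Submodule.sum_mem I fun i _ => hx i

variable {ι : Type*} [Fintype ι] [DecidableEq ι] {I : Submodule ℂ (L G)} (X : Coord I ι)

namespace Coord

/-- closed right ideal of matrices killed by the row `x` -/
def JL : Submodule ℂ (Matrix ι ι (L G)) where
  carrier := {Y | ∀ j, ∑ i, X.x i * Y i j ∈ I}
  add_mem' := by
    intro Y Z hY hZ j
    have : ∑ i, X.x i * (Y + Z) i j = ∑ i, X.x i * Y i j + ∑ i, X.x i * Z i j := by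
      rw [← Finset.sum_add_distrib]
      apply Finset.sum_congr rfl
      intro i _
      rw [Matrix.add_apply, mul_add]
    rw [this]
    exact I.add_mem (hY j) (hZ j)
  zero_mem' := by
    intro j
    simp
  smul_mem' := by
    intro r Y hY j
    have : ∑ i, X.x i * (r • Y) i j = r • ∑ i, X.x i * Y i j := by
      rw [Finset.smul_sum]
      apply Finset.sum_congr rfl
      intro i _
      rw [Matrix.smul_apply, mul_smul_comm]
    rw [this]
    exact I.smul_mem _ (hY j)

/-- closed left ideal of matrices killed by the column `x` -/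
def JR : Submodule ℂ (Matrix ι ι (L G)) where
  carrier := {Y | ∀ k, ∑ l, Y k l * X.x l ∈ I}
  add_mem' := by
    intro Y Z hY hZ j
    have : ∑ i, (Y + Z) j i * X.x i = ∑ i, Y j i * X.x i + ∑ i, Z j i * X.x i := by
      rw [← Finset.sum_add_distrib]
      apply Finset.sum_congr rfl
      intro i _
      rw [Matrix.add_apply, add_mul]
    rw [this]
    exact I.add_mem (hY j) (hZ j)
  zero_mem' := by
    intro j
    simp
  smul_mem' := by
    intro r Y hY j
    have : ∑ i, (r • Y) j i * X.x i = r • ∑ i, Y j i * X.x i := by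
      rw [Finset.smul_sum]
      apply Finset.sum_congr rfl
      intro i _
      rw [Matrix.smul_apply, smul_mul_assoc]
    rw [this]
    exact I.smul_mem _ (hY j)

/-- matrices over `I` -/
def JI (I : Submodule ℂ (L G)) (ι : Type*) [Fintype ι] [DecidableEq ι] :
    Submodule ℂ (Matrix ι ι (L G)) where
  carrier := {Y | ∀ i j, Y i j ∈ I}
  add_mem' := fun hY hZ i j => I.add_mem (hY i j) (hZ i j)
  zero_mem' := fun i j => I.zero_mem
  smul_mem' := fun r Y hY i j => I.smul_mem r (hY i j)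

theorem JL_closed (hI : IsClosed (I : Set (L G))) :
    IsClosed (X.JL : Set (Matrix ι ι (L G))) := by
  have : (X.JL : Set (Matrix ι ι (L G))) =
      ⋂ j, (fun Y : Matrix ι ι (L G) => ∑ i, X.x i * Y i j) ⁻¹' (I : Set (L G)) := by
    ext Y
    simp only [Set.mem_iInter, Set.mem_preimage]
    rfl
  rw [this]
  apply isClosed_iInter
  intro j
  apply hI.preimage
  exact continuous_finsetSum _ fun i _ => continuous_const.mul (cont_entry i j)

theorem JR_closed (hI : IsClosed (I : Set (L G))) :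
    IsClosed (X.JR : Set (Matrix ι ι (L G))) := by
  have : (X.JR : Set (Matrix ι ι (L G))) =
      ⋂ j, (fun Y : Matrix ι ι (L G) => ∑ i, Y j i * X.x i) ⁻¹' (I : Set (L G)) := by
    ext Y
    simp only [Set.mem_iInter, Set.mem_preimage]
    rfl
  rw [this]
  apply isClosed_iInter
  intro j
  apply hI.preimage
  exact continuous_finsetSum _ fun i _ => (cont_entry j i).mul continuous_const

theorem JI_closed (hI : IsClosed (I : Set (L G))) :
    IsClosed ((JI I ι : Submodule ℂ (Matrix ι ι (L G))) : Set (Matrix ι ι (L G))) := by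
  have : ((JI I ι : Submodule ℂ (Matrix ι ι (L G))) : Set (Matrix ι ι (L G))) =
      ⋂ i, ⋂ j, (fun Y : Matrix ι ι (L G) => Y i j) ⁻¹' (I : Set (L G)) := by
    ext Y
    simp only [Set.mem_iInter, Set.mem_preimage]
    rfl
  rw [this]
  exact isClosed_iInter fun i => isClosed_iInter fun j => hI.preimage (cont_entry i j)

include X in
theorem JI_ideal (Y : Matrix ι ι (L G)) (hY : Y ∈ JI I ι) (Z : Matrix ι ι (L G)) :
    Y * Z ∈ JI I ι ∧ Z * Y ∈ JI I ι := by
  constructor
  · intro i j
    rw [Matrix.mul_apply]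
    exact I.sum_mem fun k _ => (X.hideal _ (hY i k) _).1
  · intro i j
    rw [Matrix.mul_apply]
    exact I.sum_mem fun k _ => (X.hideal _ (hY k j) _).2

theorem JL_ideal (Y : Matrix ι ι (L G)) (hY : Y ∈ X.JL) (Z : Matrix ι ι (L G)) :
    Y * Z ∈ X.JL := by
  intro j
  have : ∑ i, X.x i * (Y * Z) i j = ∑ k, (∑ i, X.x i * Y i k) * Z k j := by
    simp_rw [Matrix.mul_apply, Finset.mul_sum, Finset.sum_mul]
    rw [Finset.sum_comm]
    simp_rw [mul_assoc]
  rw [this]
  exact I.sum_mem fun k _ => (X.hideal _ (hY k) _).1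

theorem JR_ideal (Y : Matrix ι ι (L G)) (hY : Y ∈ X.JR) (Z : Matrix ι ι (L G)) :
    Z * Y ∈ X.JR := by
  intro j
  have : ∑ i, (Z * Y) j i * X.x i = ∑ k, Z j k * (∑ i, Y k i * X.x i) := by
    simp_rw [Matrix.mul_apply, Finset.mul_sum, Finset.sum_mul]
    rw [Finset.sum_comm]
    simp_rw [mul_assoc]
  rw [this]
  exact I.sum_mem fun k _ => (X.hideal _ (hY k) _).2

theorem one_sub_alpha {σ : G → ℝ} (hσ : HasSum σ 1) (hI : IsClosed (I : Set (L G)))
    {α : Matrix ι ι (L G)} (hα : ∀ i j x, (α i j) x = (σ x : ℂ) * X.rho x i j) :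
    1 - α ∈ X.JL := by
  intro j
  have e0 : ∑ i, X.x i * (1 - α) i j = X.x j - ∑ i, X.x i * α i j := by
    simp_rw [Matrix.sub_apply, mul_sub]
    rw [Finset.sum_sub_distrib]
    congr 1
    rw [Finset.sum_eq_single j]
    · rw [Matrix.one_apply_eq, mul_one]
    · intro i _ hi
      rw [Matrix.one_apply_ne hi, mul_zero]
    · intro h; exact absurd (Finset.mem_univ _) h
  rw [e0]
  have h1 : HasSum (fun g => ((σ g : ℝ) : ℂ) • X.x j) (((1 : ℝ) : ℂ) • X.x j) :=
    (Complex.hasSum_ofReal.2 hσ).smul_const _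
  rw [Complex.ofReal_one, one_smul] at h1
  have h2 : HasSum (fun g => ∑ i, X.x i * ((α i j) g • dl g)) (∑ i, X.x i * α i j) :=
    hasSum_sum fun i _ => (dl_hasSum (α i j)).mul_left (X.x i)
  refine mem_of_hasSum' hI (h1.sub h2) ?_
  intro g
  have e : ((σ g : ℝ) : ℂ) • X.x j - ∑ i, X.x i * ((α i j) g • dl g) =
      ((σ g : ℝ) : ℂ) • ((X.x j * dl g⁻¹ - ∑ i, X.c i (X.x j * dl g⁻¹) • X.x i) * dl g) := by
    rw [sub_mul, mul_assoc, dl_mul, inv_mul_cancel, dl_one, mul_one, smul_sub, Finset.sum_mul,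
      Finset.smul_sum]
    congr 1
    apply Finset.sum_congr rfl
    intro i _
    rw [hα, X.rho_apply, mul_smul_comm, smul_mul_assoc, smul_smul]
  rw [e]
  exact I.smul_mem _ (X.hideal _ (X.hdec _) _).1

theorem one_sub_beta {σ : G → ℝ} (hσ : HasSum σ 1) (hI : IsClosed (I : Set (L G)))
    {β : Matrix ι ι (L G)} (hβ : ∀ i j x, (β i j) x = (σ x : ℂ) * X.rho' x i j) :
    1 - β ∈ X.JR := by
  intro j
  have e0 : ∑ i, (1 - β) j i * X.x i = X.x j - ∑ i, β j i * X.x i := by
    simp_rw [Matrix.sub_apply, sub_mul]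
    rw [Finset.sum_sub_distrib]
    congr 1
    rw [Finset.sum_eq_single j]
    · rw [Matrix.one_apply_eq, one_mul]
    · intro i _ hi
      rw [Matrix.one_apply_ne (Ne.symm hi), zero_mul]
    · intro h; exact absurd (Finset.mem_univ _) h
  rw [e0]
  have h1 : HasSum (fun g => ((σ g : ℝ) : ℂ) • X.x j) (((1 : ℝ) : ℂ) • X.x j) :=
    (Complex.hasSum_ofReal.2 hσ).smul_const _
  rw [Complex.ofReal_one, one_smul] at h1
  have h2 : HasSum (fun g => ∑ i, ((β j i) g • dl g) * X.x i) (∑ i, β j i * X.x i) :=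
    hasSum_sum fun i _ => (dl_hasSum (β j i)).mul_right (X.x i)
  refine mem_of_hasSum' hI (h1.sub h2) ?_
  intro g
  have e : ((σ g : ℝ) : ℂ) • X.x j - ∑ i, ((β j i) g • dl g) * X.x i =
      ((σ g : ℝ) : ℂ) • (dl g * (dl g⁻¹ * X.x j - ∑ i, X.c i (dl g⁻¹ * X.x j) • X.x i)) := by
    rw [mul_sub, ← mul_assoc, dl_mul, mul_inv_cancel, dl_one, one_mul, smul_sub, Finset.mul_sum,
      Finset.smul_sum]
    congr 1
    apply Finset.sum_congr rfl
    intro i _
    rw [hβ, X.rho'_apply, mul_smul_comm, smul_mul_assoc, smul_smul]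
  rw [e]
  exact I.smul_mem _ (X.hideal _ (X.hdec _) _).2

end Coord

/-- The span of products of pairs. -/
noncomputable def sq (I : Submodule ℂ (L G)) : Submodule ℂ (L G) :=
  Submodule.span ℂ {h : L G | ∃ a ∈ I, ∃ b ∈ I, h = a * b}

theorem mul_mem_sq {a b : L G} (ha : a ∈ I) (hb : b ∈ I) : a * b ∈ sq I :=
  Submodule.subset_span ⟨a, ha, b, hb, rfl⟩

theorem key (hI : IsClosed (I : Set (L G))) {f : L G} (hf : f ∈ I) (hf0 : f ≠ 0) (j₀ k₀ : ι) :
    X.x j₀ * f * X.x k₀ ∈ sq I := by
  have hσ := sg_hasSum hf0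
  have hσ0 := sg_nonneg f
  have hB1 := X.B_ge_one
  have hB0 : 0 ≤ X.B := by linarith
  have hcomp := matComplete (A := L G) (ι := ι)
  set α := Coord.tw hσ.summable X.rho X.rho_bound with hαdef
  set β := Coord.tw hσ.summable X.rho' X.rho'_bound with hβdef
  have hα : ∀ i j x, (α i j) x = (sg f x : ℂ) * X.rho x i j := fun i j x => rfl
  have hβ : ∀ i j x, (β i j) x = (sg f x : ℂ) * X.rho' x i j := fun i j x => rfl
  set K : ℝ := 1 + Fintype.card ι * X.B with hK
  have hK1 : 1 ≤ K := by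
    have : 0 ≤ (Fintype.card ι : ℝ) * X.B := by positivity
    linarith
  have hαn : ∀ s : ℕ, ‖α ^ s‖ ≤ K := fun s =>
    (Coord.tw_pow_norm hσ0 hσ X.rho_one X.rho_mul hB0 X.rho_bound hα s).trans (by linarith)
  have hβn : ∀ s : ℕ, ‖β ^ s‖ ≤ K := fun s =>
    (Coord.tw_pow_norm hσ0 hσ X.rho'_one X.rho'_mul hB0 X.rho'_bound hβ s).trans (by linarith)
  have hT := X.estimate hf hf0 j₀ k₀ α β hα hβ
  obtain ⟨U, V, g, hU, hV, hg, hF⟩ := factor hK1 hαn hβn (by positivity) hT
  have hU' := hU X.JL (X.JL_closed hI) (fun Y hY Z => X.JL_ideal Y hY Z)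
    (X.one_sub_alpha hσ hI hα)
  have hV' := hV X.JR (X.JR_closed hI) (fun Y hY Z => X.JR_ideal Y hY Z)
    (X.one_sub_beta hσ hI hβ)
  have hg' := hg (Coord.JI I ι) (Coord.JI_closed hI) (fun Y hY Z => X.JI_ideal Y hY Z) (by
    intro i j
    rw [Matrix.single_apply]
    split_ifs
    · exact hf
    · exact I.zero_mem)
  have hUg := (X.JI_ideal g hg' U).2
  have e1 : X.x j₀ * f * X.x k₀ = ∑ l, (∑ i, X.x i * (Matrix.single j₀ k₀ f) i l) * X.x l := by
    rw [Finset.sum_eq_single k₀]
    · rw [Finset.sum_eq_single j₀]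
      · rw [Matrix.single_apply_same]
      · intro i _ hi
        rw [Matrix.single_apply_of_row_ne (Ne.symm hi), mul_zero]
      · intro h; exact absurd (Finset.mem_univ _) h
    · intro l _ hl
      rw [Finset.sum_eq_zero, zero_mul]
      intro i _
      rw [Matrix.single_apply_of_col_ne _ _ (Ne.symm hl), mul_zero]
    · intro h; exact absurd (Finset.mem_univ _) h
  have e2 : ∀ P Q : Matrix ι ι (L G), ∑ l, (∑ i, X.x i * (P * Q) i l) * X.x l =
      ∑ m, (∑ i, X.x i * P i m) * (∑ l, Q m l * X.x l) := by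
    intro P Q
    have a1 : ∀ l, (∑ i, X.x i * (P * Q) i l) * X.x l =
        ∑ m, (∑ i, X.x i * P i m) * (Q m l * X.x l) := by
      intro l
      have : ∑ i, X.x i * (P * Q) i l = ∑ m, (∑ i, X.x i * P i m) * Q m l := by
        simp_rw [Matrix.mul_apply, Finset.mul_sum, Finset.sum_mul]
        rw [Finset.sum_comm]
        simp_rw [mul_assoc]
      rw [this, Finset.sum_mul]
      simp_rw [mul_assoc]
    simp_rw [a1]
    rw [Finset.sum_comm]
    simp_rw [Finset.mul_sum]
  rw [e1, hF]
  have e3 : ∑ l, (∑ i, X.x i * ((1 - U) * g + U * g * (1 - V)) i l) * X.x l =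
      ∑ l, (∑ i, X.x i * ((1 - U) * g) i l) * X.x l +
        ∑ l, (∑ i, X.x i * ((U * g) * (1 - V)) i l) * X.x l := by
    rw [← Finset.sum_add_distrib]
    apply Finset.sum_congr rfl
    intro l _
    rw [← add_mul, ← Finset.sum_add_distrib]
    congr 1
    apply Finset.sum_congr rfl
    intro i _
    rw [Matrix.add_apply, mul_add]
  rw [e3, e2, e2]
  apply Submodule.add_mem
  · exact Submodule.sum_mem _ fun m _ => mul_mem_sq (hU' m)
      (I.sum_mem fun l _ => (X.hideal _ (hg' m l) _).1)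
  · exact Submodule.sum_mem _ fun m _ => mul_mem_sq
      (I.sum_mem fun i _ => (X.hideal _ (hUg i m) _).2) (hV' m)

/-- **Main theorem.** For every discrete group `G`, every closed two-sided ideal of finite
codimension in `ℓ¹(G)` is idempotent. -/
theorem cofinite_idempotent (I : Submodule ℂ (L G)) (hI : IsClosed (I : Set (L G)))
    (hideal : ∀ a ∈ I, ∀ b, a * b ∈ I ∧ b * a ∈ I) [hfin : FiniteDimensional ℂ (L G ⧸ I)] :
    Submodule.span ℂ {h : L G | ∃ a ∈ I, ∃ b ∈ I, h = a * b} = I := by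
  apply le_antisymm
  · rw [Submodule.span_le]
    rintro h ⟨a, ha, b, -, rfl⟩
    exact (hideal a ha b).1
  · intro f hf
    obtain ⟨X⟩ := coord_exists I hI hideal
    show f ∈ sq I
    by_cases hf0 : f = 0
    · rw [hf0]; exact Submodule.zero_mem _
    set e : L G := ∑ i, X.c i 1 • X.x i with he
    have h1 : 1 - e ∈ I := X.hdec 1
    have h2 : f = e * f * e + ((1 - e) * (f * e) + f * (1 - e)) := by noncomm_ring
    have h3 : e * f * e ∈ sq I := by
      have : e * f * e = ∑ i, ∑ j, (X.c i 1 * X.c j 1) • (X.x i * f * X.x j) := by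
        rw [he, Finset.sum_mul, Finset.sum_mul]
        apply Finset.sum_congr rfl
        intro i _
        rw [Finset.mul_sum]
        apply Finset.sum_congr rfl
        intro j _
        rw [smul_mul_assoc, smul_mul_assoc, mul_smul_comm, smul_smul]
      rw [this]
      exact Submodule.sum_mem _ fun i _ => Submodule.sum_mem _ fun j _ =>
        Submodule.smul_mem _ _ (key X hI hf hf0 i j)
    rw [h2]
    exact Submodule.add_mem _ h3 (Submodule.add_mem _ (mul_mem_sq h1 (hideal f hf e).1)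
      (mul_mem_sq hf h1))

end Pool.Agent.V1169.EM
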