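import Mathlib

/-!
Generalised Langton ants: the model, and the basic run lemma.
-/

namespace Pool.Agent.V1169.Ant

/-- The two letters of a rule word. -/
inductive Turn | L | R
  deriving DecidableEq

/-- The four directions. -/
inductive Dir | N | E | S | W
  deriving DecidableEq

/-- The unit vector of a direction. -/
def Dir.vec : Dir → ℤ × ℤ
  | .N => (0, 1)
  | .E => (1, 0)
  | .S => (0, -1)
  | .W => (-1, 0)

/-- Quarter turn: clockwise for `R`, counterclockwise for `L`. -/
def Dir.rot : Dir → Turn → Dir
  | .N, .R => .E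
  | .E, .R => .S
  | .S, .R => .W
  | .W, .R => .N
  | .N, .L => .W
  | .W, .L => .S
  | .S, .L => .E
  | .E, .L => .N

/-- An ant configuration for a rule word of length `m`. -/
structure Config (m : ℕ) where
  /-- the grid -/
  grid : ℤ × ℤ → Fin m
  /-- the position of the ant -/
  pos : ℤ × ℤ
  /-- the direction of the ant -/
  dir : Dir

/-- One step of the generalised ant with rule word `w`. -/
def step {m : ℕ} [NeZero m] (w : Fin m → Turn) (C : Config m) : Config m where
  grid := Function.update C.grid C.pos (C.grid C.pos + 1)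
  pos := C.pos + (C.dir.rot (w (C.grid C.pos))).vec
  dir := C.dir.rot (w (C.grid C.pos))

/-- The set of cells visited infinitely often. -/
def Rec {m : ℕ} [NeZero m] (w : Fin m → Turn) (C : Config m) : Set (ℤ × ℤ) :=
  {x | {t : ℕ | ((step w)^[t] C).pos = x}.Infinite}

/-- The rule word `RL` of Langton's ant. -/
def langton : Fin 2 → Turn := ![Turn.R, Turn.L]

/-- The step map of Langton's ant. -/
abbrev T : Config 2 → Config 2 := step langton

theorem config_ext {C D : Config 2} (h1 : C.grid = D.grid) (h2 : C.pos = D.pos)
    (h3 : C.dir = D.dir) : C = D := by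
  cases C; cases D; simp_all

/-! ### Runs along an explicit list of turns -/

/-- final position -/
def endPos : ℤ × ℤ → Dir → List Turn → ℤ × ℤ
  | p, _, [] => p
  | p, d, t :: ts => endPos (p + (d.rot t).vec) (d.rot t) ts

/-- final direction -/
def endDir : Dir → List Turn → Dir
  | d, [] => d
  | d, t :: ts => endDir (d.rot t) ts

/-- the list of visited positions (excluding the final one) -/
def visits : ℤ × ℤ → Dir → List Turn → List (ℤ × ℤ)
  | _, _, [] => []
  | p, d, t :: ts => p :: visits (p + (d.rot t).vec) (d.rot t) ts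

/-- number of occurrences of `x`, as an element of `Fin 2` -/
def cnt (l : List (ℤ × ℤ)) (x : ℤ × ℤ) : Fin 2 :=
  l.foldr (fun p acc => (if p = x then 1 else 0) + acc) 0

@[simp] theorem cnt_nil (x : ℤ × ℤ) : cnt [] x = 0 := rfl

@[simp] theorem cnt_cons (p : ℤ × ℤ) (l : List (ℤ × ℤ)) (x : ℤ × ℤ) :
    cnt (p :: l) x = (if p = x then 1 else 0) + cnt l x := rfl

theorem cnt_eq_zero {l : List (ℤ × ℤ)} {x : ℤ × ℤ} (h : x ∉ l) : cnt l x = 0 := by
  induction l with
  | nil => rfl
  | cons p l ih =>
    simp only [List.mem_cons, not_or] at h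
    rw [cnt_cons, ih h.2, if_neg (fun hh => h.1 hh.symm)]; rfl

/-- `chk P vis p d ts` checks that the list of turns `ts` is followed by the ant starting at
`p` with direction `d` when the initial grid is given by the partial pattern `P` and the cells
in `vis` have already been visited. -/
def chk (P : ℤ × ℤ → Option (Fin 2)) : (vis : List (ℤ × ℤ)) → ℤ × ℤ → Dir → List Turn → Bool
  | _, _, _, [] => true
  | vis, p, d, t :: ts =>
    (match P p with
      | none => false
      | some v => decide (langton (v + cnt vis p) = t)) &&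
    chk P (p :: vis) (p + (d.rot t).vec) (d.rot t) ts

theorem run_aux (P : ℤ × ℤ → Option (Fin 2)) (τ : ℤ × ℤ) (g : ℤ × ℤ → Fin 2)
    (hg : ∀ x v, P x = some v → g (x + τ) = v) (ts : List Turn) :
    ∀ (vis : List (ℤ × ℤ)) (p : ℤ × ℤ) (d : Dir) (C : Config 2),
      chk P vis p d ts = true → C.pos = p + τ → C.dir = d →
      (∀ x, C.grid x = g x + cnt vis (x - τ)) →
      ((T^[ts.length] C).pos = endPos p d ts + τ ∧ (T^[ts.length] C).dir = endDir d ts ∧
        (∀ x, (T^[ts.length] C).grid x = C.grid x + cnt (visits p d ts) (x - τ)) ∧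
        ∀ j < ts.length, (T^[j] C).pos - τ ∈ visits p d ts) := by
  induction ts with
  | nil =>
    intro vis p d C _ hp hd _
    refine ⟨hp, hd, fun x => ?_, fun j hj => ?_⟩
    · simp [visits]
    · simp at hj
  | cons t ts ih =>
    intro vis p d C hchk hp hd hgr
    rw [chk, Bool.and_eq_true] at hchk
    obtain ⟨h1, h2⟩ := hchk
    -- the turn is the right one
    have hturn : langton (C.grid C.pos) = t := by
      rw [hgr, hp]
      rcases hPp : P p with _ | v
      · rw [hPp] at h1; simp at h1
      · rw [hPp] at h1
        have h3 := of_decide_eq_true h1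
        rw [hg p v hPp, add_sub_cancel_right]
        exact h3
    have hT : T C = ⟨Function.update C.grid C.pos (C.grid C.pos + 1),
        C.pos + (d.rot t).vec, d.rot t⟩ := by
      show step langton C = _
      unfold step
      rw [hturn, hd]
    have hp' : (T C).pos = (p + (d.rot t).vec) + τ := by
      rw [hT]; show C.pos + (d.rot t).vec = _
      rw [hp]; abel
    have hd' : (T C).dir = d.rot t := by rw [hT]
    have hgT : ∀ x, (T C).grid x = C.grid x + (if p = x - τ then 1 else 0) := by
      intro x
      rw [hT]
      show Function.update C.grid C.pos (C.grid C.pos + 1) x = _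
      by_cases hx : x = C.pos
      · subst hx
        rw [Function.update_self, if_pos (by rw [hp, add_sub_cancel_right])]
      · rw [Function.update_of_ne hx, if_neg, add_zero]
        intro hh
        apply hx
        rw [hp, hh, sub_add_cancel]
    have hgr' : ∀ x, (T C).grid x = g x + cnt (p :: vis) (x - τ) := by
      intro x
      rw [hgT, hgr, cnt_cons, add_assoc, add_comm (cnt vis (x - τ))]
    obtain ⟨a1, a2, a3, a4⟩ := ih (p :: vis) (p + (d.rot t).vec) (d.rot t) (T C) h2 hp' hd' hgr'
    have hit : ∀ j, T^[j + 1] C = T^[j] (T C) := fun j => Function.iterate_succ_apply _ _ _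
    refine ⟨?_, ?_, ?_, ?_⟩
    · rw [List.length_cons, hit, a1]; rfl
    · rw [List.length_cons, hit, a2]; rfl
    · intro x
      rw [List.length_cons, hit, a3, hgT]
      show _ = C.grid x + ((if p = x - τ then 1 else 0) +
        cnt (visits (p + (d.rot t).vec) (d.rot t) ts) (x - τ))
      rw [add_assoc]
    · intro j hj
      rcases j with _ | j
      · show C.pos - τ ∈ _
        rw [hp, add_sub_cancel_right]
        exact List.mem_cons_self
      · rw [hit]
        exact List.mem_cons_of_mem _ (a4 j (by simpa using hj))

/-- Main run lemma. -/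
theorem run (P : ℤ × ℤ → Option (Fin 2)) (τ : ℤ × ℤ) (ts : List Turn) (p : ℤ × ℤ) (d : Dir)
    (hchk : chk P [] p d ts = true) (C : Config 2) (hp : C.pos = p + τ) (hd : C.dir = d)
    (hg : ∀ x v, P x = some v → C.grid (x + τ) = v) :
    ((T^[ts.length] C).pos = endPos p d ts + τ ∧ (T^[ts.length] C).dir = endDir d ts ∧
      (∀ x, (T^[ts.length] C).grid x = C.grid x + cnt (visits p d ts) (x - τ)) ∧
      ∀ j < ts.length, (T^[j] C).pos - τ ∈ visits p d ts) :=
  run_aux P τ C.grid hg ts [] p d C hchk hp hd (fun x => by simp)

/-! ### Rotation by 180 degrees -/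

/-- rotation of the plane about `(1/2, 1/2)` -/
def rho (x : ℤ × ℤ) : ℤ × ℤ := (1 - x.1, 1 - x.2)

theorem rho_rho (x : ℤ × ℤ) : rho (rho x) = x := by
  unfold rho; ext <;> simp

/-- opposite direction -/
def Dir.opp : Dir → Dir
  | .N => .S
  | .S => .N
  | .E => .W
  | .W => .E

theorem opp_opp (d : Dir) : d.opp.opp = d := by cases d <;> rfl

theorem opp_rot (d : Dir) (t : Turn) : d.opp.rot t = (d.rot t).opp := by
  cases d <;> cases t <;> rfl

theorem rho_add (x : ℤ × ℤ) (d : Dir) : rho (x + d.vec) = rho x + d.opp.vec := by
  cases d <;> (unfold rho Dir.opp Dir.vec; ext <;> simp <;> ring)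

/-- rotated configuration -/
def rotC (C : Config 2) : Config 2 := ⟨fun x => C.grid (rho x), rho C.pos, C.dir.opp⟩

theorem rotC_rotC (C : Config 2) : rotC (rotC C) = C := by
  apply config_ext
  · funext x; show C.grid (rho (rho x)) = _; rw [rho_rho]
  · show rho (rho C.pos) = _; rw [rho_rho]
  · show C.dir.opp.opp = _; rw [opp_opp]

theorem T_rotC (C : Config 2) : T (rotC C) = rotC (T C) := by
  have e : (rotC C).grid (rotC C).pos = C.grid C.pos := by
    show C.grid (rho (rho C.pos)) = _; rw [rho_rho]
  apply config_ext
  · funext x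
    show Function.update (rotC C).grid (rotC C).pos ((rotC C).grid (rotC C).pos + 1) x
      = Function.update C.grid C.pos (C.grid C.pos + 1) (rho x)
    rw [e]
    by_cases hx : x = (rotC C).pos
    · rw [hx, Function.update_self]
      have : rho (rotC C).pos = C.pos := rho_rho _
      rw [this, Function.update_self]
    · rw [Function.update_of_ne hx, Function.update_of_ne]
      · rfl
      · intro hh
        apply hx
        show x = rho C.pos
        rw [← hh, rho_rho]
  · show rho C.pos + ((rotC C).dir.rot (langton ((rotC C).grid (rotC C).pos))).vec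
      = rho (C.pos + (C.dir.rot (langton (C.grid C.pos))).vec)
    rw [e, rho_add]
    show rho C.pos + (C.dir.opp.rot (langton (C.grid C.pos))).vec = _
    rw [opp_rot]
  · show (rotC C).dir.rot (langton ((rotC C).grid (rotC C).pos))
      = (C.dir.rot (langton (C.grid C.pos))).opp
    rw [e]
    exact opp_rot _ _

theorem iter_rotC (k : ℕ) (C : Config 2) : T^[k] (rotC C) = rotC (T^[k] C) := by
  induction k generalizing C with
  | zero => rfl
  | succ k ih => rw [Function.iterate_succ_apply, Function.iterate_succ_apply, T_rotC, ih]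

end Pool.Agent.V1169.Ant
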