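import Pool.Agent.V1169.Ant1

namespace Pool.Agent.V1169.Ant

/-! ### Passing through transparent rows -/

/-- lookup in an association list -/
def look : List ((ℤ × ℤ) × Fin 2) → ℤ × ℤ → Option (Fin 2)
  | [], _ => none
  | e :: l, x => if e.1 = x then some e.2 else look l x

theorem look_mem {l : List ((ℤ × ℤ) × Fin 2)} {x : ℤ × ℤ} {v : Fin 2}
    (h : look l x = some v) : (x, v) ∈ l := by
  induction l with
  | nil => simp [look] at h
  | cons e l ih =>
    rw [look] at h
    by_cases he : e.1 = x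
    · rw [if_pos he] at h
      have : e = (x, v) := by
        ext1
        · exact he
        · simpa using h
      rw [this]; exact List.mem_cons_self
    · rw [if_neg he] at h
      exact List.mem_cons_of_mem _ (ih h)

/-- Run lemma in the form used below. -/
theorem runL (A : List ((ℤ × ℤ) × Fin 2)) (τ : ℤ × ℤ) (ts : List Turn) (p : ℤ × ℤ) (d : Dir)
    (hchk : chk (look A) [] p d ts = true) (C : Config 2) (hp : C.pos = p + τ) (hd : C.dir = d)
    (hg : ∀ e ∈ A, C.grid (e.1 + τ) = e.2) :
    ((T^[ts.length] C).pos = endPos p d ts + τ ∧ (T^[ts.length] C).dir = endDir d ts ∧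
      (∀ x, (T^[ts.length] C).grid x = C.grid x + cnt (visits p d ts) (x - τ)) ∧
      ∀ j < ts.length, (T^[j] C).pos - τ ∈ visits p d ts) :=
  run (look A) τ ts p d hchk C hp hd (fun x v h => hg (x, v) (look_mem h))

/-- The cell of row `y` in which the ant arrives vertically. -/
def V (y : ℤ) : ℤ × ℤ := (if y % 2 = 0 then 1 else 0, y)

/-- indicator of the part `y0 ≤ y < y1` of the strip -/
def ind (y0 y1 : ℤ) (x : ℤ × ℤ) : Fin 2 :=
  if (x.1 = 0 ∨ x.1 = 1) ∧ y0 ≤ x.2 ∧ x.2 < y1 then 1 else 0

theorem row_up (y : ℤ) (C : Config 2) (hp : C.pos = V y) (hd : C.dir = Dir.N)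
    (h0 : C.grid (0, y) = 0) (h1 : C.grid (1, y) = 1) :
    (T^[2] C).pos = V (y + 1) ∧ (T^[2] C).dir = Dir.N ∧
      (∀ x, (T^[2] C).grid x = C.grid x + ind y (y + 1) x) ∧
      ∀ j < 2, (T^[j] C).pos.1 = 0 ∨ (T^[j] C).pos.1 = 1 := by
  have hA : ∀ e ∈ [(((0 : ℤ), (0 : ℤ)), (0 : Fin 2)), ((1, 0), 1)],
      C.grid (e.1 + ((0 : ℤ), y)) = e.2 := by
    intro e he
    simp only [List.mem_cons, List.not_mem_nil, or_false] at he
    rcases he with rfl | rfl
    · simpa using h0
    · simpa using h1
  rcases Int.emod_two_eq_zero_or_one y with hy | hy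
  · have hV : V y = (1, 0) + ((0 : ℤ), y) := by simp [V, hy]
    have hV' : V (y + 1) = (0, 1) + ((0 : ℤ), y) := by
      have : ¬ (y + 1) % 2 = 0 := by omega
      simp [V, this, add_comm]
    obtain ⟨a1, a2, a3, a4⟩ := runL [(((0 : ℤ), (0 : ℤ)), (0 : Fin 2)), ((1, 0), 1)] (0, y)
      [Turn.L, Turn.R] (1, 0) Dir.N (by decide) C (by rw [hp, hV]) hd hA
    refine ⟨by rw [hV']; exact a1, a2, fun x => ?_, fun j hj => ?_⟩
    · have := a3 x
      rw [show ([Turn.L, Turn.R] : List Turn).length = 2 from rfl] at this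
      rw [this]
      congr 1
      obtain ⟨x1, x2⟩ := x
      simp only [visits, Dir.rot, Dir.vec, cnt_cons, cnt_nil, ind, Prod.mk_sub_mk, Prod.mk_add_mk,
        Prod.mk.injEq]
      by_cases e2 : x2 = y
      · by_cases e0 : x1 = 0
        · subst e0 e2; norm_num
        · by_cases e1 : x1 = 1
          · subst e1 e2; norm_num
          · subst e2
            rw [if_neg (by omega), if_neg (by omega), if_neg (by omega)]; rfl
      · rw [if_neg (by omega), if_neg (by omega), if_neg (by omega)]; rfl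
    · have := a4 j (by simpa using hj)
      simp only [visits, Dir.rot, Dir.vec, List.mem_cons, List.not_mem_nil, or_false] at this
      rcases this with h | h
      · have := congrArg Prod.fst h; simp at this; omega
      · have := congrArg Prod.fst h; simp at this; omega
  · have hV : V y = (0, 0) + ((0 : ℤ), y) := by simp [V, hy]
    have hV' : V (y + 1) = (1, 1) + ((0 : ℤ), y) := by
      have : (y + 1) % 2 = 0 := by omega
      simp [V, this, add_comm]
    obtain ⟨a1, a2, a3, a4⟩ := runL [(((0 : ℤ), (0 : ℤ)), (0 : Fin 2)), ((1, 0), 1)] (0, y)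
      [Turn.R, Turn.L] (0, 0) Dir.N (by decide) C (by rw [hp, hV]) hd hA
    refine ⟨by rw [hV']; exact a1, a2, fun x => ?_, fun j hj => ?_⟩
    · have := a3 x
      rw [show ([Turn.R, Turn.L] : List Turn).length = 2 from rfl] at this
      rw [this]
      congr 1
      obtain ⟨x1, x2⟩ := x
      simp only [visits, Dir.rot, Dir.vec, cnt_cons, cnt_nil, ind, Prod.mk_sub_mk, Prod.mk_add_mk,
        Prod.mk.injEq]
      by_cases e2 : x2 = y
      · by_cases e0 : x1 = 0
        · subst e0 e2; norm_num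
        · by_cases e1 : x1 = 1
          · subst e1 e2; norm_num
          · subst e2
            rw [if_neg (by omega), if_neg (by omega), if_neg (by omega)]; rfl
      · rw [if_neg (by omega), if_neg (by omega), if_neg (by omega)]; rfl
    · have := a4 j (by simpa using hj)
      simp only [visits, Dir.rot, Dir.vec, List.mem_cons, List.not_mem_nil, or_false] at this
      rcases this with h | h
      · have := congrArg Prod.fst h; simp at this; omega
      · have := congrArg Prod.fst h; simp at this; omega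

theorem row_down (y : ℤ) (C : Config 2) (hp : C.pos = V y) (hd : C.dir = Dir.S)
    (h0 : C.grid (0, y) = 1) (h1 : C.grid (1, y) = 0) :
    (T^[2] C).pos = V (y - 1) ∧ (T^[2] C).dir = Dir.S ∧
      (∀ x, (T^[2] C).grid x = C.grid x + ind y (y + 1) x) ∧
      ∀ j < 2, (T^[j] C).pos.1 = 0 ∨ (T^[j] C).pos.1 = 1 := by
  have hA : ∀ e ∈ [(((0 : ℤ), (0 : ℤ)), (1 : Fin 2)), ((1, 0), 0)],
      C.grid (e.1 + ((0 : ℤ), y)) = e.2 := by
    intro e he
    simp only [List.mem_cons, List.not_mem_nil, or_false] at he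
    rcases he with rfl | rfl
    · simpa using h0
    · simpa using h1
  rcases Int.emod_two_eq_zero_or_one y with hy | hy
  · have hV : V y = (1, 0) + ((0 : ℤ), y) := by simp [V, hy]
    have hV' : V (y - 1) = (0, -1) + ((0 : ℤ), y) := by
      have : ¬ (y - 1) % 2 = 0 := by omega
      simp only [V, this, if_false, Prod.mk_add_mk]
      ext <;> simp; ring
    obtain ⟨a1, a2, a3, a4⟩ := runL [(((0 : ℤ), (0 : ℤ)), (1 : Fin 2)), ((1, 0), 0)] (0, y)
      [Turn.R, Turn.L] (1, 0) Dir.S (by decide) C (by rw [hp, hV]) hd hA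
    refine ⟨by rw [hV']; exact a1, a2, fun x => ?_, fun j hj => ?_⟩
    · have := a3 x
      rw [show ([Turn.R, Turn.L] : List Turn).length = 2 from rfl] at this
      rw [this]
      congr 1
      obtain ⟨x1, x2⟩ := x
      simp only [visits, Dir.rot, Dir.vec, cnt_cons, cnt_nil, ind, Prod.mk_sub_mk, Prod.mk_add_mk,
        Prod.mk.injEq]
      by_cases e2 : x2 = y
      · by_cases e0 : x1 = 0
        · subst e0 e2; norm_num
        · by_cases e1 : x1 = 1
          · subst e1 e2; norm_num
          · subst e2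
            rw [if_neg (by omega), if_neg (by omega), if_neg (by omega)]; rfl
      · rw [if_neg (by omega), if_neg (by omega), if_neg (by omega)]; rfl
    · have := a4 j (by simpa using hj)
      simp only [visits, Dir.rot, Dir.vec, List.mem_cons, List.not_mem_nil, or_false] at this
      rcases this with h | h
      · have := congrArg Prod.fst h; simp at this; omega
      · have := congrArg Prod.fst h; simp at this; omega
  · have hV : V y = (0, 0) + ((0 : ℤ), y) := by simp [V, hy]
    have hV' : V (y - 1) = (1, -1) + ((0 : ℤ), y) := by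
      have : (y - 1) % 2 = 0 := by omega
      simp only [V, this, if_true, Prod.mk_add_mk]
      ext <;> simp; ring
    obtain ⟨a1, a2, a3, a4⟩ := runL [(((0 : ℤ), (0 : ℤ)), (1 : Fin 2)), ((1, 0), 0)] (0, y)
      [Turn.L, Turn.R] (0, 0) Dir.S (by decide) C (by rw [hp, hV]) hd hA
    refine ⟨by rw [hV']; exact a1, a2, fun x => ?_, fun j hj => ?_⟩
    · have := a3 x
      rw [show ([Turn.L, Turn.R] : List Turn).length = 2 from rfl] at this
      rw [this]
      congr 1
      obtain ⟨x1, x2⟩ := x
      simp only [visits, Dir.rot, Dir.vec, cnt_cons, cnt_nil, ind, Prod.mk_sub_mk, Prod.mk_add_mk,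
        Prod.mk.injEq]
      by_cases e2 : x2 = y
      · by_cases e0 : x1 = 0
        · subst e0 e2; norm_num
        · by_cases e1 : x1 = 1
          · subst e1 e2; norm_num
          · subst e2
            rw [if_neg (by omega), if_neg (by omega), if_neg (by omega)]; rfl
      · rw [if_neg (by omega), if_neg (by omega), if_neg (by omega)]; rfl
    · have := a4 j (by simpa using hj)
      simp only [visits, Dir.rot, Dir.vec, List.mem_cons, List.not_mem_nil, or_false] at this
      rcases this with h | h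
      · have := congrArg Prod.fst h; simp at this; omega
      · have := congrArg Prod.fst h; simp at this; omega

theorem ind_add {y0 y1 y2 : ℤ} (h1 : y0 ≤ y1) (h2 : y1 ≤ y2) (x : ℤ × ℤ) :
    ind y0 y1 x + ind y1 y2 x = ind y0 y2 x := by
  unfold ind
  by_cases hs : x.1 = 0 ∨ x.1 = 1
  · by_cases ha : y0 ≤ x.2 ∧ x.2 < y1
    · rw [if_pos ⟨hs, ha⟩, if_neg (by rintro ⟨-, h3, -⟩; omega), if_pos ⟨hs, ha.1, by omega⟩]
      rfl
    · rw [if_neg (fun h => ha h.2)]
      by_cases hb : y1 ≤ x.2 ∧ x.2 < y2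
      · rw [if_pos ⟨hs, hb⟩, if_pos ⟨hs, by omega, hb.2⟩]; rfl
      · rw [if_neg (fun h => hb h.2), if_neg (by rintro ⟨-, h3, h4⟩; omega)]; rfl
  · rw [if_neg (fun h => hs h.1), if_neg (fun h => hs h.1), if_neg (fun h => hs h.1)]; rfl

theorem ind_off {y0 y1 : ℤ} {x : ℤ × ℤ} (h : x.2 < y0 ∨ y1 ≤ x.2) : ind y0 y1 x = 0 := by
  unfold ind; rw [if_neg]; rintro ⟨-, h3, h4⟩; omega

theorem pass_up (k : ℕ) : ∀ (y : ℤ) (C : Config 2), C.pos = V y → C.dir = Dir.N →
    (∀ y', y ≤ y' → y' < y + k → C.grid (0, y') = 0 ∧ C.grid (1, y') = 1) →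
    (T^[2 * k] C).pos = V (y + k) ∧ (T^[2 * k] C).dir = Dir.N ∧
      (∀ x, (T^[2 * k] C).grid x = C.grid x + ind y (y + k) x) ∧
      ∀ j < 2 * k, (T^[j] C).pos.1 = 0 ∨ (T^[j] C).pos.1 = 1 := by
  induction k with
  | zero =>
    intro y C hp hd _
    refine ⟨by simpa using hp, hd, fun x => ?_, fun j hj => by omega⟩
    rw [ind_off (by push_cast; omega), add_zero]; rfl
  | succ k ih =>
    intro y C hp hd hrow
    obtain ⟨b1, b2, b3, b4⟩ := row_up y C hp hd (hrow y le_rfl (by push_cast; omega)).1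
      (hrow y le_rfl (by push_cast; omega)).2
    obtain ⟨c1, c2, c3, c4⟩ := ih (y + 1) (T^[2] C) b1 b2 (by
      intro y' h1 h2
      rw [b3, b3, ind_off (by show _ ∨ y + 1 ≤ y'; omega), ind_off (by show _ ∨ y + 1 ≤ y'; omega),
        add_zero, add_zero]
      exact hrow y' (by omega) (by push_cast; omega))
    have hit : ∀ j, T^[j + 2] C = T^[j] (T^[2] C) := fun j => Function.iterate_add_apply _ _ _ _
    have e : 2 * (k + 1) = 2 * k + 2 := by ring
    have e2 : y + ((k + 1 : ℕ) : ℤ) = y + 1 + k := by push_cast; ring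
    refine ⟨?_, ?_, ?_, ?_⟩
    · rw [e, hit, c1, e2]
    · rw [e, hit, c2]
    · intro x
      rw [e, hit, c3, b3, e2, add_assoc, ind_add (by omega) (by omega)]
    · intro j hj
      by_cases hj2 : j < 2
      · exact b4 j hj2
      · obtain ⟨i, rfl⟩ : ∃ i, j = i + 2 := ⟨j - 2, by omega⟩
        rw [hit]
        exact c4 i (by omega)

theorem pass_down (k : ℕ) : ∀ (y : ℤ) (C : Config 2), C.pos = V y → C.dir = Dir.S →
    (∀ y', y - k < y' → y' ≤ y → C.grid (0, y') = 1 ∧ C.grid (1, y') = 0) →
    (T^[2 * k] C).pos = V (y - k) ∧ (T^[2 * k] C).dir = Dir.S ∧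
      (∀ x, (T^[2 * k] C).grid x = C.grid x + ind (y - k + 1) (y + 1) x) ∧
      ∀ j < 2 * k, (T^[j] C).pos.1 = 0 ∨ (T^[j] C).pos.1 = 1 := by
  induction k with
  | zero =>
    intro y C hp hd _
    refine ⟨by simpa using hp, hd, fun x => ?_, fun j hj => by omega⟩
    rw [ind_off (by push_cast; omega), add_zero]; rfl
  | succ k ih =>
    intro y C hp hd hrow
    obtain ⟨b1, b2, b3, b4⟩ := row_down y C hp hd (hrow y (by push_cast; omega) le_rfl).1
      (hrow y (by push_cast; omega) le_rfl).2
    obtain ⟨c1, c2, c3, c4⟩ := ih (y - 1) (T^[2] C) b1 b2 (by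
      intro y' h1 h2
      rw [b3, b3, ind_off (by show y' < y ∨ _; omega), ind_off (by show y' < y ∨ _; omega),
        add_zero, add_zero]
      exact hrow y' (by push_cast; omega) (by omega))
    have hit : ∀ j, T^[j + 2] C = T^[j] (T^[2] C) := fun j => Function.iterate_add_apply _ _ _ _
    have e : 2 * (k + 1) = 2 * k + 2 := by ring
    have e2 : y - ((k + 1 : ℕ) : ℤ) = y - 1 - k := by push_cast; ring
    refine ⟨?_, ?_, ?_, ?_⟩
    · rw [e, hit, c1, e2]
    · rw [e, hit, c2]
    · intro x
      rw [e, hit, c3, b3, e2, add_assoc, show y - 1 + 1 = y by ring,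
        add_comm (ind y (y + 1) x), ind_add (by omega) (by omega)]
    · intro j hj
      by_cases hj2 : j < 2
      · exact b4 j hj2
      · obtain ⟨i, rfl⟩ : ∃ i, j = i + 2 := ⟨j - 2, by omega⟩
        rw [hit]
        exact c4 i (by omega)

end Pool.Agent.V1169.Ant
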