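import Pool.Agent.V1169.Ant2

namespace Pool.Agent.V1169.Ant

/-! ### The periodic pattern and the reflectors -/

/-- the cells with letter `L` of the periodic pattern (all the others have letter `R`) -/
def Lcells : List (ℤ × ℤ) :=
  [(0, 1), (0, 2), (0, 3), (0, 5), (1, 1), (1, 3), (2, 5), (2, 0), (2, 1), (2, 3), (3, 5), (3, 2),
    (4, 0), (4, 1), (-2, 3), (-2, 4), (-1, 5)]

/-- the pattern, of period `6` in the vertical direction; `0` is `R` and `1` is `L` -/
def P (x : ℤ × ℤ) : Fin 2 := if (x.1, x.2 % 6) ∈ Lcells then 1 else 0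

theorem P_shift (x : ℤ × ℤ) (k : ℤ) : P (x + (0, 6 * k)) = P x := by
  unfold P
  have h1 : (x + ((0 : ℤ), 6 * k)).1 = x.1 := by simp
  have h2 : (x + ((0 : ℤ), 6 * k)).2 % 6 = x.2 % 6 := by
    show (x.2 + 6 * k) % 6 = _
    omega
  rw [h1, h2]

/-- The part `y ≥ 1` of the grid when the upper reflector is in row `a`. -/
structure Top (a : ℤ) (g : ℤ × ℤ → Fin 2) : Prop where
  ha : a % 3 = 0
  ha3 : 3 ≤ a
  tr0 : ∀ y, 1 ≤ y → y < a → g (0, y) = 0
  tr1 : ∀ y, 1 ≤ y → y < a → g (1, y) = 1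
  f0 : g (0, a) = 1
  f1 : g (1, a) = 0
  side : ∀ x y, (a % 6 = 0 → 2 ≤ x) → (a % 6 ≠ 0 → x ≤ -1) → a - 1 ≤ y → y ≤ a →
    g (x, y) = P (x, y)
  fresh : ∀ x y, a + 1 ≤ y → g (x, y) = P (x, y)

theorem Top.congr {a : ℤ} {g g' : ℤ × ℤ → Fin 2} (h : Top a g)
    (he : ∀ x y, 1 ≤ y → g' (x, y) = g (x, y)) : Top a g' := by
  have h3 := h.ha3
  refine ⟨h.ha, h.ha3, ?_, ?_, ?_, ?_, ?_, ?_⟩
  · intro y h1 h2; rw [he _ _ h1]; exact h.tr0 y h1 h2
  · intro y h1 h2; rw [he _ _ h1]; exact h.tr1 y h1 h2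
  · rw [he _ _ (by omega)]; exact h.f0
  · rw [he _ _ (by omega)]; exact h.f1
  · intro x y h1 h2 h4 h5; rw [he _ _ (by omega)]; exact h.side x y h1 h2 h4 h5
  · intro x y h1; rw [he _ _ (by omega)]; exact h.fresh x y h1

/-- turns of the reflector in a row divisible by `6` -/
def tsE : List Turn :=
  [.R, .L, .L, .L, .L, .R, .L, .L, .R, .L, .L, .R, .L, .R, .L, .L, .R, .L, .L, .R, .R, .L]

/-- initial letters used by the reflector in a row divisible by `6` -/
def asE : List ((ℤ × ℤ) × Fin 2) :=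
  [((1, 0), 0), ((0, 0), 1), ((2, 0), 1), ((2, -1), 1), ((3, -1), 1), ((3, 0), 0), ((4, 0), 1),
    ((2, 1), 1), ((1, 1), 1), ((4, 1), 1), ((3, 1), 0), ((3, 2), 1), ((2, 2), 0), ((2, 3), 1),
    ((1, 3), 1), ((1, 2), 0), ((0, 2), 1), ((0, 1), 1)]

/-- turns of the reflector in a row congruent to `3` modulo `6` -/
def tsO : List Turn :=
  [.L, .R, .R, .R, .R, .L, .R, .R, .L, .R, .R, .L, .R, .L, .R, .R, .L, .R, .R, .L, .L, .R]

/-- initial letters used by the reflector in a row congruent to `3` modulo `6` -/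
def asO : List ((ℤ × ℤ) × Fin 2) :=
  [((0, 3), 1), ((1, 3), 0), ((-1, 3), 0), ((-1, 2), 0), ((-2, 2), 0), ((-2, 3), 1), ((-3, 3), 0),
    ((-1, 4), 0), ((0, 4), 0), ((-3, 4), 0), ((-2, 4), 1), ((-2, 5), 0), ((-1, 5), 1),
    ((-1, 6), 0), ((0, 6), 0), ((0, 5), 1), ((1, 5), 0), ((1, 4), 0)]

theorem chkE : chk (look asE) [] (1, 0) Dir.N tsE = true := by decide

theorem chkO : chk (look asO) [] (0, 3) Dir.N tsO = true := by decide

/-- visited cells -/
def viE : List (ℤ × ℤ) := visits (1, 0) Dir.N tsE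

/-- visited cells -/
def viO : List (ℤ × ℤ) := visits (0, 3) Dir.N tsO

theorem viE_cond : ∀ q ∈ viE, (-3 ≤ q.1 ∧ q.1 ≤ 4) ∧ -1 ≤ q.2 ∧ q.2 ≤ 3 ∧ 0 ≤ q.1 ∧
    ((q.1 = 0 ∨ q.1 = 1) → 0 ≤ q.2) := by decide

theorem viO_cond : ∀ q ∈ viO, (-3 ≤ q.1 ∧ q.1 ≤ 4) ∧ 2 ≤ q.2 ∧ q.2 ≤ 6 ∧ q.1 ≤ 1 ∧
    ((q.1 = 0 ∨ q.1 = 1) → 3 ≤ q.2) := by decide

theorem Top.asE_hyp {k : ℤ} {g : ℤ × ℤ → Fin 2} (h : Top (6 * k) g) :
    ∀ e ∈ asE, g (e.1 + (0, 6 * k)) = e.2 := by
  have hfr : ∀ x y, 1 ≤ y → g ((x, y) + (0, 6 * k)) = P (x, y) := by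
    intro x y hy
    rw [← P_shift (x, y) k]
    exact h.fresh _ _ (by show 6 * k + 1 ≤ y + 6 * k; omega)
  have hsd : ∀ x y, 2 ≤ x → -1 ≤ y → y ≤ 0 → g ((x, y) + (0, 6 * k)) = P (x, y) := by
    intro x y hx hy hy2
    rw [← P_shift (x, y) k]
    refine h.side _ _ (fun _ => ?_) (fun h6 => ?_) ?_ ?_
    · show 2 ≤ x + 0; omega
    · exfalso; apply h6; omega
    · show _ ≤ y + 6 * k; omega
    · show y + 6 * k ≤ _; omega
  intro e he
  simp only [asE, List.mem_cons, List.not_mem_nil, or_false] at he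
  rcases he with rfl | rfl | rfl | rfl | rfl | rfl | rfl | rfl | rfl | rfl | rfl | rfl | rfl |
    rfl | rfl | rfl | rfl | rfl
  · simpa using h.f1
  · simpa using h.f0
  · rw [hsd _ _ (by norm_num) (by norm_num) (by norm_num)]; decide
  · rw [hsd _ _ (by norm_num) (by norm_num) (by norm_num)]; decide
  · rw [hsd _ _ (by norm_num) (by norm_num) (by norm_num)]; decide
  · rw [hsd _ _ (by norm_num) (by norm_num) (by norm_num)]; decide
  · rw [hsd _ _ (by norm_num) (by norm_num) (by norm_num)]; decide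
  all_goals (rw [hfr _ _ (by norm_num)]; decide)

theorem Top.asO_hyp {k : ℤ} {g : ℤ × ℤ → Fin 2} (h : Top (3 + 6 * k) g) :
    ∀ e ∈ asO, g (e.1 + (0, 6 * k)) = e.2 := by
  have hfr : ∀ x y, 4 ≤ y → g ((x, y) + (0, 6 * k)) = P (x, y) := by
    intro x y hy
    rw [← P_shift (x, y) k]
    exact h.fresh _ _ (by show 3 + 6 * k + 1 ≤ y + 6 * k; omega)
  have hsd : ∀ x y, x ≤ -1 → 2 ≤ y → y ≤ 3 → g ((x, y) + (0, 6 * k)) = P (x, y) := by
    intro x y hx hy hy2
    rw [← P_shift (x, y) k]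
    refine h.side _ _ (fun h6 => ?_) (fun _ => ?_) ?_ ?_
    · exfalso; omega
    · show x + 0 ≤ -1; omega
    · show _ ≤ y + 6 * k; omega
    · show y + 6 * k ≤ _; omega
  intro e he
  simp only [asO, List.mem_cons, List.not_mem_nil, or_false] at he
  rcases he with rfl | rfl | rfl | rfl | rfl | rfl | rfl | rfl | rfl | rfl | rfl | rfl | rfl |
    rfl | rfl | rfl | rfl | rfl
  · simpa using h.f0
  · simpa using h.f1
  · rw [hsd _ _ (by norm_num) (by norm_num) (by norm_num)]; decide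
  · rw [hsd _ _ (by norm_num) (by norm_num) (by norm_num)]; decide
  · rw [hsd _ _ (by norm_num) (by norm_num) (by norm_num)]; decide
  · rw [hsd _ _ (by norm_num) (by norm_num) (by norm_num)]; decide
  · rw [hsd _ _ (by norm_num) (by norm_num) (by norm_num)]; decide
  all_goals (rw [hfr _ _ (by norm_num)]; decide)

/-- Data of a reflector event in row `a`: the list of (relative) visited cells. -/
theorem reflect {a : ℤ} {g : ℤ × ℤ → Fin 2} (h : Top a g) :
    ∃ (τ : ℤ) (vi : List (ℤ × ℤ)) (K : ℕ),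
      (∀ C : Config 2, C.pos = V a → C.dir = Dir.N →
        (∀ x y, (x ≠ 0 ∧ x ≠ 1) ∨ a ≤ y → C.grid (x, y) = g (x, y)) →
        (T^[K] C).pos = V (a - 1) ∧ (T^[K] C).dir = Dir.S ∧
        (∀ x, (T^[K] C).grid x = C.grid x + cnt vi (x - (0, τ))) ∧
        ∀ j < K, -3 ≤ (T^[j] C).pos.1 ∧ (T^[j] C).pos.1 ≤ 4) ∧
      (∀ x y, y ≤ 0 → cnt vi ((x, y) - (0, τ)) = 0) ∧
      (∀ x y, (x = 0 ∨ x = 1) → y < a → cnt vi ((x, y) - (0, τ)) = 0) ∧
      Top (a + 3) (fun x => g x + cnt vi (x - (0, τ))) := by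
  have ha := h.ha
  have ha3 := h.ha3
  have h6 : a % 6 = 0 ∨ a % 6 = 3 := by omega
  rcases h6 with h6 | h6
  · -- row divisible by 6
    obtain ⟨k, rfl⟩ : ∃ k, a = 6 * k := ⟨a / 6, by omega⟩
    have hz : ∀ x y, (y < 6 * k - 1 ∨ 6 * k + 3 < y ∨ x < 0 ∨
        ((x = 0 ∨ x = 1) ∧ y < 6 * k)) → cnt viE ((x, y) - (0, 6 * k)) = 0 := by
      intro x y hxy
      apply cnt_eq_zero
      intro hm
      have := viE_cond _ hm
      simp only [Prod.mk_sub_mk, sub_zero] at this
      obtain ⟨-, h1, h2, h3, h4⟩ := this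
      rcases hxy with h5 | h5 | h5 | ⟨h5, h7⟩
      · omega
      · omega
      · omega
      · have := h4 h5; omega
    refine ⟨6 * k, viE, 22, ?_, ?_, ?_, ?_⟩
    · intro C hp hd hg
      have hA : ∀ e ∈ asE, C.grid (e.1 + (0, 6 * k)) = e.2 := by
        intro e he
        rw [← h.asE_hyp e he]
        have hc : ∀ e ∈ asE, (e.1.1 ≠ 0 ∧ e.1.1 ≠ 1) ∨ 0 ≤ e.1.2 := by decide
        have := hc e he
        apply hg
        rcases this with h1 | h1
        · left; simpa using h1
        · right; omega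
      have hV : V (6 * k) = (1, 0) + ((0 : ℤ), 6 * k) := by
        have : (6 * k) % 2 = 0 := by omega
        simp [V, this]
      have hV' : V (6 * k - 1) = (0, -1) + ((0 : ℤ), 6 * k) := by
        have : ¬ (6 * k - 1) % 2 = 0 := by omega
        simp only [V, this, if_false, Prod.mk_add_mk]
        ext <;> simp; ring
      obtain ⟨b1, b2, b3, b4⟩ := runL asE (0, 6 * k) tsE (1, 0) Dir.N chkE C
        (by rw [hp, hV]) hd hA
      have hlen : tsE.length = 22 := rfl
      rw [hlen] at b1 b2 b3 b4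
      have e1 : endPos (1, 0) Dir.N tsE = (0, -1) := by decide
      have e2 : endDir Dir.N tsE = Dir.S := by decide
      refine ⟨by rw [b1, e1, hV'], by rw [b2, e2], b3, fun j hj => ?_⟩
      have := (viE_cond _ (b4 j hj)).1
      simp only [Prod.fst_sub, sub_zero] at this
      exact this
    · intro x y hy; exact hz x y (Or.inl (by omega))
    · intro x y hx hy; exact hz x y (Or.inr (Or.inr (Or.inr ⟨hx, hy⟩)))
    · have hfr : ∀ x y, 1 ≤ y → g ((x, y) + (0, 6 * k)) = P (x, y) := by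
        intro x y hy
        rw [← P_shift (x, y) k]
        exact h.fresh _ _ (by show 6 * k + 1 ≤ y + 6 * k; omega)
      -- evaluation at explicit cells
      have hev : ∀ x i : ℤ, g (x, 6 * k + i) + cnt viE ((x, 6 * k + i) - (0, 6 * k))
          = g ((x, i) + (0, 6 * k)) + cnt viE (x, i) := by
        intro x i
        have e1 : ((x, 6 * k + i) : ℤ × ℤ) = (x, i) + (0, 6 * k) := by
          ext <;> simp; ring
        rw [e1, add_sub_cancel_right]
      refine ⟨by omega, by omega, ?_, ?_, ?_, ?_, ?_, ?_⟩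
      · intro y h1 h2
        by_cases hy : y < 6 * k
        · show g (0, y) + cnt viE ((0, y) - (0, 6 * k)) = 0
          rw [hz 0 y (Or.inr (Or.inr (Or.inr ⟨Or.inl rfl, hy⟩))), add_zero]
          exact h.tr0 y h1 hy
        · obtain ⟨i, rfl⟩ : ∃ i, y = 6 * k + i := ⟨y - 6 * k, by ring⟩
          rw [hev]
          have : i = 0 ∨ i = 1 ∨ i = 2 := by omega
          rcases this with rfl | rfl | rfl
          · have : g ((0, 0) + (0, 6 * k)) = 1 := by simpa using h.f0
            rw [this]; decide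
          · rw [hfr _ _ (by norm_num)]; decide
          · rw [hfr _ _ (by norm_num)]; decide
      · intro y h1 h2
        by_cases hy : y < 6 * k
        · show g (1, y) + cnt viE ((1, y) - (0, 6 * k)) = 1
          rw [hz 1 y (Or.inr (Or.inr (Or.inr ⟨Or.inr rfl, hy⟩))), add_zero]
          exact h.tr1 y h1 hy
        · obtain ⟨i, rfl⟩ : ∃ i, y = 6 * k + i := ⟨y - 6 * k, by ring⟩
          rw [hev]
          have : i = 0 ∨ i = 1 ∨ i = 2 := by omega
          rcases this with rfl | rfl | rfl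
          · have : g ((1, 0) + (0, 6 * k)) = 0 := by simpa using h.f1
            rw [this]; decide
          · rw [hfr _ _ (by norm_num)]; decide
          · rw [hfr _ _ (by norm_num)]; decide
      · rw [hev, hfr _ _ (by norm_num)]; decide
      · rw [hev, hfr _ _ (by norm_num)]; decide
      · intro x y h1 h2 h3 h4
        have hx : x ≤ -1 := h2 (by omega)
        show g (x, y) + cnt viE ((x, y) - (0, 6 * k)) = P (x, y)
        rw [hz x y (Or.inr (Or.inr (Or.inl (by omega)))), add_zero]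
        exact h.fresh x y (by omega)
      · intro x y h1
        show g (x, y) + cnt viE ((x, y) - (0, 6 * k)) = P (x, y)
        rw [hz x y (Or.inr (Or.inl (by omega))), add_zero]
        exact h.fresh x y (by omega)
  · -- row congruent to 3 modulo 6
    obtain ⟨k, rfl⟩ : ∃ k, a = 3 + 6 * k := ⟨a / 6, by omega⟩
    have hz : ∀ x y, (y < 6 * k + 2 ∨ 6 * k + 6 < y ∨ 1 < x ∨
        ((x = 0 ∨ x = 1) ∧ y < 3 + 6 * k)) → cnt viO ((x, y) - (0, 6 * k)) = 0 := by
      intro x y hxy
      apply cnt_eq_zero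
      intro hm
      have := viO_cond _ hm
      simp only [Prod.mk_sub_mk, sub_zero] at this
      obtain ⟨-, h1, h2, h3, h4⟩ := this
      rcases hxy with h5 | h5 | h5 | ⟨h5, h7⟩
      · omega
      · omega
      · omega
      · have := h4 h5; omega
    refine ⟨6 * k, viO, 22, ?_, ?_, ?_, ?_⟩
    · intro C hp hd hg
      have hA : ∀ e ∈ asO, C.grid (e.1 + (0, 6 * k)) = e.2 := by
        intro e he
        rw [← h.asO_hyp e he]
        have hc : ∀ e ∈ asO, (e.1.1 ≠ 0 ∧ e.1.1 ≠ 1) ∨ 3 ≤ e.1.2 := by decide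
        have := hc e he
        apply hg
        rcases this with h1 | h1
        · left; simpa using h1
        · right; omega
      have hV : V (3 + 6 * k) = (0, 3) + ((0 : ℤ), 6 * k) := by
        have : ¬ (3 + 6 * k) % 2 = 0 := by omega
        simp [V, this]
      have hV' : V (3 + 6 * k - 1) = (1, 2) + ((0 : ℤ), 6 * k) := by
        have : (3 + 6 * k - 1) % 2 = 0 := by omega
        simp only [V, this, if_true, Prod.mk_add_mk]
        ext <;> simp; ring
      obtain ⟨b1, b2, b3, b4⟩ := runL asO (0, 6 * k) tsO (0, 3) Dir.N chkO C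
        (by rw [hp, hV]) hd hA
      have hlen : tsO.length = 22 := rfl
      rw [hlen] at b1 b2 b3 b4
      have e1 : endPos (0, 3) Dir.N tsO = (1, 2) := by decide
      have e2 : endDir Dir.N tsO = Dir.S := by decide
      refine ⟨by rw [b1, e1, hV'], by rw [b2, e2], b3, fun j hj => ?_⟩
      have := (viO_cond _ (b4 j hj)).1
      simp only [Prod.fst_sub, sub_zero] at this
      exact this
    · intro x y hy; exact hz x y (Or.inl (by omega))
    · intro x y hx hy; exact hz x y (Or.inr (Or.inr (Or.inr ⟨hx, hy⟩)))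
    · have hfr : ∀ x y, 4 ≤ y → g ((x, y) + (0, 6 * k)) = P (x, y) := by
        intro x y hy
        rw [← P_shift (x, y) k]
        exact h.fresh _ _ (by show 3 + 6 * k + 1 ≤ y + 6 * k; omega)
      have hev : ∀ x i : ℤ, g (x, i + 6 * k) + cnt viO ((x, i + 6 * k) - (0, 6 * k))
          = g ((x, i) + (0, 6 * k)) + cnt viO (x, i) := by
        intro x i
        have e1 : ((x, i + 6 * k) : ℤ × ℤ) = (x, i) + (0, 6 * k) := by
          ext <;> simp
        rw [e1, add_sub_cancel_right]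
      have e6 : 3 + 6 * k + 3 = 6 + 6 * k := by ring
      refine ⟨by omega, by omega, ?_, ?_, ?_, ?_, ?_, ?_⟩
      · intro y h1 h2
        by_cases hy : y < 3 + 6 * k
        · show g (0, y) + cnt viO ((0, y) - (0, 6 * k)) = 0
          rw [hz 0 y (Or.inr (Or.inr (Or.inr ⟨Or.inl rfl, hy⟩))), add_zero]
          exact h.tr0 y h1 hy
        · obtain ⟨i, rfl⟩ : ∃ i, y = i + 6 * k := ⟨y - 6 * k, by ring⟩
          rw [hev]
          have : i = 3 ∨ i = 4 ∨ i = 5 := by omega
          rcases this with rfl | rfl | rfl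
          · have : g ((0, 3) + (0, 6 * k)) = 1 := by simpa using h.f0
            rw [this]; decide
          · rw [hfr _ _ (by norm_num)]; decide
          · rw [hfr _ _ (by norm_num)]; decide
      · intro y h1 h2
        by_cases hy : y < 3 + 6 * k
        · show g (1, y) + cnt viO ((1, y) - (0, 6 * k)) = 1
          rw [hz 1 y (Or.inr (Or.inr (Or.inr ⟨Or.inr rfl, hy⟩))), add_zero]
          exact h.tr1 y h1 hy
        · obtain ⟨i, rfl⟩ : ∃ i, y = i + 6 * k := ⟨y - 6 * k, by ring⟩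
          rw [hev]
          have : i = 3 ∨ i = 4 ∨ i = 5 := by omega
          rcases this with rfl | rfl | rfl
          · have : g ((1, 3) + (0, 6 * k)) = 0 := by simpa using h.f1
            rw [this]; decide
          · rw [hfr _ _ (by norm_num)]; decide
          · rw [hfr _ _ (by norm_num)]; decide
      · rw [e6, hev, hfr _ _ (by norm_num)]; decide
      · rw [e6, hev, hfr _ _ (by norm_num)]; decide
      · intro x y h1 h2 h3 h4
        have hx : 2 ≤ x := h1 (by omega)
        show g (x, y) + cnt viO ((x, y) - (0, 6 * k)) = P (x, y)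
        rw [hz x y (Or.inr (Or.inr (Or.inl (by omega)))), add_zero]
        exact h.fresh x y (by omega)
      · intro x y h1
        show g (x, y) + cnt viO ((x, y) - (0, 6 * k)) = P (x, y)
        rw [hz x y (Or.inr (Or.inl (by omega))), add_zero]
        exact h.fresh x y (by omega)

end Pool.Agent.V1169.Ant
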