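import Pool.Agent.V1169.Ant3

namespace Pool.Agent.V1169.Ant

/-! ### The sweeps -/

/-- safe horizontal range -/
def Safe (C : Config 2) : Prop := -3 ≤ C.pos.1 ∧ C.pos.1 ≤ 4

theorem safe_rotC {C : Config 2} (h : Safe C) : Safe (rotC C) := by
  unfold Safe rotC rho at *
  constructor
  · show -3 ≤ 1 - C.pos.1; omega
  · show 1 - C.pos.1 ≤ 4; omega

/-- The invariant: the ant is in `V 1`, going up, between reflectors in rows `a` and `1 - b`. -/
structure Inv (a b : ℤ) (C : Config 2) : Prop where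
  pos : C.pos = V 1
  dir : C.dir = Dir.N
  top : Top a C.grid
  bot : Top b (fun x => C.grid (rho x))

theorem half_step {a b : ℤ} {C : Config 2} (h : Inv a b C) :
    ∃ K : ℕ, 0 < K ∧ Inv b (a + 3) (rotC (T^[K] C)) ∧ ∀ j < K, Safe (T^[j] C) := by
  obtain ⟨τ, vi, K, hK, hz, hzs, hTop⟩ := reflect h.top
  have ha3 := h.top.ha3
  obtain ⟨n, hn⟩ : ∃ n : ℕ, (n : ℤ) = a - 1 := ⟨(a - 1).toNat, by omega⟩
  -- the upward pass
  obtain ⟨b1, b2, b3, b4⟩ := pass_up n 1 C h.pos h.dir (by
    intro y h1 h2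
    exact ⟨h.top.tr0 y h1 (by omega), h.top.tr1 y h1 (by omega)⟩)
  rw [show (1 : ℤ) + n = a by omega] at b1 b3
  set C1 := T^[2 * n] C with hC1
  -- the reflection
  obtain ⟨c1, c2, c3, c4⟩ := hK C1 b1 b2 (by
    intro x y hxy
    rw [b3]
    have : ind 1 a (x, y) = 0 := by
      unfold ind
      rw [if_neg]
      rintro ⟨h1, h2, h3⟩
      rcases hxy with hx | hy
      · simp only at h1; omega
      · simp only at h3; omega
    rw [this, add_zero])
  set C2 := T^[K] C1 with hC2
  -- the downward pass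
  obtain ⟨d1, d2, d3, d4⟩ := pass_down n (a - 1) C2 c1 c2 (by
    intro y h1 h2
    have hi : ∀ x, (x = 0 ∨ x = 1) → ind 1 a (x, y) = 1 := by
      intro x hx
      unfold ind
      rw [if_pos]
      exact ⟨hx, by show 1 ≤ y; omega, by show y < a; omega⟩
    rw [c3, c3, b3, b3, hi 0 (Or.inl rfl), hi 1 (Or.inr rfl), hzs 0 y (Or.inl rfl) (by omega),
      hzs 1 y (Or.inr rfl) (by omega), h.top.tr0 y (by omega) (by omega),
      h.top.tr1 y (by omega) (by omega)]
    exact ⟨by decide, by decide⟩)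
  rw [show a - 1 - (n : ℤ) = 0 by omega] at d1 d3
  rw [show a - 1 + 1 = a by ring] at d3
  set C3 := T^[2 * n] C2 with hC3
  have hC3' : T^[2 * n + (K + 2 * n)] C = C3 := by
    rw [hC3, hC2, hC1, Function.iterate_add_apply, Function.iterate_add_apply]
  have hgrid : ∀ x, C3.grid x = C.grid x + cnt vi (x - (0, τ)) := by
    intro x
    rw [d3, c3, b3, zero_add]
    have : ∀ u i c : Fin 2, u + i + c + i = u + c := by decide
    exact this _ _ _
  refine ⟨2 * n + (K + 2 * n), by omega, ?_, ?_⟩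
  · rw [hC3']
    refine ⟨?_, ?_, ?_, ?_⟩
    · show rho C3.pos = V 1
      rw [d1]
      simp [rho, V]
    · show C3.dir.opp = Dir.N
      rw [d2]; rfl
    · show Top b (fun x => C3.grid (rho x))
      refine h.bot.congr ?_
      intro x y hy
      show C3.grid (rho (x, y)) = C.grid (rho (x, y))
      rw [hgrid]
      have : cnt vi (rho (x, y) - (0, τ)) = 0 := hz (1 - x) (1 - y) (by omega)
      rw [this, add_zero]
    · show Top (a + 3) (fun x => C3.grid (rho (rho x)))
      refine hTop.congr ?_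
      intro x y _
      show C3.grid (rho (rho (x, y))) = _
      rw [rho_rho, hgrid]
  · intro j hj
    by_cases h1 : j < 2 * n
    · have := b4 j h1
      unfold Safe; omega
    · by_cases h2 : j < K + 2 * n
      · obtain ⟨i, rfl⟩ : ∃ i, j = i + 2 * n := ⟨j - 2 * n, by omega⟩
        rw [Function.iterate_add_apply]
        exact c4 i (by omega)
      · obtain ⟨i, rfl⟩ : ∃ i, j = i + (K + 2 * n) := ⟨j - (K + 2 * n), by omega⟩
        rw [Function.iterate_add_apply, Function.iterate_add_apply]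
        have := d4 i (by omega)
        unfold Safe; rw [← hC1, ← hC2]; omega

theorem full_step {a b : ℤ} {C : Config 2} (h : Inv a b C) :
    ∃ K : ℕ, 0 < K ∧ Inv (a + 3) (b + 3) (T^[K] C) ∧ ∀ j < K, Safe (T^[j] C) := by
  obtain ⟨K1, h1, h2, h3⟩ := half_step h
  obtain ⟨K2, g1, g2, g3⟩ := half_step h2
  refine ⟨K2 + K1, by omega, ?_, ?_⟩
  · rw [Function.iterate_add_apply]
    rw [iter_rotC, rotC_rotC] at g2
    exact g2
  · intro j hj
    by_cases hj1 : j < K1
    · exact h3 j hj1
    · obtain ⟨i, rfl⟩ : ∃ i, j = i + K1 := ⟨j - K1, by omega⟩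
      rw [Function.iterate_add_apply]
      have := safe_rotC (g3 i (by omega))
      rwa [iter_rotC, rotC_rotC] at this

theorem chain {a b : ℤ} {C : Config 2} (h : Inv a b C) (n : ℕ) :
    ∃ K : ℕ, n ≤ K ∧ (∃ a' b', Inv a' b' (T^[K] C)) ∧ ∀ j < K, Safe (T^[j] C) := by
  induction n with
  | zero => exact ⟨0, le_rfl, ⟨a, b, h⟩, fun j hj => absurd hj (Nat.not_lt_zero j)⟩
  | succ n ih =>
    obtain ⟨K, h1, ⟨a', b', h2⟩, h3⟩ := ih
    obtain ⟨K', g1, g2, g3⟩ := full_step h2
    refine ⟨K' + K, by omega, ⟨_, _, by rw [Function.iterate_add_apply]; exact g2⟩, ?_⟩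
    intro j hj
    by_cases hj1 : j < K
    · exact h3 j hj1
    · obtain ⟨i, rfl⟩ : ∃ i, j = i + K := ⟨j - K, by omega⟩
      rw [Function.iterate_add_apply]
      exact g3 i (by omega)

/-! ### The initial configuration -/

/-- the initial grid in the half plane `y ≥ 1` -/
def topInit (x : ℤ × ℤ) : Fin 2 :=
  if x.2 < 3 ∧ x.1 = 0 then 0
  else if x.2 < 3 ∧ x.1 = 1 then 1
  else if x = (0, 3) then 1
  else if x = (1, 3) then 0
  else P x

theorem top_init : Top 3 topInit := by
  refine ⟨by norm_num, le_rfl, ?_, ?_, ?_, ?_, ?_, ?_⟩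
  · intro y _ h2
    unfold topInit
    rw [if_pos ⟨h2, rfl⟩]
  · intro y _ h2
    unfold topInit
    rw [if_neg (by simp), if_pos ⟨h2, rfl⟩]
  · decide
  · decide
  · intro x y h1 h2 _ _
    have hx : x ≤ -1 := h2 (by norm_num)
    unfold topInit
    rw [if_neg (by simp only; omega), if_neg (by simp only; omega),
      if_neg (by simp only [Prod.mk.injEq]; omega), if_neg (by simp only [Prod.mk.injEq]; omega)]
  · intro x y h1
    unfold topInit
    rw [if_neg (by simp only; omega), if_neg (by simp only; omega),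
      if_neg (by simp only [Prod.mk.injEq]; omega), if_neg (by simp only [Prod.mk.injEq]; omega)]

/-- the initial configuration -/
def start : Config 2 where
  grid := fun x => if 1 ≤ x.2 then topInit x else topInit (rho x)
  pos := (0, 1)
  dir := Dir.N

theorem inv_start : Inv 3 3 start := by
  refine ⟨rfl, rfl, ?_, ?_⟩
  · refine top_init.congr ?_
    intro x y hy
    show (if 1 ≤ y then topInit (x, y) else topInit (rho (x, y))) = _
    rw [if_pos hy]
  · refine top_init.congr ?_
    intro x y hy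
    show (if 1 ≤ (1 - y) then topInit (rho (x, y)) else topInit (rho (rho (x, y)))) = _
    rw [if_neg (by omega), rho_rho]

theorem start_rec : (0, 1) ∈ Rec langton start := by
  show {t : ℕ | (T^[t] start).pos = (0, 1)}.Infinite
  apply Set.infinite_of_forall_exists_gt
  intro n
  obtain ⟨K, h1, ⟨a, b, h2⟩, -⟩ := chain inv_start (n + 1)
  refine ⟨K, ?_, by omega⟩
  show (T^[K] start).pos = (0, 1)
  rw [h2.pos]; simp [V]

theorem start_safe (t : ℕ) : Safe (T^[t] start) := by
  obtain ⟨K, h1, -, h3⟩ := chain inv_start (t + 1)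
  exact h3 t (by omega)

end Pool.Agent.V1169.Ant
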