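import Mathlib

/-!
The function `K z ∏ (1 - z / r k)` with positive zeros `r k` growing very fast: estimates.
-/

set_option autoImplicit false

open Filter Topology Metric Set

namespace Pool.Agent.V1169.BW

/-- The ratios `r (k + 1) / r k`. -/
noncomputable def s : ℕ → ℝ
  | 0 => 2 ^ 24
  | k + 1 => s k ^ (k + 2) / 8

/-- The zeros. -/
noncomputable def r : ℕ → ℝ
  | 0 => 1
  | k + 1 => r k * s k

theorem s_succ (k : ℕ) : s (k + 1) = s k ^ (k + 2) / 8 := rfl

theorem r_succ (k : ℕ) : r (k + 1) = r k * s k := rfl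

theorem s_ge (k : ℕ) : (2 : ℝ) ^ 24 ≤ s k := by
  induction k with
  | zero => exact le_rfl
  | succ k ih =>
    rw [s_succ]
    have h1 : s k ^ 2 ≤ s k ^ (k + 2) := pow_le_pow_right₀ (by linarith) (by omega)
    have h2 : (2 : ℝ) ^ 24 * s k ≤ s k ^ 2 := by nlinarith
    linarith

theorem s_ge_eight (k : ℕ) : 8 ≤ s k := by linarith [s_ge k]

theorem s_pos (k : ℕ) : 0 < s k := by linarith [s_ge k]

theorem r_ge_one (k : ℕ) : 1 ≤ r k := by
  induction k with
  | zero => exact le_rfl
  | succ k ih =>
    rw [r_succ]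
    nlinarith [s_ge_eight k]

theorem r_pos (k : ℕ) : 0 < r k := by linarith [r_ge_one k]

theorem r_step (k : ℕ) : (2 : ℝ) ^ 24 * r k ≤ r (k + 1) := by
  rw [r_succ]
  nlinarith [s_ge k, r_pos k]

theorem r_lt_succ (k : ℕ) : r k < r (k + 1) := by
  have := r_step k
  have := r_pos k
  linarith

theorem r_strictMono : StrictMono r := strictMono_nat_of_lt_succ r_lt_succ

theorem s_ge_r (k : ℕ) : 8 * r k ≤ s k := by
  induction k with
  | zero =>
    have h1 : r 0 = 1 := rfl
    have := s_ge 0
    rw [h1]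
    linarith
  | succ k ih =>
    have h0 := s_pos k
    have h1 : s k * (64 * r k) ≤ s k * s k ^ (k + 1) := by
      apply mul_le_mul_of_nonneg_left _ h0.le
      rcases k with _ | k
      · have h1 : r 0 = 1 := rfl
        have := s_ge 0
        rw [h1]
        norm_num
        linarith
      · calc 64 * r (k + 1) ≤ s (k + 1) ^ 2 := by nlinarith [s_ge_eight (k + 1)]
          _ ≤ s (k + 1) ^ (k + 1 + 1) := pow_le_pow_right₀ (by linarith [s_ge_eight (k + 1)]) (by omega)
    rw [s_succ, r_succ, pow_succ' (s k) (k + 1)]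
    linarith

theorem prod_le (k : ℕ) : ∏ j ∈ Finset.range k, r j ≤ r k := by
  induction k with
  | zero => simpa using r_ge_one 0
  | succ k ih =>
    rw [Finset.prod_range_succ, r_succ]
    have h1 := s_ge_r k
    have h2 := r_pos k
    calc (∏ j ∈ Finset.range k, r j) * r k ≤ r k * r k := by gcongr
      _ ≤ r k * s k := by
        apply mul_le_mul_of_nonneg_left _ h2.le
        linarith

theorem prod_pos' (k : ℕ) : 0 < ∏ j ∈ Finset.range k, r j := Finset.prod_pos fun j _ => r_pos j

/-- The constant. -/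
noncomputable def K : ℝ := 2 ^ 33

theorem ident (k : ℕ) : K * r k ^ (k + 1) = 8 ^ (k + 3) * r (k + 1) * ∏ j ∈ Finset.range k, r j := by
  induction k with
  | zero =>
    have h1 : r 0 = 1 := rfl
    have h2 : r 1 = 1 * 2 ^ 24 := rfl
    rw [h1, h2, K]
    norm_num
  | succ k ih =>
    rw [Finset.prod_range_succ]
    have e1 : r (k + 1 + 1) = r (k + 1) * (s k ^ (k + 2) / 8) := rfl
    have e2 : r (k + 1) ^ (k + 1 + 1) = r k ^ (k + 1) * s k ^ (k + 1) * r (k + 1) := by
      rw [pow_succ, r_succ, mul_pow]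
    rw [e2, e1, r_succ]
    have e3 : K * (r k ^ (k + 1) * s k ^ (k + 1) * (r k * s k)) =
      (K * r k ^ (k + 1)) * s k ^ (k + 1) * (r k * s k) := by ring
    rw [e3, ih, r_succ]
    ring

theorem sum_lt (k : ℕ) : ∑ j ∈ Finset.range k, r j ≤ r k / 2 ^ 23 := by
  induction k with
  | zero =>
    simp only [Finset.range_zero, Finset.sum_empty]
    have := r_pos 0
    positivity
  | succ k ih =>
    rw [Finset.sum_range_succ]
    have h1 := r_step k
    have h2 := r_pos k
    linarith

theorem sum_inv (k n : ℕ) (hkn : k ≤ n) : ∑ j ∈ Finset.Ico k n, (r j)⁻¹ ≤ 2 / r k - 2 / r n := by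
  induction n, hkn using Nat.le_induction with
  | base => simp
  | succ n hn ih =>
    rw [Finset.sum_Ico_succ_top hn]
    have h1 := r_step n
    have h2 := r_pos n
    have h3 := r_pos (n + 1)
    have h4 : 2 / r (n + 1) ≤ (r n)⁻¹ := by
      rw [inv_eq_one_div, div_le_div_iff₀ h3 h2]
      linarith
    have h5 : 2 / r n = 2 * (r n)⁻¹ := by rw [div_eq_mul_inv]
    rw [h5] at ih
    linarith

theorem sum_inv' (k n : ℕ) : ∑ j ∈ Finset.Ico k n, (r j)⁻¹ ≤ 2 / r k := by
  have h2 := r_pos k
  rcases le_total k n with h | h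
  · have := sum_inv k n h
    have h1 : 0 < 2 / r n := by
      have := r_pos n
      positivity
    linarith
  · rw [Finset.Ico_eq_empty_of_le h, Finset.sum_empty]
    positivity

theorem r_ge_pow (k : ℕ) : (2 : ℝ) ^ k ≤ r k := by
  induction k with
  | zero => simpa using r_ge_one 0
  | succ k ih =>
    have := r_step k
    have := r_pos k
    rw [pow_succ]
    linarith

theorem r_tendsto : Tendsto r atTop atTop :=
  tendsto_atTop_mono r_ge_pow (tendsto_pow_atTop_atTop_of_one_lt (by norm_num))

/-! ### Finite products -/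

theorem one_sub_sum_le (S : Finset ℕ) (x : ℕ → ℝ) (h0 : ∀ j ∈ S, 0 ≤ x j) (h1 : ∀ j ∈ S, x j ≤ 1) :
    1 - ∑ j ∈ S, x j ≤ ∏ j ∈ S, (1 - x j) := by
  induction S using Finset.induction_on with
  | empty => simp
  | insert a S ha ih =>
    rw [Finset.sum_insert ha, Finset.prod_insert ha]
    have h2 := ih (fun j hj => h0 j (Finset.mem_insert_of_mem hj))
      (fun j hj => h1 j (Finset.mem_insert_of_mem hj))
    have h3 := h0 a (Finset.mem_insert_self _ _)
    have h4 := h1 a (Finset.mem_insert_self _ _)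
    have h5 : 0 ≤ ∑ j ∈ S, x j := Finset.sum_nonneg fun j hj => h0 j (Finset.mem_insert_of_mem hj)
    have h6 : (1 - x a) * (1 - ∑ j ∈ S, x j) ≤ (1 - x a) * ∏ j ∈ S, (1 - x j) :=
      mul_le_mul_of_nonneg_left h2 (by linarith)
    nlinarith

theorem prod_one_add_le (S : Finset ℕ) (x : ℕ → ℝ) (h0 : ∀ j ∈ S, 0 ≤ x j)
    (hs : ∑ j ∈ S, x j ≤ 1 / 2) : ∏ j ∈ S, (1 + x j) ≤ 2 := by
  calc ∏ j ∈ S, (1 + x j) ≤ ∏ j ∈ S, Real.exp (x j) := by
        apply Finset.prod_le_prod
        · intro j hj
          linarith [h0 j hj]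
        · intro j _
          rw [add_comm]
          exact Real.add_one_le_exp _
    _ = Real.exp (∑ j ∈ S, x j) := (Real.exp_sum _ _).symm
    _ ≤ Real.exp (1 / 2) := Real.exp_le_exp.2 hs
    _ ≤ 2 := by
      have h1 : Real.exp (1 / 2) ^ 2 = Real.exp 1 := by
        rw [← Real.exp_nat_mul]
        norm_num
      have h2 := Real.exp_one_lt_d9
      have h3 := Real.exp_pos (1 / 2)
      nlinarith

/-- The partial products. -/
noncomputable def p (n : ℕ) (z : ℂ) : ℂ := K * z * ∏ j ∈ Finset.range n, (1 - z / r j)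

theorem norm_r (k : ℕ) : ‖(r k : ℂ)‖ = r k := by
  rw [Complex.norm_real, Real.norm_of_nonneg (r_pos k).le]

theorem r_ne (k : ℕ) : (r k : ℂ) ≠ 0 := by exact_mod_cast (r_pos k).ne'

theorem norm_div_r (k : ℕ) (z : ℂ) : ‖z / r k‖ = ‖z‖ / r k := by rw [norm_div, norm_r]

theorem K_pos : 0 < K := by
  rw [K]
  positivity

theorem norm_p (n : ℕ) (z : ℂ) : ‖p n z‖ = K * ‖z‖ * ∏ j ∈ Finset.range n, ‖1 - z / r j‖ := by
  rw [p, norm_mul, norm_mul, norm_prod, Complex.norm_real, Real.norm_of_nonneg K_pos.le]

/-- splitting the product at `k` -/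
theorem prod_split (g : ℕ → ℝ) {k n : ℕ} (hkn : k < n) : ∏ j ∈ Finset.range n, g j =
    (∏ j ∈ Finset.range k, g j) * g k * ∏ j ∈ Finset.Ico (k + 1) n, g j := by
  rw [← Finset.prod_range_succ, Finset.prod_range_mul_prod_Ico _ (by omega)]

theorem upper (k n : ℕ) (hkn : k < n) {z : ℂ} (hz : ‖z‖ ≤ r (k + 1) / 2 ^ 15) :
    ‖p n z‖ ≤ r (k + 2) / 2 ^ 16 := by
  set X : ℝ := r (k + 1) / 2 ^ 15 with hX
  have hr1 := r_pos (k + 1)
  have hX0 : 0 < X := by rw [hX]; positivity
  have hXr : ∀ j, j ≤ k → r j ≤ X := by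
    intro j hj
    have h1 : r j ≤ r k := r_strictMono.monotone hj
    have h2 := r_step k
    have h3 := r_pos k
    rw [hX, le_div_iff₀ (by positivity)]
    linarith
  rw [norm_p]
  have h1 : ∏ j ∈ Finset.range n, ‖1 - z / r j‖ ≤
      (∏ j ∈ Finset.range (k + 1), (2 * X / r j)) * 2 := by
    rw [← Finset.prod_range_mul_prod_Ico _ (show k + 1 ≤ n by omega)]
    apply mul_le_mul
    · apply Finset.prod_le_prod (fun _ _ => norm_nonneg _)
      intro j hj
      have hj' : j ≤ k := by
        have := Finset.mem_range.1 hj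
        omega
      refine (norm_sub_le _ _).trans ?_
      rw [norm_one, norm_div_r]
      have h2 := hXr j hj'
      have h3 := r_pos j
      rw [le_div_iff₀ h3, add_mul, div_mul_cancel₀ _ h3.ne']
      linarith
    · calc ∏ j ∈ Finset.Ico (k + 1) n, ‖1 - z / r j‖ ≤ ∏ j ∈ Finset.Ico (k + 1) n, (1 + X * (r j)⁻¹) := by
            apply Finset.prod_le_prod (fun _ _ => norm_nonneg _)
            intro j _
            refine (norm_sub_le _ _).trans ?_
            rw [norm_one, norm_div_r, div_eq_mul_inv]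
            have h3 := r_pos j
            have h4 : 0 < (r j)⁻¹ := inv_pos.2 h3
            have := mul_le_mul_of_nonneg_right hz h4.le
            linarith
        _ ≤ 2 := by
            apply prod_one_add_le
            · intro j _
              have h3 := r_pos j
              positivity
            · rw [← Finset.mul_sum]
              have h3 := sum_inv' (k + 1) n
              calc X * ∑ j ∈ Finset.Ico (k + 1) n, (r j)⁻¹ ≤ X * (2 / r (k + 1)) :=
                    mul_le_mul_of_nonneg_left h3 hX0.le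
                _ ≤ 1 / 2 := by
                  rw [hX]
                  field_simp
                  norm_num
    · exact Finset.prod_nonneg fun _ _ => norm_nonneg _
    · apply Finset.prod_nonneg
      intro j _
      have h3 := r_pos j
      positivity
  have h2 : ∏ j ∈ Finset.range (k + 1), (2 * X / r j) =
      (2 * X) ^ (k + 1) / ∏ j ∈ Finset.range (k + 1), r j := by
    rw [Finset.prod_div_distrib, Finset.prod_const, Finset.card_range]
  have hP := prod_pos' (k + 1)
  set P := ∏ j ∈ Finset.range (k + 1), r j with hPdef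
  have hid := ident (k + 1)
  rw [← hPdef] at hid
  calc K * ‖z‖ * ∏ j ∈ Finset.range n, ‖1 - z / r j‖
      ≤ K * X * ((∏ j ∈ Finset.range (k + 1), (2 * X / r j)) * 2) := by
        have := K_pos
        gcongr
    _ = (K * r (k + 1) ^ (k + 2)) * (2 ^ (k + 2) / (2 ^ 15) ^ (k + 2)) / P := by
        have e1 : X ^ (k + 2) = r (k + 1) ^ (k + 2) / (2 ^ 15) ^ (k + 2) := by rw [hX, div_pow]
        have e2 : K * X * ((2 * X) ^ (k + 1) / P * 2) = K * X ^ (k + 2) * 2 ^ (k + 2) / P := by
          rw [mul_pow]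
          ring
        rw [h2, e2, e1]
        ring
    _ = 8 ^ (k + 4) * r (k + 2) * (2 ^ (k + 2) / (2 ^ 15) ^ (k + 2)) := by
        have e : K * r (k + 1) ^ (k + 2) = 8 ^ (k + 4) * r (k + 2) * P := hid
        rw [e]
        field_simp
    _ = r (k + 2) * ((8 : ℝ) ^ (k + 4) * 2 ^ (k + 2) / (2 ^ 15) ^ (k + 2)) := by ring
    _ ≤ r (k + 2) * (1 / 2 ^ 16) := by
        apply mul_le_mul_of_nonneg_left _ (r_pos _).le
        rw [div_le_div_iff₀ (by positivity) (by positivity)]
        have e1 : (8 : ℝ) ^ (k + 4) = 2 ^ (3 * (k + 4)) := by rw [pow_mul]; norm_num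
        rw [e1, ← pow_mul, ← pow_add, ← pow_add, one_mul]
        apply pow_le_pow_right₀ (by norm_num)
        omega
    _ = r (k + 2) / 2 ^ 16 := by ring

/-- the main lower bound -/
theorem lower (k n : ℕ) (hkn : k < n) {z : ℂ} (hz1 : r k / 4 ≤ ‖z‖) (hz2 : ‖z‖ ≤ r (k + 1) / 4) :
    K / 4 * (‖z‖ ^ (k + 1) / ∏ j ∈ Finset.range k, r j) * ‖1 - z / r k‖ ≤ ‖p n z‖ := by
  have hrk := r_pos k
  have hr1 := r_pos (k + 1)
  have hx0 : 0 < ‖z‖ := by linarith
  have hP := prod_pos' k
  rw [norm_p, prod_split _ hkn]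
  have h1 : (‖z‖ ^ k / ∏ j ∈ Finset.range k, r j) * (1 / 2) ≤ ∏ j ∈ Finset.range k, ‖1 - z / r j‖ := by
    have e1 : ‖z‖ ^ k / ∏ j ∈ Finset.range k, r j = ∏ j ∈ Finset.range k, (‖z‖ / r j) := by
      rw [Finset.prod_div_distrib, Finset.prod_const, Finset.card_range]
    have h2 : 1 / 2 ≤ ∏ j ∈ Finset.range k, (1 - 4 * r j / r k) := by
      refine le_trans ?_ (one_sub_sum_le _ _ ?_ ?_)
      · have h3 := sum_lt k
        have e2 : ∑ j ∈ Finset.range k, 4 * r j / r k = 4 / r k * ∑ j ∈ Finset.range k, r j := by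
          rw [Finset.mul_sum]
          exact Finset.sum_congr rfl fun j _ => by ring
        have h4 : 4 / r k * ∑ j ∈ Finset.range k, r j ≤ 4 / r k * (r k / 2 ^ 23) :=
          mul_le_mul_of_nonneg_left h3 (by positivity)
        have e3 : 4 / r k * (r k / 2 ^ 23) = 4 / 2 ^ 23 := by field_simp
        rw [e2]
        rw [e3] at h4
        norm_num at h4 ⊢
        linarith
      · intro j _
        have := r_pos j
        positivity
      · intro j hj
        have h3 : r (j + 1) ≤ r k := r_strictMono.monotone (Finset.mem_range.1 hj)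
        have h4 := r_step j
        have h5 := r_pos j
        rw [div_le_one hrk]
        linarith
    have h3 : ∏ j ∈ Finset.range k, ((‖z‖ / r j) * (1 - 4 * r j / r k)) ≤
        ∏ j ∈ Finset.range k, ‖1 - z / r j‖ := by
      apply Finset.prod_le_prod
      · intro j hj
        have h3 : r (j + 1) ≤ r k := r_strictMono.monotone (Finset.mem_range.1 hj)
        have h4 := r_step j
        have h5 := r_pos j
        have h6 : 4 * r j / r k ≤ 1 := by
          rw [div_le_one hrk]
          linarith
        have : 0 ≤ 1 - 4 * r j / r k := by linarith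
        positivity
      · intro j hj
        have h5 := r_pos j
        have h6 : ‖z‖ / r j - 1 ≤ ‖1 - z / r j‖ := by
          have := norm_sub_norm_le (z / r j) 1
          rw [norm_one, norm_div_r, norm_sub_rev] at this
          exact this
        refine le_trans ?_ h6
        have h7 : 1 ≤ ‖z‖ / r j * (4 * r j / r k) := by
          have e : ‖z‖ / r j * (4 * r j / r k) = 4 * ‖z‖ / r k := by field_simp
          rw [e, le_div_iff₀ hrk]
          linarith
        rw [mul_sub, mul_one]
        linarith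
    rw [Finset.prod_mul_distrib, ← e1] at h3
    refine le_trans ?_ h3
    apply mul_le_mul_of_nonneg_left h2
    positivity
  have h2 : 1 / 2 ≤ ∏ j ∈ Finset.Ico (k + 1) n, ‖1 - z / r j‖ := by
    calc (1 : ℝ) / 2 ≤ 1 - ∑ j ∈ Finset.Ico (k + 1) n, ‖z‖ / r j := by
          have h3 := sum_inv' (k + 1) n
          have e2 : ∑ j ∈ Finset.Ico (k + 1) n, ‖z‖ / r j =
              ‖z‖ * ∑ j ∈ Finset.Ico (k + 1) n, (r j)⁻¹ := by
            rw [Finset.mul_sum]
            exact Finset.sum_congr rfl fun j _ => by rw [div_eq_mul_inv]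
          have h4 : ‖z‖ * ∑ j ∈ Finset.Ico (k + 1) n, (r j)⁻¹ ≤ (r (k + 1) / 4) * (2 / r (k + 1)) := by
            apply mul_le_mul hz2 h3 _ (by positivity)
            exact Finset.sum_nonneg fun j _ => (inv_pos.2 (r_pos j)).le
          have e3 : (r (k + 1) / 4) * (2 / r (k + 1)) = 1 / 2 := by
            field_simp
            norm_num
          rw [e2]
          linarith
      _ ≤ ∏ j ∈ Finset.Ico (k + 1) n, (1 - ‖z‖ / r j) := by
          apply one_sub_sum_le
          · intro j _
            have := r_pos j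
            positivity
          · intro j hj
            have h3 : r (k + 1) ≤ r j := r_strictMono.monotone (Finset.mem_Ico.1 hj).1
            rw [div_le_one (r_pos j)]
            linarith
      _ ≤ ∏ j ∈ Finset.Ico (k + 1) n, ‖1 - z / r j‖ := by
          apply Finset.prod_le_prod
          · intro j hj
            have h3 : r (k + 1) ≤ r j := r_strictMono.monotone (Finset.mem_Ico.1 hj).1
            have : ‖z‖ / r j ≤ 1 := by
              rw [div_le_one (r_pos j)]
              linarith
            linarith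
          · intro j _
            have := norm_sub_norm_le 1 (z / r j)
            rw [norm_one, norm_div_r] at this
            exact this
  have hK := K_pos
  calc K / 4 * (‖z‖ ^ (k + 1) / ∏ j ∈ Finset.range k, r j) * ‖1 - z / r k‖
      = K * ‖z‖ * ((‖z‖ ^ k / ∏ j ∈ Finset.range k, r j) * (1 / 2) * ‖1 - z / r k‖ * (1 / 2)) := by
        rw [pow_succ]
        ring
    _ ≤ _ := by
        gcongr

/-- near zero -/
theorem lower0 (n : ℕ) {z : ℂ} (hz2 : ‖z‖ ≤ 1 / 4) : K / 2 * ‖z‖ ≤ ‖p n z‖ := by
  rw [norm_p]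
  have h2 : 1 / 2 ≤ ∏ j ∈ Finset.range n, ‖1 - z / r j‖ := by
    calc (1 : ℝ) / 2 ≤ 1 - ∑ j ∈ Finset.range n, ‖z‖ / r j := by
          have h3 := sum_inv' 0 n
          rw [← Finset.range_eq_Ico] at h3
          have e2 : ∑ j ∈ Finset.range n, ‖z‖ / r j = ‖z‖ * ∑ j ∈ Finset.range n, (r j)⁻¹ := by
            rw [Finset.mul_sum]
            exact Finset.sum_congr rfl fun j _ => by rw [div_eq_mul_inv]
          have e3 : r 0 = 1 := rfl
          rw [e3] at h3
          have h4 : ‖z‖ * ∑ j ∈ Finset.range n, (r j)⁻¹ ≤ (1 / 4) * (2 / 1) := by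
            apply mul_le_mul hz2 h3 _ (by positivity)
            exact Finset.sum_nonneg fun j _ => (inv_pos.2 (r_pos j)).le
          rw [e2]
          linarith
      _ ≤ ∏ j ∈ Finset.range n, (1 - ‖z‖ / r j) := by
          apply one_sub_sum_le
          · intro j _
            have := r_pos j
            positivity
          · intro j _
            rw [div_le_one (r_pos j)]
            linarith [r_ge_one j]
      _ ≤ ∏ j ∈ Finset.range n, ‖1 - z / r j‖ := by
          apply Finset.prod_le_prod
          · intro j _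
            have : ‖z‖ / r j ≤ 1 := by
              rw [div_le_one (r_pos j)]
              linarith [r_ge_one j]
            linarith
          · intro j _
            have := norm_sub_norm_le 1 (z / r j)
            rw [norm_one, norm_div_r] at this
            exact this
  have hK := K_pos
  calc K / 2 * ‖z‖ = K * ‖z‖ * (1 / 2) := by ring
    _ ≤ _ := by gcongr

end Pool.Agent.V1169.BW
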