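import Pool.Agent.V1169.BW1

/-!
The entire function and the location of its zeros and critical points.
-/

set_option autoImplicit false

open Filter Topology Metric Set

namespace Pool.Agent.V1169.BW

/-- the entire function -/
noncomputable def f (z : ℂ) : ℂ := K * z * ∏' j, (1 + (-z / r j))

theorem term_diff (j : ℕ) : Differentiable ℂ fun z : ℂ => -z / (r j : ℂ) :=
  (differentiable_id.neg).div_const _

theorem hasProd_loc (R : ℝ) : HasProdLocallyUniformlyOn (fun (k : ℕ) (z : ℂ) => 1 + (-z / r k))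
    (fun z => ∏' k, (1 + (-z / r k))) (ball (0 : ℂ) R) := by
  have hs : Summable (fun k : ℕ => R * (1 / 2 : ℝ) ^ k) :=
    (summable_geometric_of_lt_one (by norm_num) (by norm_num)).mul_left _
  refine hs.hasProdLocallyUniformlyOn_nat_one_add isOpen_ball ?_
    (fun n => (term_diff n).continuous.continuousOn)
  refine Eventually.of_forall fun k z hz => ?_
  have hz' : ‖z‖ ≤ R := (mem_ball_zero_iff.1 hz).le
  rw [norm_div, norm_neg, norm_r, div_eq_mul_inv]
  apply mul_le_mul hz' _ (inv_pos.2 (r_pos k)).le ((norm_nonneg z).trans hz')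
  rw [one_div, inv_pow]
  exact inv_anti₀ (by positivity) (r_ge_pow k)

theorem p_eq (n : ℕ) (z : ℂ) : p n z = K * z * ∏ j ∈ Finset.range n, (1 + (-z / r j)) := by
  rw [p]
  congr 1
  exact Finset.prod_congr rfl fun j _ => by ring

theorem f_differentiable : Differentiable ℂ f := by
  intro z
  have h1 : DifferentiableOn ℂ (fun z : ℂ => ∏' k, (1 + (-z / (r k : ℂ)))) (ball (0 : ℂ) (‖z‖ + 1)) := by
    refine (hasProd_loc (‖z‖ + 1)).differentiableOn (.of_forall fun s => ?_) isOpen_ball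
    simpa [Finset.prod_fn] using
      DifferentiableOn.finsetProd (fun i _ =>
        ((term_diff i).const_add 1).differentiableOn)
  have h2 : DifferentiableAt ℂ (fun z : ℂ => ∏' k, (1 + (-z / (r k : ℂ)))) z :=
    h1.differentiableAt (isOpen_ball.mem_nhds (by simp))
  exact (differentiableAt_id.const_mul (K : ℂ)).mul h2

theorem p_tendsto (z : ℂ) : Tendsto (fun n => p n z) atTop (𝓝 (f z)) := by
  have h1 : HasProd (fun k : ℕ => 1 + (-z / (r k : ℂ))) (∏' k, (1 + (-z / (r k : ℂ)))) :=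
    (hasProd_loc (‖z‖ + 1)).hasProd (by simp)
  have h2 := h1.tendsto_prod_nat.const_mul ((K : ℂ) * z)
  exact h2.congr fun n => (p_eq n z).symm

theorem logDeriv_term (j : ℕ) {z : ℂ} (hz : z ≠ r j) :
    logDeriv (fun z : ℂ => 1 + (-z / (r j : ℂ))) z = 1 / (z - r j) := by
  have hr := r_ne j
  have h1 : HasDerivAt (fun z : ℂ => 1 + (-z / (r j : ℂ))) (-1 / (r j : ℂ)) z :=
    ((hasDerivAt_id z).neg.div_const _).const_add 1
  rw [logDeriv_apply, h1.deriv]
  have h2 : z - r j ≠ 0 := sub_ne_zero.2 hz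
  have h3 : (1 : ℂ) + -z / r j = -(z - r j) / r j := by
    field_simp
    ring
  rw [h3]
  field_simp

theorem logDeriv_f {z : ℂ} (hz : f z ≠ 0) :
    Tendsto (fun n => 1 / z + ∑ j ∈ Finset.range n, 1 / (z - r j)) atTop (𝓝 (logDeriv f z)) := by
  have hz0 : z ≠ 0 := by
    rintro rfl
    apply hz
    simp [f]
  have hK : (K : ℂ) * z ≠ 0 := mul_ne_zero (by exact_mod_cast K_pos.ne') hz0
  have hQ : ∏' k, (1 + (-z / (r k : ℂ))) ≠ 0 := by
    intro h
    apply hz
    rw [f, h, mul_zero]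
  have hzr : ∀ j, z ≠ r j := by
    rintro j rfl
    apply hQ
    have h1 : HasProd (fun k : ℕ => 1 + (-(r j : ℂ) / (r k : ℂ)))
        (∏' k, (1 + (-(r j : ℂ) / (r k : ℂ)))) :=
      (hasProd_loc (‖(r j : ℂ)‖ + 1)).hasProd (by simp)
    apply tendsto_nhds_unique h1.tendsto_prod_nat
    refine tendsto_const_nhds.congr' ?_
    filter_upwards [eventually_gt_atTop j] with n hn
    symm
    apply Finset.prod_eq_zero (Finset.mem_range.2 hn)
    have := r_ne j
    field_simp
    ring
  have hzR : z ∈ ball (0 : ℂ) (‖z‖ + 1) := by simp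
  have h1 := Complex.logDeriv_tendsto isOpen_ball hzR (hasProd_loc (‖z‖ + 1)).tendstoLocallyUniformlyOn_finsetRange
    (.of_forall fun n => by
      have : Differentiable ℂ fun z : ℂ => ∏ i ∈ Finset.range n, (1 + (-z / (r i : ℂ))) :=
        Differentiable.fun_finsetProd fun i _ => (term_diff i).const_add 1
      exact this.differentiableOn) hQ
  have h2 : logDeriv f z = 1 / z + logDeriv (fun z : ℂ => ∏' k, (1 + (-z / (r k : ℂ)))) z := by
    have e : f = fun z => ((K : ℂ) * z) * ∏' k, (1 + (-z / (r k : ℂ))) := rfl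
    rw [e, logDeriv_mul (f := fun z => (K : ℂ) * z) z hK hQ (by fun_prop)]
    · congr 1
      rw [logDeriv_const_mul _ _ (by exact_mod_cast K_pos.ne')]
      exact logDeriv_id z
    · have h1 : DifferentiableOn ℂ (fun z : ℂ => ∏' k, (1 + (-z / (r k : ℂ)))) (ball (0 : ℂ) (‖z‖ + 1)) := by
        refine (hasProd_loc (‖z‖ + 1)).differentiableOn (.of_forall fun s => ?_) isOpen_ball
        simpa [Finset.prod_fn] using
          DifferentiableOn.finsetProd (fun i _ =>
            ((term_diff i).const_add 1).differentiableOn)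
      exact h1.differentiableAt (isOpen_ball.mem_nhds (by simp))
  rw [h2]
  refine (h1.congr fun n => ?_).const_add _
  rw [logDeriv_prod]
  · exact Finset.sum_congr rfl fun j _ => logDeriv_term j (hzr j)
  · intro j _
    have := r_ne j
    intro h
    apply hzr j
    field_simp at h
    linear_combination -h
  · intro j _
    exact ((term_diff j).const_add 1).differentiableAt

theorem norm_p_tendsto (z : ℂ) : Tendsto (fun n => ‖p n z‖) atTop (𝓝 ‖f z‖) := (p_tendsto z).norm

theorem f_upper (k : ℕ) {z : ℂ} (hz : ‖z‖ ≤ r (k + 1) / 2 ^ 15) : ‖f z‖ ≤ r (k + 2) / 2 ^ 16 := by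
  refine le_of_tendsto (norm_p_tendsto z) ?_
  filter_upwards [eventually_gt_atTop k] with n hn
  exact upper k n hn hz

theorem f_lower (k : ℕ) {z : ℂ} (hz1 : r k / 4 ≤ ‖z‖) (hz2 : ‖z‖ ≤ r (k + 1) / 4) :
    K / 4 * (‖z‖ ^ (k + 1) / ∏ j ∈ Finset.range k, r j) * ‖1 - z / r k‖ ≤ ‖f z‖ := by
  refine ge_of_tendsto (norm_p_tendsto z) ?_
  filter_upwards [eventually_gt_atTop k] with n hn
  exact lower k n hn hz1 hz2

theorem f_lower0 {z : ℂ} (hz2 : ‖z‖ ≤ 1 / 4) : K / 2 * ‖z‖ ≤ ‖f z‖ :=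
  ge_of_tendsto (norm_p_tendsto z) (Eventually.of_forall fun n => lower0 n hz2)

theorem f_lower1 (k : ℕ) {z : ℂ} (hz1 : r k / 4 ≤ ‖z‖) (hz2 : ‖z‖ ≤ r (k + 1) / 4) :
    2 ^ (k + 5) * r (k + 1) * ‖1 - z / r k‖ ≤ ‖f z‖ := by
  refine le_trans ?_ (f_lower k hz1 hz2)
  apply mul_le_mul_of_nonneg_right _ (norm_nonneg _)
  have hP := prod_pos' k
  have hid := ident k
  set P := ∏ j ∈ Finset.range k, r j
  have hr := r_pos k
  have hK := K_pos
  calc 2 ^ (k + 5) * r (k + 1) = (8 ^ (k + 3) * r (k + 1) * P) / (4 ^ (k + 1) * 4 * P) := by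
        have e1 : (8 : ℝ) ^ (k + 3) = 2 ^ (k + 5) * (4 ^ (k + 1) * 4) := by
          have e8 : (8 : ℝ) = 2 ^ 3 := by norm_num
          have e4 : (4 : ℝ) = 2 ^ 2 := by norm_num
          rw [e8, e4, ← pow_mul, ← pow_mul, ← pow_add, ← pow_add]
          congr 1
          omega
        rw [e1]
        field_simp
    _ = K / 4 * ((r k / 4) ^ (k + 1) / P) := by
        rw [← hid, div_pow]
        field_simp
    _ ≤ K / 4 * (‖z‖ ^ (k + 1) / P) := by gcongr

theorem f_lower2 (k : ℕ) {z : ℂ} (hz1 : 4 * r k ≤ ‖z‖) (hz2 : ‖z‖ ≤ r (k + 1) / 4) :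
    ‖z‖ ^ k ≤ ‖f z‖ := by
  have hr := r_pos k
  have hx : 0 < ‖z‖ := by linarith
  refine le_trans ?_ (f_lower k (by linarith) hz2)
  have hP := prod_pos' k
  have hPk := prod_le k
  set P := ∏ j ∈ Finset.range k, r j
  have h1 : ‖z‖ / (2 * r k) ≤ ‖1 - z / r k‖ := by
    have := norm_sub_norm_le (z / r k) 1
    rw [norm_one, norm_div_r, norm_sub_rev] at this
    refine le_trans ?_ this
    rw [div_sub_one hr.ne', div_le_div_iff₀ (by positivity) hr]
    nlinarith
  have hK : (8 : ℝ) ≤ K := by rw [K]; norm_num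
  calc ‖z‖ ^ k = 8 / 4 * (‖z‖ ^ (k + 1) / r k) * (‖z‖ / (2 * r k)) * ((r k / ‖z‖) ^ 2) := by
        rw [pow_succ]
        field_simp
        norm_num
    _ ≤ 8 / 4 * (‖z‖ ^ (k + 1) / r k) * (‖z‖ / (2 * r k)) * 1 := by
        gcongr
        apply pow_le_one₀ (by positivity)
        rw [div_le_one hx]
        linarith
    _ = 8 / 4 * (‖z‖ ^ (k + 1) / r k) * (‖z‖ / (2 * r k)) := by ring
    _ ≤ K / 4 * (‖z‖ ^ (k + 1) / P) * ‖1 - z / r k‖ := by gcongr

theorem f_zero : f 0 = 0 := by simp [f]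

theorem f_r (k : ℕ) : f (r k) = 0 := by
  apply tendsto_nhds_unique (p_tendsto (r k))
  refine tendsto_const_nhds.congr' ?_
  filter_upwards [eventually_gt_atTop k] with n hn
  rw [p]
  symm
  apply mul_eq_zero_of_right
  apply Finset.prod_eq_zero (Finset.mem_range.2 hn)
  rw [div_self (r_ne k), sub_self]

/-- every modulus is small or in one of the ranges -/
theorem cases_norm {x : ℝ} (hx : 1 / 4 ≤ x) : ∃ k, r k / 4 ≤ x ∧ x ≤ r (k + 1) / 4 := by
  have h1 : ∃ n, x < r n / 4 := by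
    obtain ⟨n, hn⟩ := (r_tendsto.eventually_gt_atTop (4 * x)).exists
    exact ⟨n, by linarith⟩
  classical
  set n := Nat.find h1 with hn
  have h2 : x < r n / 4 := Nat.find_spec h1
  rcases Nat.eq_zero_or_pos n with h0 | h0
  · rw [h0] at h2
    have : r 0 = 1 := rfl
    rw [this] at h2
    linarith
  · refine ⟨n - 1, ?_, ?_⟩
    · by_contra hcon
      push Not at hcon
      exact Nat.find_min h1 (show n - 1 < Nat.find h1 by omega) hcon
    · rw [Nat.sub_add_cancel h0]
      exact h2.le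

theorem f_eq_zero {z : ℂ} (hz : f z = 0) : z = 0 ∨ ∃ k, z = r k := by
  rcases le_total ‖z‖ (1 / 4) with h | h
  · left
    have h1 := f_lower0 h
    rw [hz, norm_zero] at h1
    have := K_pos
    have h2 : ‖z‖ ≤ 0 := by
      by_contra h3
      push Not at h3
      have : 0 < K / 2 * ‖z‖ := by positivity
      linarith
    exact norm_le_zero_iff.1 h2
  · right
    obtain ⟨k, hk1, hk2⟩ := cases_norm h
    refine ⟨k, ?_⟩
    have h1 := f_lower1 k hk1 hk2
    rw [hz, norm_zero] at h1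
    have hr := r_pos (k + 1)
    have h2 : ‖1 - z / r k‖ ≤ 0 := by
      by_contra h3
      push Not at h3
      have : 0 < 2 ^ (k + 5) * r (k + 1) * ‖1 - z / r k‖ := by positivity
      linarith
    have h3 := sub_eq_zero.1 (norm_le_zero_iff.1 h2)
    have h4 := r_ne k
    rw [eq_div_iff h4] at h3
    rw [← h3, one_mul]

/-- a zero with a linear lower bound is simple -/
theorem deriv_ne_of_lower {g : ℂ → ℂ} {a : ℂ} {c : ℝ} (hc : 0 < c) (hg : DifferentiableAt ℂ g a)
    (ha : g a = 0) (h : ∀ᶠ z in 𝓝 a, c * ‖z - a‖ ≤ ‖g z‖) : deriv g a ≠ 0 := by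
  intro h0
  have h1 := hasDerivAt_iff_tendsto_slope.1 hg.hasDerivAt
  have h2 := h1.norm
  rw [h0, norm_zero] at h2
  have h3 : c ≤ 0 := by
    refine ge_of_tendsto h2 ?_
    filter_upwards [mem_nhdsWithin_of_mem_nhds h, self_mem_nhdsWithin] with z hz hza
    have hza' : 0 < ‖z - a‖ := norm_pos_iff.2 (sub_ne_zero.2 hza)
    rw [slope_def_field, ha, sub_zero, norm_div, le_div_iff₀ hza']
    exact hz
  linarith

theorem deriv_zero_ne : deriv f 0 ≠ 0 := by
  refine deriv_ne_of_lower (c := K / 2) (by have := K_pos; positivity) (f_differentiable 0) f_zero ?_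
  filter_upwards [ball_mem_nhds (0 : ℂ) (show (0 : ℝ) < 1 / 4 by norm_num)] with z hz
  rw [sub_zero]
  exact f_lower0 (mem_ball_zero_iff.1 hz).le

theorem deriv_r_ne (k : ℕ) : deriv f (r k) ≠ 0 := by
  have hr := r_pos k
  have hr1 := r_pos (k + 1)
  refine deriv_ne_of_lower (c := 2 ^ (k + 5) * r (k + 1) / r k) (by positivity)
    (f_differentiable _) (f_r k) ?_
  filter_upwards [ball_mem_nhds (r k : ℂ) (show (0 : ℝ) < r k / 2 by positivity)] with z hz
  rw [mem_ball, dist_eq_norm] at hz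
  have hs := r_step k
  have h1 : r k / 4 ≤ ‖z‖ := by
    have := norm_sub_norm_le (r k : ℂ) z
    rw [norm_r, norm_sub_rev] at this
    linarith
  have h2 : ‖z‖ ≤ r (k + 1) / 4 := by
    have := norm_sub_norm_le z (r k : ℂ)
    rw [norm_r] at this
    linarith
  refine le_trans (le_of_eq ?_) (f_lower1 k h1 h2)
  have h3 : (1 : ℂ) - z / r k = -((z - r k) / r k) := by
    have := r_ne k
    field_simp
    ring
  rw [h3, norm_neg, norm_div, norm_r]
  ring

end Pool.Agent.V1169.BW
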