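import Pool.Agent.V1169.BW2

/-!
The critical points of `f` are real, and each lies in an interval `(r k / 4, (1 - ε k) r k)`.
-/

set_option autoImplicit false

open Filter Topology Metric Set

namespace Pool.Agent.V1169.BW

/-- The relative size of the exceptional discs. -/
noncomputable def ep (k : ℕ) : ℝ := 1 / (4 * (k + 1))

theorem ep_pos (k : ℕ) : 0 < ep k := by
  rw [ep]
  positivity

theorem ep_le (k : ℕ) : ep k ≤ 1 / 4 := by
  rw [ep]
  apply one_div_le_one_div_of_le (by norm_num)
  have : (0 : ℝ) ≤ k := Nat.cast_nonneg k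
  linarith

theorem lemA {k n : ℕ} (hkn : k ≤ n) {x : ℝ} (hx0 : 0 < x) (hx : x ≤ r k / 4)
    (hlt : ∀ j < k, r j < x) : 1 / (3 * x) ≤ 1 / x + ∑ j ∈ Finset.range n, 1 / (x - r j) := by
  rw [← Finset.sum_range_add_sum_Ico _ hkn]
  have h1 : 0 ≤ ∑ j ∈ Finset.range k, 1 / (x - r j) := by
    apply Finset.sum_nonneg
    intro j hj
    have := hlt j (Finset.mem_range.1 hj)
    apply div_nonneg zero_le_one
    linarith
  have h2 : -(4 / 3 * (2 / r k)) ≤ ∑ j ∈ Finset.Ico k n, 1 / (x - r j) := by
    have h3 := sum_inv' k n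
    calc -(4 / 3 * (2 / r k)) ≤ -(4 / 3 * ∑ j ∈ Finset.Ico k n, (r j)⁻¹) := by linarith
      _ = ∑ j ∈ Finset.Ico k n, -(4 / 3 * (r j)⁻¹) := by
        rw [Finset.mul_sum, Finset.sum_neg_distrib]
      _ ≤ _ := by
        apply Finset.sum_le_sum
        intro j hj
        have h4 : r k ≤ r j := r_strictMono.monotone (Finset.mem_Ico.1 hj).1
        have h5 := r_pos j
        have h6 : x - r j < 0 := by linarith
        have h7 : 1 / (x - r j) = -(1 / (r j - x)) := by
          rw [← neg_sub, div_neg]
        rw [h7, neg_le_neg_iff, ← div_eq_mul_inv, div_le_div_iff₀ (by linarith) h5]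
        linarith
  have h3 : 4 / 3 * (2 / r k) ≤ 2 / (3 * x) := by
    have h5 := r_pos k
    rw [← mul_div_assoc, div_le_div_iff₀ h5 (by positivity)]
    linarith
  have h4 : 1 / x = 1 / (3 * x) + 2 / (3 * x) := by
    field_simp
    norm_num
  linarith

theorem lemB {k n : ℕ} (hkn : k < n) {x : ℝ} (hx : (1 - ep k) * r k ≤ x) (hx2 : x < r k) :
    1 / x + ∑ j ∈ Finset.range n, 1 / (x - r j) ≤ -(2 * (k + 1) / r k) := by
  have hr := r_pos k
  have he := ep_le k
  have hx3 : 3 / 4 * r k ≤ x := by nlinarith
  rw [← Finset.sum_range_add_sum_Ico _ (show k + 1 ≤ n by omega), Finset.sum_range_succ]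
  have h1 : ∑ j ∈ Finset.range k, 1 / (x - r j) ≤ k * (2 / r k) := by
    calc ∑ j ∈ Finset.range k, 1 / (x - r j) ≤ ∑ j ∈ Finset.range k, (2 / r k) := by
          apply Finset.sum_le_sum
          intro j hj
          have h3 : r (j + 1) ≤ r k := r_strictMono.monotone (Finset.mem_range.1 hj)
          have h4 := r_step j
          have h5 := r_pos j
          rw [div_le_div_iff₀ (by linarith) hr]
          linarith
      _ = k * (2 / r k) := by
          rw [Finset.sum_const, Finset.card_range, nsmul_eq_mul]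
  have h2 : 1 / x ≤ 2 / r k := by
    rw [div_le_div_iff₀ (by linarith) hr]
    linarith
  have h3 : 1 / (x - r k) ≤ -(4 * (k + 1) / r k) := by
    have h7 : 1 / (x - r k) = -(1 / (r k - x)) := by
      rw [← neg_sub, div_neg]
    rw [h7, neg_le_neg_iff, div_le_div_iff₀ hr (by linarith)]
    have h8 : r k - x ≤ ep k * r k := by linarith
    have h9 : 4 * ((k : ℝ) + 1) * ep k = 1 := by
      rw [ep]
      have : (k : ℝ) + 1 ≠ 0 := by positivity
      field_simp
    calc 4 * ((k : ℝ) + 1) * (r k - x) ≤ 4 * ((k : ℝ) + 1) * (ep k * r k) := by gcongr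
      _ = 1 * r k := by rw [← mul_assoc, h9]
  have h4 : ∑ j ∈ Finset.Ico (k + 1) n, 1 / (x - r j) ≤ 0 := by
    apply Finset.sum_nonpos
    intro j hj
    have h4 : r k ≤ r j := r_strictMono.monotone (by have := (Finset.mem_Ico.1 hj).1; omega)
    apply div_nonpos_of_nonneg_of_nonpos zero_le_one
    linarith
  have h5 : 2 * ((k : ℝ) + 1) / r k = k * (2 / r k) + 2 / r k := by
    field_simp
  have h6 : 4 * ((k : ℝ) + 1) / r k = 2 * (2 * ((k : ℝ) + 1) / r k) := by
    ring
  linarith

/-- location of the critical points -/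
theorem crit {z : ℂ} (hz : deriv f z = 0) :
    ∃ (k : ℕ) (x : ℝ), z = x ∧ r k / 4 < x ∧ x < (1 - ep k) * r k := by
  have hf : f z ≠ 0 := by
    intro h
    rcases f_eq_zero h with rfl | ⟨k, rfl⟩
    · exact deriv_zero_ne hz
    · exact deriv_r_ne k hz
  have hL := logDeriv_f hf
  rw [logDeriv_apply, hz, zero_div] at hL
  have hz0 : z ≠ 0 := by
    rintro rfl
    exact hf f_zero
  have hzr : ∀ k, z ≠ r k := by
    rintro k rfl
    exact hf (f_r k)
  -- the imaginary part
  have him : z.im = 0 := by
    by_contra him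
    have h1 : Tendsto (fun n => z.im * (1 / z + ∑ j ∈ Finset.range n, 1 / (z - r j)).im) atTop
        (𝓝 (z.im * 0)) := by
      have := (Complex.continuous_im.tendsto _).comp hL
      rw [Complex.zero_im] at this
      exact this.const_mul _
    have h2 : ∀ n, z.im * (1 / z + ∑ j ∈ Finset.range n, 1 / (z - r j)).im ≤
        -(z.im ^ 2 / Complex.normSq z) := by
      intro n
      rw [Complex.add_im, Complex.im_sum, mul_add]
      have h3 : z.im * (1 / z).im = -(z.im ^ 2 / Complex.normSq z) := by
        rw [one_div, Complex.inv_im]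
        ring
      have h4 : z.im * ∑ j ∈ Finset.range n, (1 / (z - r j)).im ≤ 0 := by
        rw [Finset.mul_sum]
        apply Finset.sum_nonpos
        intro j _
        rw [one_div, Complex.inv_im, Complex.sub_im, Complex.ofReal_im, sub_zero]
        have : z.im * (-z.im / Complex.normSq (z - r j)) = -(z.im ^ 2 / Complex.normSq (z - r j)) := by
          ring
        rw [this, neg_nonpos]
        exact div_nonneg (sq_nonneg _) (Complex.normSq_nonneg _)
      linarith
    have h3 := le_of_tendsto h1 (Eventually.of_forall h2)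
    have h4 : 0 < z.im ^ 2 / Complex.normSq z :=
      div_pos (by positivity) (Complex.normSq_pos.2 hz0)
    linarith
  obtain ⟨x, hx⟩ : ∃ x : ℝ, z = x := ⟨z.re, Complex.ext (by simp) (by simp [him])⟩
  have hl : Tendsto (fun n => 1 / x + ∑ j ∈ Finset.range n, 1 / (x - r j)) atTop (𝓝 0) := by
    have h1 := (Complex.continuous_re.tendsto _).comp hL
    rw [Complex.zero_re] at h1
    refine h1.congr fun n => ?_
    have : (1 / z + ∑ j ∈ Finset.range n, 1 / (z - r j)) =
        ((1 / x + ∑ j ∈ Finset.range n, 1 / (x - r j) : ℝ) : ℂ) := by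
      rw [hx]
      push_cast
      rfl
    simp only [Function.comp]
    rw [this, Complex.ofReal_re]
  have hx0 : x ≠ 0 := by
    rintro rfl
    exact hz0 (by rw [hx, Complex.ofReal_zero])
  have hxr : ∀ k, x ≠ r k := by
    intro k h
    exact hzr k (by rw [hx, h])
  have hA : ∀ k, 0 < x → x ≤ r k / 4 → (∀ j < k, r j < x) → False := by
    intro k h1 h2 h3
    have h4 : 1 / (3 * x) ≤ 0 := by
      refine ge_of_tendsto hl ?_
      filter_upwards [eventually_ge_atTop k] with n hn
      exact lemA hn h1 h2 h3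
    have : 0 < 1 / (3 * x) := by positivity
    linarith
  have hxpos : 0 < x := by
    by_contra hcon
    have hx1 : x < 0 := lt_of_le_of_ne (not_lt.1 hcon) hx0
    have h4 : 0 ≤ 1 / x := by
      refine le_of_tendsto hl (Eventually.of_forall fun n => ?_)
      have : ∑ j ∈ Finset.range n, 1 / (x - r j) ≤ 0 := by
        apply Finset.sum_nonpos
        intro j _
        have := r_pos j
        apply div_nonpos_of_nonneg_of_nonpos zero_le_one
        linarith
      linarith
    have : 1 / x < 0 := one_div_neg.2 hx1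
    linarith
  rcases le_total x (1 / 4) with h | h
  · exact absurd (hA 0 hxpos (by have : r 0 = 1 := rfl; rw [this]; exact h)
      (fun j hj => absurd hj (Nat.not_lt_zero j))) not_false
  obtain ⟨k, hk1, hk2⟩ := cases_norm h
  have hlow : ∀ j < k, r j < x := by
    intro j hj
    have h3 : r (j + 1) ≤ r k := r_strictMono.monotone hj
    have h4 := r_step j
    have h5 := r_pos j
    linarith
  refine ⟨k, x, hx, ?_, ?_⟩
  · rcases hk1.lt_or_eq with h1 | h1
    · exact h1
    · exact absurd (hA k hxpos h1.ge hlow) not_false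
  · by_contra hcon
    push Not at hcon
    rcases lt_or_gt_of_ne (hxr k) with h1 | h1
    · have h4 : 0 ≤ -(2 * ((k : ℝ) + 1) / r k) := by
        refine le_of_tendsto hl ?_
        filter_upwards [eventually_gt_atTop k] with n hn
        exact lemB hn hcon h1
      have := r_pos k
      have : 0 < 2 * ((k : ℝ) + 1) / r k := by positivity
      linarith
    · refine hA (k + 1) hxpos hk2 fun j hj => ?_
      rcases Nat.lt_succ_iff_lt_or_eq.1 hj with h2 | h2
      · exact hlow j h2
      · rw [h2]
        exact h1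

end Pool.Agent.V1169.BW
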