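import Pool.Agent.V1169.BW3
import Pool.Agent.W723.MC.Abs
import Pool.Agent.TH224.SC.Defs

/-!
Dynamics of `f`.
-/

set_option autoImplicit false

open Filter Topology Metric Set

namespace Pool.Agent.V1169.BW

open Pool.Agent.H384R2.Fatou Pool.Agent.W723.MC Pool.Agent.TH224.SC

theorem f_cont : Continuous f := f_differentiable.continuous

theorem f_open (S : Set ℂ) (hS : IsOpen S) : IsOpen (f '' S) := by
  have h := (f_differentiable.differentiableOn.analyticOnNhd
    isOpen_univ).is_constant_or_isOpen isPreconnected_univ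
  rcases h with ⟨w, hw⟩ | h
  · exfalso
    have h0 := hw 0 (mem_univ _)
    rw [f_zero] at h0
    have h1 := f_lower0 (z := (1 / 8 : ℂ)) (by simp; norm_num)
    rw [hw _ (mem_univ _), ← h0, norm_zero] at h1
    have := K_pos
    have h2 : 0 < K / 2 * ‖(1 / 8 : ℂ)‖ := by simp; positivity
    linarith
  · exact h S (subset_univ _) hS

theorem iter_zero (k : ℕ) : f^[k] 0 = 0 := by
  induction k with
  | zero => rfl
  | succ k ih => rw [Function.iterate_succ_apply', ih, f_zero]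

/-- the forward invariant annuli -/
def Bs (k : ℕ) : Set ℂ := {z | 4 * r k < ‖z‖ ∧ ‖z‖ < r (k + 1) / 2 ^ 15}

/-- the escaping open sets -/
def O (k : ℕ) : Set ℂ := {z | r k / 4 < ‖z‖ ∧ ‖z‖ < r (k + 1) / 2 ^ 15 ∧ ep k * r k < ‖z - r k‖}

theorem O_open (k : ℕ) : IsOpen (O k) :=
  (isOpen_lt continuous_const continuous_norm).inter
    ((isOpen_lt continuous_norm continuous_const).inter
      (isOpen_lt continuous_const (continuous_id.sub continuous_const).norm))

theorem Bs_O (k : ℕ) : Bs k ⊆ O k := by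
  rintro z ⟨h1, h2⟩
  have hr := r_pos k
  have he := ep_le k
  refine ⟨by linarith, h2, ?_⟩
  have := norm_sub_norm_le z (r k : ℂ)
  rw [norm_r] at this
  have h3 : ep k * r k ≤ 1 / 4 * r k := mul_le_mul_of_nonneg_right he hr.le
  linarith

theorem pow_ep (k : ℕ) : 4 ≤ 2 ^ (k + 5) * ep k := by
  rw [ep, mul_one_div, le_div_iff₀ (by positivity)]
  have h1 : (k + 1 : ℕ) ≤ 2 ^ k := Nat.lt_two_pow_self
  have h2 : ((k : ℝ) + 1) ≤ 2 ^ k := by exact_mod_cast h1
  rw [pow_add]
  nlinarith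

theorem O_map {k : ℕ} {z : ℂ} (hz : z ∈ O k) : f z ∈ Bs (k + 1) := by
  obtain ⟨h1, h2, h3⟩ := hz
  have hr := r_pos k
  have hr1 := r_pos (k + 1)
  have hr2 := r_pos (k + 2)
  constructor
  · have h4 := f_lower1 k h1.le (by linarith : ‖z‖ ≤ r (k + 1) / 4)
    have h5 : ep k < ‖1 - z / r k‖ := by
      have e : (1 : ℂ) - z / r k = -((z - r k) / r k) := by
        have := r_ne k
        field_simp
        ring
      rw [e, norm_neg, norm_div, norm_r, lt_div_iff₀ hr]
      exact h3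
    have h6 := pow_ep k
    calc 4 * r (k + 1) ≤ 2 ^ (k + 5) * ep k * r (k + 1) := by gcongr
      _ = 2 ^ (k + 5) * r (k + 1) * ep k := by ring
      _ < 2 ^ (k + 5) * r (k + 1) * ‖1 - z / r k‖ := by gcongr
      _ ≤ _ := h4
  · have h4 := f_upper k h2.le
    refine h4.trans_lt ?_
    show r (k + 2) / 2 ^ 16 < r (k + 2) / 2 ^ 15
    apply div_lt_div_of_pos_left hr2 (by positivity) (by norm_num)

theorem Bs_iter {k : ℕ} {z : ℂ} (hz : z ∈ Bs k) (n : ℕ) : f^[n] z ∈ Bs (k + n) := by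
  induction n with
  | zero => exact hz
  | succ n ih =>
    rw [Function.iterate_succ_apply']
    exact O_map (Bs_O _ ih)

theorem O_iter {k : ℕ} {z : ℂ} (hz : z ∈ O k) (n : ℕ) : f^[n + 1] z ∈ Bs (k + n + 1) := by
  rw [Function.iterate_succ_apply]
  have := Bs_iter (O_map hz) n
  rwa [show k + 1 + n = k + n + 1 by omega] at this

theorem O_esc (k : ℕ) : EscOn f (O k) := by
  intro R
  have h1 : Tendsto (fun n => r (k + n)) atTop atTop :=
    r_tendsto.comp (tendsto_add_atTop_nat k |>.congr fun n => add_comm n k)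
  filter_upwards [h1.eventually_ge_atTop R, eventually_ge_atTop 1] with n hn h1 z hz
  obtain ⟨m, rfl⟩ : ∃ m, n = m + 1 := ⟨n - 1, by omega⟩
  have := (O_iter hz m).1
  have hr := r_pos (k + m + 1)
  rw [← add_assoc] at hn
  linarith

theorem O_fatou (k : ℕ) : O k ⊆ FatouSet f := subset_fatou_of_escOn (O_esc k) (O_open k)

theorem isPreconnected_ann {a b : ℝ} (ha : 0 < a) : IsPreconnected {z : ℂ | a < ‖z‖ ∧ ‖z‖ < b} := by
  have h1 : IsPreconnected ((Ioo a b) ×ˢ (sphere (0 : ℂ) 1)) :=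
    isPreconnected_Ioo.prod (isPreconnected_sphere
      (by rw [Complex.rank_real_complex]; norm_num) 0 1)
  have h2 := h1.image (fun q : ℝ × ℂ => (q.1 : ℂ) * q.2) (by fun_prop)
  refine Eq.subst (motive := IsPreconnected) ?_ h2
  ext z
  simp only [Set.mem_ofPred_eq, Set.mem_image, Set.mem_prod, mem_Ioo, mem_sphere_zero_iff_norm,
    Prod.exists]
  constructor
  · rintro ⟨t, v, ⟨ht, hv⟩, rfl⟩
    rw [norm_mul, hv, mul_one, Complex.norm_real, Real.norm_eq_abs, abs_of_pos (by linarith)]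
    exact ht
  · intro hz
    have hz0 : ‖z‖ ≠ 0 := by linarith
    refine ⟨‖z‖, z / ‖z‖, ⟨hz, ?_⟩, ?_⟩
    · rw [norm_div, Complex.norm_real, norm_norm, div_self hz0]
    · have : ((‖z‖ : ℝ) : ℂ) ≠ 0 := by exact_mod_cast hz0
      field_simp

/-- the connected sets defining the components -/
def G (k : ℕ) : Set ℂ :=
  ({z | r k / 4 < ‖z‖ ∧ ‖z‖ < (1 - ep k) * r k} ∪ sphere (r k : ℂ) (r k / 2)) ∪
    {z | (1 + ep k) * r k < ‖z‖ ∧ ‖z‖ < r (k + 1) / 2 ^ 15}

/-- the base point -/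
noncomputable def pt (k : ℕ) : ℂ := ((r k / 2 : ℝ) : ℂ)

theorem norm_pt (k : ℕ) : ‖pt k‖ = r k / 2 := by
  have := r_pos k
  rw [pt, Complex.norm_real, Real.norm_of_nonneg (by positivity)]

theorem pt_G (k : ℕ) : pt k ∈ {z : ℂ | r k / 4 < ‖z‖ ∧ ‖z‖ < (1 - ep k) * r k} := by
  have := r_pos k
  have he := ep_le k
  show r k / 4 < ‖pt k‖ ∧ ‖pt k‖ < (1 - ep k) * r k
  rw [norm_pt]
  constructor
  · linarith
  · nlinarith

theorem pt_sphere (k : ℕ) : pt k ∈ sphere (r k : ℂ) (r k / 2) := by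
  have := r_pos k
  rw [mem_sphere, dist_eq_norm, pt, ← Complex.ofReal_sub, Complex.norm_real]
  have e : r k / 2 - r k = -(r k / 2) := by ring
  rw [e, norm_neg, Real.norm_of_nonneg (by positivity)]

theorem G_O (k : ℕ) : G k ⊆ O k := by
  have hr := r_pos k
  have hr1 := r_pos (k + 1)
  have he := ep_le k
  have he0 := ep_pos k
  have hs := r_step k
  rintro z ((⟨h1, h2⟩ | h1) | ⟨h1, h2⟩)
  · refine ⟨h1, ?_, ?_⟩
    · have : (1 - ep k) * r k ≤ r k := by nlinarith
      have h3 : r k < r (k + 1) / 2 ^ 15 := by linarith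
      linarith
    · have := norm_sub_norm_le (r k : ℂ) z
      rw [norm_r, norm_sub_rev] at this
      linarith
  · rw [mem_sphere, dist_eq_norm] at h1
    have h2 := norm_sub_norm_le (r k : ℂ) z
    rw [norm_r, norm_sub_rev, h1] at h2
    have h3 := norm_sub_norm_le z (r k : ℂ)
    rw [norm_r, h1] at h3
    refine ⟨by linarith, by linarith, ?_⟩
    rw [h1]
    nlinarith
  · refine ⟨?_, h2, ?_⟩
    · nlinarith
    · have := norm_sub_norm_le z (r k : ℂ)
      rw [norm_r] at this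
      linarith

theorem G_pre (k : ℕ) : IsPreconnected (G k) := by
  have hr := r_pos k
  have he := ep_le k
  have he0 := ep_pos k
  have hs := r_step k
  have h1 : IsPreconnected ({z : ℂ | r k / 4 < ‖z‖ ∧ ‖z‖ < (1 - ep k) * r k} ∪
      sphere (r k : ℂ) (r k / 2)) := by
    refine IsPreconnected.union (pt k) (pt_G k) (pt_sphere k) (isPreconnected_ann (by positivity)) ?_
    exact isPreconnected_sphere (by rw [Complex.rank_real_complex]; norm_num) _ _
  refine IsPreconnected.union ((3 / 2 * r k : ℝ) : ℂ) (Or.inr ?_) ?_ h1 (isPreconnected_ann ?_)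
  · rw [mem_sphere, dist_eq_norm, ← Complex.ofReal_sub, Complex.norm_real]
    have e : 3 / 2 * r k - r k = r k / 2 := by ring
    rw [e, Real.norm_of_nonneg (by positivity)]
  · show (1 + ep k) * r k < ‖((3 / 2 * r k : ℝ) : ℂ)‖ ∧ ‖((3 / 2 * r k : ℝ) : ℂ)‖ < r (k + 1) / 2 ^ 15
    rw [Complex.norm_real, Real.norm_of_nonneg (by positivity)]
    constructor
    · nlinarith
    · linarith
  · positivity

/-- the Fatou components -/
def U (k : ℕ) : Set ℂ := FatouComponent f (pt k)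

theorem pt_mem_G (k : ℕ) : pt k ∈ G k := Or.inl (Or.inl (pt_G k))

theorem pt_F (k : ℕ) : pt k ∈ FatouSet f := O_fatou k (G_O k (pt_mem_G k))

theorem pt_U (k : ℕ) : pt k ∈ U k := mem_connectedComponentIn (pt_F k)

theorem G_U (k : ℕ) : G k ⊆ U k :=
  (G_pre k).subset_connectedComponentIn (pt_mem_G k) ((G_O k).trans (O_fatou k))

theorem Bs_G (k : ℕ) : Bs k ⊆ G k := by
  rintro z ⟨h1, h2⟩
  have hr := r_pos k
  have he := ep_le k
  exact Or.inr ⟨by nlinarith, h2⟩

theorem Bs_U (k : ℕ) : Bs k ⊆ U k := (Bs_G k).trans (G_U k)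

theorem U_open (k : ℕ) : IsOpen (U k) := component_isOpen _ _

theorem U_pre (k : ℕ) : IsPreconnected (U k) := isPreconnected_connectedComponentIn

theorem U_fatou (k : ℕ) : U k ⊆ FatouSet f := connectedComponentIn_subset _ _

theorem U_map (k : ℕ) : f '' U k ⊆ U (k + 1) := by
  have h1 : f (pt k) ∈ U (k + 1) := Bs_U _ (O_map (G_O k (pt_mem_G k)))
  have h2 : U (k + 1) = FatouComponent f (f (pt k)) := comp_eq h1
  rw [h2]
  exact component_map f_cont f_open (pt_F k) 1

theorem U_iter (k n : ℕ) : f^[n] '' U k ⊆ U (k + n) := by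
  induction n with
  | zero => simp
  | succ n ih =>
    rw [Function.iterate_succ', image_comp]
    exact (image_mono ih).trans (U_map _)

theorem Bs_log {k : ℕ} {z : ℂ} (hz : z ∈ Bs k) :
    0 < Real.log ‖z‖ ∧ (k : ℝ) * Real.log ‖z‖ ≤ Real.log ‖f z‖ := by
  have hr := r_ge_one k
  have hr1 := r_pos (k + 1)
  have h1 : 1 < ‖z‖ := by linarith [hz.1]
  refine ⟨Real.log_pos h1, ?_⟩
  rw [← Real.log_pow]
  apply Real.log_le_log (by positivity)
  exact f_lower2 k hz.1.le (by linarith [hz.2])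

theorem U_ne_lt {j k : ℕ} (hjk : j < k) : U j ≠ U k := by
  intro heq
  obtain ⟨d, rfl⟩ : ∃ d, k = j + (d + 1) := ⟨k - j - 1, by omega⟩
  have hq : f^[d + 1] (pt j) ∈ U j := by
    rw [heq]
    exact U_iter j (d + 1) ⟨_, pt_U j, rfl⟩
  have hO : O j ∈ 𝓝 (pt j) := (O_open j).mem_nhds (G_O j (pt_mem_G j))
  obtain ⟨C, hC, hev⟩ := growth_compare f_differentiable (pt_F j) hO (O_esc j) hq
  have hCev : ∀ᶠ n : ℕ in atTop, C < n := tendsto_natCast_atTop_atTop.eventually_gt_atTop _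
  obtain ⟨n, ⟨⟨hn1, -⟩, hn2⟩, hn3⟩ := ((hev.and hCev).and (eventually_ge_atTop 1)).exists
  rw [← Function.iterate_add_apply] at hn1
  obtain ⟨m, rfl⟩ : ∃ m, n = m + 1 := ⟨n - 1, by omega⟩
  have hB : ∀ i, f^[m + 1 + i] (pt j) ∈ Bs (j + (m + i) + 1) := by
    intro i
    have := O_iter (G_O j (pt_mem_G j)) (m + i)
    rwa [show m + i + 1 = m + 1 + i by omega] at this
  have hmono : ∀ i, (j + m + 1 : ℝ) * Real.log ‖f^[m + 1] (pt j)‖ ≤
      Real.log ‖f^[m + 1 + (i + 1)] (pt j)‖ := by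
    intro i
    induction i with
    | zero =>
      have h1 := (Bs_log (hB 0)).2
      rw [← add_assoc, Function.iterate_succ_apply' f (m + 1 + 0)]
      simp only [add_zero] at h1 ⊢
      push_cast at h1
      exact h1
    | succ i ih =>
      refine ih.trans ?_
      have h1 := Bs_log (hB (i + 1))
      rw [← Function.iterate_succ_apply' f] at h1
      have h2 : (1 : ℝ) ≤ ((j + (m + (i + 1)) + 1 : ℕ) : ℝ) := by
        exact_mod_cast (by omega : 1 ≤ j + (m + (i + 1)) + 1)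
      have h3 : Real.log ‖f^[m + 1 + (i + 1)] (pt j)‖ ≤
          ((j + (m + (i + 1)) + 1 : ℕ) : ℝ) * Real.log ‖f^[m + 1 + (i + 1)] (pt j)‖ :=
        le_mul_of_one_le_left h1.1.le h2
      exact h3.trans h1.2
  have h1 := hmono d
  have h2 := (Bs_log (hB 0)).1
  simp only [add_zero] at h2
  have h3 : (j + m + 1 : ℝ) * Real.log ‖f^[m + 1] (pt j)‖ ≤ C * Real.log ‖f^[m + 1] (pt j)‖ :=
    h1.trans hn1
  have h4 := le_of_mul_le_mul_right h3 h2
  push_cast at hn2
  have : (0 : ℝ) ≤ j := Nat.cast_nonneg j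
  linarith

theorem U_ne {j k : ℕ} (hjk : j ≠ k) : U j ≠ U k := by
  rcases lt_or_gt_of_ne hjk with h1 | h1
  · exact U_ne_lt h1
  · exact (U_ne_lt h1).symm

theorem U_disjoint {j k : ℕ} (hjk : j ≠ k) : Disjoint (U j) (U k) := by
  rw [Set.disjoint_left]
  intro z hz1 hz2
  exact U_ne hjk (comp_eq_of_mem hz1 hz2)

theorem sphere_U {k : ℕ} {ρ : ℝ} (h1 : 4 * r k < ρ) (h2 : ρ < r (k + 1) / 2 ^ 15) {z : ℂ}
    (hz : ‖z‖ = ρ) : z ∈ U k := Bs_U k ⟨by rw [hz]; exact h1, by rw [hz]; exact h2⟩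

/-- a preconnected set with a point inside and a point outside meets the circle -/
theorem cross {A : Set ℂ} (hA : IsPreconnected A) {x y : ℂ} (hx : x ∈ A) (hy : y ∈ A) {t : ℝ}
    (h1 : ‖x‖ ≤ t) (h2 : t ≤ ‖y‖) : ∃ z ∈ A, ‖z‖ = t := by
  have := hA.intermediate_value hx hy continuous_norm.continuousOn
  obtain ⟨z, hz, hzt⟩ := this ⟨h1, h2⟩
  exact ⟨z, hz, hzt⟩

theorem U_bdd (k : ℕ) : U k ⊆ ball 0 (5 * r (k + 1)) := by
  intro z hz
  rw [mem_ball_zero_iff]
  by_contra hcon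
  push Not at hcon
  have hr := r_pos k
  have hr1 := r_pos (k + 1)
  have hs := r_step k
  have hs1 := r_step (k + 1)
  obtain ⟨w, hw, hwt⟩ := cross (U_pre k) (pt_U k) hz (t := 5 * r (k + 1))
    (by rw [norm_pt]; linarith) hcon
  have h1 : w ∈ U (k + 1) := sphere_U (by linarith) (by linarith) hwt
  exact Set.disjoint_left.1 (U_disjoint (Nat.succ_ne_self k).symm) hw h1

theorem U_escape (k : ℕ) {z : ℂ} (hz : z ∈ U k) : Tendsto (fun n => ‖f^[n] z‖) atTop atTop := by
  have hO : O k ∈ 𝓝 (pt k) := (O_open k).mem_nhds (G_O k (pt_mem_G k))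
  obtain ⟨ρ, hρ, -, hE⟩ := esc_near (pt_F k) hO (O_esc k) hz
  rw [Filter.tendsto_atTop]
  intro R
  filter_upwards [hE R] with n hn
  exact hn z (mem_ball_self hρ)

theorem not_U_of_hits {k j : ℕ} {z : ℂ} (hz : f^[j] z = 0) : z ∉ U k := by
  intro hzU
  obtain ⟨n, hn1, hn2⟩ := (((U_escape k hzU).eventually_ge_atTop 1).and (eventually_ge_atTop j)).exists
  obtain ⟨l, rfl⟩ := Nat.exists_eq_add_of_le hn2
  rw [add_comm, Function.iterate_add_apply, hz, iter_zero, norm_zero] at hn1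
  linarith

theorem zero_not_U (k : ℕ) : (0 : ℂ) ∉ U k := not_U_of_hits (j := 0) rfl

/-- discs bounded by circles in `U k` -/
def D (k : ℕ) : Set ℂ := ball 0 (3 * r (k + 1) / 2 ^ 17)

theorem circle_U (k : ℕ) {z : ℂ} (hz : ‖z‖ = 3 * r (k + 1) / 2 ^ 17) : z ∈ U k := by
  have hr := r_pos k
  have hr1 := r_pos (k + 1)
  have hs := r_step k
  exact sphere_U (by rw [lt_div_iff₀ (by positivity)]; linarith) (by linarith) hz

theorem D_map {k : ℕ} {z : ℂ} (hz : z ∈ D k) : ‖f z‖ ≤ r (k + 2) / 2 ^ 16 := by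
  have hz' : ‖z‖ < 3 * r (k + 1) / 2 ^ 17 := mem_ball_zero_iff.1 hz
  have hr1 := r_pos (k + 1)
  apply f_upper k
  linarith

theorem D_map' {k : ℕ} {z : ℂ} (hz : z ∈ D k) : f z ∈ D (k + 1) := by
  have h1 := D_map hz
  have hr2 := r_pos (k + 2)
  show f z ∈ ball (0 : ℂ) (3 * r (k + 2) / 2 ^ 17)
  rw [mem_ball_zero_iff]
  linarith

theorem chase {k : ℕ} {z : ℂ} (hz : z ∈ D k) (hfz : f z ∈ U (k + 1)) : z ∈ U k := by
  by_contra hcon
  have hzF : z ∈ FatouSet f := fatou_backward f_cont (U_fatou _ hfz)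
  set W := FatouComponent f z with hW
  have hzW : z ∈ W := mem_connectedComponentIn hzF
  have hWo : IsOpen W := component_isOpen f z
  have hWp : IsPreconnected W := isPreconnected_connectedComponentIn
  -- `W` is inside the disc
  have hWD : W ⊆ D k := by
    intro w hw
    rw [D, mem_ball_zero_iff]
    by_contra h
    push Not at h
    obtain ⟨v, hv, hvt⟩ := cross hWp hzW hw (mem_ball_zero_iff.1 hz).le h
    have h1 : W = U k := comp_eq_of_mem hv (circle_U k hvt)
    exact hcon (h1 ▸ hzW)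
  -- the image is the whole component
  have hcpt : IsCompact (closure W) :=
    (isBounded_ball.subset hWD).isCompact_closure
  have hUW : U (k + 1) ⊆ f '' W := by
    apply (U_pre (k + 1)).subset_of_closure_inter_subset (f_open _ hWo)
    · exact ⟨f z, hfz, ⟨z, hzW, rfl⟩⟩
    · rintro w ⟨hw1, hw2⟩
      have h1 : closure (f '' W) ⊆ f '' closure W :=
        closure_minimal (image_mono subset_closure) (hcpt.image f_cont).isClosed
      obtain ⟨v, hv, rfl⟩ := h1 hw1
      exact ⟨v, closure_comp (fatou_backward f_cont (U_fatou _ hw2)) hv, rfl⟩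
  have hr2 := r_pos (k + 2)
  set w : ℂ := ((3 * r (k + 2) / 2 ^ 17 : ℝ) : ℂ) with hw
  have hwn : ‖w‖ = 3 * r (k + 2) / 2 ^ 17 := by
    rw [hw, Complex.norm_real, Real.norm_of_nonneg (by positivity)]
  obtain ⟨v, hv, hvw⟩ := hUW (circle_U (k + 1) hwn)
  have h1 := D_map (hWD hv)
  rw [hvw, hwn] at h1
  linarith

/-- images of connected sets in the complement of `U 0` -/
theorem chase_iter {P : Set ℂ} (hP : P ⊆ D 0) (hPU : ∀ z ∈ P, z ∉ U 0) (n : ℕ) :
    ∀ z ∈ P, f^[n] z ∈ D n ∧ f^[n] z ∉ U n := by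
  intro z hz
  induction n with
  | zero => exact ⟨hP hz, hPU z hz⟩
  | succ n ih =>
    rw [Function.iterate_succ_apply']
    exact ⟨D_map' ih.1, fun h => ih.2 (chase ih.1 h)⟩

/-! ### Preimages of the zeros -/

theorem ball_surj (k : ℕ) : ball (0 : ℂ) (4 * r (k + 1)) ⊆ f '' ball 0 (4 * r k) := by
  have hr := r_pos k
  have hr1 := r_pos (k + 1)
  have hs := r_step k
  apply (convex_ball (0 : ℂ) (4 * r (k + 1))).isPreconnected.subset_of_closure_inter_subset
    (f_open _ isOpen_ball)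
  · exact ⟨0, mem_ball_self (by positivity), ⟨0, mem_ball_self (by positivity), f_zero⟩⟩
  · rintro w ⟨hw1, hw2⟩
    have h1 : closure (f '' ball 0 (4 * r k)) ⊆ f '' closedBall 0 (4 * r k) :=
      closure_minimal (image_mono ball_subset_closedBall)
        ((isCompact_closedBall _ _).image f_cont).isClosed
    obtain ⟨v, hv, rfl⟩ := h1 hw1
    refine ⟨v, ?_, rfl⟩
    rw [mem_ball_zero_iff]
    rcases (mem_closedBall_zero_iff.1 hv).lt_or_eq with h2 | h2
    · exact h2
    · exfalso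
      have h3 := f_lower1 k (z := v) (by rw [h2]; linarith) (by rw [h2]; linarith)
      have h4 : 1 ≤ ‖1 - v / r k‖ := by
        have := norm_sub_norm_le (v / r k) 1
        rw [norm_one, norm_div_r, norm_sub_rev, h2] at this
        have e : 4 * r k / r k = 4 := by field_simp
        rw [e] at this
        linarith
      rw [mem_ball_zero_iff] at hw2
      have h5 : (4 : ℝ) ≤ 2 ^ (k + 5) := by
        calc (4 : ℝ) = 2 ^ 2 := by norm_num
          _ ≤ 2 ^ (k + 5) := pow_le_pow_right₀ (by norm_num) (by omega)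
      have h6 : 4 * r (k + 1) * 1 ≤ 2 ^ (k + 5) * r (k + 1) * ‖1 - v / r k‖ := by gcongr
      linarith

theorem exists_pre (k : ℕ) : ∃ x : ℂ, ‖x‖ < 4 ∧ f^[k] x = r k := by
  have key : ∀ k, ball (0 : ℂ) (4 * r k) ⊆ f^[k] '' ball 0 (4 * r 0) := by
    intro k
    induction k with
    | zero => simp
    | succ k ih =>
      rw [Function.iterate_succ', image_comp]
      exact (ball_surj k).trans (image_mono ih)
  have hr := r_pos k
  obtain ⟨x, hx, hxk⟩ := key k (show (r k : ℂ) ∈ ball (0 : ℂ) (4 * r k) by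
    rw [mem_ball_zero_iff, norm_r]; linarith)
  refine ⟨x, ?_, hxk⟩
  rw [mem_ball_zero_iff] at hx
  have : r 0 = 1 := rfl
  rw [this] at hx
  linarith

end Pool.Agent.V1169.BW
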