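import Mathlib

/-! Compositions of generalised Boole maps `w ↦ w - β / w` of the upper half-plane. -/

set_option autoImplicit false

open Set Filter Topology MeasureTheory

namespace Pool.Agent.V1169.Boole

/-- The height of the orbit of `i`. -/
noncomputable def lam : ℕ → ℝ
  | 0 => 1
  | n + 1 => lam n + (if 2 ^ (Nat.log 2 (n + 1)) = n + 1 then (lam n) ^ 2 else (1 / 2) ^ (n + 1)) / lam n

/-- The coefficients: big at times `n + 1` which are powers of two, and small otherwise. -/
noncomputable def bet (n : ℕ) : ℝ :=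
  if 2 ^ (Nat.log 2 (n + 1)) = n + 1 then (lam n) ^ 2 else (1 / 2) ^ (n + 1)

theorem lam_succ (n : ℕ) : lam (n + 1) = lam n + bet n / lam n := rfl

theorem bet_big {n k : ℕ} (h : n + 1 = 2 ^ k) : bet n = (lam n) ^ 2 := by
  unfold bet
  rw [if_pos]
  rw [h, Nat.log_pow (by norm_num)]

theorem bet_small {n k : ℕ} (h : 2 ^ k < n + 1) (h' : n + 1 < 2 ^ (k + 1)) :
    bet n = (1 / 2) ^ (n + 1) := by
  unfold bet
  have : Nat.log 2 (n + 1) = k := (Nat.log_eq_iff (Or.inr ⟨by norm_num, by omega⟩)).2 ⟨h.le, h'⟩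
  rw [if_neg]
  rw [this]
  exact h.ne

theorem one_le_lam (n : ℕ) : 1 ≤ lam n := by
  induction n with
  | zero => exact le_refl _
  | succ n ih =>
    rw [lam_succ]
    have h1 : 0 ≤ bet n := by
      unfold bet
      split_ifs <;> positivity
    have h2 : 0 ≤ bet n / lam n := div_nonneg h1 (by linarith)
    linarith

theorem lam_pos (n : ℕ) : 0 < lam n := by linarith [one_le_lam n]

theorem bet_pos (n : ℕ) : 0 < bet n := by
  have := lam_pos n
  unfold bet
  split_ifs <;> positivity

theorem lam_bounds (n : ℕ) : ∀ k, 2 ^ k ≤ n → n < 2 ^ (k + 1) →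
    2 ^ (k + 1) ≤ lam n ∧ lam n ≤ 2 ^ (k + 1) * (2 - (1 / 2) ^ n) := by
  induction n with
  | zero =>
    intro k h1 _
    have : 0 < 2 ^ k := by positivity
    omega
  | succ n ih =>
    intro k h1 h2
    rcases h1.lt_or_eq with h3 | h3
    · -- not a power of two
      have hb := bet_small h3 h2
      obtain ⟨h4, h5⟩ := ih k (by omega) (by omega)
      have h6 := one_le_lam n
      have h7 : (0:ℝ) < (1 / 2) ^ (n + 1) := by positivity
      have h8 : bet n / lam n ≤ (1 / 2) ^ (n + 1) := by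
        rw [hb]
        exact div_le_self h7.le h6
      have h9 : 0 ≤ bet n / lam n := div_nonneg (bet_pos n).le (by linarith)
      rw [lam_succ]
      constructor
      · linarith
      · have h10 : (1:ℝ) ≤ 2 ^ (k + 1) := one_le_pow₀ (by norm_num)
        have h11 : ((1:ℝ) / 2) ^ n = 2 * (1 / 2) ^ (n + 1) := by rw [pow_succ]; ring
        rw [h11] at h5
        nlinarith
    · have hb := bet_big h3.symm
      have h6 := lam_pos n
      have h7 : lam (n + 1) = 2 * lam n := by
        rw [lam_succ, hb]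
        field_simp
        ring
      rcases Nat.eq_zero_or_pos n with rfl | hn
      · have hk : k = 0 := by
          by_contra hk
          have : 2 ^ 1 ≤ 2 ^ k := Nat.pow_le_pow_right (by norm_num) (Nat.pos_of_ne_zero hk)
          omega
        subst hk
        rw [h7]
        simp only [lam]
        norm_num
      · obtain ⟨k', rfl⟩ : ∃ k', k = k' + 1 := by
          rcases k with _ | k'
          · simp at h3
            omega
          · exact ⟨k', rfl⟩
        have hk' : 2 ^ k' ≤ n := by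
          have : 1 ≤ 2 ^ k' := Nat.one_le_two_pow
          rw [pow_succ] at h3
          omega
        obtain ⟨h4, h5⟩ := ih k' hk' (by omega)
        rw [h7]
        have h8 : ((1:ℝ) / 2) ^ (n + 1) ≤ (1 / 2) ^ n := by
          rw [pow_succ]
          have : (0:ℝ) < (1 / 2) ^ n := by positivity
          linarith
        have h9 : (0:ℝ) < 2 ^ (k' + 1) := by positivity
        constructor
        · rw [pow_succ]
          linarith
        · rw [pow_succ _ (k' + 1)]
          nlinarith

theorem lam_le {n : ℕ} (hn : 1 ≤ n) : lam n ≤ 4 * n := by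
  have h1 : 2 ^ (Nat.log 2 n) ≤ n := Nat.pow_log_le_self 2 (by omega)
  have h2 : n < 2 ^ (Nat.log 2 n + 1) := Nat.lt_pow_succ_log_self (by norm_num) n
  have h3 := (lam_bounds n _ h1 h2).2
  have h4 : (2:ℝ) ^ (Nat.log 2 n) ≤ n := by exact_mod_cast h1
  have h5 : (0:ℝ) < (1 / 2) ^ n := by positivity
  rw [pow_succ] at h3
  have h6 : (0:ℝ) < 2 ^ (Nat.log 2 n) := by positivity
  nlinarith

theorem le_lam (n : ℕ) : (n : ℝ) ≤ lam n := by
  rcases Nat.eq_zero_or_pos n with rfl | hn
  · simp [lam]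
  · have h1 : 2 ^ (Nat.log 2 n) ≤ n := Nat.pow_log_le_self 2 (by omega)
    have h2 : n < 2 ^ (Nat.log 2 n + 1) := Nat.lt_pow_succ_log_self (by norm_num) n
    have h3 := (lam_bounds n _ h1 h2).1
    have h4 : (n : ℝ) < 2 ^ (Nat.log 2 n + 1) := by exact_mod_cast h2
    linarith

/-! ### The real orbit -/

/-- The orbit of a real number. -/
noncomputable def X : ℕ → ℝ → ℝ
  | 0, x => x
  | n + 1, x => X n x - bet n / X n x

/-- Positive root. -/
noncomputable def rp (β y : ℝ) : ℝ := (y + √(y ^ 2 + 4 * β)) / 2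
/-- Negative root. -/
noncomputable def rm (β y : ℝ) : ℝ := (y - √(y ^ 2 + 4 * β)) / 2

theorem sqrt_gt {β : ℝ} (hβ : 0 < β) (y : ℝ) : |y| < √(y ^ 2 + 4 * β) := by
  rw [← Real.sqrt_sq_eq_abs]
  exact Real.sqrt_lt_sqrt (sq_nonneg y) (by linarith)

theorem rp_pos {β : ℝ} (hβ : 0 < β) (y : ℝ) : 0 < rp β y := by
  have h1 := sqrt_gt hβ y
  have h2 := neg_abs_le y
  unfold rp
  linarith

theorem rm_neg {β : ℝ} (hβ : 0 < β) (y : ℝ) : rm β y < 0 := by
  have h1 := sqrt_gt hβ y
  have h2 := le_abs_self y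
  unfold rm
  linarith

theorem rp_mul_rm {β : ℝ} (hβ : 0 < β) (y : ℝ) : rp β y * rm β y = -β := by
  have h1 : √(y ^ 2 + 4 * β) * √(y ^ 2 + 4 * β) = y ^ 2 + 4 * β :=
    Real.mul_self_sqrt (by positivity)
  unfold rp rm
  linarith

theorem rp_add_rm (β y : ℝ) : rp β y + rm β y = y := by
  unfold rp rm
  ring

theorem rp_eq {β : ℝ} (hβ : 0 < β) (y : ℝ) : rp β y - β / rp β y = y := by
  have h1 := rp_pos hβ y
  have h2 := rp_mul_rm hβ y
  have h3 := rp_add_rm β y
  have h4 : β / rp β y = - rm β y := by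
    field_simp
    linarith
  rw [h4]
  linarith

theorem rm_eq {β : ℝ} (hβ : 0 < β) (y : ℝ) : rm β y - β / rm β y = y := by
  have h1 := rm_neg hβ y
  have h2 := rp_mul_rm hβ y
  have h3 := rp_add_rm β y
  have h4 : β / rm β y = - rp β y := by
    have := h1.ne
    field_simp
    linarith
  rw [h4]
  linarith

theorem T_mono_pos {β u v : ℝ} (hβ : 0 < β) (hu : 0 < u) (hv : 0 < v)
    (h : u - β / u < v - β / v) : u < v := by
  by_contra hle
  push Not at hle
  have : β / u ≤ β / v := div_le_div_of_nonneg_left hβ.le hv hle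
  linarith

theorem T_mono_neg {β u v : ℝ} (hβ : 0 < β) (hu : u < 0) (hv : v < 0)
    (h : u - β / u < v - β / v) : u < v := by
  by_contra hle
  push Not at hle
  have h1 : β / -v ≤ β / -u := div_le_div_of_nonneg_left hβ.le (by linarith) (by linarith)
  rw [div_neg, div_neg] at h1
  linarith

theorem arctan_roots {β l : ℝ} (hβ : 0 < β) (hl : 0 < l) (y : ℝ) :
    Real.arctan (rp β y / l) + Real.arctan (rm β y / l) = Real.arctan (y / (l + β / l)) := by
  have h1 := rp_mul_rm hβ y
  have h2 := rp_add_rm β y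
  have h3 : rp β y / l * (rm β y / l) = -β / l ^ 2 := by
    rw [div_mul_div_comm, h1]
    ring
  rw [Real.arctan_add (by
    rw [h3]
    have : 0 < β / l ^ 2 := by positivity
    rw [neg_div]
    linarith)]
  congr 1
  rw [h3, ← add_div, h2]
  have h4 : (0:ℝ) < l + β / l := by positivity
  have h5 : 1 - -β / l ^ 2 = (l + β / l) / l := by
    field_simp
    ring
  rw [h5]
  field_simp

theorem arctan_le_self {x : ℝ} (hx : 0 ≤ x) : Real.arctan x ≤ x := by
  by_contra h
  push Not at h
  have h1 : Real.arctan x < Real.pi / 2 := Real.arctan_lt_pi_div_two x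
  have h2 : 0 ≤ Real.arctan x := Real.arctan_nonneg.2 hx
  have h3 := Real.le_tan h2 h1
  rw [Real.tan_arctan] at h3
  linarith

/-- The interval of angles. -/
def J : Set ℝ := Ioo (-(Real.pi / 2)) (Real.pi / 2)

theorem meas (n : ℕ) : ∀ a b : ℝ, a < b → volume {t | t ∈ J ∧ X n (Real.tan t) ∈ Ioo a b} ≤
    ENNReal.ofReal (Real.arctan (b / lam n) - Real.arctan (a / lam n)) := by
  induction n with
  | zero =>
    intro a b hab
    have h1 : {t | t ∈ J ∧ X 0 (Real.tan t) ∈ Ioo a b} ⊆ Ioo (Real.arctan a) (Real.arctan b) := by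
      rintro t ⟨ht, ht1, ht2⟩
      have h2 : Real.arctan (Real.tan t) = t := Real.arctan_tan ht.1 ht.2
      rw [← h2]
      exact ⟨Real.arctan_strictMono ht1, Real.arctan_strictMono ht2⟩
    refine (measure_mono h1).trans ?_
    rw [Real.volume_Ioo]
    simp [lam]
  | succ n ih =>
    intro a b hab
    have hβ := bet_pos n
    have hl := lam_pos n
    have h0 : volume {t | t ∈ J ∧ X n (Real.tan t) = 0} = 0 := by
      refine le_antisymm (ENNReal.le_of_forall_pos_le_add ?_) bot_le
      intro ε hε _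
      rw [zero_add]
      have hε' : (0:ℝ) < ε := hε
      have h1 := ih (-(lam n * ε / 2)) (lam n * ε / 2) (by nlinarith)
      have h2 : {t | t ∈ J ∧ X n (Real.tan t) = 0} ⊆
          {t | t ∈ J ∧ X n (Real.tan t) ∈ Ioo (-(lam n * ε / 2)) (lam n * ε / 2)} := by
        rintro t ⟨ht, ht1⟩
        refine ⟨ht, ?_, ?_⟩ <;> rw [ht1] <;> [skip; skip]
        · have : 0 < lam n * ε / 2 := by positivity
          linarith
        · positivity
      refine (measure_mono h2).trans (h1.trans ?_)
      rw [← ENNReal.ofReal_coe_nnreal]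
      refine ENNReal.ofReal_le_ofReal ?_
      have h3 : lam n * ε / 2 / lam n = ε / 2 := by field_simp
      rw [neg_div, Real.arctan_neg, h3]
      have h4 : Real.arctan ((ε : ℝ) / 2) ≤ ε / 2 := arctan_le_self (by positivity)
      linarith
    have hsub : {t | t ∈ J ∧ X (n + 1) (Real.tan t) ∈ Ioo a b} ⊆
        {t | t ∈ J ∧ X n (Real.tan t) ∈ Ioo (rp (bet n) a) (rp (bet n) b)} ∪
        {t | t ∈ J ∧ X n (Real.tan t) ∈ Ioo (rm (bet n) a) (rm (bet n) b)} ∪
        {t | t ∈ J ∧ X n (Real.tan t) = 0} := by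
      rintro t ⟨ht, ht1, ht2⟩
      change a < X n (Real.tan t) - bet n / X n (Real.tan t) at ht1
      change X n (Real.tan t) - bet n / X n (Real.tan t) < b at ht2
      rcases lt_trichotomy (X n (Real.tan t)) 0 with h1 | h1 | h1
      · left; right
        refine ⟨ht, ?_, ?_⟩
        · rw [← rm_eq hβ a] at ht1
          exact T_mono_neg hβ (rm_neg hβ a) h1 ht1
        · rw [← rm_eq hβ b] at ht2
          exact T_mono_neg hβ h1 (rm_neg hβ b) ht2
      · right
        exact ⟨ht, h1⟩
      · left; left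
        refine ⟨ht, ?_, ?_⟩
        · rw [← rp_eq hβ a] at ht1
          exact T_mono_pos hβ (rp_pos hβ a) h1 ht1
        · rw [← rp_eq hβ b] at ht2
          exact T_mono_pos hβ h1 (rp_pos hβ b) ht2
    have hpab : rp (bet n) a < rp (bet n) b :=
      T_mono_pos hβ (rp_pos hβ a) (rp_pos hβ b) (by rw [rp_eq hβ, rp_eq hβ]; exact hab)
    have hmab : rm (bet n) a < rm (bet n) b :=
      T_mono_neg hβ (rm_neg hβ a) (rm_neg hβ b) (by rw [rm_eq hβ, rm_eq hβ]; exact hab)
    have h1 := ih _ _ hpab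
    have h2 := ih _ _ hmab
    refine (measure_mono hsub).trans ((measure_union_le _ _).trans ?_)
    rw [h0, add_zero]
    refine (measure_union_le _ _).trans ((add_le_add h1 h2).trans ?_)
    have e1 : 0 ≤ Real.arctan (rp (bet n) b / lam n) - Real.arctan (rp (bet n) a / lam n) :=
      sub_nonneg.2 (Real.arctan_strictMono.monotone (by gcongr))
    have e2 : 0 ≤ Real.arctan (rm (bet n) b / lam n) - Real.arctan (rm (bet n) a / lam n) :=
      sub_nonneg.2 (Real.arctan_strictMono.monotone (by gcongr))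
    rw [← ENNReal.ofReal_add e1 e2]
    refine ENNReal.ofReal_le_ofReal ?_
    rw [lam_succ, ← arctan_roots hβ hl, ← arctan_roots hβ hl]
    linarith

theorem meas_zero (n : ℕ) : volume {t | t ∈ J ∧ X n (Real.tan t) = 0} = 0 := by
  have hl := lam_pos n
  refine le_antisymm (ENNReal.le_of_forall_pos_le_add ?_) bot_le
  intro ε hε _
  rw [zero_add]
  have hε' : (0:ℝ) < ε := hε
  have h1 := meas n (-(lam n * ε / 2)) (lam n * ε / 2) (by nlinarith)
  have h2 : {t | t ∈ J ∧ X n (Real.tan t) = 0} ⊆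
      {t | t ∈ J ∧ X n (Real.tan t) ∈ Ioo (-(lam n * ε / 2)) (lam n * ε / 2)} := by
    rintro t ⟨ht, ht1⟩
    refine ⟨ht, ?_, ?_⟩ <;> rw [ht1] <;> [skip; skip]
    · have : 0 < lam n * ε / 2 := by positivity
      linarith
    · positivity
  refine (measure_mono h2).trans (h1.trans ?_)
  rw [← ENNReal.ofReal_coe_nnreal]
  refine ENNReal.ofReal_le_ofReal ?_
  have h3 : lam n * ε / 2 / lam n = ε / 2 := by field_simp
  rw [neg_div, Real.arctan_neg, h3]
  have h4 : Real.arctan ((ε : ℝ) / 2) ≤ ε / 2 := arctan_le_self (by positivity)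
  linarith

/-- Almost every real orbit avoids `0` and tends to infinity. -/
theorem orbit_tendsto {x : ℝ} (h : ∀ᶠ k : ℕ in atTop, (k : ℝ) ≤ |X (2 ^ k) x|) :
    Tendsto (fun n => |X n x|) atTop atTop := by
  rw [tendsto_atTop]
  intro K
  obtain ⟨k₀, hk₀⟩ := eventually_atTop.1 h
  obtain ⟨k₁, hk₁⟩ := exists_nat_ge (K + 1)
  set k₂ := max (max k₀ k₁) 2 with hk₂
  refine eventually_atTop.2 ⟨2 ^ k₂, fun n hn => ?_⟩
  set k := Nat.log 2 n with hk
  have hn0 : n ≠ 0 := by
    have : 0 < 2 ^ k₂ := by positivity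
    omega
  have h1 : 2 ^ k ≤ n := Nat.pow_log_le_self 2 hn0
  have h2 : n < 2 ^ (k + 1) := Nat.lt_pow_succ_log_self (by norm_num) n
  have h3 : k₂ ≤ k := by
    rw [hk]
    exact (Nat.le_log_iff_pow_le (by norm_num) hn0).2 hn
  have hkk₀ : k₀ ≤ k := le_trans (le_trans (le_max_left _ _) (le_max_left _ _)) h3
  have hkk₁ : k₁ ≤ k := le_trans (le_trans (le_max_right _ _) (le_max_left _ _)) h3
  have hk2 : 2 ≤ k := le_trans (le_max_right _ _) h3
  have hk2' : (2:ℝ) ≤ k := by exact_mod_cast hk2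
  have key : ∀ m, 2 ^ k ≤ m → m < 2 ^ (k + 1) → (k : ℝ) - 1 + (1 / 2) ^ m ≤ |X m x| := by
    intro m hm
    induction m, hm using Nat.le_induction with
    | base =>
      intro _
      have h4 := hk₀ k hkk₀
      have h5 : ((1:ℝ) / 2) ^ (2 ^ k) ≤ 1 := pow_le_one₀ (by norm_num) (by norm_num)
      linarith
    | succ m hm ih =>
      intro hm2
      have h4 := ih (by omega)
      have h5 : (0:ℝ) < (1 / 2) ^ m := by positivity
      have h6 : 1 ≤ |X m x| := by linarith
      have h7 := bet_small (n := m) (k := k) (by omega) hm2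
      have h8 : |bet m / X m x| ≤ (1 / 2) ^ (m + 1) := by
        rw [abs_div, abs_of_pos (bet_pos m), h7]
        exact div_le_self (by positivity) h6
      have h9 : |X m x| - |bet m / X m x| ≤ |X (m + 1) x| := abs_sub_abs_le_abs_sub _ _
      have h10 : ((1:ℝ) / 2) ^ m = 2 * (1 / 2) ^ (m + 1) := by rw [pow_succ]; ring
      linarith
  have h4 := key n h1 h2
  have h5 : (0:ℝ) < (1 / 2) ^ n := by positivity
  have h6 : (k₁ : ℝ) ≤ k := by exact_mod_cast hkk₁
  linarith

theorem ae_orbit : ∀ᵐ t ∂(volume.restrict J), (∀ n, X n (Real.tan t) ≠ 0) ∧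
    Tendsto (fun n => |X n (Real.tan t)|) atTop atTop := by
  have hJ : MeasurableSet J := measurableSet_Ioo
  have h1 : ∀ᵐ t ∂(volume.restrict J), ∀ n, X n (Real.tan t) ≠ 0 := by
    rw [ae_all_iff]
    intro n
    rw [ae_restrict_iff' hJ, ae_iff]
    refine measure_mono_null ?_ (meas_zero n)
    intro t ht
    simp only [mem_ofPred_eq, Classical.not_imp, not_not] at ht
    exact ht
  have h2 : ∀ᵐ t ∂(volume.restrict J), ∀ᶠ k : ℕ in atTop,
      t ∉ {t | t ∈ J ∧ X (2 ^ k) (Real.tan t) ∈ Ioo (-(k:ℝ)) k} := by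
    refine ae_eventually_notMem ?_
    have hsum : Summable fun k : ℕ => (k : ℝ) * (1 / 2) ^ k := by
      have := summable_pow_mul_geometric_of_norm_lt_one (R := ℝ) 1 (r := 1 / 2) (by norm_num)
      simpa using this
    have hb : ∀ k : ℕ, (volume.restrict J) {t | t ∈ J ∧ X (2 ^ k) (Real.tan t) ∈ Ioo (-(k:ℝ)) k}
        ≤ ENNReal.ofReal ((k : ℝ) * (1 / 2) ^ k) := by
      intro k
      refine (Measure.restrict_apply_le _ _).trans ?_
      rcases Nat.eq_zero_or_pos k with rfl | hk
      · simp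
      · have hk' : (0:ℝ) < k := by exact_mod_cast hk
        refine (meas (2 ^ k) (-(k:ℝ)) k (by linarith)).trans (ENNReal.ofReal_le_ofReal ?_)
        rw [neg_div, Real.arctan_neg]
        have hl := lam_pos (2 ^ k)
        have h3 : Real.arctan ((k:ℝ) / lam (2 ^ k)) ≤ k / lam (2 ^ k) :=
          arctan_le_self (by positivity)
        have h4 := (lam_bounds (2 ^ k) k le_rfl (Nat.pow_lt_pow_right (by norm_num) (by omega))).1
        have h5 : (k:ℝ) / lam (2 ^ k) ≤ k / 2 ^ (k + 1) := by gcongr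
        have h6 : (k:ℝ) / 2 ^ (k + 1) = k * (1 / 2) ^ k / 2 := by
          rw [pow_succ, one_div, inv_pow]
          field_simp
        linarith
    refine ne_top_of_le_ne_top ?_ (ENNReal.tsum_le_tsum hb)
    rw [← ENNReal.ofReal_tsum_of_nonneg (fun k => by positivity) hsum]
    exact ENNReal.ofReal_ne_top
  filter_upwards [h1, h2, ae_restrict_mem hJ] with t h3 h4 h5
  refine ⟨h3, orbit_tendsto ?_⟩
  filter_upwards [h4] with k hk
  by_contra hlt
  push Not at hlt
  exact hk ⟨h5, abs_lt.1 hlt⟩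

end Pool.Agent.V1169.Boole
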