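import Pool.Agent.V1169.Boole

/-! Compositions of generalised Boole maps: behaviour in the upper half-plane, and transfer to the
disc. -/

set_option autoImplicit false

open Set Filter Topology MeasureTheory Complex

namespace Pool.Agent.V1169.Boole

/-- Compositions. -/
noncomputable def H : ℕ → ℂ → ℂ
  | 0, w => w
  | n + 1, w => H n w - bet n / H n w

theorem T_im {β : ℝ} {w : ℂ} : (w - β / w).im = w.im * (1 + β / normSq w) := by
  rw [sub_im, div_im]
  simp
  ring

theorem T_im_pos {β : ℝ} (hβ : 0 < β) {w : ℂ} (hw : 0 < w.im) : 0 < (w - β / w).im := by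
  rw [T_im]
  have : 0 ≤ normSq w := normSq_nonneg w
  positivity

theorem H_im_pos {w : ℂ} (hw : 0 < w.im) (n : ℕ) : 0 < (H n w).im := by
  induction n with
  | zero => exact hw
  | succ n ih => exact T_im_pos (bet_pos n) ih

theorem ne_zero_of_im {w : ℂ} (hw : 0 < w.im) : w ≠ 0 := by
  rintro rfl
  simp at hw

theorem H_I (n : ℕ) : H n I = lam n * I := by
  induction n with
  | zero => simp [H, lam]
  | succ n ih =>
    have hl : (lam n : ℂ) ≠ 0 := by exact_mod_cast (lam_pos n).ne'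
    simp only [H, ih, lam_succ]
    push_cast
    have : (bet n : ℂ) / (lam n * I) = -(bet n / lam n * I) := by
      rw [div_mul_eq_div_div, div_I]
    rw [this]
    ring

theorem H_ofReal (n : ℕ) (x : ℝ) : H n (x : ℂ) = (X n x : ℂ) := by
  induction n with
  | zero => rfl
  | succ n ih =>
    simp only [H, ih, X]
    push_cast
    rfl

theorem continuousAt_H {n : ℕ} {x : ℝ} (hx : ∀ m, X m x ≠ 0) : ContinuousAt (H n) (x : ℂ) := by
  induction n with
  | zero => exact continuousAt_id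
  | succ n ih =>
    have h1 : H n (x : ℂ) ≠ 0 := by
      rw [H_ofReal]
      exact_mod_cast hx n
    exact ih.sub (continuousAt_const.div ih h1)

/-- Normalised distance to the orbit of `i`. -/
noncomputable def q (n : ℕ) (w : ℂ) : ℝ := ‖H n w - lam n * I‖ / ‖H n w + lam n * I‖

theorem add_I_ne {l : ℝ} (hl : 0 < l) {w : ℂ} (hw : 0 < w.im) : w + l * I ≠ 0 := by
  intro h
  have := congrArg im h
  simp at this
  linarith

theorem norm_sub_lt {l : ℝ} (hl : 0 < l) {w : ℂ} (hw : 0 < w.im) : ‖w - l * I‖ < ‖w + l * I‖ := by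
  rw [← sq_lt_sq₀ (norm_nonneg _) (norm_nonneg _), ← normSq_eq_norm_sq, ← normSq_eq_norm_sq]
  simp only [normSq_apply, sub_re, sub_im, add_re, add_im, mul_re, mul_im, ofReal_re, ofReal_im,
    I_re, I_im]
  nlinarith

theorem q_nonneg (n : ℕ) (w : ℂ) : 0 ≤ q n w := div_nonneg (norm_nonneg _) (norm_nonneg _)

theorem q_lt_one {w : ℂ} (hw : 0 < w.im) (n : ℕ) : q n w < 1 := by
  unfold q
  rw [div_lt_one (norm_pos_iff.2 (add_I_ne (lam_pos n) (H_im_pos hw n)))]
  exact norm_sub_lt (lam_pos n) (H_im_pos hw n)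

theorem q_succ {w : ℂ} (hw : 0 < w.im) (n : ℕ) : q (n + 1) w = q n w *
    (‖H n w - (bet n / lam n : ℝ) * I‖ / ‖H n w + (bet n / lam n : ℝ) * I‖) := by
  have hl : (lam n : ℂ) ≠ 0 := by exact_mod_cast (lam_pos n).ne'
  have hW := H_im_pos hw n
  have hW0 := ne_zero_of_im hW
  set W := H n w with hWdef
  have e1 : H (n + 1) w - lam (n + 1) * I = (W - lam n * I) * ((W - (bet n / lam n : ℝ) * I) / W) := by
    have : H (n + 1) w = W - bet n / W := rfl
    rw [this, lam_succ]
    push_cast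
    field_simp
    linear_combination (bet n : ℂ) * lam n * (-1) * I_sq
  have e2 : H (n + 1) w + lam (n + 1) * I = (W + lam n * I) * ((W + (bet n / lam n : ℝ) * I) / W) := by
    have : H (n + 1) w = W - bet n / W := rfl
    rw [this, lam_succ]
    push_cast
    field_simp
    linear_combination (bet n : ℂ) * lam n * (-1) * I_sq
  unfold q
  rw [e1, e2, norm_mul, norm_mul, norm_div, norm_div, mul_div_mul_comm]
  congr 1
  have : ‖W‖ ≠ 0 := norm_ne_zero_iff.2 hW0
  field_simp

theorem q_succ_le {w : ℂ} (hw : 0 < w.im) (n : ℕ) : q (n + 1) w ≤ q n w := by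
  rw [q_succ hw]
  refine mul_le_of_le_one_right (q_nonneg _ _) ?_
  have h1 : 0 < bet n / lam n := div_pos (bet_pos n) (lam_pos n)
  rw [div_le_one (norm_pos_iff.2 (add_I_ne h1 (H_im_pos hw n)))]
  exact (norm_sub_lt h1 (H_im_pos hw n)).le

theorem q_anti {w : ℂ} (hw : 0 < w.im) : Antitone fun n => q n w :=
  antitone_nat_of_succ_le (q_succ_le hw)

theorem q_big {w : ℂ} (hw : 0 < w.im) {n k : ℕ} (h : n + 1 = 2 ^ k) :
    q (n + 1) w = q n w ^ 2 := by
  have : lam n ^ 2 / lam n = lam n := by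
    have := (lam_pos n).ne'
    field_simp
  rw [q_succ hw, bet_big h, this, pow_two]
  rfl

theorem q_pow {w : ℂ} (hw : 0 < w.im) (k : ℕ) : q (2 ^ k) w ≤ q 0 w ^ (2 ^ k) := by
  induction k with
  | zero =>
    have := q_succ_le hw 0
    simpa using this
  | succ k ih =>
    obtain ⟨n, hn⟩ : ∃ n, 2 ^ (k + 1) = n + 1 := Nat.exists_eq_succ_of_ne_zero (by positivity)
    rw [hn, q_big hw hn.symm, ← hn, pow_succ 2 k, pow_mul]
    have h1 : 2 ^ k ≤ n := by
      have : 1 ≤ 2 ^ k := Nat.one_le_two_pow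
      rw [pow_succ] at hn
      omega
    have h2 := q_anti hw h1
    have h3 := q_nonneg n w
    exact pow_le_pow_left₀ h3 (h2.trans ih) 2

theorem tendsto_q {w : ℂ} (hw : 0 < w.im) : Tendsto (fun n => q n w) atTop (𝓝 0) := by
  have h1 : Tendsto (fun k : ℕ => q 0 w ^ (2 ^ k)) atTop (𝓝 0) :=
    (tendsto_pow_atTop_nhds_zero_of_lt_one (q_nonneg 0 w) (q_lt_one hw 0)).comp
      (tendsto_pow_atTop_atTop_of_one_lt (by norm_num))
  rw [Metric.tendsto_atTop]
  intro ε hε
  obtain ⟨k, hk⟩ := (h1.eventually_lt_const hε).exists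
  refine ⟨2 ^ k, fun n hn => ?_⟩
  rw [Real.dist_eq, sub_zero, abs_of_nonneg (q_nonneg _ _)]
  exact (q_anti hw hn).trans_lt ((q_pow hw k).trans_lt hk)

/-! ### Distances in the half-plane -/

/-- `‖w - i l‖` is small relative to `l`. -/
theorem norm_le_of_q {w : ℂ} (hw : 0 < w.im) {n : ℕ} (h : q n w ≤ 1 / 8) :
    ‖H n w - lam n * I‖ ≤ 3 * lam n * q n w := by
  have hl := lam_pos n
  have h1 : 0 < ‖H n w + lam n * I‖ := norm_pos_iff.2 (add_I_ne hl (H_im_pos hw n))
  have h2 : ‖H n w - lam n * I‖ = q n w * ‖H n w + lam n * I‖ := by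
    unfold q
    field_simp
  have h3 : ‖H n w + lam n * I‖ ≤ ‖H n w - lam n * I‖ + 2 * lam n := by
    have : H n w + lam n * I = (H n w - lam n * I) + 2 * lam n * I := by ring
    rw [this]
    refine (norm_add_le _ _).trans ?_
    have : ‖(2:ℂ) * lam n * I‖ = 2 * lam n := by
      rw [norm_mul, norm_mul, norm_I, mul_one, norm_real, Real.norm_of_nonneg hl.le]
      simp
    rw [this]
  have h4 := q_nonneg n w
  have h5 : ‖H n w + lam n * I‖ ≤ (16 / 7) * lam n := by
    rw [h2] at h3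
    nlinarith
  rw [h2]
  nlinarith

theorem im_ge_of_q {w : ℂ} (hw : 0 < w.im) {n : ℕ} (h : q n w ≤ 1 / 8) :
    lam n / 2 ≤ (H n w).im := by
  have h1 := norm_le_of_q hw h
  have hl := lam_pos n
  have h2 := abs_im_le_norm (H n w - lam n * I)
  simp only [sub_im, mul_im, ofReal_re, I_im, mul_one, ofReal_im, I_re, mul_zero, add_zero] at h2
  have h3 := (abs_le.1 h2).1
  nlinarith [q_nonneg n w]

/-! ### The Cayley transform -/

/-- Cayley transform. -/
noncomputable def cay (z : ℂ) : ℂ := I * (1 + z) / (1 - z)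

/-- Inverse Cayley transform. -/
noncomputable def icay (w : ℂ) : ℂ := (w - I) / (w + I)

theorem one_sub_ne {z : ℂ} (hz : ‖z‖ < 1) : 1 - z ≠ 0 := by
  intro h
  rw [sub_eq_zero] at h
  rw [← h] at hz
  simp at hz

theorem cay_im {z : ℂ} (hz : 1 - z ≠ 0) : (cay z).im = (1 - normSq z) / normSq (1 - z) := by
  unfold cay
  rw [div_im]
  have h1 : normSq (1 - z) ≠ 0 := by rwa [Ne, normSq_eq_zero]
  simp only [mul_re, mul_im, I_re, I_im, add_re, add_im, sub_re, sub_im, one_re, one_im,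
    normSq_apply] at h1 ⊢
  field_simp
  ring

theorem cay_im_pos {z : ℂ} (hz : ‖z‖ < 1) : 0 < (cay z).im := by
  rw [cay_im (one_sub_ne hz)]
  have h1 : normSq z < 1 := by
    rw [normSq_eq_norm_sq]
    exact pow_lt_one₀ (norm_nonneg _) hz (by norm_num)
  have h2 : 0 < normSq (1 - z) := normSq_pos.2 (one_sub_ne hz)
  exact div_pos (by linarith) h2

theorem icay_cay {z : ℂ} (hz : 1 - z ≠ 0) : icay (cay z) = z := by
  unfold icay cay
  have e1 : I * (1 + z) / (1 - z) + I = 2 * I / (1 - z) := by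
    field_simp
    ring
  have e2 : I * (1 + z) / (1 - z) - I = 2 * I * z / (1 - z) := by
    field_simp
    ring
  rw [e1, e2]
  have := I_ne_zero
  field_simp

theorem add_I_ne' {w : ℂ} (hw : 0 ≤ w.im) : w + I ≠ 0 := by
  intro h
  have := congrArg im h
  simp at this
  linarith

theorem cay_icay {w : ℂ} (hw : w + I ≠ 0) : cay (icay w) = w := by
  unfold icay cay
  have e1 : 1 - (w - I) / (w + I) = 2 * I / (w + I) := by
    field_simp
    ring
  have e2 : 1 + (w - I) / (w + I) = 2 * w / (w + I) := by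
    field_simp
    ring
  rw [e1, e2]
  have := I_ne_zero
  field_simp

theorem norm_icay_lt {w : ℂ} (hw : 0 < w.im) : ‖icay w‖ < 1 := by
  unfold icay
  have h1 := norm_sub_lt one_pos hw
  simp only [ofReal_one, one_mul] at h1
  rw [norm_div, div_lt_one (lt_of_le_of_lt (norm_nonneg _) h1)]
  exact h1

theorem norm_icay_real (x : ℝ) : ‖icay (x : ℂ)‖ = 1 := by
  unfold icay
  have h1 : ‖(x : ℂ) - I‖ = ‖(x : ℂ) + I‖ := by
    rw [← sq_eq_sq₀ (norm_nonneg _) (norm_nonneg _), ← normSq_eq_norm_sq, ← normSq_eq_norm_sq]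
    simp [normSq_apply]
  rw [norm_div, h1]
  exact div_self (norm_ne_zero_iff.2 (add_I_ne' (by simp)))

/-- The pseudo-hyperbolic distance in terms of the half-plane. -/
theorem pseudo {w w' : ℂ} (hw : 0 < w.im) (hw' : 0 < w'.im) :
    ‖icay w - icay w'‖ / ‖1 - (starRingEnd ℂ) (icay w') * icay w‖
      = ‖w - w'‖ / ‖w - (starRingEnd ℂ) w'‖ := by
  have h1 : w + I ≠ 0 := add_I_ne' hw.le
  have h2 : w' + I ≠ 0 := add_I_ne' hw'.le
  have h3 : (starRingEnd ℂ) w' - I ≠ 0 := by
    have := (map_ne_zero (starRingEnd ℂ)).2 h2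
    simpa [sub_eq_add_neg] using this
  have e1 : icay w - icay w' = 2 * I * (w - w') / ((w + I) * (w' + I)) := by
    unfold icay
    field_simp
    ring
  have e2 : 1 - (starRingEnd ℂ) (icay w') * icay w
      = -(2 * I * (w - (starRingEnd ℂ) w')) / ((w + I) * ((starRingEnd ℂ) w' - I)) := by
    unfold icay
    simp only [map_div₀, map_sub, map_add, conj_I]
    have h4 : (starRingEnd ℂ) w' + -I ≠ 0 := by simpa [sub_eq_add_neg] using h3
    field_simp
    ring
  have h5 : ‖(starRingEnd ℂ) w' - I‖ = ‖w' + I‖ := by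
    have : (starRingEnd ℂ) w' - I = (starRingEnd ℂ) (w' + I) := by simp [sub_eq_add_neg]
    rw [this, RCLike.norm_conj]
  rw [e1, e2]
  simp only [norm_div, norm_neg, norm_mul, h5, norm_I, mul_one]
  have h6 : ‖w + I‖ ≠ 0 := norm_ne_zero_iff.2 h1
  have h7 : ‖w' + I‖ ≠ 0 := norm_ne_zero_iff.2 h2
  have h8 : ‖(2:ℂ)‖ ≠ 0 := by simp
  rcases eq_or_ne ‖w - (starRingEnd ℂ) w'‖ 0 with h9 | h9
  · rw [h9]; simp
  · field_simp

end Pool.Agent.V1169.Boole
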