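import Mathlib

/-! Elementary facts on convex functions: local-to-global, restriction to lines, and the notion of
removability for convexity. -/

set_option autoImplicit false

open Set Filter Topology

namespace Pool.Agent.V1169

/-- `f` is locally convex on `U`: every point of `U` has an open convex neighbourhood contained in
`U` on which `f` is convex. -/
def LocallyConvexOn (U : Set (ℝ × ℝ)) (f : ℝ × ℝ → ℝ) : Prop :=
  ∀ z ∈ U, ∃ V : Set (ℝ × ℝ), IsOpen V ∧ Convex ℝ V ∧ z ∈ V ∧ V ⊆ U ∧ ConvexOn ℝ V f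

/-- A closed set `A` in the plane is `c`-removable if every continuous function on the plane which
is locally convex off `A` is convex. -/
def CRemovable (A : Set (ℝ × ℝ)) : Prop :=
  IsClosed A ∧ ∀ f : ℝ × ℝ → ℝ, Continuous f → LocallyConvexOn Aᶜ f → ConvexOn ℝ univ f

/-- A continuous function on an interval with arbitrarily small nonnegative symmetric second
differences is convex. -/
theorem convexOn_of_sym {s : Set ℝ} (hs : Convex ℝ s) {g : ℝ → ℝ}
    (hc : ContinuousOn g s)
    (hl : ∀ x ∈ s, ∀ δ > 0, ∃ η, 0 < η ∧ η < δ ∧ 2 * g x ≤ g (x - η) + g (x + η)) :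
    ConvexOn ℝ s g := by
  refine LinearOrder.convexOn_of_lt hs ?_
  intro a ha b hb hab p q hp hq hpq
  have hIcc : Icc a b ⊆ s := hs.ordConnected.out ha hb
  by_contra hcon
  push Not at hcon
  have hba : 0 < b - a := sub_pos.2 hab
  set m₀ : ℝ := (g b - g a) / (b - a) with hm₀
  set u : ℝ → ℝ := fun x => g x - (g a + m₀ * (x - a)) with hu
  have huc : ContinuousOn u (Icc a b) :=
    (hc.mono hIcc).sub (by fun_prop)
  have hua : u a = 0 := by simp [hu]
  have hub : u b = 0 := by
    simp only [hu, hm₀]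
    field_simp
    ring
  obtain ⟨c, hcI, hcmax⟩ := isCompact_Icc.exists_isMaxOn (nonempty_Icc.2 hab.le) huc
  have hpos : 0 < u c := by
    have hx : p • a + q • b ∈ Icc a b := by
      have hp' : p = 1 - q := by linarith
      simp only [smul_eq_mul, mem_Icc]
      rw [hp']
      constructor <;> nlinarith [mul_pos hq hba, mul_pos hp hba]
    refine lt_of_lt_of_le ?_ (hcmax hx)
    simp only [hu, smul_eq_mul] at hcon ⊢
    have : g a + m₀ * (p * a + q * b - a) = p * g a + q * g b := by
      have h1 : p * a + q * b - a = q * (b - a) := by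
        have : p = 1 - q := by linarith
        rw [this]; ring
      rw [h1, hm₀]
      have h2 : (g b - g a) / (b - a) * (q * (b - a)) = q * (g b - g a) := by
        field_simp
      rw [h2]
      have : p = 1 - q := by linarith
      rw [this]; ring
    linarith
  -- leftmost maximum point
  set S : Set ℝ := {x | x ∈ Icc a b ∧ u x = u c} with hS
  have hSc : IsClosed S := by
    have : S = Icc a b ∩ u ⁻¹' {u c} := by
      ext x; simp [hS]
    rw [this]
    exact huc.preimage_isClosed_of_isClosed isClosed_Icc isClosed_singleton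
  have hSne : S.Nonempty := ⟨c, hcI, rfl⟩
  have hSb : BddBelow S := ⟨a, fun x hx => hx.1.1⟩
  obtain ⟨hpI, hpu⟩ := hSc.csInf_mem hSne hSb
  set r := sInf S with hr
  have hra : a < r := by
    refine lt_of_le_of_ne hpI.1 ?_
    rintro h
    rw [← h, hua] at hpu
    linarith
  have hrb : r < b := by
    refine lt_of_le_of_ne hpI.2 ?_
    rintro h
    rw [h, hub] at hpu
    linarith
  obtain ⟨η, hη0, hη1, h1⟩ := hl r (hIcc hpI) (min (r - a) (b - r))
    (lt_min (by linarith) (by linarith))
  have hη2 : η < r - a := hη1.trans_le (min_le_left _ _)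
  have hη3 : η < b - r := hη1.trans_le (min_le_right _ _)
  have h3 : u (r - η) < u c := by
    refine lt_of_le_of_ne (hcmax ⟨by linarith, by linarith⟩) fun h => ?_
    have : r ≤ r - η := csInf_le hSb ⟨⟨by linarith, by linarith⟩, h⟩
    linarith
  have h4 : u (r + η) ≤ u c := hcmax ⟨by linarith, by linarith⟩
  simp only [hu] at h3 h4 hpu
  nlinarith

/-- Local convexity on an interval-like set of the line implies convexity. -/
theorem convexOn_of_local {s : Set ℝ} (hs : Convex ℝ s) {g : ℝ → ℝ}
    (hc : ContinuousOn g s) (hl : ∀ x ∈ s, ∃ δ > 0, ConvexOn ℝ (Ioo (x - δ) (x + δ)) g) :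
    ConvexOn ℝ s g := by
  refine convexOn_of_sym hs hc fun x hx δ hδ => ?_
  obtain ⟨δ', hδ', hconv⟩ := hl x hx
  have hm : 0 < min δ δ' := lt_min hδ hδ'
  have hm1 : min δ δ' ≤ δ := min_le_left _ _
  have hm2 : min δ δ' ≤ δ' := min_le_right _ _
  refine ⟨min δ δ' / 2, by linarith, by linarith, ?_⟩
  set η := min δ δ' / 2 with hη
  have h1 := hconv.2 (⟨by linarith, by linarith⟩ : x - η ∈ Ioo (x - δ') (x + δ'))
    (⟨by linarith, by linarith⟩ : x + η ∈ Ioo (x - δ') (x + δ'))
    (by norm_num : (0:ℝ) ≤ 1/2) (by norm_num : (0:ℝ) ≤ 1/2) (by norm_num)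
  have h2 : (1/2 : ℝ) • (x - η) + (1/2 : ℝ) • (x + η) = x := by
    simp only [smul_eq_mul]; ring
  rw [h2] at h1
  simp only [smul_eq_mul] at h1
  linarith

/-- Local convexity on the line implies convexity. -/
theorem convexOn_univ_of_local {g : ℝ → ℝ} (hc : Continuous g)
    (hl : ∀ x, ∃ δ > 0, ConvexOn ℝ (Ioo (x - δ) (x + δ)) g) : ConvexOn ℝ univ g :=
  convexOn_of_local convex_univ hc.continuousOn fun x _ => hl x

/-- Restriction of a function of two variables to a line. -/
theorem local_line {f : ℝ × ℝ → ℝ} {V : Set (ℝ × ℝ)} (hV : IsOpen V) (hf : ConvexOn ℝ V f)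
    (z v : ℝ × ℝ) (t : ℝ) (ht : z + t • v ∈ V) :
    ∃ δ > 0, ConvexOn ℝ (Ioo (t - δ) (t + δ)) fun s : ℝ => f (z + s • v) := by
  have hcont : Continuous fun s : ℝ => z + s • v := by fun_prop
  have ho : IsOpen ((fun s : ℝ => z + s • v) ⁻¹' V) := hV.preimage hcont
  obtain ⟨δ, hδ, hball⟩ := Metric.isOpen_iff.1 ho t ht
  rw [Real.ball_eq_Ioo] at hball
  refine ⟨δ, hδ, convex_Ioo _ _, ?_⟩
  intro a ha b hb p q hp hq hpq
  have h1 := hf.2 (hball ha) (hball hb) hp hq hpq
  have h2 : p • (z + a • v) + q • (z + b • v) = z + (p • a + q • b) • v := by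
    have : z = p • z + q • z := by rw [← add_smul, hpq, one_smul]
    conv_rhs => rw [this]
    simp only [smul_add, add_smul, smul_smul, smul_eq_mul]
    abel
  rw [h2] at h1
  exact h1

/-- A function of two variables is convex if its restrictions to all lines are. -/
theorem convexOn_of_lines {f : ℝ × ℝ → ℝ}
    (h : ∀ z v : ℝ × ℝ, ConvexOn ℝ univ fun s : ℝ => f (z + s • v)) : ConvexOn ℝ univ f := by
  refine ⟨convex_univ, ?_⟩
  intro z _ w _ p q hp hq hpq
  have h1 := (h z (w - z)).2 (mem_univ 0) (mem_univ 1) hp hq hpq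
  simp only [smul_eq_mul, mul_zero, mul_one, zero_add, zero_smul, add_zero, one_smul,
    add_sub_cancel] at h1
  have h2 : p • z + q • w = z + q • (w - z) := by
    have : p = 1 - q := by linarith
    rw [this, sub_smul, smul_sub, one_smul]
    abel
  rw [h2]
  exact h1

/-- Pointwise limits of convex functions are convex. -/
theorem convexOn_of_tendsto {E ι : Type*} [AddCommGroup E] [Module ℝ E] {l : Filter ι} [l.NeBot]
    {s : Set E} (hs : Convex ℝ s) {F : ι → E → ℝ} {f : E → ℝ} (hF : ∀ᶠ i in l, ConvexOn ℝ s (F i))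
    (hlim : ∀ x ∈ s, Tendsto (fun i => F i x) l (𝓝 (f x))) : ConvexOn ℝ s f := by
  refine ⟨hs, fun x hx y hy p q hp hq hpq => ?_⟩
  refine le_of_tendsto_of_tendsto (hlim _ (hs hx hy hp hq hpq))
    (((hlim x hx).const_smul p).add ((hlim y hy).const_smul q)) ?_
  filter_upwards [hF] with i hi
  exact hi.2 hx hy hp hq hpq

end Pool.Agent.V1169
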