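import Mathlib

set_option autoImplicit false
set_option linter.unusedSectionVars false

/-!
# The convolution Banach algebra `ℓ¹(G)` of a discrete group
-/

namespace Pool.Agent.V1169.EL

open scoped ENNReal

variable {G : Type*} [Group G]

/-- The underlying Banach space of `ℓ¹(G)`. -/
noncomputable abbrev L (G : Type*) := lp (fun _ : G => ℂ) 1

theorem L_summable (a : L G) : Summable fun x => ‖a x‖ := by
  have h := (lp.memℓp a).summable (p := 1) (by norm_num)
  simpa using h

theorem L_norm (a : L G) : ‖a‖ = ∑' x, ‖a x‖ := by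
  have h := lp.norm_eq_tsum_rpow (p := 1) (by norm_num) a
  simpa using h

theorem L_summable' (a : L G) : Summable fun x => a x := (L_summable a).of_norm

/-- Build an element of `ℓ¹(G)` from a norm-summable function. -/
def mk (f : G → ℂ) (hf : Summable fun x => ‖f x‖) : L G :=
  ⟨f, memℓp_gen (by simpa using hf)⟩

@[simp] theorem mk_apply (f : G → ℂ) (hf : Summable fun x => ‖f x‖) (x : G) : mk f hf x = f x := rfl

/-- `(y,x) ↦ (y, y⁻¹ x)`. -/
def shear (G : Type*) [Group G] : G × G ≃ G × G :=
  Equiv.prodShear (Equiv.refl G) (fun y => Equiv.mulLeft y⁻¹)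

theorem shear_apply (p : G × G) : shear G p = (p.1, p.1⁻¹ * p.2) := rfl

/-- swapped shear: `(x,y) ↦ (y, y⁻¹ x)`. -/
def sshear (G : Type*) [Group G] : G × G ≃ G × G := (Equiv.prodComm G G).trans (shear G)

theorem sshear_apply (p : G × G) : sshear G p = (p.2, p.2⁻¹ * p.1) := rfl

theorem hasSum_conv {E : Type*} [NormedAddCommGroup E] [CompleteSpace E]
    {K : G × G → E} {s : E} (hK : HasSum K s) :
    (∀ x, Summable fun y => K (y, y⁻¹ * x)) ∧
      HasSum (fun x => ∑' y, K (y, y⁻¹ * x)) s := by
  have h1 : HasSum (K ∘ sshear G) s := (Equiv.hasSum_iff (sshear G)).2 hK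
  have h2 : ∀ x, Summable fun y => (K ∘ sshear G) (x, y) := fun x => h1.summable.prod_factor x
  refine ⟨h2, ?_⟩
  exact h1.prod_fiberwise (fun x => (h2 x).hasSum)

theorem conv_norm {a b : G → ℂ} (ha : Summable fun x => ‖a x‖) (hb : Summable fun x => ‖b x‖) :
    (∀ x, Summable fun y => ‖a y * b (y⁻¹ * x)‖) ∧
      HasSum (fun x => ∑' y, ‖a y * b (y⁻¹ * x)‖) ((∑' x, ‖a x‖) * (∑' x, ‖b x‖)) := by
  have h0 : Summable fun p : G × G => ‖a p.1‖ * ‖b p.2‖ :=
    ha.mul_of_nonneg hb (fun _ => norm_nonneg _) (fun _ => norm_nonneg _)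
  have h1 : HasSum (fun p : G × G => ‖a p.1‖ * ‖b p.2‖) ((∑' x, ‖a x‖) * (∑' x, ‖b x‖)) :=
    ha.hasSum.mul hb.hasSum h0
  have h2 : HasSum (fun p : G × G => ‖a p.1 * b p.2‖) ((∑' x, ‖a x‖) * (∑' x, ‖b x‖)) := by
    simpa [norm_mul] using h1
  exact hasSum_conv h2

theorem conv_summable_norm {a b : G → ℂ} (ha : Summable fun x => ‖a x‖)
    (hb : Summable fun x => ‖b x‖) :
    Summable fun x => ‖∑' y, a y * b (y⁻¹ * x)‖ := by
  obtain ⟨h1, h2⟩ := conv_norm ha hb
  exact Summable.of_nonneg_of_le (fun _ => norm_nonneg _)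
    (fun x => norm_tsum_le_tsum_norm (h1 x)) h2.summable

noncomputable instance : Mul (L G) :=
  ⟨fun a b => mk (fun x => ∑' y, a y * b (y⁻¹ * x)) (conv_summable_norm (L_summable a) (L_summable b))⟩

theorem mul_apply (a b : L G) (x : G) : (a * b) x = ∑' y, a y * b (y⁻¹ * x) := rfl

theorem mul_term_summable (a b : L G) (x : G) : Summable fun y => a y * b (y⁻¹ * x) :=
  ((conv_norm (L_summable a) (L_summable b)).1 x).of_norm

open Classical in
noncomputable instance : One (L G) :=
  ⟨mk (fun x => if x = 1 then 1 else 0) (by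
    refine summable_of_ne_finset_zero (s := {1}) ?_
    intro b hb
    have : b ≠ 1 := by simpa using hb
    simp [this])⟩

open Classical in
theorem one_apply (x : G) : (1 : L G) x = if x = 1 then 1 else 0 := rfl

theorem L_ext {a b : L G} (h : ∀ x, a x = b x) : a = b := lp.ext (funext h)

theorem add_apply (a b : L G) (x : G) : (a + b) x = a x + b x := rfl
theorem sub_apply (a b : L G) (x : G) : (a - b) x = a x - b x := rfl
theorem smul_apply (c : ℂ) (a : L G) (x : G) : (c • a) x = c * a x := rfl
theorem zero_apply (x : G) : (0 : L G) x = 0 := rfl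

theorem L_apply_le (a : L G) (x : G) : ‖a x‖ ≤ ‖a‖ := lp.norm_apply_le_norm (by norm_num) a x

theorem mul_assoc' (a b c : L G) : (a * b) * c = a * (b * c) := by
  apply L_ext
  intro x
  rw [mul_apply, mul_apply]
  have e1 : ∀ z, (a * b) z * c (z⁻¹ * x) = ∑' y, a y * b (y⁻¹ * z) * c (z⁻¹ * x) := by
    intro z
    rw [mul_apply, tsum_mul_right]
  have e2 : ∀ y, a y * (b * c) (y⁻¹ * x) = ∑' z, a y * b (y⁻¹ * z) * c (z⁻¹ * x) := by
    intro y
    rw [mul_apply, ← tsum_mul_left]
    rw [← Equiv.tsum_eq (Equiv.mulLeft y⁻¹)]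
    apply tsum_congr
    intro z
    simp only [Equiv.coe_mulLeft, mul_inv_rev, inv_inv]
    have : z⁻¹ * y * (y⁻¹ * x) = z⁻¹ * x := by group
    rw [this]; ring
  simp_rw [e1, e2]
  -- exchange the sums
  have hs : Summable (Function.uncurry fun (z y : G) => a y * b (y⁻¹ * z) * c (z⁻¹ * x)) := by
    apply Summable.of_norm
    have h0 : Summable fun p : G × G => ‖a p.1 * b p.2‖ := by
      have := (L_summable a).mul_of_nonneg (L_summable b) (fun _ => norm_nonneg _)
        (fun _ => norm_nonneg _)
      simpa [norm_mul] using this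
    have h1 : Summable ((fun p : G × G => ‖a p.1 * b p.2‖) ∘ sshear G) :=
      (Equiv.summable_iff (sshear G)).2 h0
    refine Summable.of_nonneg_of_le (fun _ => norm_nonneg _) ?_ (h1.mul_right ‖c‖)
    rintro ⟨z, y⟩
    simp only [Function.uncurry, Function.comp, sshear_apply, norm_mul]
    gcongr
    exact L_apply_le c _
  exact hs.tsum_comm.symm

theorem mul_add' (a b c : L G) : a * (b + c) = a * b + a * c := by
  apply L_ext
  intro x
  rw [add_apply, mul_apply, mul_apply, mul_apply,
    ← (mul_term_summable a b x).tsum_add (mul_term_summable a c x)]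
  apply tsum_congr; intro y; rw [add_apply]; ring

theorem add_mul' (a b c : L G) : (a + b) * c = a * c + b * c := by
  apply L_ext
  intro x
  rw [add_apply, mul_apply, mul_apply, mul_apply,
    ← (mul_term_summable a c x).tsum_add (mul_term_summable b c x)]
  apply tsum_congr; intro y; rw [add_apply]; ring

theorem one_mul' (a : L G) : 1 * a = a := by
  classical
  apply L_ext
  intro x
  rw [mul_apply, tsum_eq_single 1]
  · simp [one_apply]
  · intro y hy; simp [one_apply, hy]

theorem mul_one' (a : L G) : a * 1 = a := by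
  classical
  apply L_ext
  intro x
  rw [mul_apply, tsum_eq_single x]
  · simp [one_apply]
  · intro y hy
    have : ¬ (y⁻¹ * x = 1) := by
      intro h
      apply hy
      have := inv_mul_eq_one.1 h
      exact this
    simp [one_apply, this]

theorem zero_mul' (a : L G) : 0 * a = 0 := by
  apply L_ext
  intro x
  rw [mul_apply]
  simp [zero_apply]

theorem mul_zero' (a : L G) : a * 0 = 0 := by
  apply L_ext
  intro x
  rw [mul_apply]
  simp [zero_apply]

theorem norm_mul_le' (a b : L G) : ‖a * b‖ ≤ ‖a‖ * ‖b‖ := by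
  rw [L_norm, L_norm a, L_norm b]
  obtain ⟨h1, h2⟩ := conv_norm (L_summable a) (L_summable b)
  rw [← h2.tsum_eq]
  refine Summable.tsum_le_tsum (fun x => ?_) (L_summable _) h2.summable
  exact norm_tsum_le_tsum_norm (h1 x)

noncomputable instance instRing : Ring (L G) :=
  { (inferInstance : AddCommGroup (L G)) with
    mul := (· * ·)
    one := 1
    mul_assoc := mul_assoc'
    left_distrib := mul_add'
    right_distrib := add_mul'
    one_mul := one_mul'
    mul_one := mul_one'
    zero_mul := zero_mul'
    mul_zero := mul_zero' }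

noncomputable instance instNormedRing : NormedRing (L G) :=
  { instRing, (inferInstance : NormedAddCommGroup (L G)) with
    norm_mul_le := norm_mul_le' }

noncomputable instance instAlgebra : Algebra ℂ (L G) :=
  Algebra.ofModule
    (by
      intro r a b
      apply L_ext
      intro x
      rw [smul_apply, mul_apply, mul_apply, ← tsum_mul_left]
      apply tsum_congr; intro y; rw [smul_apply]; ring)
    (by
      intro r a b
      apply L_ext
      intro x
      rw [smul_apply, mul_apply, mul_apply, ← tsum_mul_left]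
      apply tsum_congr; intro y; rw [smul_apply]; ring)

noncomputable instance instNormedAlgebra : NormedAlgebra ℂ (L G) :=
  { instAlgebra with
    norm_smul_le := fun r a => norm_smul_le r a }

instance instNormOne : NormOneClass (L G) := ⟨by
  classical
  rw [L_norm, tsum_eq_single 1]
  · simp [one_apply]
  · intro y hy; simp [one_apply, hy]⟩

example : CompleteSpace (L G) := inferInstance

end Pool.Agent.V1169.EL
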