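import Mathlib

set_option autoImplicit false
set_option linter.unusedSectionVars false

/-!
# Geometric mixtures in a Banach algebra
-/

namespace Pool.Agent.V1169.EL

variable {A : Type*} [NormedRing A] [NormOneClass A] [NormedAlgebra ℂ A] [CompleteSpace A]

/-- `∑ 2^{-(k+1)} x_k`. -/
noncomputable def geo (x : ℕ → A) : A := ∑' k, ((1 / 2 : ℂ) ^ (k + 1)) • x k

theorem geo_coeff (k : ℕ) : ‖((1 / 2 : ℂ) ^ (k + 1))‖ = (1 / 2 : ℝ) ^ (k + 1) := by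
  rw [norm_pow]; norm_num

theorem hasSum_geo_coeff : HasSum (fun k : ℕ => (1 / 2 : ℝ) ^ (k + 1)) 1 := by
  have h := hasSum_geometric_two' (1 : ℝ)
  convert h using 2 with k
  rw [pow_succ, div_pow, one_pow]; ring

theorem geo_term_norm {x : ℕ → A} {c : ℝ} (hx : ∀ k, ‖x k‖ ≤ c) (k : ℕ) :
    ‖((1 / 2 : ℂ) ^ (k + 1)) • x k‖ ≤ (1 / 2 : ℝ) ^ (k + 1) * c := by
  rw [norm_smul, geo_coeff]
  gcongr
  exact hx k

theorem geo_hasSum {x : ℕ → A} {c : ℝ} (hx : ∀ k, ‖x k‖ ≤ c) :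
    HasSum (fun k => ((1 / 2 : ℂ) ^ (k + 1)) • x k) (geo x) := by
  apply Summable.hasSum
  apply Summable.of_norm_bounded (hasSum_geo_coeff.mul_right c).summable
  exact geo_term_norm hx

theorem geo_norm {x : ℕ → A} {c : ℝ} (hx : ∀ k, ‖x k‖ ≤ c) : ‖geo x‖ ≤ c := by
  have h := tsum_of_norm_bounded (hasSum_geo_coeff.mul_right c) (geo_term_norm hx)
  simpa [geo] using h

theorem geo_mul {x : ℕ → A} {c : ℝ} (hx : ∀ k, ‖x k‖ ≤ c) (b : A) :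
    geo x * b = geo (fun k => x k * b) := by
  have h := (geo_hasSum hx).mul_right b
  rw [← h.tsum_eq]
  unfold geo
  congr 1
  ext k
  rw [smul_mul_assoc]

theorem mul_geo {x : ℕ → A} {c : ℝ} (hx : ∀ k, ‖x k‖ ≤ c) (b : A) :
    b * geo x = geo (fun k => b * x k) := by
  have h := (geo_hasSum hx).mul_left b
  rw [← h.tsum_eq]
  unfold geo
  congr 1
  ext k
  rw [mul_smul_comm]

/-- partial sums -/
noncomputable def geoP (x : ℕ → A) (j : ℕ) : A :=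
  ∑ k ∈ Finset.range j, ((1 / 2 : ℂ) ^ (k + 1)) • x k

theorem geo_split {x : ℕ → A} {c : ℝ} (hx : ∀ k, ‖x k‖ ≤ c) (j : ℕ) :
    geo x - geoP x j = ((1 / 2 : ℂ) ^ j) • geo (fun k => x (k + j)) := by
  have h1 := (geo_hasSum hx).summable.sum_add_tsum_nat_add j
  have h2 : geo x = geoP x j + ∑' k, ((1 / 2 : ℂ) ^ (k + j + 1)) • x (k + j) := by
    rw [geo, geoP, ← h1]
  rw [h2, add_sub_cancel_left, geo, ← tsum_const_smul'']
  apply tsum_congr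
  intro k
  rw [smul_smul]
  congr 1
  ring

theorem geoP_norm {x : ℕ → A} (hx : ∀ k, ‖x k‖ ≤ 1) (j : ℕ) :
    ‖geoP x j‖ ≤ 1 - (1 / 2 : ℝ) ^ j := by
  induction j with
  | zero => simp [geoP]
  | succ j ih =>
    have e : geoP x (j + 1) = geoP x j + ((1 / 2 : ℂ) ^ (j + 1)) • x j := by
      rw [geoP, Finset.sum_range_succ]; rfl
    rw [e]
    have h1 := geo_term_norm hx j
    calc _ ≤ ‖geoP x j‖ + ‖((1 / 2 : ℂ) ^ (j + 1)) • x j‖ := norm_add_le _ _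
      _ ≤ (1 - (1 / 2 : ℝ) ^ j) + (1 / 2 : ℝ) ^ (j + 1) * 1 := add_le_add ih h1
      _ = 1 - (1 / 2 : ℝ) ^ (j + 1) := by ring

theorem geo_commute_geoP {x : ℕ → A} {c : ℝ} (hx : ∀ k, ‖x k‖ ≤ c)
    (hc : ∀ k l, Commute (x k) (x l)) (j : ℕ) : Commute (geo x) (geoP x j) := by
  unfold geoP
  apply Commute.sum_right
  intro l _
  apply Commute.smul_right
  show geo x * x l = x l * geo x
  rw [geo_mul hx, mul_geo hx]
  congr 1
  ext k
  exact hc k l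

theorem geom_sum_bound {r : ℝ} (hr0 : 0 ≤ r) {δ : ℝ} (hδ : 0 < δ) (hr : r = 1 - δ) (n : ℕ) :
    ∑ i ∈ Finset.range n, r ^ (n - 1 - i) ≤ δ⁻¹ := by
  rw [Finset.sum_range_reflect]
  have h := geom_sum_mul_neg r n
  have h2 : (1 - r) = δ := by rw [hr]; ring
  rw [h2] at h
  rw [← one_div, le_div_iff₀ hδ, h]
  have := pow_nonneg hr0 n
  linarith

theorem sum_pow_bound {X Y : A} {r δ : ℝ} (hX : ‖X‖ ≤ 1) (hr0 : 0 ≤ r) (hY : ‖Y‖ ≤ r)
    (hδ : 0 < δ) (hr : r = 1 - δ) (n : ℕ) :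
    ‖∑ i ∈ Finset.range n, X ^ i * Y ^ (n - 1 - i)‖ ≤ δ⁻¹ := by
  refine le_trans ?_ (geom_sum_bound hr0 hδ hr n)
  refine (norm_sum_le _ _).trans (Finset.sum_le_sum fun i _ => ?_)
  calc ‖X ^ i * Y ^ (n - 1 - i)‖ ≤ ‖X ^ i‖ * ‖Y ^ (n - 1 - i)‖ := norm_mul_le _ _
    _ ≤ 1 * r ^ (n - 1 - i) := by
        gcongr
        · exact (norm_pow_le X i).trans (pow_le_one₀ (norm_nonneg _) hX)
        · exact (norm_pow_le Y _).trans (by gcongr)
    _ = _ := one_mul _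

theorem geo_power_bound {μ ν : ℕ → A} (f : A) (hμ : ∀ k, ‖μ k‖ ≤ 1) (hν : ∀ k, ‖ν k‖ ≤ 1)
    (hμc : ∀ k l, Commute (μ k) (μ l)) (hνc : ∀ k l, Commute (ν k) (ν l))
    {η : ℕ → ℝ} (hη : ∀ j k l, j ≤ k → j ≤ l → ‖μ k * f * ν l‖ ≤ η j) (j n : ℕ) :
    ‖geo μ ^ n * f * geo ν ^ n‖ ≤ 3 * ‖f‖ * (1 - (1 / 2 : ℝ) ^ j) ^ n + η j := by
  set U := geo μ with hU
  set V := geo ν with hV
  set U' := geoP μ j with hU'
  set V' := geoP ν j with hV'
  set δ : ℝ := (1 / 2 : ℝ) ^ j with hδdef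
  have hδ : 0 < δ := by positivity
  have hδ1 : δ ≤ 1 := pow_le_one₀ (by norm_num) (by norm_num)
  set r : ℝ := 1 - δ with hr
  have hr0 : 0 ≤ r := by rw [hr]; linarith
  have hUn : ‖U‖ ≤ 1 := geo_norm hμ
  have hVn : ‖V‖ ≤ 1 := geo_norm hν
  have hU'n : ‖U'‖ ≤ r := geoP_norm hμ j
  have hV'n : ‖V'‖ ≤ r := geoP_norm hν j
  have hcU : Commute U U' := geo_commute_geoP hμ hμc j
  have hcV : Commute V V' := geo_commute_geoP hν hνc j
  set W := ∑ i ∈ Finset.range n, U ^ i * U' ^ (n - 1 - i) with hW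
  set Z := ∑ i ∈ Finset.range n, V ^ i * V' ^ (n - 1 - i) with hZ
  have hWn : ‖W‖ ≤ δ⁻¹ := sum_pow_bound hUn hr0 hU'n hδ rfl n
  have hZn : ‖Z‖ ≤ δ⁻¹ := sum_pow_bound hVn hr0 hV'n hδ rfl n
  have e1 : W * (U - U') = U ^ n - U' ^ n := hcU.geom_sum₂_mul n
  have e2 : (V - V') * Z = V ^ n - V' ^ n := hcV.mul_geom_sum₂ n
  set D := geo (fun k => μ (k + j)) with hD
  set D' := geo (fun k => ν (k + j)) with hD'
  have e3 : U - U' = ((1 / 2 : ℂ) ^ j) • D := geo_split hμ j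
  have e4 : V - V' = ((1 / 2 : ℂ) ^ j) • D' := geo_split hν j
  have hc : ‖((1 / 2 : ℂ) ^ j)‖ = δ := by rw [norm_pow, hδdef]; norm_num
  have hDf : ‖D * f * D'‖ ≤ η j := by
    rw [hD, hD', geo_mul (c := 1) (fun k => hμ _), geo_mul (c := 1 * ‖f‖)]
    · apply geo_norm
      intro k
      rw [mul_geo (c := 1) (fun k => hν _)]
      apply geo_norm
      intro l
      exact hη j _ _ (Nat.le_add_left _ _) (Nat.le_add_left _ _)
    · intro k
      exact (norm_mul_le _ _).trans (by gcongr; exact hμ _)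
  have hmid : ‖(U - U') * f * (V - V')‖ ≤ δ * (δ * η j) := by
    rw [e3, e4, smul_mul_assoc, smul_mul_assoc, mul_smul_comm, norm_smul, norm_smul, hc]
    gcongr
  have e5 : U ^ n * f * V ^ n = U' ^ n * f * V ^ n + (U ^ n - U' ^ n) * f * V' ^ n
      + (U ^ n - U' ^ n) * f * (V ^ n - V' ^ n) := by noncomm_ring
  have b1 : ‖U' ^ n * f * V ^ n‖ ≤ r ^ n * ‖f‖ * 1 := by
    calc _ ≤ ‖U' ^ n * f‖ * ‖V ^ n‖ := norm_mul_le _ _
      _ ≤ (‖U' ^ n‖ * ‖f‖) * 1 := by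
          gcongr
          · exact norm_mul_le _ _
          · exact (norm_pow_le V n).trans (pow_le_one₀ (norm_nonneg _) hVn)
      _ ≤ _ := by
          gcongr
          exact (norm_pow_le U' n).trans (by gcongr)
  have hdiff : ‖U ^ n - U' ^ n‖ ≤ 2 := by
    calc _ ≤ ‖U ^ n‖ + ‖U' ^ n‖ := norm_sub_le _ _
      _ ≤ 1 + 1 := by
          gcongr
          · exact (norm_pow_le U n).trans (pow_le_one₀ (norm_nonneg _) hUn)
          · refine (norm_pow_le U' n).trans (pow_le_one₀ (norm_nonneg _) (hU'n.trans ?_))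
            rw [hr]; linarith
      _ = 2 := by norm_num
  have b2 : ‖(U ^ n - U' ^ n) * f * V' ^ n‖ ≤ 2 * ‖f‖ * r ^ n := by
    calc _ ≤ ‖(U ^ n - U' ^ n) * f‖ * ‖V' ^ n‖ := norm_mul_le _ _
      _ ≤ (‖U ^ n - U' ^ n‖ * ‖f‖) * r ^ n := by
          gcongr
          · exact norm_mul_le _ _
          · exact (norm_pow_le V' n).trans (by gcongr)
      _ ≤ _ := by gcongr
  have b3 : ‖(U ^ n - U' ^ n) * f * (V ^ n - V' ^ n)‖ ≤ η j := by
    rw [← e1, ← e2]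
    have e6 : W * (U - U') * f * ((V - V') * Z) = W * ((U - U') * f * (V - V')) * Z := by
      noncomm_ring
    rw [e6]
    have hηj : 0 ≤ η j := (norm_nonneg _).trans (hη j j j le_rfl le_rfl)
    calc _ ≤ ‖W * ((U - U') * f * (V - V'))‖ * ‖Z‖ := norm_mul_le _ _
      _ ≤ (‖W‖ * ‖(U - U') * f * (V - V')‖) * δ⁻¹ := by
          gcongr
          exact norm_mul_le _ _
      _ ≤ (δ⁻¹ * (δ * (δ * η j))) * δ⁻¹ := by gcongr
      _ = η j := by field_simp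
  rw [e5]
  refine norm_add₃_le.trans ?_
  refine (add_le_add (add_le_add b1 b2) b3).trans ?_
  apply le_of_eq
  ring

theorem geo_summable {μ ν : ℕ → A} (f : A) (hμ : ∀ k, ‖μ k‖ ≤ 1) (hν : ∀ k, ‖ν k‖ ≤ 1)
    (hμc : ∀ k l, Commute (μ k) (μ l)) (hνc : ∀ k l, Commute (ν k) (ν l))
    (hη : ∀ j k l, j ≤ k → j ≤ l → ‖μ k * f * ν l‖ ≤ (1 / 16 : ℝ) ^ (j + 1)) :
    Summable fun n : ℕ => geo μ ^ n * f * geo ν ^ n := by
  rw [← summable_nat_add_iff 1]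
  have hs : Summable fun n : ℕ => (288 * ‖f‖ + 1) * (1 / ((n : ℝ) + 1) ^ 2) := by
    apply Summable.mul_left
    have := (summable_nat_add_iff 1).2 (Real.summable_one_div_nat_pow (p := 2).2 (by norm_num))
    simpa using this
  apply Summable.of_norm_bounded hs
  intro n
  set j := Nat.log 4 (n + 2) with hj
  have h4 : 4 ^ j ≤ n + 2 := Nat.pow_log_le_self 4 (by omega)
  have h4' : n + 2 < 4 ^ (j + 1) := Nat.lt_pow_succ_log_self (by norm_num) _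
  have hb := geo_power_bound f hμ hν hμc hνc hη j (n + 1)
  refine hb.trans ?_
  have hn : (0 : ℝ) < (n : ℝ) + 1 := by positivity
  -- second term
  have h2 : (1 / 16 : ℝ) ^ (j + 1) ≤ 1 / ((n : ℝ) + 1) ^ 2 := by
    have h5 : ((n : ℝ) + 1) ≤ 4 ^ (j + 1) := by
      have : ((n + 2 : ℕ) : ℝ) < ((4 ^ (j + 1) : ℕ) : ℝ) := by exact_mod_cast h4'
      push_cast at this
      linarith
    rw [div_pow, one_pow]
    apply one_div_le_one_div_of_le (by positivity)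
    calc ((n : ℝ) + 1) ^ 2 ≤ (4 ^ (j + 1)) ^ 2 := by gcongr
      _ = 16 ^ (j + 1) := by rw [← pow_mul, mul_comm, pow_mul]; norm_num
  -- first term
  set x : ℝ := (1 / 2 : ℝ) ^ j with hx
  have hx0 : 0 < x := by positivity
  have hx1 : x ≤ 1 := pow_le_one₀ (by norm_num) (by norm_num)
  have hx2 : 1 ≤ x ^ 2 * ((n : ℝ) + 2) := by
    have h5 : (4 : ℝ) ^ j ≤ (n : ℝ) + 2 := by exact_mod_cast h4
    have h6 : x ^ 2 * 4 ^ j = 1 := by
      rw [hx, ← pow_mul, mul_comm j 2, pow_mul, ← mul_pow]; norm_num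
    calc (1 : ℝ) = x ^ 2 * 4 ^ j := h6.symm
      _ ≤ _ := by gcongr
  have h1 : (1 - x) ^ (n + 1) ≤ 96 * (1 / ((n : ℝ) + 1) ^ 2) := by
    have hy0 : 0 ≤ x * ((n : ℝ) + 1) := by positivity
    have e1 : (1 - x) ^ (n + 1) ≤ Real.exp (-(x * ((n : ℝ) + 1))) := by
      have : 1 - x ≤ Real.exp (-x) := by
        have := Real.add_one_le_exp (-x); linarith
      calc (1 - x) ^ (n + 1) ≤ (Real.exp (-x)) ^ (n + 1) :=
            pow_le_pow_left₀ (by linarith) this _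
        _ = Real.exp (-(x * ((n : ℝ) + 1))) := by
            rw [← Real.exp_nat_mul]; congr 1; push_cast; ring
    have e2 : (x * ((n : ℝ) + 1)) ^ 4 / 24 ≤ Real.exp (x * ((n : ℝ) + 1)) := by
      have := Real.pow_div_factorial_le_exp (x * ((n : ℝ) + 1)) hy0 4
      simpa [Nat.factorial] using this
    rw [Real.exp_neg] at e1
    refine e1.trans ?_
    have e3 : ((n : ℝ) + 1) ^ 2 / 96 ≤ (x * ((n : ℝ) + 1)) ^ 4 / 24 := by
      have e4 : ((n : ℝ) + 1) ^ 2 ≤ 4 * (x * ((n : ℝ) + 1)) ^ 4 := by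
        have h7 : 1 ≤ 2 * (x ^ 2 * ((n : ℝ) + 1)) := by
          have : x ^ 2 * ((n : ℝ) + 2) ≤ 2 * (x ^ 2 * ((n : ℝ) + 1)) := by
            have : 0 ≤ x ^ 2 * (n : ℝ) := by positivity
            nlinarith
          linarith
        have h8 : (1 : ℝ) ≤ (2 * (x ^ 2 * ((n : ℝ) + 1))) ^ 2 := one_le_pow₀ h7
        calc ((n : ℝ) + 1) ^ 2 = ((n : ℝ) + 1) ^ 2 * 1 := by ring
          _ ≤ ((n : ℝ) + 1) ^ 2 * (2 * (x ^ 2 * ((n : ℝ) + 1))) ^ 2 := by gcongr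
          _ = 4 * (x * ((n : ℝ) + 1)) ^ 4 := by ring
      linarith
    have e5 := e3.trans e2
    have e6 : 0 < ((n : ℝ) + 1) ^ 2 / 96 := by positivity
    calc (Real.exp (x * ((n : ℝ) + 1)))⁻¹ ≤ (((n : ℝ) + 1) ^ 2 / 96)⁻¹ := inv_anti₀ e6 e5
      _ = 96 * (1 / ((n : ℝ) + 1) ^ 2) := by field_simp
  have hf := norm_nonneg f
  calc 3 * ‖f‖ * (1 - x) ^ (n + 1) + (1 / 16 : ℝ) ^ (j + 1)
      ≤ 3 * ‖f‖ * (96 * (1 / ((n : ℝ) + 1) ^ 2)) + 1 / ((n : ℝ) + 1) ^ 2 := by gcongr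
    _ = (288 * ‖f‖ + 1) * (1 / ((n : ℝ) + 1) ^ 2) := by ring

end Pool.Agent.V1169.EL
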