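import Pool.Agent.V1169.EL2
import Pool.Agent.V1169.EL3

set_option autoImplicit false
set_option linter.unusedSectionVars false

/-!
# Two-sided factorization
-/

namespace Pool.Agent.V1169.EL

variable {A : Type*} [NormedRing A] [NormOneClass A] [NormedAlgebra ℂ A] [CompleteSpace A]

theorem char_ces (φ : A →ₐ[ℂ] ℂ) {a : A} (ha : φ a = 1) {m : ℕ} (hm : 1 ≤ m) :
    φ (ces a m) = 1 := by
  unfold ces
  rw [map_smul, map_sum]
  simp only [map_pow, ha, one_pow, Finset.sum_const, Finset.card_range, nsmul_eq_mul, mul_one,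
    smul_eq_mul]
  have : (m : ℂ) ≠ 0 := by
    have : m ≠ 0 := by omega
    exact_mod_cast this
  exact inv_mul_cancel₀ this

theorem char_geo (φ : A →ₐ[ℂ] ℂ) {x : ℕ → A} (hx : ∀ k, ‖x k‖ ≤ 1) (h1 : ∀ k, φ (x k) = 1) :
    φ (geo x) = 1 := by
  have h := (geo_hasSum hx).map φ (map_continuous φ)
  have h2 : HasSum (fun k : ℕ => ((1 / 2 : ℂ) ^ (k + 1))) 1 := by
    have h3 := (hasSum_geometric_of_norm_lt_one (ξ := (1 / 2 : ℂ)) (by norm_num)).mul_left (1 / 2 : ℂ)
    have e : (1 / 2 : ℂ) * (1 - 1 / 2)⁻¹ = 1 := by norm_num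
    rw [e] at h3
    have e2 : (fun k : ℕ => (1 / 2 : ℂ) ^ (k + 1)) = fun k : ℕ => (1 / 2 : ℂ) * (1 / 2) ^ k := by
      ext k; rw [pow_succ']
    rw [e2]; exact h3
  refine h.unique ?_
  convert h2 using 1
  ext k
  simp [h1]

theorem mem_of_hasSum {K : Submodule ℂ A} (hK : IsClosed (K : Set A)) {x : ℕ → A} {s : A}
    (hs : HasSum x s) (hx : ∀ n, x n ∈ K) : s ∈ K := by
  apply hK.mem_of_tendsto hs
  filter_upwards with t
  exact Submodule.sum_mem K fun i _ => hx i

theorem factor {α β f : A} (hα : ‖α‖ ≤ 1) (hβ : ‖β‖ ≤ 1) {C : ℝ} (hC : 0 ≤ C)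
    (hK : ∀ J : ℕ, ‖TT α β f J‖ ≤ C * Real.sqrt J) :
    ∃ U V g : A, (∀ φ : A →ₐ[ℂ] ℂ, φ α = 1 → φ U = 1) ∧ (∀ φ : A →ₐ[ℂ] ℂ, φ β = 1 → φ V = 1) ∧
      (∀ K : Submodule ℂ A, IsClosed (K : Set A) → (∀ a ∈ K, ∀ b, a * b ∈ K ∧ b * a ∈ K) →
        f ∈ K → g ∈ K) ∧ f = (1 - U) * g + (U * g) * (1 - V) := by
  have hex : ∀ k : ℕ, ∃ N : ℕ, 1 ≤ N ∧ ∀ m n : ℕ, N ≤ m → N ≤ n →
      ‖ces α m * f * ces β n‖ ≤ (1 / 16 : ℝ) ^ (k + 1) := fun k =>
    ces_small hα hβ hC hK (by positivity)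
  choose N hN1 hN using hex
  -- make it monotone
  set M : ℕ → ℕ := fun k => ∑ i ∈ Finset.range (k + 1), N i with hM
  have hMN : ∀ j k, j ≤ k → N j ≤ M k := by
    intro j k hjk
    exact Finset.single_le_sum (f := N) (fun _ _ => Nat.zero_le _)
      (Finset.mem_range.2 (Nat.lt_succ_of_le hjk))
  have hM1 : ∀ k, 1 ≤ M k := fun k => (hN1 k).trans (hMN k k le_rfl)
  set μ : ℕ → A := fun k => ces α (M k) with hμdef
  set ν : ℕ → A := fun k => ces β (M k) with hνdef
  have hμ : ∀ k, ‖μ k‖ ≤ 1 := fun k => ces_norm hα (hM1 k)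
  have hν : ∀ k, ‖ν k‖ ≤ 1 := fun k => ces_norm hβ (hM1 k)
  have hμc : ∀ k l, Commute (μ k) (μ l) := fun k l => ces_commute α _ _
  have hνc : ∀ k l, Commute (ν k) (ν l) := fun k l => ces_commute β _ _
  have hη : ∀ j k l, j ≤ k → j ≤ l → ‖μ k * f * ν l‖ ≤ (1 / 16 : ℝ) ^ (j + 1) :=
    fun j k l hk hl => hN j _ _ (hMN j k hk) (hMN j l hl)
  have hs := geo_summable f hμ hν hμc hνc hη
  set U := geo μ with hU
  set V := geo ν with hV
  obtain ⟨g, hg⟩ := hs
  refine ⟨U, V, g, ?_, ?_, ?_, ?_⟩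
  · intro φ hφ
    exact char_geo φ hμ (fun k => char_ces φ hφ (hM1 k))
  · intro φ hφ
    exact char_geo φ hν (fun k => char_ces φ hφ (hM1 k))
  · intro K hKc hKi hf
    refine mem_of_hasSum hKc hg ?_
    intro n
    exact (hKi _ (hKi f hf (U ^ n)).2 (V ^ n)).1
  · have h1 : HasSum (fun n => U * (U ^ n * f * V ^ n) * V) (U * g * V) :=
      (hg.mul_left U).mul_right V
    have h2 : HasSum (fun n => U ^ (n + 1) * f * V ^ (n + 1)) (U * g * V) := by
      convert h1 using 1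
      ext n
      rw [pow_succ', pow_succ]
      noncomm_ring
    have h3 := (hasSum_nat_add_iff' (f := fun n => U ^ n * f * V ^ n) 1).2 hg
    have h4 := h2.unique h3
    simp at h4
    have h5 : f = g - U * g * V := by rw [h4]; abel
    calc f = g - U * g * V := h5
      _ = (1 - U) * g + (U * g) * (1 - V) := by noncomm_ring

/-- Abstract conclusion: a closed ideal of the form `ker φ₁ ∩ ker φ₂` is idempotent as soon as
the two-sided averaging hypothesis holds. -/
theorem idempotent_abstract (φ : Bool → (A →ₐ[ℂ] ℂ)) (ε : Bool → A)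
    (hε : ε true + ε false = 1) (hε0 : ∀ i, φ i (ε (!i)) = 0)
    (I : Submodule ℂ A) (hI : IsClosed (I : Set A))
    (hideal : ∀ a ∈ I, ∀ b, a * b ∈ I ∧ b * a ∈ I)
    (hmem : ∀ a, a ∈ I ↔ ∀ i, φ i a = 0)
    (hyp : ∀ f ∈ I, ∀ i j, ∃ α β : A, ‖α‖ ≤ 1 ∧ ‖β‖ ≤ 1 ∧ φ i α = 1 ∧ φ j β = 1 ∧
      ∃ C : ℝ, 0 ≤ C ∧ ∀ J : ℕ, ‖TT α β f J‖ ≤ C * Real.sqrt J) :
    Submodule.span ℂ {h : A | ∃ a ∈ I, ∃ b ∈ I, h = a * b} = I := by
  apply le_antisymm
  · rw [Submodule.span_le]
    rintro h ⟨a, ha, b, -, rfl⟩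
    exact (hideal a ha b).1
  · intro f hf
    set S := Submodule.span ℂ {h : A | ∃ a ∈ I, ∃ b ∈ I, h = a * b} with hS
    have key : ∀ i j, ε i * f * ε j ∈ S := by
      intro i j
      obtain ⟨α, β, hα, hβ, hφα, hφβ, C, hC, hK⟩ := hyp f hf i j
      obtain ⟨U, V, g, hU, hV, hg, hfg⟩ := factor hα hβ hC hK
      have hgI : g ∈ I := hg I hI hideal hf
      have hU1 := hU _ hφα
      have hV1 := hV _ hφβ
      have h0 : ∀ i : Bool, ∀ u : A, φ i u = 0 → ε i * u ∈ I ∧ u * ε i ∈ I := by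
        intro i u hu
        rw [hmem, hmem]
        constructor
        · intro k
          rw [map_mul]
          rcases Bool.eq_or_eq_not k i with h | h
          · rw [h, hu, mul_zero]
          · have h1 := hε0 k
            have h2 : (!k) = i := by rw [h]; simp
            rw [h2] at h1
            rw [h1, zero_mul]
        · intro k
          rw [map_mul]
          rcases Bool.eq_or_eq_not k i with h | h
          · rw [h, hu, zero_mul]
          · have h1 := hε0 k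
            have h2 : (!k) = i := by rw [h]; simp
            rw [h2] at h1
            rw [h1, mul_zero]
      have hu : φ i (1 - U) = 0 := by rw [map_sub, map_one, hU1, sub_self]
      have hv : φ j (1 - V) = 0 := by rw [map_sub, map_one, hV1, sub_self]
      have e : ε i * f * ε j = (ε i * (1 - U)) * (g * ε j) + (ε i * (U * g)) * ((1 - V) * ε j) := by
        conv_lhs => rw [hfg]
        noncomm_ring
      rw [e]
      apply Submodule.add_mem
      · exact Submodule.subset_span ⟨_, (h0 i _ hu).1, _, (hideal g hgI _).1, rfl⟩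
      · exact Submodule.subset_span
          ⟨_, (hideal _ (hideal g hgI U).2 (ε i)).2, _, (h0 j _ hv).2, rfl⟩
    have e : f = ε true * f * ε true + ε true * f * ε false + (ε false * f * ε true
        + ε false * f * ε false) := by
      calc f = (ε true + ε false) * f * (ε true + ε false) := by rw [hε]; simp
        _ = _ := by noncomm_ring
    rw [e]
    exact S.add_mem (S.add_mem (key _ _) (key _ _)) (S.add_mem (key _ _) (key _ _))

end Pool.Agent.V1169.EL
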