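import Pool.Agent.V1169.EL2
import Pool.Agent.V1169.EL3

set_option autoImplicit false
set_option linter.unusedSectionVars false

/-!
# Two-sided factorization, power-bounded version
-/

namespace Pool.Agent.V1169.EM

open Pool.Agent.V1169.EL (ces TT)

section first

variable {A : Type*} [NormedRing A] [NormedAlgebra ℂ A]

theorem ces_comm_self (a : A) (m : ℕ) : a * ces a m = ces a m * a := by
  unfold ces
  rw [smul_mul_assoc, mul_smul_comm, Finset.mul_sum, Finset.sum_mul]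
  congr 1
  apply Finset.sum_congr rfl
  intro i _
  rw [← pow_succ, ← pow_succ']

theorem ces_commute (a : A) (m n : ℕ) : Commute (ces a m) (ces a n) := by
  unfold ces
  apply Commute.smul_left
  apply Commute.smul_right
  apply Commute.sum_left
  intro i _
  apply Commute.sum_right
  intro j _
  exact (Commute.refl a).pow_pow i j

theorem ces_norm {a : A} {K : ℝ} (ha : ∀ s : ℕ, ‖a ^ s‖ ≤ K) {m : ℕ} (hm : 1 ≤ m) :
    ‖ces a m‖ ≤ K := by
  unfold ces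
  rw [norm_smul, norm_inv, Complex.norm_natCast]
  have h1 : ‖∑ i ∈ Finset.range m, a ^ i‖ ≤ m * K := by
    calc ‖∑ i ∈ Finset.range m, a ^ i‖ ≤ ∑ i ∈ Finset.range m, ‖a ^ i‖ := norm_sum_le _ _
      _ ≤ ∑ i ∈ Finset.range m, K := Finset.sum_le_sum fun i _ => ha i
      _ = m * K := by simp
  have hm' : (0 : ℝ) < m := by exact_mod_cast hm
  rw [inv_mul_le_iff₀ hm']
  exact h1

theorem ces_step {a : A} {K : ℝ} (ha : ∀ s : ℕ, ‖a ^ s‖ ≤ K) {m : ℕ} (hm : 1 ≤ m) (s : ℕ) :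
    ‖ces a m * a ^ (s + 1) - ces a m * a ^ s‖ ≤ 2 * K / m := by
  have hm' : (0 : ℝ) < m := by exact_mod_cast hm
  have e : ces a m * a ^ (s + 1) - ces a m * a ^ s = (m : ℂ)⁻¹ • (a ^ (m + s) - a ^ s) := by
    unfold ces
    rw [smul_mul_assoc, smul_mul_assoc, ← smul_sub]
    congr 1
    have h := geom_sum_mul a m
    calc (∑ i ∈ Finset.range m, a ^ i) * a ^ (s + 1) - (∑ i ∈ Finset.range m, a ^ i) * a ^ s
        = ((∑ i ∈ Finset.range m, a ^ i) * (a - 1)) * a ^ s := by rw [pow_succ']; noncomm_ring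
      _ = (a ^ m - 1) * a ^ s := by rw [h]
      _ = a ^ (m + s) - a ^ s := by rw [sub_mul, one_mul, pow_add]
  rw [e, norm_smul, norm_inv, Complex.norm_natCast, div_eq_inv_mul]
  gcongr
  calc ‖a ^ (m + s) - a ^ s‖ ≤ ‖a ^ (m + s)‖ + ‖a ^ s‖ := norm_sub_le _ _
    _ ≤ K + K := add_le_add (ha _) (ha _)
    _ = 2 * K := by ring

theorem ces_mul_pow {a : A} {K : ℝ} (ha : ∀ s : ℕ, ‖a ^ s‖ ≤ K) {m : ℕ} (hm : 1 ≤ m) (s : ℕ) :
    ‖ces a m * a ^ s - ces a m‖ ≤ s * (2 * K / m) := by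
  induction s with
  | zero => simp
  | succ s ih =>
    have e : ces a m * a ^ (s + 1) - ces a m =
        (ces a m * a ^ (s + 1) - ces a m * a ^ s) + (ces a m * a ^ s - ces a m) := by abel
    rw [e]
    refine (norm_add_le _ _).trans ?_
    refine (add_le_add (ces_step ha hm s) ih).trans ?_
    apply le_of_eq
    push_cast; ring

theorem ces_mul' {a : A} {K : ℝ} (ha : ∀ s : ℕ, ‖a ^ s‖ ≤ K) {m : ℕ} (hm : 1 ≤ m) :
    ‖a * ces a m - ces a m‖ ≤ 2 * K / m := by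
  have h := ces_mul_pow ha hm 1
  rw [pow_one] at h
  rw [ces_comm_self]
  simpa using h

theorem TT_norm_pow {α β : A} {K : ℝ} (hK : 0 ≤ K) (hα : ∀ s : ℕ, ‖α ^ s‖ ≤ K)
    (hβ : ∀ s : ℕ, ‖β ^ s‖ ≤ K) (f : A) (J : ℕ) :
    ∀ t : ℕ, ‖TT α β f J * β ^ t‖ ≤ J * (K ^ 2 * ‖f‖) := by
  induction J with
  | zero => intro t; simp [TT]
  | succ J ih =>
    intro t
    rw [TT]
    have e : (α ^ J * f + TT α β f J * β) * β ^ t =
        α ^ J * f * β ^ t + TT α β f J * β ^ (t + 1) := by rw [pow_succ']; noncomm_ring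
    rw [e]
    refine (norm_add_le _ _).trans ?_
    have h1 : ‖α ^ J * f * β ^ t‖ ≤ K ^ 2 * ‖f‖ := by
      calc _ ≤ ‖α ^ J * f‖ * ‖β ^ t‖ := norm_mul_le _ _
        _ ≤ (‖α ^ J‖ * ‖f‖) * K := by
            gcongr
            · exact norm_mul_le _ _
            · exact hβ t
        _ ≤ (K * ‖f‖) * K := by gcongr; exact hα J
        _ = K ^ 2 * ‖f‖ := by ring
    refine (add_le_add h1 (ih (t + 1))).trans ?_
    apply le_of_eq; push_cast; ring

theorem TT_norm {α β : A} {K : ℝ} (hK : 0 ≤ K) (hα : ∀ s : ℕ, ‖α ^ s‖ ≤ K)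
    (hβ : ∀ s : ℕ, ‖β ^ s‖ ≤ K) (f : A) (J : ℕ) :
    ‖TT α β f J‖ ≤ J * (K ^ 2 * ‖f‖) := by
  have := TT_norm_pow hK hα hβ f J 0
  simpa using this

theorem TT_ces {α β : A} {K : ℝ} (hK : 1 ≤ K) (hα : ∀ s : ℕ, ‖α ^ s‖ ≤ K)
    (hβ : ∀ s : ℕ, ‖β ^ s‖ ≤ K) (f : A) {m n : ℕ} (hm : 1 ≤ m)
    (hn : 1 ≤ n) (J : ℕ) :
    ‖ces α m * TT α β f J * ces β n - (J : ℂ) • (ces α m * f * ces β n)‖ ≤
      (J : ℝ) ^ 2 * (K ^ 4 * ‖f‖) * (1 / m + 1 / n) := by
  have hK0 : 0 ≤ K := by linarith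
  have hm' : (0 : ℝ) < m := by exact_mod_cast hm
  have hn' : (0 : ℝ) < n := by exact_mod_cast hn
  induction J with
  | zero => simp [TT]
  | succ J ih =>
    have e : ces α m * TT α β f (J + 1) * ces β n
          - ((J + 1 : ℕ) : ℂ) • (ces α m * f * ces β n) =
        (ces α m * α ^ J - ces α m) * f * ces β n
        + ces α m * TT α β f J * (β * ces β n - ces β n)
        + (ces α m * TT α β f J * ces β n - (J : ℂ) • (ces α m * f * ces β n)) := by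
      rw [TT]
      push_cast
      rw [add_smul, one_smul]
      noncomm_ring
    rw [e]
    have h1 : ‖(ces α m * α ^ J - ces α m) * f * ces β n‖ ≤ 2 * J * (K ^ 4 * ‖f‖) * (1 / m) := by
      calc _ ≤ ‖(ces α m * α ^ J - ces α m) * f‖ * ‖ces β n‖ := norm_mul_le _ _
        _ ≤ (‖(ces α m * α ^ J - ces α m)‖ * ‖f‖) * K := by
            gcongr
            · exact norm_mul_le _ _
            · exact ces_norm hβ hn
        _ ≤ ((J * (2 * K / m)) * ‖f‖) * K := by gcongr; exact ces_mul_pow hα hm J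
        _ = 2 * J * (K ^ 2 * ‖f‖) * (1 / m) := by ring
        _ ≤ 2 * J * (K ^ 4 * ‖f‖) * (1 / m) := by
            have : K ^ 2 ≤ K ^ 4 := pow_le_pow_right₀ hK (by norm_num)
            gcongr
    have h2 : ‖ces α m * TT α β f J * (β * ces β n - ces β n)‖ ≤
        2 * J * (K ^ 4 * ‖f‖) * (1 / n) := by
      calc _ ≤ ‖ces α m * TT α β f J‖ * ‖β * ces β n - ces β n‖ := norm_mul_le _ _
        _ ≤ (‖ces α m‖ * ‖TT α β f J‖) * (2 * K / n) := by
            gcongr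
            · exact norm_mul_le _ _
            · exact ces_mul' hβ hn
        _ ≤ (K * (J * (K ^ 2 * ‖f‖))) * (2 * K / n) := by
            gcongr
            · exact ces_norm hα hm
            · exact TT_norm hK0 hα hβ f J
        _ = 2 * J * (K ^ 4 * ‖f‖) * (1 / n) := by ring
    refine (norm_add₃_le).trans ?_
    refine (add_le_add (add_le_add h1 h2) ih).trans ?_
    push_cast
    have h3 : 0 ≤ (K ^ 4 * ‖f‖) * (1 / m + 1 / n : ℝ) := by positivity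
    nlinarith

theorem ces_small {α β f : A} {K : ℝ} (hK1 : 1 ≤ K) (hα : ∀ s : ℕ, ‖α ^ s‖ ≤ K)
    (hβ : ∀ s : ℕ, ‖β ^ s‖ ≤ K) {C : ℝ} (hC : 0 ≤ C)
    (hK : ∀ J : ℕ, ‖TT α β f J‖ ≤ C * Real.sqrt J) {η : ℝ} (hη : 0 < η) :
    ∃ N : ℕ, 1 ≤ N ∧ ∀ m n : ℕ, N ≤ m → N ≤ n → ‖ces α m * f * ces β n‖ ≤ η := by
  have hK0 : 0 ≤ K := by linarith
  set C' : ℝ := K ^ 2 * C with hC'
  have hC'0 : 0 ≤ C' := by positivity
  set B : ℝ := K ^ 4 * ‖f‖ with hB
  have hB0 : 0 ≤ B := by positivity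
  obtain ⟨J, hJ⟩ := exists_nat_ge ((2 * C' / η) ^ 2 + 1)
  have hJ1 : (1 : ℝ) ≤ J := by
    have := sq_nonneg (2 * C' / η); linarith
  have hJ0 : (0 : ℝ) < J := by linarith
  have hs : 2 * C' / η ≤ Real.sqrt J := by
    apply Real.le_sqrt_of_sq_le
    linarith
  have hs' : C' * Real.sqrt J ≤ η / 2 * J := by
    have h1 : C' ≤ η / 2 * Real.sqrt J := by
      rw [div_le_iff₀ hη] at hs
      linarith
    calc C' * Real.sqrt J ≤ (η / 2 * Real.sqrt J) * Real.sqrt J := by gcongr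
      _ = η / 2 * (Real.sqrt J * Real.sqrt J) := by ring
      _ = η / 2 * J := by rw [Real.mul_self_sqrt hJ0.le]
  obtain ⟨N, hN⟩ := exists_nat_ge (4 * J * B / η + 1)
  have hq : 0 ≤ 4 * J * B / η := by positivity
  have hN1 : (1 : ℝ) ≤ N := by linarith
  have hN0 : (0 : ℝ) < N := by linarith
  have hN1' : 1 ≤ N := by exact_mod_cast hN1
  refine ⟨N, hN1', ?_⟩
  intro m n hm hn
  have hm1 : 1 ≤ m := hN1'.trans hm
  have hn1 : 1 ≤ n := hN1'.trans hn
  have hmR : (N : ℝ) ≤ m := by exact_mod_cast hm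
  have hnR : (N : ℝ) ≤ n := by exact_mod_cast hn
  have h1 := TT_ces hK1 hα hβ f hm1 hn1 J
  have h2 : ‖ces α m * TT α β f J * ces β n‖ ≤ C' * Real.sqrt J := by
    calc _ ≤ ‖ces α m * TT α β f J‖ * ‖ces β n‖ := norm_mul_le _ _
      _ ≤ (‖ces α m‖ * ‖TT α β f J‖) * K := by
          gcongr
          · exact norm_mul_le _ _
          · exact ces_norm hβ hn1
      _ ≤ (K * (C * Real.sqrt J)) * K := by
          gcongr
          · exact ces_norm hα hm1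
          · exact hK J
      _ = _ := by rw [hC']; ring
  have h3 : ‖(J : ℂ) • (ces α m * f * ces β n)‖ ≤
      C' * Real.sqrt J + (J : ℝ) ^ 2 * B * (1 / m + 1 / n) := by
    have e : (J : ℂ) • (ces α m * f * ces β n) =
        ces α m * TT α β f J * ces β n -
          (ces α m * TT α β f J * ces β n - (J : ℂ) • (ces α m * f * ces β n)) := by abel
    rw [e]
    exact (norm_sub_le _ _).trans (add_le_add h2 h1)
  rw [norm_smul, Complex.norm_natCast] at h3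
  have h4 : (1 / m + 1 / n : ℝ) ≤ 2 / N := by
    have a1 : (1 / m : ℝ) ≤ 1 / N := one_div_le_one_div_of_le hN0 hmR
    have a2 : (1 / n : ℝ) ≤ 1 / N := one_div_le_one_div_of_le hN0 hnR
    calc (1 / m + 1 / n : ℝ) ≤ 1 / N + 1 / N := add_le_add a1 a2
      _ = 2 / N := by ring
  have h5 : (J : ℝ) ^ 2 * B * (1 / m + 1 / n) ≤ η / 2 * J := by
    calc (J : ℝ) ^ 2 * B * (1 / m + 1 / n) ≤ (J : ℝ) ^ 2 * B * (2 / N) := by gcongr
      _ = J * ((2 * J * B) / N) := by ring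
      _ ≤ J * (η / 2) := by
          apply mul_le_mul_of_nonneg_left _ hJ0.le
          rw [div_le_iff₀ hN0]
          have : 4 * J * B / η ≤ N := by linarith
          rw [div_le_iff₀ hη] at this
          linarith
      _ = η / 2 * J := by ring
  have h6 : (J : ℝ) * ‖ces α m * f * ces β n‖ ≤ J * η := by
    calc _ ≤ _ := h3
      _ ≤ η / 2 * J + η / 2 * J := add_le_add hs' h5
      _ = J * η := by ring
  exact le_of_mul_le_mul_left h6 hJ0

end first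

section second

open Pool.Agent.V1169.EL (geo geoP geom_sum_bound geo_coeff hasSum_geo_coeff)

variable {A : Type*} [NormedRing A] [NormedAlgebra ℂ A] [CompleteSpace A]

theorem geo_term_norm {x : ℕ → A} {c : ℝ} (hx : ∀ k, ‖x k‖ ≤ c) (k : ℕ) :
    ‖((1 / 2 : ℂ) ^ (k + 1)) • x k‖ ≤ (1 / 2 : ℝ) ^ (k + 1) * c := by
  rw [norm_smul, geo_coeff]
  gcongr
  exact hx k

theorem geo_hasSum {x : ℕ → A} {c : ℝ} (hx : ∀ k, ‖x k‖ ≤ c) :
    HasSum (fun k => ((1 / 2 : ℂ) ^ (k + 1)) • x k) (geo x) := by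
  apply Summable.hasSum
  apply Summable.of_norm_bounded (hasSum_geo_coeff.mul_right c).summable
  exact geo_term_norm hx

theorem geo_norm {x : ℕ → A} {c : ℝ} (hx : ∀ k, ‖x k‖ ≤ c) : ‖geo x‖ ≤ c := by
  have h := tsum_of_norm_bounded (hasSum_geo_coeff.mul_right c) (geo_term_norm hx)
  simpa [geo] using h

theorem geo_mul {x : ℕ → A} {c : ℝ} (hx : ∀ k, ‖x k‖ ≤ c) (b : A) :
    geo x * b = geo (fun k => x k * b) := by
  have h := (geo_hasSum hx).mul_right b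
  rw [← h.tsum_eq]
  unfold geo
  congr 1
  ext k
  rw [smul_mul_assoc]

theorem mul_geo {x : ℕ → A} {c : ℝ} (hx : ∀ k, ‖x k‖ ≤ c) (b : A) :
    b * geo x = geo (fun k => b * x k) := by
  have h := (geo_hasSum hx).mul_left b
  rw [← h.tsum_eq]
  unfold geo
  congr 1
  ext k
  rw [mul_smul_comm]

theorem geo_split {x : ℕ → A} {c : ℝ} (hx : ∀ k, ‖x k‖ ≤ c) (j : ℕ) :
    geo x - geoP x j = ((1 / 2 : ℂ) ^ j) • geo (fun k => x (k + j)) := by
  have h1 := (geo_hasSum hx).summable.sum_add_tsum_nat_add j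
  have h2 : geo x = geoP x j + ∑' k, ((1 / 2 : ℂ) ^ (k + j + 1)) • x (k + j) := by
    rw [geo, geoP, ← h1]
  rw [h2, add_sub_cancel_left, geo, ← tsum_const_smul'']
  apply tsum_congr
  intro k
  rw [smul_smul]
  congr 1
  ring

theorem geo_commute_geoP {x : ℕ → A} {c : ℝ} (hx : ∀ k, ‖x k‖ ≤ c)
    (hc : ∀ k l, Commute (x k) (x l)) (j : ℕ) : Commute (geo x) (geoP x j) := by
  unfold geoP
  apply Commute.sum_right
  intro l _
  apply Commute.smul_right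
  show geo x * x l = x l * geo x
  rw [geo_mul hx, mul_geo hx]
  congr 1
  ext k
  exact hc k l

/-- right boundedness along the powers of `a`. -/
def RB (a : A) (c : ℝ) (y : A) : Prop := ∀ s : ℕ, ‖y * a ^ s‖ ≤ c

theorem RB.norm_le {a y : A} {c : ℝ} (h : RB a c y) : ‖y‖ ≤ c := by
  have := h 0
  simpa using this

theorem RB.ces {a y : A} {c : ℝ} (h : RB a c y) {m : ℕ} (hm : 1 ≤ m) : RB a c (y * ces a m) := by
  intro s
  have e : y * Pool.Agent.V1169.EL.ces a m * a ^ s =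
      (m : ℂ)⁻¹ • ∑ i ∈ Finset.range m, y * a ^ (i + s) := by
    unfold Pool.Agent.V1169.EL.ces
    rw [mul_smul_comm, smul_mul_assoc, Finset.mul_sum, Finset.sum_mul]
    congr 1
    apply Finset.sum_congr rfl
    intro i _
    rw [mul_assoc, ← pow_add]
  rw [e, norm_smul, norm_inv, Complex.norm_natCast]
  have hm' : (0 : ℝ) < m := by exact_mod_cast hm
  rw [inv_mul_le_iff₀ hm']
  calc ‖∑ i ∈ Finset.range m, y * a ^ (i + s)‖ ≤ ∑ i ∈ Finset.range m, ‖y * a ^ (i + s)‖ :=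
        norm_sum_le _ _
    _ ≤ ∑ i ∈ Finset.range m, c := Finset.sum_le_sum fun i _ => h _
    _ = m * c := by simp

theorem RB.geo {a y : A} {c : ℝ} {x : ℕ → A} {d : ℝ} (hx : ∀ k, ‖x k‖ ≤ d)
    (h : ∀ k, RB a c (y * x k)) : RB a c (y * geo x) := by
  intro s
  have e : y * Pool.Agent.V1169.EL.geo x * a ^ s =
      Pool.Agent.V1169.EL.geo (fun k => y * x k * a ^ s) := by
    rw [mul_geo hx, geo_mul (c := ‖y‖ * d)]
    intro k
    exact (norm_mul_le _ _).trans (by gcongr; exact hx k)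
  rw [e]
  exact geo_norm (fun k => h k s)

theorem RB.geoP {a y : A} {c : ℝ} {x : ℕ → A}
    (h : ∀ k, RB a c (y * x k)) (j : ℕ) : RB a ((1 - (1 / 2 : ℝ) ^ j) * c) (y * geoP x j) := by
  induction j with
  | zero => intro s; simp [Pool.Agent.V1169.EL.geoP]
  | succ j ih =>
    intro s
    have e : y * Pool.Agent.V1169.EL.geoP x (j + 1) * a ^ s =
        y * Pool.Agent.V1169.EL.geoP x j * a ^ s
          + ((1 / 2 : ℂ) ^ (j + 1)) • (y * x j * a ^ s) := by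
      rw [Pool.Agent.V1169.EL.geoP, Finset.sum_range_succ, Pool.Agent.V1169.EL.geoP, mul_add,
        add_mul, mul_smul_comm, smul_mul_assoc]
    rw [e]
    refine (norm_add_le _ _).trans ?_
    have h1 := ih s
    have h2 : ‖((1 / 2 : ℂ) ^ (j + 1)) • (y * x j * a ^ s)‖ ≤ (1 / 2 : ℝ) ^ (j + 1) * c := by
      rw [norm_smul, geo_coeff]
      gcongr
      exact h j s
    refine (add_le_add h1 h2).trans ?_
    apply le_of_eq
    ring

theorem RB_pow {a : A} {K : ℝ} (hK : ∀ s : ℕ, ‖a ^ s‖ ≤ K) {M : ℕ → ℕ} (hM : ∀ k, 1 ≤ M k)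
    (j n i : ℕ) :
    RB a ((1 - (1 / 2 : ℝ) ^ j) ^ i * K)
      (geo (fun k => ces a (M k)) ^ n * geoP (fun k => ces a (M k)) j ^ i) := by
  have hx : ∀ k, ‖ces a (M k)‖ ≤ K := fun k => ces_norm hK (hM k)
  induction i with
  | zero =>
    induction n with
    | zero => intro s; simpa using hK s
    | succ n ih =>
      have e : (Pool.Agent.V1169.EL.geo fun k => Pool.Agent.V1169.EL.ces a (M k)) ^ (n + 1) *
          (Pool.Agent.V1169.EL.geoP (fun k => Pool.Agent.V1169.EL.ces a (M k)) j) ^ 0 =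
          ((Pool.Agent.V1169.EL.geo fun k => Pool.Agent.V1169.EL.ces a (M k)) ^ n *
          (Pool.Agent.V1169.EL.geoP (fun k => Pool.Agent.V1169.EL.ces a (M k)) j) ^ 0) *
          (Pool.Agent.V1169.EL.geo fun k => Pool.Agent.V1169.EL.ces a (M k)) := by
        rw [pow_zero, mul_one, mul_one, pow_succ]
      rw [e]
      exact RB.geo hx (fun k => RB.ces ih (hM k))
  | succ i ih =>
    have e : (Pool.Agent.V1169.EL.geo fun k => Pool.Agent.V1169.EL.ces a (M k)) ^ n *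
          (Pool.Agent.V1169.EL.geoP (fun k => Pool.Agent.V1169.EL.ces a (M k)) j) ^ (i + 1) =
          ((Pool.Agent.V1169.EL.geo fun k => Pool.Agent.V1169.EL.ces a (M k)) ^ n *
          (Pool.Agent.V1169.EL.geoP (fun k => Pool.Agent.V1169.EL.ces a (M k)) j) ^ i) *
          (Pool.Agent.V1169.EL.geoP (fun k => Pool.Agent.V1169.EL.ces a (M k)) j) := by
      rw [pow_succ, mul_assoc]
    have e2 : (1 - (1 / 2 : ℝ) ^ j) ^ (i + 1) * K =
        (1 - (1 / 2 : ℝ) ^ j) * ((1 - (1 / 2 : ℝ) ^ j) ^ i * K) := by ring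
    rw [e, e2]
    exact RB.geoP (fun k => RB.ces ih (hM k)) j

theorem sum_pow_bound {a : A} {K : ℝ} (hK0 : 0 ≤ K) (hK : ∀ s : ℕ, ‖a ^ s‖ ≤ K) {M : ℕ → ℕ}
    (hM : ∀ k, 1 ≤ M k) (j n : ℕ) :
    ‖∑ i ∈ Finset.range n, geo (fun k => ces a (M k)) ^ i *
      geoP (fun k => ces a (M k)) j ^ (n - 1 - i)‖ ≤ ((1 / 2 : ℝ) ^ j)⁻¹ * K := by
  have hδ : (0 : ℝ) < (1 / 2 : ℝ) ^ j := by positivity
  have hδ1 : (1 / 2 : ℝ) ^ j ≤ 1 := pow_le_one₀ (by norm_num) (by norm_num)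
  refine (norm_sum_le _ _).trans ?_
  calc ∑ i ∈ Finset.range n, ‖geo (fun k => ces a (M k)) ^ i *
      geoP (fun k => ces a (M k)) j ^ (n - 1 - i)‖
      ≤ ∑ i ∈ Finset.range n, (1 - (1 / 2 : ℝ) ^ j) ^ (n - 1 - i) * K :=
        Finset.sum_le_sum fun i _ => (RB_pow hK hM j i (n - 1 - i)).norm_le
    _ = (∑ i ∈ Finset.range n, (1 - (1 / 2 : ℝ) ^ j) ^ (n - 1 - i)) * K := by
        rw [Finset.sum_mul]
    _ ≤ ((1 / 2 : ℝ) ^ j)⁻¹ * K := by
        gcongr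
        exact geom_sum_bound (by linarith) hδ rfl n

theorem geo_power_bound {α β f : A} {K : ℝ} (hK1 : 1 ≤ K) (hα : ∀ s : ℕ, ‖α ^ s‖ ≤ K)
    (hβ : ∀ s : ℕ, ‖β ^ s‖ ≤ K) {M : ℕ → ℕ} (hM : ∀ k, 1 ≤ M k) {η : ℕ → ℝ}
    (hη : ∀ j k l, j ≤ k → j ≤ l → ‖ces α (M k) * f * ces β (M l)‖ ≤ η j) (j n : ℕ) :
    ‖geo (fun k => ces α (M k)) ^ n * f * geo (fun k => ces β (M k)) ^ n‖ ≤
      (3 * K ^ 2 * ‖f‖) * (1 - (1 / 2 : ℝ) ^ j) ^ n + K ^ 2 * η j := by
  have hK0 : 0 ≤ K := by linarith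
  have hμ : ∀ k, ‖ces α (M k)‖ ≤ K := fun k => ces_norm hα (hM k)
  have hν : ∀ k, ‖ces β (M k)‖ ≤ K := fun k => ces_norm hβ (hM k)
  set μ : ℕ → A := fun k => ces α (M k) with hμdef
  set ν : ℕ → A := fun k => ces β (M k) with hνdef
  have hμc : ∀ k l, Commute (μ k) (μ l) := fun k l => ces_commute α _ _
  have hνc : ∀ k l, Commute (ν k) (ν l) := fun k l => ces_commute β _ _
  have rbU : ∀ a b, ‖geo μ ^ a * geoP μ j ^ b‖ ≤ (1 - (1 / 2 : ℝ) ^ j) ^ b * K :=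
    fun a b => (RB_pow hα hM j a b).norm_le
  have rbV : ∀ a b, ‖geo ν ^ a * geoP ν j ^ b‖ ≤ (1 - (1 / 2 : ℝ) ^ j) ^ b * K :=
    fun a b => (RB_pow hβ hM j a b).norm_le
  have hWn := sum_pow_bound hK0 hα hM j n
  have hZn := sum_pow_bound hK0 hβ hM j n
  have hcU : Commute (geo μ) (geoP μ j) := geo_commute_geoP hμ hμc j
  have hcV : Commute (geo ν) (geoP ν j) := geo_commute_geoP hν hνc j
  have e1 := hcU.geom_sum₂_mul n
  have e2 := hcV.mul_geom_sum₂ n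
  have e3 := geo_split hμ j
  have e4 := geo_split hν j
  set U := geo μ with hU
  set V := geo ν with hV
  set U' := geoP μ j with hU'
  set V' := geoP ν j with hV'
  set δ : ℝ := (1 / 2 : ℝ) ^ j with hδdef
  have hδ : 0 < δ := by positivity
  have hδ1 : δ ≤ 1 := pow_le_one₀ (by norm_num) (by norm_num)
  set r : ℝ := 1 - δ with hr
  have hr0 : 0 ≤ r := by rw [hr]; linarith
  have hr1 : r ≤ 1 := by rw [hr]; linarith
  set W := ∑ i ∈ Finset.range n, U ^ i * U' ^ (n - 1 - i) with hW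
  set Z := ∑ i ∈ Finset.range n, V ^ i * V' ^ (n - 1 - i) with hZ
  set D := geo (fun k => μ (k + j)) with hD
  set D' := geo (fun k => ν (k + j)) with hD'
  have hc : ‖((1 / 2 : ℂ) ^ j)‖ = δ := by rw [norm_pow, hδdef]; norm_num
  have hDf : ‖D * f * D'‖ ≤ η j := by
    rw [hD, hD', geo_mul (c := K) (fun k => hμ _), geo_mul (c := K * ‖f‖)]
    · apply geo_norm
      intro k
      rw [mul_geo (c := K) (fun k => hν _)]
      apply geo_norm
      intro l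
      exact hη j _ _ (Nat.le_add_left _ _) (Nat.le_add_left _ _)
    · intro k
      exact (norm_mul_le _ _).trans (by gcongr; exact hμ _)
  have hmid : ‖(U - U') * f * (V - V')‖ ≤ δ * (δ * η j) := by
    rw [e3, e4, smul_mul_assoc, smul_mul_assoc, mul_smul_comm, norm_smul, norm_smul, hc]
    gcongr
  have e5 : U ^ n * f * V ^ n = U' ^ n * f * V ^ n + (U ^ n - U' ^ n) * f * V' ^ n
      + (U ^ n - U' ^ n) * f * (V ^ n - V' ^ n) := by noncomm_ring
  have nU : ‖U ^ n‖ ≤ K := by simpa using rbU n 0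
  have nV : ‖V ^ n‖ ≤ K := by simpa using rbV n 0
  have nU' : ‖U' ^ n‖ ≤ r ^ n * K := by simpa using rbU 0 n
  have nV' : ‖V' ^ n‖ ≤ r ^ n * K := by simpa using rbV 0 n
  have b1 : ‖U' ^ n * f * V ^ n‖ ≤ (r ^ n * K) * ‖f‖ * K := by
    calc _ ≤ ‖U' ^ n * f‖ * ‖V ^ n‖ := norm_mul_le _ _
      _ ≤ (‖U' ^ n‖ * ‖f‖) * K := by
          gcongr
          exact norm_mul_le _ _
      _ ≤ _ := by gcongr
  have hdiff : ‖U ^ n - U' ^ n‖ ≤ 2 * K := by
    calc _ ≤ ‖U ^ n‖ + ‖U' ^ n‖ := norm_sub_le _ _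
      _ ≤ K + 1 * K := by
          refine add_le_add nU (nU'.trans ?_)
          gcongr
          exact pow_le_one₀ hr0 hr1
      _ = 2 * K := by ring
  have b2 : ‖(U ^ n - U' ^ n) * f * V' ^ n‖ ≤ (2 * K) * ‖f‖ * (r ^ n * K) := by
    calc _ ≤ ‖(U ^ n - U' ^ n) * f‖ * ‖V' ^ n‖ := norm_mul_le _ _
      _ ≤ (‖U ^ n - U' ^ n‖ * ‖f‖) * (r ^ n * K) := by
          gcongr
          exact norm_mul_le _ _
      _ ≤ _ := by gcongr
  have b3 : ‖(U ^ n - U' ^ n) * f * (V ^ n - V' ^ n)‖ ≤ K ^ 2 * η j := by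
    rw [← e1, ← e2]
    have e6 : W * (U - U') * f * ((V - V') * Z) = W * ((U - U') * f * (V - V')) * Z := by
      noncomm_ring
    rw [e6]
    have hηj : 0 ≤ η j := (norm_nonneg _).trans (hη j j j le_rfl le_rfl)
    calc _ ≤ ‖W * ((U - U') * f * (V - V'))‖ * ‖Z‖ := norm_mul_le _ _
      _ ≤ (‖W‖ * ‖(U - U') * f * (V - V')‖) * (δ⁻¹ * K) := by
          gcongr
          exact norm_mul_le _ _
      _ ≤ ((δ⁻¹ * K) * (δ * (δ * η j))) * (δ⁻¹ * K) := by gcongr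
      _ = K ^ 2 * η j := by field_simp
  rw [e5]
  refine norm_add₃_le.trans ?_
  refine (add_le_add (add_le_add b1 b2) b3).trans ?_
  apply le_of_eq
  ring

theorem summable_aux {a : ℕ → A} {P Q : ℝ} (hP : 0 ≤ P) (hQ : 0 ≤ Q)
    (h : ∀ j n : ℕ, ‖a n‖ ≤ P * (1 - (1 / 2 : ℝ) ^ j) ^ n + Q * (1 / 16 : ℝ) ^ (j + 1)) :
    Summable a := by
  rw [← summable_nat_add_iff 1]
  have hs : Summable fun n : ℕ => (96 * P + Q) * (1 / ((n : ℝ) + 1) ^ 2) := by
    apply Summable.mul_left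
    have := (summable_nat_add_iff 1).2 (Real.summable_one_div_nat_pow (p := 2).2 (by norm_num))
    simpa using this
  apply Summable.of_norm_bounded hs
  intro n
  set j := Nat.log 4 (n + 2) with hj
  have h4 : 4 ^ j ≤ n + 2 := Nat.pow_log_le_self 4 (by omega)
  have h4' : n + 2 < 4 ^ (j + 1) := Nat.lt_pow_succ_log_self (by norm_num) _
  have hb := h j (n + 1)
  refine hb.trans ?_
  have hn : (0 : ℝ) < (n : ℝ) + 1 := by positivity
  have h2 : (1 / 16 : ℝ) ^ (j + 1) ≤ 1 / ((n : ℝ) + 1) ^ 2 := by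
    have h5 : ((n : ℝ) + 1) ≤ 4 ^ (j + 1) := by
      have : ((n + 2 : ℕ) : ℝ) < ((4 ^ (j + 1) : ℕ) : ℝ) := by exact_mod_cast h4'
      push_cast at this
      linarith
    rw [div_pow, one_pow]
    apply one_div_le_one_div_of_le (by positivity)
    calc ((n : ℝ) + 1) ^ 2 ≤ (4 ^ (j + 1)) ^ 2 := by gcongr
      _ = 16 ^ (j + 1) := by rw [← pow_mul, mul_comm, pow_mul]; norm_num
  set x : ℝ := (1 / 2 : ℝ) ^ j with hx
  have hx0 : 0 < x := by positivity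
  have hx1 : x ≤ 1 := pow_le_one₀ (by norm_num) (by norm_num)
  have hx2 : 1 ≤ x ^ 2 * ((n : ℝ) + 2) := by
    have h5 : (4 : ℝ) ^ j ≤ (n : ℝ) + 2 := by exact_mod_cast h4
    have h6 : x ^ 2 * 4 ^ j = 1 := by
      rw [hx, ← pow_mul, mul_comm j 2, pow_mul, ← mul_pow]; norm_num
    calc (1 : ℝ) = x ^ 2 * 4 ^ j := h6.symm
      _ ≤ _ := by gcongr
  have h1 : (1 - x) ^ (n + 1) ≤ 96 * (1 / ((n : ℝ) + 1) ^ 2) := by
    have hy0 : 0 ≤ x * ((n : ℝ) + 1) := by positivity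
    have e1 : (1 - x) ^ (n + 1) ≤ Real.exp (-(x * ((n : ℝ) + 1))) := by
      have : 1 - x ≤ Real.exp (-x) := by
        have := Real.add_one_le_exp (-x); linarith
      calc (1 - x) ^ (n + 1) ≤ (Real.exp (-x)) ^ (n + 1) :=
            pow_le_pow_left₀ (by linarith) this _
        _ = Real.exp (-(x * ((n : ℝ) + 1))) := by
            rw [← Real.exp_nat_mul]; congr 1; push_cast; ring
    have e2 : (x * ((n : ℝ) + 1)) ^ 4 / 24 ≤ Real.exp (x * ((n : ℝ) + 1)) := by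
      have := Real.pow_div_factorial_le_exp (x * ((n : ℝ) + 1)) hy0 4
      simpa [Nat.factorial] using this
    rw [Real.exp_neg] at e1
    refine e1.trans ?_
    have e3 : ((n : ℝ) + 1) ^ 2 / 96 ≤ (x * ((n : ℝ) + 1)) ^ 4 / 24 := by
      have e4 : ((n : ℝ) + 1) ^ 2 ≤ 4 * (x * ((n : ℝ) + 1)) ^ 4 := by
        have h7 : 1 ≤ 2 * (x ^ 2 * ((n : ℝ) + 1)) := by
          have : x ^ 2 * ((n : ℝ) + 2) ≤ 2 * (x ^ 2 * ((n : ℝ) + 1)) := by
            have : 0 ≤ x ^ 2 * (n : ℝ) := by positivity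
            nlinarith
          linarith
        have h8 : (1 : ℝ) ≤ (2 * (x ^ 2 * ((n : ℝ) + 1))) ^ 2 := one_le_pow₀ h7
        calc ((n : ℝ) + 1) ^ 2 = ((n : ℝ) + 1) ^ 2 * 1 := by ring
          _ ≤ ((n : ℝ) + 1) ^ 2 * (2 * (x ^ 2 * ((n : ℝ) + 1))) ^ 2 := by gcongr
          _ = 4 * (x * ((n : ℝ) + 1)) ^ 4 := by ring
      linarith
    have e5 := e3.trans e2
    have e6 : 0 < ((n : ℝ) + 1) ^ 2 / 96 := by positivity
    calc (Real.exp (x * ((n : ℝ) + 1)))⁻¹ ≤ (((n : ℝ) + 1) ^ 2 / 96)⁻¹ := inv_anti₀ e6 e5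
      _ = 96 * (1 / ((n : ℝ) + 1) ^ 2) := by field_simp
  calc P * (1 - x) ^ (n + 1) + Q * (1 / 16 : ℝ) ^ (j + 1)
      ≤ P * (96 * (1 / ((n : ℝ) + 1) ^ 2)) + Q * (1 / ((n : ℝ) + 1) ^ 2) := by gcongr
    _ = (96 * P + Q) * (1 / ((n : ℝ) + 1) ^ 2) := by ring

theorem mem_of_hasSum {K : Submodule ℂ A} (hK : IsClosed (K : Set A)) {x : ℕ → A} {s : A}
    (hs : HasSum x s) (hx : ∀ n, x n ∈ K) : s ∈ K := by
  apply hK.mem_of_tendsto hs
  filter_upwards with t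
  exact Submodule.sum_mem K fun i _ => hx i

theorem one_sub_geo_mem {K : Submodule ℂ A} (hK : IsClosed (K : Set A)) {x : ℕ → A} {c : ℝ}
    (hx : ∀ k, ‖x k‖ ≤ c) (h : ∀ k, 1 - x k ∈ K) : 1 - geo x ∈ K := by
  have h1 : HasSum (fun k : ℕ => ((1 / 2 : ℂ) ^ (k + 1)) • (1 : A)) ((1 : ℂ) • (1 : A)) := by
    apply HasSum.smul_const
    have h3 := (hasSum_geometric_of_norm_lt_one (ξ := (1 / 2 : ℂ)) (by norm_num)).mul_left (1 / 2 : ℂ)
    have e : (1 / 2 : ℂ) * (1 - 1 / 2)⁻¹ = 1 := by norm_num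
    rw [e] at h3
    have e2 : (fun k : ℕ => (1 / 2 : ℂ) ^ (k + 1)) = fun k : ℕ => (1 / 2 : ℂ) * (1 / 2) ^ k := by
      ext k; rw [pow_succ']
    rw [e2]; exact h3
  rw [one_smul] at h1
  refine mem_of_hasSum hK (h1.sub (geo_hasSum hx)) ?_
  intro n
  rw [← smul_sub]
  exact K.smul_mem _ (h n)

theorem one_sub_ces {a : A} {m : ℕ} (hm : 1 ≤ m) :
    1 - ces a m = (m : ℂ)⁻¹ • ∑ i ∈ Finset.range m, (1 - a ^ i) := by
  unfold ces
  rw [Finset.sum_sub_distrib, smul_sub]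
  congr 1
  simp only [Finset.sum_const, Finset.card_range]
  have : (m : ℂ) ≠ 0 := by
    have : m ≠ 0 := by omega
    exact_mod_cast this
  rw [← Nat.cast_smul_eq_nsmul ℂ, smul_smul, inv_mul_cancel₀ this, one_smul]

theorem factor {α β f : A} {K : ℝ} (hK1 : 1 ≤ K) (hα : ∀ s : ℕ, ‖α ^ s‖ ≤ K)
    (hβ : ∀ s : ℕ, ‖β ^ s‖ ≤ K) {C : ℝ} (hC : 0 ≤ C)
    (hT : ∀ J : ℕ, ‖TT α β f J‖ ≤ C * Real.sqrt J) :
    ∃ U V g : A,
      (∀ I : Submodule ℂ A, IsClosed (I : Set A) → (∀ a ∈ I, ∀ b, a * b ∈ I) →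
        1 - α ∈ I → 1 - U ∈ I) ∧
      (∀ I : Submodule ℂ A, IsClosed (I : Set A) → (∀ a ∈ I, ∀ b, b * a ∈ I) →
        1 - β ∈ I → 1 - V ∈ I) ∧
      (∀ I : Submodule ℂ A, IsClosed (I : Set A) → (∀ a ∈ I, ∀ b, a * b ∈ I ∧ b * a ∈ I) →
        f ∈ I → g ∈ I) ∧ f = (1 - U) * g + (U * g) * (1 - V) := by
  have hex : ∀ k : ℕ, ∃ N : ℕ, 1 ≤ N ∧ ∀ m n : ℕ, N ≤ m → N ≤ n →
      ‖ces α m * f * ces β n‖ ≤ (1 / 16 : ℝ) ^ (k + 1) := fun k =>
    ces_small hK1 hα hβ hC hT (by positivity)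
  choose N hN1 hN using hex
  set M : ℕ → ℕ := fun k => ∑ i ∈ Finset.range (k + 1), N i with hM
  have hMN : ∀ j k, j ≤ k → N j ≤ M k := by
    intro j k hjk
    exact Finset.single_le_sum (f := N) (fun _ _ => Nat.zero_le _)
      (Finset.mem_range.2 (Nat.lt_succ_of_le hjk))
  have hM1 : ∀ k, 1 ≤ M k := fun k => (hN1 k).trans (hMN k k le_rfl)
  have hμ : ∀ k, ‖ces α (M k)‖ ≤ K := fun k => ces_norm hα (hM1 k)
  have hν : ∀ k, ‖ces β (M k)‖ ≤ K := fun k => ces_norm hβ (hM1 k)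
  have hη : ∀ j k l, j ≤ k → j ≤ l → ‖ces α (M k) * f * ces β (M l)‖ ≤ (1 / 16 : ℝ) ^ (j + 1) :=
    fun j k l hk hl => hN j _ _ (hMN j k hk) (hMN j l hl)
  have hs : Summable fun n : ℕ => geo (fun k => ces α (M k)) ^ n * f *
      geo (fun k => ces β (M k)) ^ n := by
    refine summable_aux (P := 3 * K ^ 2 * ‖f‖) (Q := K ^ 2) (by positivity) (by positivity) ?_
    intro j n
    exact geo_power_bound (η := fun j => (1 / 16 : ℝ) ^ (j + 1)) hK1 hα hβ hM1 hη j n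
  set U := geo (fun k => ces α (M k)) with hU
  set V := geo (fun k => ces β (M k)) with hV
  obtain ⟨g, hg⟩ := hs
  refine ⟨U, V, g, ?_, ?_, ?_, ?_⟩
  · intro I hI hId h1
    refine one_sub_geo_mem hI hμ ?_
    intro k
    rw [one_sub_ces (hM1 k)]
    refine I.smul_mem _ (I.sum_mem fun i _ => ?_)
    rw [← mul_neg_geom_sum]
    exact hId _ h1 _
  · intro I hI hId h1
    refine one_sub_geo_mem hI hν ?_
    intro k
    rw [one_sub_ces (hM1 k)]
    refine I.smul_mem _ (I.sum_mem fun i _ => ?_)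
    rw [← geom_sum_mul_neg]
    exact hId _ h1 _
  · intro I hI hId hf
    refine mem_of_hasSum hI hg ?_
    intro n
    exact (hId _ (hId f hf (U ^ n)).2 (V ^ n)).1
  · have h1 : HasSum (fun n => U * (U ^ n * f * V ^ n) * V) (U * g * V) :=
      (hg.mul_left U).mul_right V
    have h2 : HasSum (fun n => U ^ (n + 1) * f * V ^ (n + 1)) (U * g * V) := by
      convert h1 using 1
      ext n
      rw [pow_succ', pow_succ]
      noncomm_ring
    have h3 := (hasSum_nat_add_iff' (f := fun n => U ^ n * f * V ^ n) 1).2 hg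
    have h4 := h2.unique h3
    simp at h4
    have h5 : f = g - U * g * V := by rw [h4]; abel
    calc f = g - U * g * V := h5
      _ = (1 - U) * g + (U * g) * (1 - V) := by noncomm_ring

end second

end Pool.Agent.V1169.EM
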