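import Pool.Agent.V1169.EL5
import Pool.Agent.V1169.EL7
import Pool.Agent.V1169.EM1

set_option autoImplicit false
set_option linter.unusedSectionVars false

/-!
# The square-root estimate with matrix twists
-/

namespace Pool.Agent.V1169.EM

open ComplexConjugate
open Pool.Agent.V1169.EL

theorem term_bound' (P T : ℂ) (p s F M : ℝ) (hP : ‖P‖ ≤ M * s)
    (hT : ‖T‖ ^ 2 ≤ p * F) (hs : 0 ≤ s) :
    ‖(p : ℂ) * P + T * (s : ℂ)‖ ^ 2 ≤
      (p * s) * (M ^ 2 * (p * s) + F * s + 2 * (P * conj T).re) := by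
  have e0 : ‖(p : ℂ) * P + T * (s : ℂ)‖ ^ 2 =
      ‖(p : ℂ) * P‖ ^ 2 + ‖T * (s : ℂ)‖ ^ 2 +
        2 * ((p : ℂ) * P * conj (T * (s : ℂ))).re := by
    rw [← Complex.normSq_eq_norm_sq, ← Complex.normSq_eq_norm_sq, ← Complex.normSq_eq_norm_sq,
      Complex.normSq_add]
  have e1 : ‖(p : ℂ) * P‖ ^ 2 = p ^ 2 * ‖P‖ ^ 2 := by
    rw [norm_mul, Complex.norm_real, mul_pow, Real.norm_eq_abs, sq_abs]
  have e2 : ‖T * (s : ℂ)‖ ^ 2 = ‖T‖ ^ 2 * s ^ 2 := by
    rw [norm_mul, Complex.norm_real, mul_pow, Real.norm_eq_abs, sq_abs]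
  have e3 : (p : ℂ) * P * conj (T * (s : ℂ)) = ((p * s : ℝ) : ℂ) * (P * conj T) := by
    simp only [map_mul, Complex.conj_ofReal]
    push_cast
    ring
  rw [e0, e1, e2, e3, Complex.re_ofReal_mul]
  have h3 : ‖T‖ ^ 2 * s ^ 2 ≤ (p * F) * s ^ 2 := mul_le_mul_of_nonneg_right hT (sq_nonneg s)
  have h4 : ‖P‖ ^ 2 ≤ (M * s) ^ 2 := pow_le_pow_left₀ (norm_nonneg _) hP 2
  have h5 : p ^ 2 * ‖P‖ ^ 2 ≤ p ^ 2 * (M * s) ^ 2 := mul_le_mul_of_nonneg_left h4 (sq_nonneg p)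
  nlinarith

theorem term_nonneg' (P T : ℂ) (p s F M : ℝ) (hP : ‖P‖ ≤ M * s)
    (hT : ‖T‖ ^ 2 ≤ p * F) (hp : 0 ≤ p) (hs : 0 ≤ s) (hF : 0 ≤ F) :
    0 ≤ M ^ 2 * (p * s) + F * s + 2 * (P * conj T).re := by
  rcases hs.eq_or_lt with hs0 | hs0
  · have : P = 0 := by
      rw [← norm_eq_zero]
      apply le_antisymm _ (norm_nonneg _)
      rw [← hs0, mul_zero] at hP
      exact hP
    rw [this, ← hs0]; simp
  rcases hp.eq_or_lt with hp0 | hp0
  · have : T = 0 := by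
      rw [← norm_eq_zero]
      rw [← hp0, zero_mul] at hT
      have := sq_nonneg ‖T‖
      have h3 : ‖T‖ ^ 2 = 0 := le_antisymm hT this
      exact pow_eq_zero_iff (two_ne_zero) |>.1 h3
    rw [this, ← hp0]; simp
    positivity
  have h3 := term_bound' P T p s F M hP hT hs0.le
  have h4 : 0 ≤ (p * s) * (M ^ 2 * (p * s) + F * s + 2 * (P * conj T).re) :=
    (sq_nonneg _).trans h3
  have h5 : 0 < p * s := mul_pos hp0 hs0
  by_contra h6
  push Not at h6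
  have := mul_neg_of_pos_of_neg h5 h6
  linarith

variable {G : Type*} [Group G]

theorem scalar_step {p σ F : G → ℝ} (hp0 : ∀ x, 0 ≤ p x) (hσ0 : ∀ x, 0 ≤ σ x)
    (hF0 : ∀ x, 0 ≤ F x) (hp : HasSum p 1) (hσ : HasSum σ 1) {φF : ℝ} (hF : HasSum F φF)
    {s : G → ℂ} (hs : ∀ x, ‖s x‖ ^ 2 ≤ p x * F x) {Φ : G → G → ℂ} {M : ℝ}
    (hΦ : ∀ x y, ‖Φ x y‖ ≤ M * σ y) (hΦ0 : ∀ x, HasSum (Φ x) 0) :
    ∃ F' : G → ℝ, (∀ x, 0 ≤ F' x) ∧ HasSum F' (M ^ 2 + φF) ∧
      ∀ g, ‖∑' x, ((p x : ℂ) * Φ x (x⁻¹ * g) + s x * (σ (x⁻¹ * g) : ℂ))‖ ^ 2 ≤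
        (∑' x, p x * σ (x⁻¹ * g)) * F' g := by
  obtain ⟨hss, -⟩ := cs_real (u := fun x => ‖s x‖) (fun x => norm_nonneg _) hp0 hF0
    hp.summable hF.summable hs
  have s1 : HasSum (fun q : G × G => p q.1 * σ q.2) 1 := by
    have := hp.mul hσ (hp.summable.mul_of_nonneg hσ.summable hp0 hσ0)
    simpa using this
  have s2 : HasSum (fun q : G × G => F q.1 * σ q.2) φF := by
    have := hF.mul hσ (hF.summable.mul_of_nonneg hσ.summable hF0 hσ0)
    simpa using this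
  have s3 : HasSum (fun q : G × G => Φ q.1 q.2 * conj (s q.1)) 0 := by
    have n1 : Summable fun q : G × G => ‖s q.1‖ * σ q.2 :=
      hss.mul_of_nonneg hσ.summable (fun _ => norm_nonneg _) hσ0
    have n2 : Summable fun q : G × G => Φ q.1 q.2 * conj (s q.1) := by
      apply Summable.of_norm
      refine Summable.of_nonneg_of_le (fun _ => norm_nonneg _) (fun q => ?_) (n1.mul_left M)
      rw [norm_mul, Complex.norm_conj]
      calc ‖Φ q.1 q.2‖ * ‖s q.1‖ ≤ (M * σ q.2) * ‖s q.1‖ :=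
            mul_le_mul_of_nonneg_right (hΦ _ _) (norm_nonneg _)
        _ = M * (‖s q.1‖ * σ q.2) := by ring
    have n3 := n2.hasSum
    have n4 : HasSum (fun x : G => (0 : ℂ)) (∑' q : G × G, Φ q.1 q.2 * conj (s q.1)) := by
      refine n3.prod_fiberwise (fun x => ?_)
      have := (hΦ0 x).mul_right (conj (s x))
      rwa [zero_mul] at this
    have n5 := n4.unique hasSum_zero
    rw [n5] at n3
    exact n3
  have s3' : HasSum (fun q : G × G => (Φ q.1 q.2 * conj (s q.1)).re) 0 := Complex.hasSum_re s3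
  set H : G × G → ℝ := fun q => M ^ 2 * (p q.1 * σ q.2) + F q.1 * σ q.2 +
    2 * (Φ q.1 q.2 * conj (s q.1)).re with hH
  have sH : HasSum H (M ^ 2 + φF) := by
    have h4 := ((s1.mul_left (M ^ 2)).add s2).add (s3'.mul_left 2)
    have h5 : M ^ 2 + φF = M ^ 2 * 1 + φF + 2 * 0 := by ring
    rw [h5]
    exact h4
  have hHnn : ∀ q, 0 ≤ H q := by
    intro q
    exact term_nonneg' (Φ q.1 q.2) (s q.1) (p q.1) (σ q.2) (F q.1) M
      (hΦ q.1 q.2) (hs q.1) (hp0 q.1) (hσ0 q.2) (hF0 q.1)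
  obtain ⟨c1, c2⟩ := hasSum_conv s1
  obtain ⟨d1, d2⟩ := hasSum_conv sH
  refine ⟨fun x => ∑' y, H (y, y⁻¹ * x), fun x => tsum_nonneg fun y => hHnn _, d2, ?_⟩
  intro g
  set u : G → ℝ := fun x => ‖(p x : ℂ) * Φ x (x⁻¹ * g) + s x * (σ (x⁻¹ * g) : ℂ)‖ with hu
  have hb : ∀ y, u y ^ 2 ≤ (p y * σ (y⁻¹ * g)) * H (y, y⁻¹ * g) := by
    intro y
    exact term_bound' (Φ y (y⁻¹ * g)) (s y) (p y) (σ (y⁻¹ * g)) (F y) M
      (hΦ y (y⁻¹ * g)) (hs y) (hσ0 _)
  obtain ⟨k1, k2⟩ := cs_real (u := u) (a := fun y => p y * σ (y⁻¹ * g))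
    (b := fun y => H (y, y⁻¹ * g)) (fun y => norm_nonneg _)
    (fun y => mul_nonneg (hp0 y) (hσ0 (y⁻¹ * g))) (fun y => hHnn (y, y⁻¹ * g)) (c1 g) (d1 g) hb
  refine le_trans ?_ k2
  gcongr
  exact norm_tsum_le_tsum_norm k1

/-- convolution powers of a probability density -/
noncomputable def pw (σ : G → ℝ) : ℕ → G → ℝ
  | 0 => fun x => by classical exact if x = 1 then 1 else 0
  | (J + 1) => fun g => ∑' x, pw σ J x * σ (x⁻¹ * g)

theorem pw_facts {σ : G → ℝ} (hσ0 : ∀ x, 0 ≤ σ x) (hσ : HasSum σ 1) (J : ℕ) :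
    (∀ x, 0 ≤ pw σ J x) ∧ HasSum (pw σ J) 1 := by
  classical
  induction J with
  | zero =>
    constructor
    · intro x; unfold pw; split_ifs <;> norm_num
    · convert hasSum_single (f := pw σ 0) 1 ?_ using 1
      · simp [pw]
      · intro x hx; simp [pw, hx]
  | succ J ih =>
    obtain ⟨h0, h1⟩ := ih
    constructor
    · intro x
      exact tsum_nonneg fun y => mul_nonneg (h0 _) (hσ0 _)
    · have s1 : HasSum (fun q : G × G => pw σ J q.1 * σ q.2) 1 := by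
        have := h1.mul hσ (h1.summable.mul_of_nonneg hσ.summable h0 hσ0)
        simpa using this
      exact (hasSum_conv s1).2

section rep

variable {ι : Type*} [Fintype ι] [DecidableEq ι]

/-- powers of a twisted density. -/
theorem rep_pow {σ : G → ℝ} (hσ0 : ∀ x, 0 ≤ σ x) (hσ : HasSum σ 1)
    {r : G → Matrix ι ι ℂ} (r1 : r 1 = 1) (rm : ∀ x y, r (x * y) = r x * r y)
    {γ : Matrix ι ι (L G)} (hγ : ∀ i j x, (γ i j) x = (σ x : ℂ) * r x i j) (J : ℕ) :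
    ∀ i j x, ((γ ^ J) i j) x = (pw σ J x : ℂ) * r x i j := by
  classical
  induction J with
  | zero =>
    intro i j x
    rw [pow_zero, Matrix.one_apply]
    by_cases hx : x = 1
    · subst hx
      rw [r1, Matrix.one_apply]
      by_cases hij : i = j
      · simp [hij, pw, one_apply]
      · simp [hij, EL.zero_apply]
    · by_cases hij : i = j
      · simp [hij, pw, one_apply, hx]
      · simp [hij, EL.zero_apply, pw, hx]
  | succ J ih =>
    intro i j x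
    rw [pow_succ, Matrix.mul_apply]
    have e1 : (∑ m, (γ ^ J) i m * γ m j) x = ∑ m, ((γ ^ J) i m * γ m j) x := by
      rw [lp.coeFn_sum, Finset.sum_apply]
    rw [e1]
    have e2 : ∀ m, ((γ ^ J) i m * γ m j) x =
        ∑' y, (γ ^ J) i m y * γ m j (y⁻¹ * x) := fun m => rfl
    simp_rw [e2]
    rw [← Summable.tsum_finsetSum (fun m _ => mul_term_summable _ _ x)]
    have e3 : ∀ y, ∑ m, (γ ^ J) i m y * γ m j (y⁻¹ * x) =
        ((pw σ J y * σ (y⁻¹ * x) : ℝ) : ℂ) * r x i j := by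
      intro y
      have h4 : r x = r y * r (y⁻¹ * x) := by rw [← rm]; congr 1; group
      rw [h4, Matrix.mul_apply, Finset.mul_sum]
      apply Finset.sum_congr rfl
      intro m _
      rw [ih, hγ]
      push_cast; ring
    simp_rw [e3]
    rw [tsum_mul_right, ← Complex.ofReal_tsum]
    rfl

end rep

end Pool.Agent.V1169.EM
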