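import Pool.Agent.V1169.EM2

set_option autoImplicit false
set_option linter.unusedSectionVars false
set_option linter.unusedVariables false

/-!
# The matrix-twisted estimate attached to a closed cofinite ideal
-/

namespace Pool.Agent.V1169.EM

open ComplexConjugate
open Pool.Agent.V1169.EL

attribute [local instance] Matrix.linftyOpNormedRing Matrix.linftyOpNormedAlgebra

section matnorm

variable {A : Type*} [NormedRing A] {ι : Type*} [Fintype ι] [DecidableEq ι]

theorem entry_le (M : Matrix ι ι A) (i j : ι) : ‖M i j‖ ≤ ‖M‖ := by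
  rw [Matrix.linfty_opNorm_def]
  have h1 : ‖M i j‖₊ ≤ ∑ k, ‖M i k‖₊ :=
    Finset.single_le_sum (f := fun k => ‖M i k‖₊) (fun _ _ => zero_le) (Finset.mem_univ j)
  have h2 : ∑ k, ‖M i k‖₊ ≤ (Finset.univ : Finset ι).sup fun i => ∑ k, ‖M i k‖₊ :=
    Finset.le_sup (f := fun i => ∑ k, ‖M i k‖₊) (Finset.mem_univ i)
  exact_mod_cast h1.trans h2

theorem norm_le_entries (M : Matrix ι ι A) {c : ℝ} (hc : 0 ≤ c) (h : ∀ i j, ‖M i j‖ ≤ c) :
    ‖M‖ ≤ Fintype.card ι * c := by
  rw [Matrix.linfty_opNorm_def]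
  lift c to NNReal using hc
  have : ((Finset.univ : Finset ι).sup fun i => ∑ k, ‖M i k‖₊) ≤ Fintype.card ι * c := by
    apply Finset.sup_le
    intro i _
    calc ∑ k, ‖M i k‖₊ ≤ ∑ k : ι, c := Finset.sum_le_sum fun k _ => by exact_mod_cast h i k
      _ = Fintype.card ι * c := by simp
  exact_mod_cast this

theorem cont_entry (i j : ι) : Continuous fun M : Matrix ι ι A => M i j := by
  exact LipschitzWith.continuous (K := 1) (LipschitzWith.of_dist_le_mul fun M N => by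
    rw [dist_eq_norm, dist_eq_norm, NNReal.coe_one, one_mul]
    exact entry_le (M - N) i j)

end matnorm

variable {G : Type*} [Group G] {ι : Type*} [Fintype ι] [DecidableEq ι]

/-- Coordinates modulo a closed cofinite ideal. -/
structure Coord (I : Submodule ℂ (L G)) (ι : Type*) [Fintype ι] [DecidableEq ι] where
  x : ι → L G
  c : ι → (L G →L[ℂ] ℂ)
  hcx : ∀ i j, c i (x j) = if i = j then 1 else 0
  hcI : ∀ i, ∀ a ∈ I, c i a = 0
  hdec : ∀ a, a - ∑ i, c i a • x i ∈ I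
  hideal : ∀ a ∈ I, ∀ b, a * b ∈ I ∧ b * a ∈ I

variable {I : Submodule ℂ (L G)} (X : Coord I ι)

namespace Coord

theorem c_mul_right (i : ι) (a b : L G) : X.c i (a * b) = ∑ m, X.c m a * X.c i (X.x m * b) := by
  have h1 := X.hcI i _ (X.hideal _ (X.hdec a) b).1
  rw [sub_mul, map_sub, sub_eq_zero] at h1
  rw [h1, Finset.sum_mul, map_sum]
  apply Finset.sum_congr rfl
  intro m _
  rw [smul_mul_assoc, map_smul, smul_eq_mul]

theorem c_mul_left (i : ι) (a b : L G) : X.c i (b * a) = ∑ m, X.c m a * X.c i (b * X.x m) := by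
  have h1 := X.hcI i _ (X.hideal _ (X.hdec a) b).2
  rw [mul_sub, map_sub, sub_eq_zero] at h1
  rw [h1, Finset.mul_sum, map_sum]
  apply Finset.sum_congr rfl
  intro m _
  rw [mul_smul_comm, map_smul, smul_eq_mul]

/-- twist on the left -/
noncomputable def rho (g : G) : Matrix ι ι ℂ := Matrix.of fun i j => X.c i (X.x j * dl g⁻¹)

/-- twist on the right -/
noncomputable def rho' (g : G) : Matrix ι ι ℂ := Matrix.of fun k l => X.c l (dl g⁻¹ * X.x k)

theorem rho_apply (g : G) (i j : ι) : X.rho g i j = X.c i (X.x j * dl g⁻¹) := rfl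
theorem rho'_apply (g : G) (k l : ι) : X.rho' g k l = X.c l (dl g⁻¹ * X.x k) := rfl

theorem rho_one : X.rho 1 = 1 := by
  ext i j
  rw [rho_apply, inv_one, dl_one, mul_one, X.hcx, Matrix.one_apply]

theorem rho'_one : X.rho' 1 = 1 := by
  ext i j
  rw [rho'_apply, inv_one, dl_one, one_mul, X.hcx, Matrix.one_apply]
  simp [eq_comm]

theorem rho_mul (g h : G) : X.rho (g * h) = X.rho g * X.rho h := by
  ext i j
  rw [rho_apply, Matrix.mul_apply, mul_inv_rev, ← dl_mul, ← mul_assoc, X.c_mul_right]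
  apply Finset.sum_congr rfl
  intro m _
  rw [rho_apply, rho_apply, mul_comm]

theorem rho'_mul (g h : G) : X.rho' (g * h) = X.rho' g * X.rho' h := by
  ext i j
  rw [rho'_apply, Matrix.mul_apply, mul_inv_rev, ← dl_mul, mul_assoc, X.c_mul_left]
  apply Finset.sum_congr rfl
  intro m _
  rw [rho'_apply, rho'_apply]

/-- uniform bound -/
noncomputable def B : ℝ := 1 + ∑ i, ∑ j, ‖X.c i‖ * ‖X.x j‖

theorem B_ge_one : 1 ≤ X.B := by
  unfold B
  have : 0 ≤ ∑ i, ∑ j, ‖X.c i‖ * ‖X.x j‖ :=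
    Finset.sum_nonneg fun i _ => Finset.sum_nonneg fun j _ =>
      mul_nonneg (norm_nonneg _) (norm_nonneg _)
  linarith

theorem B_bound (i j : ι) : ‖X.c i‖ * ‖X.x j‖ ≤ X.B := by
  have h1 : ‖X.c i‖ * ‖X.x j‖ ≤ ∑ j, ‖X.c i‖ * ‖X.x j‖ :=
    Finset.single_le_sum (f := fun j => ‖X.c i‖ * ‖X.x j‖)
      (fun _ _ => mul_nonneg (norm_nonneg _) (norm_nonneg _)) (Finset.mem_univ j)
  have h2 : ∑ j, ‖X.c i‖ * ‖X.x j‖ ≤ ∑ i, ∑ j, ‖X.c i‖ * ‖X.x j‖ :=
    Finset.single_le_sum (f := fun i => ∑ j, ‖X.c i‖ * ‖X.x j‖)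
      (fun _ _ => Finset.sum_nonneg fun _ _ => mul_nonneg (norm_nonneg _) (norm_nonneg _))
      (Finset.mem_univ i)
  unfold B
  linarith

theorem rho_bound (g : G) (i j : ι) : ‖X.rho g i j‖ ≤ X.B := by
  rw [rho_apply]
  refine le_trans ?_ (X.B_bound i j)
  refine (ContinuousLinearMap.le_opNorm _ _).trans ?_
  gcongr
  refine (norm_mul_le _ _).trans ?_
  rw [dl_norm, mul_one]

theorem rho'_bound (g : G) (i j : ι) : ‖X.rho' g i j‖ ≤ X.B := by
  rw [rho'_apply]
  refine le_trans ?_ (X.B_bound j i)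
  refine (ContinuousLinearMap.le_opNorm _ _).trans ?_
  gcongr
  refine (norm_mul_le _ _).trans ?_
  rw [dl_norm, one_mul]

/-- the twisted density -/
noncomputable def tw {σ : G → ℝ} (hσ : Summable σ) (r : G → Matrix ι ι ℂ) {b : ℝ}
    (hr : ∀ g i j, ‖r g i j‖ ≤ b) : Matrix ι ι (L G) :=
  Matrix.of fun i j => Pool.Agent.V1169.EL.mk (fun g => (σ g : ℂ) * r g i j) (by
    refine Summable.of_nonneg_of_le (fun _ => norm_nonneg _) (fun g => ?_) (hσ.norm.mul_right b)
    rw [norm_mul, Complex.norm_real]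
    exact mul_le_mul_of_nonneg_left (hr g i j) (norm_nonneg _))

theorem tw_pow_norm {σ : G → ℝ} (hσ0 : ∀ x, 0 ≤ σ x) (hσ : HasSum σ 1)
    {r : G → Matrix ι ι ℂ} (r1 : r 1 = 1) (rm : ∀ x y, r (x * y) = r x * r y) {b : ℝ}
    (hb : 0 ≤ b) (hr : ∀ g i j, ‖r g i j‖ ≤ b)
    {γ : Matrix ι ι (L G)} (hγ : ∀ i j x, (γ i j) x = (σ x : ℂ) * r x i j) (J : ℕ) :
    ‖γ ^ J‖ ≤ Fintype.card ι * b := by
  apply norm_le_entries _ hb
  intro i j
  rw [L_norm]
  obtain ⟨p0, p1⟩ := pw_facts hσ0 hσ J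
  have h1 : ∀ x, ‖((γ ^ J) i j) x‖ ≤ pw σ J x * b := by
    intro x
    rw [rep_pow hσ0 hσ r1 rm hγ J i j x, norm_mul, Complex.norm_real,
      Real.norm_of_nonneg (p0 x)]
    exact mul_le_mul_of_nonneg_left (hr x i j) (p0 x)
  have h2 := p1.mul_right b
  rw [one_mul] at h2
  rw [← h2.tsum_eq]
  exact Summable.tsum_le_tsum h1 (L_summable _) h2.summable

section estimate

variable {f : L G} (hf : f ∈ I) (hf0 : f ≠ 0) (j₀ k₀ : ι)
  (α β : Matrix ι ι (L G))
  (hα : ∀ i j x, (α i j) x = (sg f x : ℂ) * X.rho x i j)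
  (hβ : ∀ i j x, (β i j) x = (sg f x : ℂ) * X.rho' x i j)

/-- untwisted entries -/
noncomputable def S (T : Matrix ι ι (L G)) (i l : ι) (g : G) : ℂ :=
  ∑ m, (T i m) g * X.rho' g⁻¹ m l

include hf0 hα hβ in
theorem S_step (J : ℕ) (i l : ι) (g : G) :
    HasSum (fun x => (pw (sg f) J x : ℂ) *
      (X.rho x i j₀ * f (x⁻¹ * g) * X.c l (dl x * dl (x⁻¹ * g) * X.x k₀)) +
        X.S (TT α β (Matrix.single j₀ k₀ f) J) i l x * (sg f (x⁻¹ * g) : ℂ))
      (X.S (TT α β (Matrix.single j₀ k₀ f) (J + 1)) i l g) := by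
  have hσ := sg_hasSum hf0
  have hσ0 := sg_nonneg f
  set T := TT α β (Matrix.single j₀ k₀ f) J with hT
  have t1 : HasSum (fun x => (pw (sg f) J x : ℂ) *
      (X.rho x i j₀ * f (x⁻¹ * g) * X.c l (dl x * dl (x⁻¹ * g) * X.x k₀)))
      (((α ^ J) i j₀ * f) g * X.rho' g⁻¹ k₀ l) := by
    have h := (mul_term_summable ((α ^ J) i j₀) f g).hasSum.mul_right (X.rho' g⁻¹ k₀ l)
    have e : (fun x => (pw (sg f) J x : ℂ) *
        (X.rho x i j₀ * f (x⁻¹ * g) * X.c l (dl x * dl (x⁻¹ * g) * X.x k₀))) =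
        fun x => (α ^ J) i j₀ x * f (x⁻¹ * g) * X.rho' g⁻¹ k₀ l := by
      funext x
      rw [rep_pow hσ0 hσ X.rho_one X.rho_mul hα J, X.rho'_apply, dl_mul]
      have : x * (x⁻¹ * g) = g := by group
      rw [this, inv_inv]; ring
    rw [e, mul_apply]; exact h
  have t2 : ∀ m n, HasSum (fun x => T i n x * β n m (x⁻¹ * g) * X.rho' g⁻¹ m l)
      ((T i n * β n m) g * X.rho' g⁻¹ m l) := by
    intro m n
    have h := (mul_term_summable (T i n) (β n m) g).hasSum.mul_right (X.rho' g⁻¹ m l)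
    rw [mul_apply]; exact h
  have t3 : HasSum (fun x => ∑ m, ∑ n, T i n x * β n m (x⁻¹ * g) * X.rho' g⁻¹ m l)
      (∑ m, ∑ n, (T i n * β n m) g * X.rho' g⁻¹ m l) :=
    hasSum_sum fun m _ => hasSum_sum fun n _ => t2 m n
  have t4 : HasSum (fun x => X.S T i l x * (sg f (x⁻¹ * g) : ℂ))
      (∑ m, ∑ n, (T i n * β n m) g * X.rho' g⁻¹ m l) := by
    have e : (fun x => X.S T i l x * (sg f (x⁻¹ * g) : ℂ)) =
        fun x => ∑ m, ∑ n, T i n x * β n m (x⁻¹ * g) * X.rho' g⁻¹ m l := by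
      funext x
      unfold S
      rw [Finset.sum_mul, Finset.sum_comm]
      apply Finset.sum_congr rfl
      intro n _
      have h1 : X.rho' x⁻¹ = X.rho' (x⁻¹ * g) * X.rho' g⁻¹ := by
        rw [← X.rho'_mul]; congr 1; group
      rw [h1, Matrix.mul_apply, Finset.mul_sum, Finset.sum_mul]
      apply Finset.sum_congr rfl
      intro m _
      rw [hβ]; ring
    rw [e]; exact t3
  have e5 : X.S (TT α β (Matrix.single j₀ k₀ f) (J + 1)) i l g =
      ((α ^ J) i j₀ * f) g * X.rho' g⁻¹ k₀ l +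
        ∑ m, ∑ n, (T i n * β n m) g * X.rho' g⁻¹ m l := by
    unfold S
    rw [TT, ← hT]
    have e6 : ∀ m, ((α ^ J * Matrix.single j₀ k₀ f + T * β) i m) g =
        ((α ^ J * Matrix.single j₀ k₀ f) i m) g + ∑ n, (T i n * β n m) g := by
      intro m
      rw [Matrix.add_apply, EL.add_apply]
      congr 1
      rw [Matrix.mul_apply, lp.coeFn_sum, Finset.sum_apply]
    simp_rw [e6, add_mul]
    rw [Finset.sum_add_distrib]
    congr 1
    · rw [Finset.sum_eq_single k₀]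
      · rw [Matrix.mul_single_apply_same]
      · intro m _ hm
        rw [Matrix.mul_single_apply_of_ne _ _ _ _ _ hm, EL.zero_apply, zero_mul]
      · intro h; exact absurd (Finset.mem_univ _) h
    · apply Finset.sum_congr rfl
      intro m _
      rw [Finset.sum_mul]
  rw [e5]
  exact t1.add t4

include hf hf0 hα hβ in
theorem S_bound (J : ℕ) (i l : ι) :
    ∃ F : G → ℝ, (∀ x, 0 ≤ F x) ∧ HasSum F ((X.B * X.B * ‖f‖) ^ 2 * J) ∧
      ∀ g, ‖X.S (TT α β (Matrix.single j₀ k₀ f) J) i l g‖ ^ 2 ≤ pw (sg f) J g * F g := by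
  have hσ := sg_hasSum hf0
  have hσ0 := sg_nonneg f
  have hB1 := X.B_ge_one
  have hB0 : 0 ≤ X.B := by linarith
  induction J with
  | zero =>
    refine ⟨fun _ => 0, fun _ => le_rfl, ?_, ?_⟩
    · simp
    · intro g
      have : X.S (TT α β (Matrix.single j₀ k₀ f) 0) i l g = 0 := by
        unfold S
        simp [TT, EL.zero_apply]
      rw [this]; simp
  | succ J ih =>
    obtain ⟨F, hF0, hF, hs⟩ := ih
    obtain ⟨p0, p1⟩ := pw_facts hσ0 hσ J
    have hΦ : ∀ x y, ‖X.rho x i j₀ * f y * X.c l (dl x * dl y * X.x k₀)‖ ≤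
        (X.B * X.B * ‖f‖) * sg f y := by
      intro x y
      have h1 := X.rho_bound x i j₀
      have h2 : ‖X.c l (dl x * dl y * X.x k₀)‖ ≤ X.B := by
        have := X.rho'_bound (x * y)⁻¹ k₀ l
        rwa [X.rho'_apply, inv_inv, ← dl_mul] at this
      rw [norm_mul, norm_mul, sg_eq hf0 y]
      have h3 := mul_nonneg (norm_nonneg f) (hσ0 y)
      calc ‖X.rho x i j₀‖ * (‖f‖ * sg f y) * ‖X.c l (dl x * dl y * X.x k₀)‖
          ≤ X.B * (‖f‖ * sg f y) * X.B := by gcongr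
        _ = (X.B * X.B * ‖f‖) * sg f y := by ring
    have hΦ0 : ∀ x, HasSum (fun y => X.rho x i j₀ * f y * X.c l (dl x * dl y * X.x k₀)) 0 := by
      intro x
      have h1 := ((dl_hasSum f).mul_left (dl x)).mul_right (X.x k₀)
      have h2 := (X.c l).hasSum h1
      have h3 : X.c l (dl x * f * X.x k₀) = 0 :=
        X.hcI l _ (X.hideal _ (X.hideal f hf (dl x)).2 (X.x k₀)).1
      rw [h3] at h2
      have h4 := h2.mul_left (X.rho x i j₀)
      rw [mul_zero] at h4
      have e : (fun y => X.rho x i j₀ * f y * X.c l (dl x * dl y * X.x k₀)) =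
          fun y => X.rho x i j₀ * X.c l (dl x * f y • dl y * X.x k₀) := by
        funext y
        rw [mul_smul_comm, smul_mul_assoc, map_smul, smul_eq_mul, mul_assoc]
      rw [e]
      exact h4
    obtain ⟨F', hF'0, hF', hb⟩ := scalar_step p0 hσ0 hF0 p1 hσ hF hs hΦ hΦ0
    refine ⟨F', hF'0, ?_, ?_⟩
    · convert hF' using 1
      push_cast; ring
    · intro g
      have h1 := hb g
      have h2 := (X.S_step hf0 j₀ k₀ α β hα hβ J i l g).tsum_eq
      rw [h2] at h1
      exact h1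

include hf hf0 hα hβ in
theorem estimate (J : ℕ) :
    ‖TT α β (Matrix.single j₀ k₀ f) J‖ ≤
      (Fintype.card ι * (Fintype.card ι * (X.B * (X.B * X.B * ‖f‖)))) * Real.sqrt J := by
  have hσ := sg_hasSum hf0
  have hσ0 := sg_nonneg f
  have hB1 := X.B_ge_one
  have hB0 : 0 ≤ X.B := by linarith
  set T := TT α β (Matrix.single j₀ k₀ f) J with hT
  set M := X.B * X.B * ‖f‖ with hM
  have hM0 : 0 ≤ M := by positivity
  obtain ⟨p0, p1⟩ := pw_facts hσ0 hσ J
  -- the untwisted entries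
  have h1 : ∀ i l, Summable (fun g => ‖X.S T i l g‖) ∧ ∑' g, ‖X.S T i l g‖ ≤ M * Real.sqrt J := by
    intro i l
    obtain ⟨F, hF0, hF, hs⟩ := X.S_bound hf hf0 j₀ k₀ α β hα hβ J i l
    obtain ⟨k1, k2⟩ := cs_real (u := fun g => ‖X.S T i l g‖) (fun _ => norm_nonneg _) p0 hF0
      p1.summable hF.summable hs
    refine ⟨k1, ?_⟩
    rw [p1.tsum_eq, hF.tsum_eq, one_mul] at k2
    apply le_of_sq_le_sq _ (by positivity)
    rw [mul_pow, Real.sq_sqrt (Nat.cast_nonneg _)]
    exact k2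
  have h2 : ∀ i m g, (T i m) g = ∑ l, X.S T i l g * X.rho' g l m := by
    intro i m g
    unfold S
    simp_rw [Finset.sum_mul]
    rw [Finset.sum_comm]
    have e : ∀ n, ∑ l, (T i n) g * X.rho' g⁻¹ n l * X.rho' g l m =
        (T i n) g * (if n = m then 1 else 0) := by
      intro n
      have h3 : (X.rho' g⁻¹ * X.rho' g) n m = if n = m then 1 else 0 := by
        rw [← X.rho'_mul, inv_mul_cancel, X.rho'_one, Matrix.one_apply]
      rw [← h3, Matrix.mul_apply, Finset.mul_sum]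
      apply Finset.sum_congr rfl
      intro l _; ring
    simp_rw [e]
    simp
  have h3 : ∀ i m, ‖T i m‖ ≤ Fintype.card ι * (X.B * M) * Real.sqrt J := by
    intro i m
    rw [L_norm]
    have h4 : Summable fun g => ∑ l, ‖X.S T i l g‖ * X.B :=
      summable_sum fun l _ => (h1 i l).1.mul_right _
    have h5 : ∀ g, ‖(T i m) g‖ ≤ ∑ l, ‖X.S T i l g‖ * X.B := by
      intro g
      rw [h2]
      refine (norm_sum_le _ _).trans (Finset.sum_le_sum fun l _ => ?_)
      rw [norm_mul]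
      gcongr
      exact X.rho'_bound g l m
    refine (Summable.tsum_le_tsum h5 (L_summable _) h4).trans ?_
    rw [Summable.tsum_finsetSum (fun l _ => (h1 i l).1.mul_right _)]
    calc ∑ l, ∑' g, ‖X.S T i l g‖ * X.B ≤ ∑ l : ι, (M * Real.sqrt J) * X.B := by
          apply Finset.sum_le_sum
          intro l _
          rw [tsum_mul_right]
          gcongr
          exact (h1 i l).2
      _ = Fintype.card ι * (X.B * M) * Real.sqrt J := by
          simp only [Finset.sum_const, Finset.card_univ, nsmul_eq_mul]; ring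
  refine (norm_le_entries T (by positivity) h3).trans ?_
  apply le_of_eq; ring

end estimate

end Coord

end Pool.Agent.V1169.EM
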