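import Pool.Agent.V1169.Conv

/-! A sawtooth graph used to construct a `c`-removable continuum. -/

set_option autoImplicit false

open Set Filter Topology

namespace Pool.Agent.V1169.Graph

/-- Distance to the nearest even integer. -/
noncomputable def tri (x : ℝ) : ℝ := |x - 2 * (round (x / 2) : ℤ)|

theorem tri_nonneg (x : ℝ) : 0 ≤ tri x := abs_nonneg _

theorem tri_le (x : ℝ) (k : ℤ) : tri x ≤ |x - 2 * k| := by
  have h1 := round_le (x / 2) k
  have h2 : ∀ j : ℤ, |x - 2 * (j : ℝ)| = 2 * |x / 2 - j| := by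
    intro j
    have : x - 2 * (j : ℝ) = 2 * (x / 2 - j) := by ring
    rw [this, abs_mul, abs_two]
  unfold tri
  rw [h2, h2]
  linarith

theorem tri_le_one (x : ℝ) : tri x ≤ 1 := by
  have h1 := abs_sub_round (x / 2)
  unfold tri
  have : x - 2 * ((round (x / 2) : ℤ) : ℝ) = 2 * (x / 2 - (round (x / 2) : ℤ)) := by ring
  rw [this, abs_mul, abs_two]
  linarith

theorem tri_eq {x : ℝ} {k : ℤ} (h : |x - 2 * k| ≤ 1) : tri x = |x - 2 * k| := by
  refine le_antisymm (tri_le x k) ?_
  unfold tri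
  by_cases hk : round (x / 2) = k
  · rw [hk]
  · have h1 : (1 : ℝ) ≤ |(k : ℝ) - (round (x / 2) : ℤ)| := by
      have : (1 : ℤ) ≤ |k - round (x / 2)| := Int.one_le_abs (sub_ne_zero.2 (Ne.symm hk))
      exact_mod_cast this
    have h2 : |2 * (k : ℝ) - 2 * ((round (x / 2) : ℤ) : ℝ)| ≤
        |x - 2 * ((round (x / 2) : ℤ) : ℝ)| + |x - 2 * k| := by
      have h3 := abs_sub_le (2 * (k : ℝ)) x (2 * ((round (x / 2) : ℤ) : ℝ))
      rw [abs_sub_comm (2 * (k : ℝ)) x] at h3
      linarith
    rw [← mul_sub, abs_mul, abs_two] at h2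
    linarith

theorem tri_even (k : ℤ) : tri (2 * k) = 0 := by
  rw [tri_eq (k := k) (by simp)]
  simp

theorem tri_odd (k : ℤ) : tri (2 * k + 1) = 1 := by
  rw [tri_eq (k := k) (by simp)]
  simp

theorem tri_lip (x y : ℝ) : |tri x - tri y| ≤ |x - y| := by
  have key : ∀ x y : ℝ, tri x - tri y ≤ |x - y| := by
    intro x y
    have h1 := tri_le x (round (y / 2))
    have h2 : |x - 2 * ((round (y / 2) : ℤ) : ℝ)| ≤ |x - y| + tri y := abs_sub_le _ _ _
    linarith
  rw [abs_le]
  constructor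
  · have := key y x
    rw [abs_sub_comm] at this
    linarith
  · exact key x y

theorem tri_affine (k : ℤ) : ∃ e : ℝ, (e = 1 ∨ e = -1) ∧ ∀ x : ℝ, (k : ℝ) ≤ x → x ≤ k + 1 →
    tri x = tri k + e * (x - k) := by
  rcases Int.even_or_odd' k with ⟨j, rfl | rfl⟩
  · refine ⟨1, Or.inl rfl, fun x h1 h2 => ?_⟩
    push_cast at h1 h2 ⊢
    have h3 : |x - 2 * (j : ℝ)| = x - 2 * j := abs_of_nonneg (by linarith)
    rw [tri_even, tri_eq (k := j) (by rw [h3]; linarith), h3]
    ring
  · refine ⟨-1, Or.inr rfl, fun x h1 h2 => ?_⟩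
    push_cast at h1 h2 ⊢
    have h3 : |x - 2 * ((j + 1 : ℤ) : ℝ)| = 2 * (j + 1) - x := by
      push_cast
      rw [abs_of_nonpos (by linarith)]
      ring
    rw [tri_odd, tri_eq (k := j + 1) (by rw [h3]; linarith), h3]
    ring

theorem near_odd (x : ℝ) : ∃ k : ℤ, |x - (2 * k + 1)| = 1 - tri x := by
  have h1 := tri_le_one x
  set k := round (x / 2) with hk
  have h2 : tri x = |x - 2 * (k : ℝ)| := rfl
  rcases le_total 0 (x - 2 * (k : ℝ)) with h3 | h3
  · refine ⟨k, ?_⟩
    have h4 : tri x = x - 2 * (k : ℝ) := by rw [h2, abs_of_nonneg h3]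
    rw [abs_of_nonpos (by linarith)]
    linarith
  · refine ⟨k - 1, ?_⟩
    have h4 : tri x = -(x - 2 * (k : ℝ)) := by rw [h2, abs_of_nonpos h3]
    push_cast
    rw [abs_of_nonneg (by linarith)]
    linarith

/-- Slope increments. -/
noncomputable def s (n : ℕ) : ℝ := (1 / 4) ^ n

/-- Scales. -/
noncomputable def r (n : ℕ) : ℝ := (1 / 2) ^ (4 ^ n)

/-- Tail sums of the slope increments. -/
noncomputable def S (n : ℕ) : ℝ := 4 / 3 * (1 / 4) ^ n

theorem s_pos (n : ℕ) : 0 < s n := by unfold s; positivity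
theorem r_pos (n : ℕ) : 0 < r n := by unfold r; positivity
theorem S_pos (n : ℕ) : 0 < S n := by unfold S; positivity

theorem r_le_one (n : ℕ) : r n ≤ 1 := pow_le_one₀ (by norm_num) (by norm_num)

theorem S_succ_le (n : ℕ) : S (n + 1) ≤ s n := by
  unfold S s
  rw [pow_succ]
  have : (0:ℝ) < (1 / 4) ^ n := by positivity
  linarith

theorem S_zero : S 0 = 4 / 3 := by simp [S]

/-- `r m` is a power of two times `r n` when `m ≤ n`. -/
theorem r_eq {m n : ℕ} (h : m ≤ n) : r m = 2 ^ (4 ^ n - 4 ^ m) * r n := by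
  unfold r
  have h1 : 4 ^ m ≤ 4 ^ n := Nat.pow_le_pow_right (by norm_num) h
  obtain ⟨d, hd⟩ := Nat.exists_eq_add_of_le h1
  rw [hd, Nat.add_sub_cancel_left, pow_add, one_div, inv_pow, inv_pow]
  field_simp

theorem tendsto_s : Tendsto s atTop (𝓝 0) :=
  tendsto_pow_atTop_nhds_zero_of_lt_one (by norm_num) (by norm_num)

theorem r_le_s (n : ℕ) : r n ≤ (1 / 2) ^ n := by
  unfold r
  refine pow_le_pow_of_le_one (by norm_num) (by norm_num) ?_
  exact (Nat.lt_pow_self (by norm_num)).le

theorem tendsto_r : Tendsto r atTop (𝓝 0) :=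
  squeeze_zero (fun n => (r_pos n).le) r_le_s
    (tendsto_pow_atTop_nhds_zero_of_lt_one (by norm_num) (by norm_num))

/-- The `n`-th sawtooth. -/
noncomputable def term (n : ℕ) (x : ℝ) : ℝ := s n * r n * tri (x / r n)

theorem term_nonneg (n : ℕ) (x : ℝ) : 0 ≤ term n x :=
  mul_nonneg (mul_nonneg (s_pos n).le (r_pos n).le) (tri_nonneg _)

theorem term_le (n : ℕ) (x : ℝ) : term n x ≤ s n := by
  unfold term
  have h1 := tri_le_one (x / r n)
  have h2 := tri_nonneg (x / r n)
  have h3 := r_le_one n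
  have h4 := (r_pos n).le
  have h5 := (s_pos n).le
  calc s n * r n * tri (x / r n) ≤ s n * 1 * 1 := by gcongr
    _ = s n := by ring

theorem term_lip (n : ℕ) (x y : ℝ) : |term n x - term n y| ≤ s n * |x - y| := by
  unfold term
  rw [← mul_sub, abs_mul, abs_of_pos (mul_pos (s_pos n) (r_pos n)), mul_assoc]
  refine mul_le_mul_of_nonneg_left ?_ (s_pos n).le
  have h1 := tri_lip (x / r n) (y / r n)
  rw [← sub_div, abs_div, abs_of_pos (r_pos n), le_div_iff₀ (r_pos n)] at h1
  linarith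

theorem summable_s : Summable s := summable_geometric_of_lt_one (by norm_num) (by norm_num)

theorem hasSum_s (n : ℕ) : HasSum (fun m => s (m + n)) (S n) := by
  have h1 : HasSum (fun m : ℕ => (1 / 4 : ℝ) ^ m) (4 / 3) := by
    have := hasSum_geometric_of_lt_one (r := (1 / 4 : ℝ)) (by norm_num) (by norm_num)
    norm_num at this ⊢
    exact this
  have h2 := h1.mul_right ((1 / 4 : ℝ) ^ n)
  unfold S s
  simpa [pow_add] using h2

theorem summable_term (x : ℝ) : Summable fun n => term n x :=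
  Summable.of_nonneg_of_le (fun n => term_nonneg n x) (fun n => term_le n x) summable_s

theorem summable_term' (n : ℕ) (x : ℝ) : Summable fun m => term (m + n) x :=
  (summable_nat_add_iff n).2 (summable_term x)

/-- The function. -/
noncomputable def gam (x : ℝ) : ℝ := ∑' n, term n x

/-- Partial sums. -/
noncomputable def part (n : ℕ) (x : ℝ) : ℝ := ∑ m ∈ Finset.range n, term m x

/-- Tails. -/
noncomputable def tail (n : ℕ) (x : ℝ) : ℝ := ∑' m, term (m + n) x

theorem gam_eq (n : ℕ) (x : ℝ) : gam x = part n x + tail n x :=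
  ((summable_term x).sum_add_tsum_nat_add n).symm

theorem tail_succ (n : ℕ) (x : ℝ) : tail n x = term n x + tail (n + 1) x := by
  unfold tail
  rw [(summable_term' n x).tsum_eq_zero_add, zero_add]
  congr 1
  refine tsum_congr fun m => ?_
  rw [show m + 1 + n = m + (n + 1) by ring]

theorem tail_lip (n : ℕ) (x y : ℝ) : |tail n x - tail n y| ≤ S n * |x - y| := by
  unfold tail
  rw [← (summable_term' n x).tsum_sub (summable_term' n y)]
  have h1 : HasSum (fun m => s (m + n) * |x - y|) (S n * |x - y|) := (hasSum_s n).mul_right _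
  rw [← Real.norm_eq_abs]
  refine tsum_of_norm_bounded h1 fun m => ?_
  exact term_lip _ _ _

theorem tail_nonneg (n : ℕ) (x : ℝ) : 0 ≤ tail n x := tsum_nonneg fun _ => term_nonneg _ _

theorem gam_lip (x y : ℝ) : |gam x - gam y| ≤ S 0 * |x - y| := by
  have h := tail_lip 0 x y
  have e : ∀ z, tail 0 z = gam z := fun z => by
    rw [gam_eq 0 z]
    simp [part]
  rwa [e, e] at h

theorem continuous_gam : Continuous gam := by
  have : LipschitzWith (S 0).toNNReal gam := LipschitzWith.of_dist_le_mul fun x y => by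
    rw [Real.dist_eq, Real.dist_eq, Real.coe_toNNReal _ (S_pos 0).le]
    exact gam_lip x y
  exact this.continuous

/-- Tails vanish at even multiples. -/
theorem tail_even (n : ℕ) (j : ℤ) : tail n (2 * j * r n) = 0 := by
  unfold tail
  have : ∀ m, term (m + n) (2 * j * r n) = 0 := by
    intro m
    unfold term
    have h1 : 2 * (j : ℝ) * r n / r (m + n) = 2 * ((j * 2 ^ (4 ^ (m + n) - 4 ^ n) : ℤ) : ℝ) := by
      rw [r_eq (Nat.le_add_left n m)]
      have := (r_pos (m + n)).ne'
      push_cast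
      field_simp
    rw [h1, tri_even, mul_zero]
  simp [this]

theorem four_pow_lt (n : ℕ) : 0 < 4 ^ (n + 1) - 4 ^ n := by
  have : 4 ^ n < 4 ^ (n + 1) := Nat.pow_lt_pow_right (by norm_num) (Nat.lt_succ_self n)
  omega

/-- Tails at odd multiples. -/
theorem tail_odd (n : ℕ) (j : ℤ) : tail n ((2 * j + 1) * r n) = s n * r n := by
  rw [tail_succ]
  have h1 : term n ((2 * j + 1) * r n) = s n * r n := by
    unfold term
    rw [mul_div_cancel_right₀ _ (r_pos n).ne', tri_odd, mul_one]
  obtain ⟨d, hd⟩ : ∃ d, 4 ^ (n + 1) - 4 ^ n = d + 1 := ⟨_, (Nat.succ_pred_eq_of_pos (four_pow_lt n)).symm⟩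
  have h2 : (2 * (j : ℝ) + 1) * r n = 2 * (((2 * j + 1) * 2 ^ d : ℤ) : ℝ) * r (n + 1) := by
    rw [r_eq (Nat.le_succ n), hd, pow_succ]
    push_cast
    ring
  rw [h1, h2, tail_even, add_zero]

theorem tail_le (n : ℕ) (x : ℝ) : tail n x ≤ s n * r n := by
  obtain ⟨k, hk⟩ := near_odd (x / r n)
  have hr := r_pos n
  have h1 : |x - (2 * k + 1) * r n| = r n * (1 - tri (x / r n)) := by
    rw [← hk]
    have : x - (2 * k + 1) * r n = r n * (x / r n - (2 * k + 1)) := by
      field_simp
    rw [this, abs_mul, abs_of_pos hr]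
  have h2 := tail_lip (n + 1) x ((2 * k + 1) * r n)
  have h3 : tail (n + 1) ((2 * k + 1) * r n) = 0 := by
    have h4 := tail_odd n k
    rw [tail_succ] at h4
    have h1 : term n ((2 * k + 1) * r n) = s n * r n := by
      unfold term
      rw [mul_div_cancel_right₀ _ (r_pos n).ne', tri_odd, mul_one]
    linarith
  rw [h3, sub_zero, h1] at h2
  have h4 := le_abs_self (tail (n + 1) x)
  have h5 := S_succ_le n
  have h6 : 0 ≤ r n * (1 - tri (x / r n)) := mul_nonneg hr.le (by linarith [tri_le_one (x / r n)])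
  rw [tail_succ]
  unfold term
  nlinarith

/-- Finite set of slopes at level `n`. -/
noncomputable def Lam : ℕ → Finset ℝ
  | 0 => {0}
  | n + 1 => (Lam n).image (· + s n) ∪ (Lam n).image (· - s n)

theorem card_Lam (n : ℕ) : (Lam n).card ≤ 2 ^ n := by
  induction n with
  | zero => simp [Lam]
  | succ n ih =>
    have h1 : (Lam (n + 1)).card ≤ ((Lam n).image (· + s n)).card + ((Lam n).image (· - s n)).card :=
      Finset.card_union_le _ _
    have h2 := Finset.card_image_le (s := Lam n) (f := (· + s n))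
    have h3 := Finset.card_image_le (s := Lam n) (f := (· - s n))
    rw [pow_succ]
    omega

theorem abs_Lam (n : ℕ) : ∀ l ∈ Lam n, |l| ≤ 4 / 3 - S n := by
  induction n with
  | zero => simp [Lam, S]
  | succ n ih =>
    intro l hl
    simp only [Lam, Finset.mem_union, Finset.mem_image] at hl
    have hS : S n = s n + S (n + 1) := by
      unfold S s
      rw [pow_succ]
      ring
    have hs := s_pos n
    rcases hl with ⟨l', hl', rfl⟩ | ⟨l', hl', rfl⟩
    · have h1 := ih l' hl'
      have h2 := abs_add_le l' (s n)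
      rw [abs_of_pos hs] at h2
      linarith
    · have h1 := ih l' hl'
      have h2 := abs_sub l' (s n)
      rw [abs_of_pos hs] at h2
      linarith

theorem term_affine {m n : ℕ} (h : m ≤ n) (k : ℤ) : ∃ e c : ℝ, (e = s m ∨ e = - s m) ∧
    ∀ x : ℝ, k * r n ≤ x → x ≤ (k + 1) * r n → term m x = e * x + c := by
  set M : ℤ := 2 ^ (4 ^ n - 4 ^ m) with hM
  have hMpos : 0 < M := by positivity
  set k' : ℤ := k / M with hk'
  have h1 : k' * M ≤ k := Int.ediv_mul_le _ hMpos.ne'
  have h2 : k + 1 ≤ (k' + 1) * M := by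
    have := Int.lt_ediv_add_one_mul_self k hMpos
    linarith
  have h1' : (k' : ℝ) * M ≤ k := by exact_mod_cast h1
  have h2' : (k : ℝ) + 1 ≤ (k' + 1) * M := by exact_mod_cast h2
  have hrn := r_pos n
  have hrm := r_pos m
  have hr : r m = M * r n := by
    rw [r_eq h, hM]
    push_cast
    rfl
  obtain ⟨e, he, htri⟩ := tri_affine k'
  refine ⟨s m * e, s m * r m * (tri k' - e * k'), ?_, ?_⟩
  · rcases he with rfl | rfl
    · left; ring
    · right; ring
  · intro x hx1 hx2
    have h3 : (k' : ℝ) ≤ x / r m := by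
      rw [le_div_iff₀ hrm, hr]
      calc (k' : ℝ) * (M * r n) = (k' * M) * r n := by ring
        _ ≤ k * r n := by gcongr
        _ ≤ x := hx1
    have h4 : x / r m ≤ k' + 1 := by
      rw [div_le_iff₀ hrm, hr]
      calc x ≤ (k + 1) * r n := hx2
        _ ≤ ((k' + 1) * M) * r n := by gcongr
        _ = (k' + 1) * (M * r n) := by ring
    unfold term
    rw [htri _ h3 h4]
    field_simp
    ring

theorem part_affine {m n : ℕ} (h : m ≤ n + 1) (k : ℤ) : ∃ l ∈ Lam m, ∃ c : ℝ,
    ∀ x : ℝ, k * r n ≤ x → x ≤ (k + 1) * r n → part m x = l * x + c := by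
  induction m with
  | zero => exact ⟨0, by simp [Lam], 0, fun x _ _ => by simp [part]⟩
  | succ m ih =>
    obtain ⟨l, hl, c, hc⟩ := ih (by omega)
    obtain ⟨e, c', he, hc'⟩ := term_affine (show m ≤ n by omega) k
    refine ⟨l + e, ?_, c + c', ?_⟩
    · simp only [Lam, Finset.mem_union, Finset.mem_image]
      rcases he with rfl | rfl
      · left; exact ⟨l, hl, rfl⟩
      · right; exact ⟨l, hl, rfl⟩
    · intro x hx1 hx2
      unfold part at hc ⊢
      rw [Finset.sum_range_succ, hc x hx1 hx2, hc' x hx1 hx2]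
      ring

/-- The geometry of the graph over an interval of level `n`. -/
theorem edge (n : ℕ) (k : ℤ) : ∃ l ∈ Lam (n + 1), ∃ c : ℝ,
    (∀ x : ℝ, k * r n ≤ x → x ≤ (k + 1) * r n →
      l * x + c ≤ gam x ∧ gam x ≤ l * x + c + s (n + 1) * r (n + 1)) ∧
    (∀ x y : ℝ, k * r n ≤ x → x ≤ (k + 1) * r n → k * r n ≤ y → y ≤ (k + 1) * r n →
      |gam x - gam y - l * (x - y)| ≤ S (n + 1) * |x - y|) ∧
    (∀ j : ℤ, k * r n ≤ 2 * j * r (n + 1) → 2 * j * r (n + 1) ≤ (k + 1) * r n →
      gam (2 * j * r (n + 1)) = l * (2 * j * r (n + 1)) + c) ∧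
    (∀ j : ℤ, k * r n ≤ (2 * j + 1) * r (n + 1) → (2 * j + 1) * r (n + 1) ≤ (k + 1) * r n →
      gam ((2 * j + 1) * r (n + 1)) = l * ((2 * j + 1) * r (n + 1)) + c
        + s (n + 1) * r (n + 1)) := by
  obtain ⟨l, hl, c, hc⟩ := part_affine (le_refl (n + 1)) k
  refine ⟨l, hl, c, ?_, ?_, ?_, ?_⟩
  · intro x h1 h2
    rw [gam_eq (n + 1) x, hc x h1 h2]
    constructor
    · linarith [tail_nonneg (n + 1) x]
    · linarith [tail_le (n + 1) x]
  · intro x y h1 h2 h3 h4
    rw [gam_eq (n + 1) x, gam_eq (n + 1) y, hc x h1 h2, hc y h3 h4]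
    have : l * x + c + tail (n + 1) x - (l * y + c + tail (n + 1) y) - l * (x - y)
        = tail (n + 1) x - tail (n + 1) y := by ring
    rw [this]
    exact tail_lip _ _ _
  · intro j h1 h2
    rw [gam_eq (n + 1), hc _ h1 h2, tail_even, add_zero]
  · intro j h1 h2
    rw [gam_eq (n + 1), hc _ h1 h2, tail_odd]

end Pool.Agent.V1169.Graph
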