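import Pool.Agent.V1169.Graph

/-! The sawtooth graph is `c`-removable. -/

set_option autoImplicit false

open Set Filter Topology MeasureTheory

namespace Pool.Agent.V1169.Graph

/-- Good slopes are dense. -/
theorem exists_good {a b : ℝ} (hab : a < b) : ∃ σ ∈ Ioo a b, ∃ n : ℕ, ∀ l ∈ Lam (n + 1),
    S (n + 1) < |σ - l| := by
  by_contra hcon
  push Not at hcon
  have key : ∀ n : ℕ, b - a ≤ (8 / 3) * (1 / 2) ^ (n + 1) := by
    intro n
    have h1 : Ioo a b ⊆ ⋃ l ∈ Lam (n + 1), Icc (l - S (n + 1)) (l + S (n + 1)) := by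
      intro σ hσ
      obtain ⟨l, hl, h2⟩ := hcon σ hσ n
      simp only [mem_iUnion]
      refine ⟨l, hl, ?_⟩
      have := abs_le.1 h2
      constructor <;> linarith
    have h2 : volume (Ioo a b) ≤ ∑ l ∈ Lam (n + 1), volume (Icc (l - S (n + 1)) (l + S (n + 1))) :=
      (measure_mono h1).trans (measure_biUnion_finset_le _ _)
    have h3 : ∀ l ∈ Lam (n + 1), volume (Icc (l - S (n + 1)) (l + S (n + 1)))
        = ENNReal.ofReal (2 * S (n + 1)) := by
      intro l _
      rw [Real.volume_Icc]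
      congr 1
      ring
    rw [Real.volume_Ioo, Finset.sum_congr rfl h3, Finset.sum_const, nsmul_eq_mul] at h2
    have hS := S_pos (n + 1)
    have h4 : ((Lam (n + 1)).card : ENNReal) * ENNReal.ofReal (2 * S (n + 1))
        = ENNReal.ofReal ((Lam (n + 1)).card * (2 * S (n + 1))) := by
      conv_rhs => rw [ENNReal.ofReal_mul (by positivity), ENNReal.ofReal_natCast]
    rw [h4, ENNReal.ofReal_le_ofReal_iff (by positivity)] at h2
    have h5 : ((Lam (n + 1)).card : ℝ) ≤ 2 ^ (n + 1) := by exact_mod_cast card_Lam (n + 1)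
    have h6 : (2 : ℝ) ^ (n + 1) * (2 * S (n + 1)) = (8 / 3) * (1 / 2) ^ (n + 1) := by
      unfold S
      have : (1 / 4 : ℝ) ^ (n + 1) = (1 / 2) ^ (n + 1) * (1 / 2) ^ (n + 1) := by
        rw [← mul_pow]; norm_num
      rw [this]
      have h7 : (2 : ℝ) ^ (n + 1) * (1 / 2) ^ (n + 1) = 1 := by
        rw [← mul_pow]; norm_num
      calc (2 : ℝ) ^ (n + 1) * (2 * (4 / 3 * ((1 / 2) ^ (n + 1) * (1 / 2) ^ (n + 1))))
          = (8 / 3) * (2 ^ (n + 1) * (1 / 2) ^ (n + 1)) * (1 / 2) ^ (n + 1) := by ring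
        _ = _ := by rw [h7]; ring
    calc b - a ≤ (Lam (n + 1)).card * (2 * S (n + 1)) := h2
      _ ≤ 2 ^ (n + 1) * (2 * S (n + 1)) := by gcongr
      _ = _ := h6
  have h1 : Tendsto (fun n : ℕ => (8 / 3 : ℝ) * (1 / 2) ^ (n + 1)) atTop (𝓝 0) := by
    have := (tendsto_pow_atTop_nhds_zero_of_lt_one (r := (1 / 2 : ℝ)) (by norm_num)
      (by norm_num)).comp (tendsto_add_atTop_nat 1)
    simpa using this.const_mul (8 / 3)
  have h2 := ge_of_tendsto' h1 key
  linarith

/-- Oscillation estimate. -/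
theorem osc {s : Set ℝ} {φ ψ : ℝ → ℝ} (hφ : ConvexOn ℝ s φ) (hψ : ConvexOn ℝ s ψ)
    {ρ A η : ℝ} (hρ : 0 < ρ) (hη : 0 ≤ η) {x x' : ℕ → ℝ} (hx : ∀ j, x (j + 1) = x j + 2 * ρ)
    (hx' : ∀ j, x j < x' j ∧ x' j < x (j + 1)) {m : ℕ} (hs : ∀ j ≤ 4 * m, x j ∈ s)
    (h1 : ∀ j ≤ 4 * m, ψ (x j) - φ (x j) ≤ A)
    (h2 : ∀ j < 4 * m, A + η ≤ ψ (x' j) - φ (x' j)) :
    8 * (m : ℝ) ^ 2 * η ≤ φ (x (4 * m)) - 2 * φ (x (2 * m)) + φ (x 0) := by
  have hs' : ∀ j < 4 * m, x' j ∈ s := fun j hj =>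
    hφ.1.ordConnected.out (hs j hj.le) (hs (j + 1) hj) ⟨(hx' j).1.le, (hx' j).2.le⟩
  set Sm : ℕ → ℝ := fun j => (φ (x' j) - φ (x j)) / (x' j - x j) with hSm
  set Sp : ℕ → ℝ := fun j => (φ (x (j + 1)) - φ (x' j)) / (x (j + 1) - x' j) with hSp
  set d : ℕ → ℝ := fun j => φ (x (j + 1)) - φ (x j) with hd
  have hm : ∀ j, φ (x' j) - φ (x j) = Sm j * (x' j - x j) := fun j => by
    have := sub_pos.2 (hx' j).1
    simp only [hSm]
    field_simp
  have hp : ∀ j, φ (x (j + 1)) - φ (x' j) = Sp j * (x (j + 1) - x' j) := fun j => by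
    have := sub_pos.2 (hx' j).2
    simp only [hSp]
    field_simp
  have hgap : ∀ j < 4 * m, Sm j + 2 * η / ρ ≤ Sp j := by
    intro j hj
    set a := x' j - x j with ha
    set b := x (j + 1) - x' j with hb
    have ha0 : 0 < a := sub_pos.2 (hx' j).1
    have hb0 : 0 < b := sub_pos.2 (hx' j).2
    have hab : a + b = 2 * ρ := by rw [ha, hb, hx j]; ring
    have h3 := hψ.2 (hs j hj.le) (hs (j + 1) hj) (div_nonneg hb0.le (by linarith : 0 ≤ 2 * ρ))
      (div_nonneg ha0.le (by linarith : 0 ≤ 2 * ρ)) (by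
        rw [← add_div, add_comm b a, hab, div_self (by linarith)])
    have h4 : (b / (2 * ρ)) • x j + (a / (2 * ρ)) • x (j + 1) = x' j := by
      simp only [smul_eq_mul]
      rw [hx j]
      have hb' : b = 2 * ρ - a := by linarith
      rw [hb']
      field_simp
      rw [ha]
      ring
    rw [h4] at h3
    simp only [smul_eq_mul] at h3
    have h5 := h1 j hj.le
    have h6 := h1 (j + 1) hj
    have h7 := h2 j hj
    have h8 : 2 * ρ * ψ (x' j) ≤ b * ψ (x j) + a * ψ (x (j + 1)) := by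
      have := mul_le_mul_of_nonneg_left h3 (by linarith : 0 ≤ 2 * ρ)
      have e : 2 * ρ * (b / (2 * ρ) * ψ (x j) + a / (2 * ρ) * ψ (x (j + 1)))
          = b * ψ (x j) + a * ψ (x (j + 1)) := by
        field_simp
      linarith
    have h9 : 2 * ρ * φ (x' j) + 2 * ρ * η ≤ b * φ (x j) + a * φ (x (j + 1)) := by
      have e1 : b * ψ (x j) ≤ b * (A + φ (x j)) := mul_le_mul_of_nonneg_left (by linarith) hb0.le
      have e2 : a * ψ (x (j + 1)) ≤ a * (A + φ (x (j + 1))) :=
        mul_le_mul_of_nonneg_left (by linarith) ha0.le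
      have e3 : 2 * ρ * (A + η + φ (x' j)) ≤ 2 * ρ * ψ (x' j) :=
        mul_le_mul_of_nonneg_left (by linarith) (by linarith)
      have e4 : (a + b) * A = 2 * ρ * A := by rw [hab]
      nlinarith
    -- gap times a b
    have h10 : 2 * ρ * η ≤ (Sp j - Sm j) * (a * b) := by
      have e1 := hm j
      have e2 := hp j
      have e3 : φ (x j) = φ (x' j) - Sm j * a := by linarith
      have e4 : φ (x (j + 1)) = φ (x' j) + Sp j * b := by linarith
      rw [e3, e4] at h9
      have e5 : (a + b) * φ (x' j) = 2 * ρ * φ (x' j) := by rw [hab]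
      nlinarith
    have h11 : a * b ≤ ρ ^ 2 := by nlinarith [sq_nonneg (a - b)]
    have hab0 : 0 < a * b := mul_pos ha0 hb0
    have h12 : 0 ≤ Sp j - Sm j := by
      by_contra hneg
      push Not at hneg
      have := mul_neg_of_neg_of_pos hneg hab0
      have : 0 ≤ 2 * ρ * η := by positivity
      linarith
    have h13 : 2 * ρ * η ≤ (Sp j - Sm j) * ρ ^ 2 :=
      h10.trans (mul_le_mul_of_nonneg_left h11 h12)
    have h14 : 2 * η / ρ ≤ Sp j - Sm j := by
      rw [div_le_iff₀ hρ]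
      have : 2 * η * ρ ≤ (Sp j - Sm j) * ρ * ρ := by nlinarith
      exact le_of_mul_le_mul_right (by linarith) hρ
    linarith
  have hadj : ∀ j, j + 1 < 4 * m → Sp j ≤ Sm (j + 1) := by
    intro j hj
    exact hφ.slope_mono_adjacent (hs' j (by omega)) (hs' (j + 1) hj) (hx' j).2 (hx' (j + 1)).1
  have hd1 : ∀ j < 4 * m, 2 * ρ * Sm j ≤ d j ∧ d j ≤ 2 * ρ * Sp j := by
    intro j hj
    have e1 := hm j
    have e2 := hp j
    have e3 := hgap j hj
    have e4 : 0 ≤ 2 * η / ρ := by positivity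
    have e5 := sub_pos.2 (hx' j).1
    have e6 := sub_pos.2 (hx' j).2
    have e7 := hx j
    have e8 : d j = Sm j * (x' j - x j) + Sp j * (x (j + 1) - x' j) := by
      simp only [hd]; linarith
    rw [e8]
    have e9 : 2 * ρ = (x' j - x j) + (x (j + 1) - x' j) := by linarith
    rw [e9]
    constructor <;> nlinarith
  have hd2 : ∀ j, j + 2 < 4 * m → d j + 4 * η ≤ d (j + 2) := by
    intro j hj
    have e1 := (hd1 j (by omega)).2
    have e2 := hadj j (by omega)
    have e3 := hgap (j + 1) (by omega)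
    have e4 := hadj (j + 1) hj
    have e5 := (hd1 (j + 2) hj).1
    have e6 : Sp j + 2 * η / ρ ≤ Sm (j + 2) := by linarith
    have e7 : 2 * ρ * (Sp j + 2 * η / ρ) ≤ 2 * ρ * Sm (j + 2) :=
      mul_le_mul_of_nonneg_left e6 (by linarith)
    have e8 : 2 * ρ * (Sp j + 2 * η / ρ) = 2 * ρ * Sp j + 4 * η := by
      field_simp
      ring
    linarith
  have hd3 : ∀ i j, j + 2 * i < 4 * m → d j + 4 * i * η ≤ d (j + 2 * i) := by
    intro i
    induction i with
    | zero => intro j _; simp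
    | succ i ih =>
      intro j hj
      have e1 := ih j (by omega)
      have e2 := hd2 (j + 2 * i) (by omega)
      have e3 : j + 2 * (i + 1) = j + 2 * i + 2 := by ring
      rw [e3]
      push_cast
      linarith
  have e1 : φ (x (2 * m)) - φ (x 0) = ∑ j ∈ Finset.range (2 * m), d j := by
    rw [Finset.sum_range_sub (fun j => φ (x j))]
  have e2 : φ (x (4 * m)) - φ (x (2 * m)) = ∑ j ∈ Finset.range (2 * m), d (j + 2 * m) := by
    have := Finset.sum_range_sub (fun j => φ (x (j + 2 * m))) (2 * m)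
    rw [show 2 * m + 2 * m = 4 * m by ring, zero_add] at this
    rw [← this]
    refine Finset.sum_congr rfl fun j _ => ?_
    simp only [hd]
    rw [show j + 2 * m + 1 = j + 1 + 2 * m by ring]
  have e3 : ∑ j ∈ Finset.range (2 * m), (d j + 4 * m * η) ≤
      ∑ j ∈ Finset.range (2 * m), d (j + 2 * m) := by
    refine Finset.sum_le_sum fun j hj => ?_
    rw [Finset.mem_range] at hj
    exact hd3 m j (by omega)
  rw [Finset.sum_add_distrib, Finset.sum_const, Finset.card_range, nsmul_eq_mul, ← e1, ← e2] at e3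
  push_cast at e3
  nlinarith

/-- The graph. -/
def Gr : Set (ℝ × ℝ) := {z | z.2 = gam z.1}

theorem isClosed_Gr : IsClosed Gr :=
  isClosed_eq continuous_snd (continuous_gam.comp continuous_fst)

/-- Convexity along segments weakly above the graph. -/
theorem convex_above {f : ℝ × ℝ → ℝ} (hf : Continuous f) (hloc : LocallyConvexOn Grᶜ f)
    {s : Set ℝ} (hs : Convex ℝ s) (P v : ℝ × ℝ)
    (h : ∀ t ∈ s, gam (P.1 + t * v.1) ≤ P.2 + t * v.2) :
    ConvexOn ℝ s fun t : ℝ => f (P + t • v) := by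
  refine convexOn_of_tendsto (l := 𝓝[>] (0:ℝ)) (F := fun c t => f ((P.1, P.2 + c) + t • v)) hs ?_ ?_
  · filter_upwards [self_mem_nhdsWithin] with c hc
    refine convexOn_of_local hs (by fun_prop) fun t ht => ?_
    obtain ⟨V, hVo, -, hzV, -, hVf⟩ := hloc ((P.1, P.2 + c) + t • v) (by
      intro h1
      have h2 : P.2 + c + t * v.2 = gam (P.1 + t * v.1) := h1
      have h3 := h t ht
      have h4 : 0 < c := hc
      linarith)
    exact local_line hVo hVf _ v t hzV
  · intro t _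
    have : Continuous fun c : ℝ => f ((P.1, P.2 + c) + t • v) := by fun_prop
    have h1 := this.tendsto 0
    simp only [add_zero] at h1
    exact h1.mono_left nhdsWithin_le_nhds

/-- Convexity along segments weakly below the graph. -/
theorem convex_below {f : ℝ × ℝ → ℝ} (hf : Continuous f) (hloc : LocallyConvexOn Grᶜ f)
    {s : Set ℝ} (hs : Convex ℝ s) (P v : ℝ × ℝ)
    (h : ∀ t ∈ s, P.2 + t * v.2 ≤ gam (P.1 + t * v.1)) :
    ConvexOn ℝ s fun t : ℝ => f (P + t • v) := by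
  refine convexOn_of_tendsto (l := 𝓝[<] (0:ℝ)) (F := fun c t => f ((P.1, P.2 + c) + t • v)) hs ?_ ?_
  · filter_upwards [self_mem_nhdsWithin] with c hc
    refine convexOn_of_local hs (by fun_prop) fun t ht => ?_
    obtain ⟨V, hVo, -, hzV, -, hVf⟩ := hloc ((P.1, P.2 + c) + t • v) (by
      intro h1
      have h2 : P.2 + c + t * v.2 = gam (P.1 + t * v.1) := h1
      have h3 := h t ht
      have h4 : c < 0 := hc
      linarith)
    exact local_line hVo hVf _ v t hzV
  · intro t _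
    have : Continuous fun c : ℝ => f ((P.1, P.2 + c) + t • v) := by fun_prop
    have h1 := this.tendsto 0
    simp only [add_zero] at h1
    exact h1.mono_left nhdsWithin_le_nhds

theorem tendsto_big : Tendsto (fun n : ℕ => (2 : ℝ) ^ (4 ^ (n + 1) - 4 ^ n) * s (n + 1) * r n)
    atTop atTop := by
  have h1 : ∀ n : ℕ, (1 / 4 : ℝ) * 4 ^ n ≤ (2 : ℝ) ^ (4 ^ (n + 1) - 4 ^ n) * s (n + 1) * r n := by
    intro n
    have e1 : 4 ^ (n + 1) - 4 ^ n = 2 * 4 ^ n + 4 ^ n := by rw [pow_succ]; omega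
    have e2 : (2 : ℝ) ^ (4 ^ (n + 1) - 4 ^ n) * r n = 4 ^ (4 ^ n) := by
      unfold r
      rw [e1, pow_add, pow_mul, mul_assoc, ← mul_pow]
      norm_num
    have e3 : n + n ≤ 4 ^ n := by
      have h2 : n < 2 ^ n := Nat.lt_two_pow_self
      have h3 : 4 ^ n = 2 ^ n * 2 ^ n := by rw [← mul_pow]; rfl
      rw [h3]
      rcases Nat.eq_zero_or_pos n with rfl | hn
      · simp
      · have : 2 ≤ 2 ^ n := by
          calc 2 = 2 ^ 1 := rfl
            _ ≤ 2 ^ n := Nat.pow_le_pow_right (by norm_num) hn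
        nlinarith
    have e4 : (4 : ℝ) ^ (n + n) ≤ 4 ^ (4 ^ n) := pow_le_pow_right₀ (by norm_num) e3
    have e5 : s (n + 1) * 4 ^ (n + n) = 1 / 4 * 4 ^ n := by
      unfold s
      rw [pow_succ, pow_add]
      have : (1 / 4 : ℝ) ^ n * 4 ^ n = 1 := by rw [← mul_pow]; norm_num
      calc (1 / 4 : ℝ) ^ n * (1 / 4) * (4 ^ n * 4 ^ n) = (1 / 4) * ((1 / 4 : ℝ) ^ n * 4 ^ n) * 4 ^ n := by
            ring
        _ = _ := by rw [this]; ring
    calc (1 / 4 : ℝ) * 4 ^ n = s (n + 1) * 4 ^ (n + n) := e5.symm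
      _ ≤ s (n + 1) * 4 ^ (4 ^ n) := mul_le_mul_of_nonneg_left e4 (s_pos _).le
      _ = s (n + 1) * ((2 : ℝ) ^ (4 ^ (n + 1) - 4 ^ n) * r n) := by rw [e2]
      _ = _ := by ring
  refine tendsto_atTop_mono h1 ?_
  exact (tendsto_pow_atTop_atTop_of_one_lt (by norm_num)).const_mul_atTop (by norm_num)

end Pool.Agent.V1169.Graph
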