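import Pool.Agent.V1169.Graph2

/-! The sawtooth graph is `c`-removable: the main argument. -/

set_option autoImplicit false

open Set Filter Topology MeasureTheory

namespace Pool.Agent.V1169.Graph

/-- The number of teeth. -/
theorem teeth {n : ℕ} (hn : 1 ≤ n) : ∃ m : ℕ, 1 ≤ m ∧ r n = 16 * m * r (n + 1) ∧
    (2 : ℝ) ^ (4 ^ (n + 1) - 4 ^ n) = 16 * m := by
  set E : ℕ := 3 * 4 ^ n - 4 with hE
  have hE1 : 4 ^ (n + 1) - 4 ^ n = E + 4 := by
    have : 4 ^ 1 ≤ 4 ^ n := Nat.pow_le_pow_right (by norm_num) hn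
    rw [hE, pow_succ]
    omega
  have hR : (2 : ℝ) ^ (4 ^ (n + 1) - 4 ^ n) = 16 * ((2 ^ E : ℕ) : ℝ) := by
    rw [hE1, pow_add]
    push_cast
    ring
  refine ⟨2 ^ E, Nat.one_le_two_pow, ?_, hR⟩
  rw [r_eq (Nat.le_succ n), hR]

theorem core2 {f : ℝ × ℝ → ℝ} (hf : Continuous f) (hloc : LocallyConvexOn Grᶜ f)
    {σ ω t₁ β A c₀ ρ sn rn l' c' θ U : ℝ} {k' : ℤ} {m : ℕ} (hm : 1 ≤ m)
    (hω : ω * ω = 1) (hρ : 0 < ρ) (hsn : 0 < sn) (hrn : rn = 16 * m * ρ)
    (ht₁ : 0 < t₁) (hrt : rn ≤ t₁) (hβ : 0 < β)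
    (g1 : ∀ x : ℝ, k' * rn ≤ x → x ≤ (k' + 1) * rn → l' * x + c' ≤ gam x ∧
      gam x ≤ l' * x + c' + sn * ρ)
    (g3 : ∀ j : ℤ, k' * rn ≤ 2 * j * ρ → 2 * j * ρ ≤ (k' + 1) * rn →
      gam (2 * j * ρ) = l' * (2 * j * ρ) + c')
    (g4 : ∀ j : ℤ, k' * rn ≤ (2 * j + 1) * ρ → (2 * j + 1) * ρ ≤ (k' + 1) * rn →
      gam ((2 * j + 1) * ρ) = l' * ((2 * j + 1) * ρ) + c' + sn * ρ)
    (H1 : ∀ x : ℝ, k' * rn ≤ x → x ≤ (k' + 1) * rn →
      f (x + t₁ * ω, gam x + t₁ * (ω * σ)) - f (x, gam x) ≤ A)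
    (H2 : ∀ x : ℝ, k' * rn ≤ x → x ≤ (k' + 1) * rn →
      A + 2 * β ≤ f (x, gam x) - f (x - t₁ * ω, gam x - t₁ * (ω * σ)))
    (H3 : ∀ x : ℝ, k' * rn ≤ x → x ≤ (k' + 1) * rn → |f (x, gam x) - c₀| ≤ 1)
    (H4 : ∀ x : ℝ, k' * rn ≤ x → x ≤ (k' + 1) * rn → ∀ t, 0 ≤ t → t ≤ t₁ →
      gam (x + t * ω) ≤ gam x + t * (ω * σ))
    (H5 : ∀ x : ℝ, k' * rn ≤ x → x ≤ (k' + 1) * rn → ∀ t, 0 ≤ t → t ≤ t₁ →
      gam x - t * (ω * σ) ≤ gam (x - t * ω))
    (hθ : θ = ω * (σ - l')) (hθ0 : 0 < θ) (hθs : sn < θ) (hθU : θ ≤ U) :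
    16 * m * sn * rn * β ≤ 64 * U * t₁ := by
  have hm1 : (1 : ℝ) ≤ m := by exact_mod_cast hm
  have hωabs : |ω| = 1 := by
    have h1 : |ω| * |ω| = 1 := by rw [← abs_mul, hω, abs_one]
    have h2 := abs_nonneg ω
    nlinarith
  set ζ := sn * ρ / θ with hζ
  have hζ0 : 0 < ζ := by positivity
  have hζθ : ζ * θ = sn * ρ := by rw [hζ]; field_simp
  have hζρ : ζ < ρ := by
    rw [hζ, div_lt_iff₀ hθ0]
    nlinarith
  have hmρ : ρ ≤ m * ρ := le_mul_of_one_le_left hρ.le hm1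
  have hρr : ρ ≤ rn := by rw [hrn]; nlinarith
  have hζt : ζ ≤ t₁ := by linarith
  have hζω : |ζ * ω| = ζ := by rw [abs_mul, hωabs, mul_one, abs_of_pos hζ0]
  have hζω' := abs_le.1 hζω.le
  set j₀ : ℤ := k' * (8 * m) with hj₀
  have hj₀' : (k' : ℝ) * rn = 2 * (j₀ : ℝ) * ρ := by
    rw [hrn, hj₀]
    push_cast
    ring
  have hj₀'' : ((k' : ℝ) + 1) * rn = 2 * (j₀ : ℝ) * ρ + 16 * (m * ρ) := by
    rw [add_mul, hj₀', one_mul, hrn]
    ring
  rw [hj₀', hj₀''] at g1 g3 g4 H1 H2 H3 H4 H5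
  set a : ℝ := 2 * (j₀ : ℝ) * ρ with ha
  set b : ℝ := a + 16 * (m * ρ) with hb
  -- the two convex functions
  set φ : ℝ → ℝ := fun x => f (x, l' * x + c') with hφ
  set ψ : ℝ → ℝ := fun x => f (x + ζ * ω, l' * x + c' + ζ * (ω * σ)) with hψ
  have hφc : ConvexOn ℝ (Icc (a + ρ) (b - ρ)) φ := by
    have h1 := convex_below hf hloc (convex_Icc (a + ρ) (b - ρ)) (0, c') (1, l') (fun t ht => by
      have := (g1 t (by linarith [ht.1]) (by linarith [ht.2])).1
      simp only [mul_one, zero_add]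
      linarith)
    refine h1.congr fun x _ => ?_
    simp only [hφ]
    congr 1
    ext
    · simp
    · simp; ring
  have hψc : ConvexOn ℝ (Icc (a + ρ) (b - ρ)) ψ := by
    have h1 := convex_above hf hloc (convex_Icc (a + ρ) (b - ρ)) (ζ * ω, c' + ζ * (ω * σ)) (1, l')
      (fun t ht => by
        have h2 := (g1 (ζ * ω + t) (by linarith [ht.1]) (by linarith [ht.2])).2
        simp only [mul_one]
        have h3 : ζ * θ = ζ * (ω * σ) - l' * (ζ * ω) := by rw [hθ]; ring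
        linarith)
    refine h1.congr fun x _ => ?_
    simp only [hψ]
    congr 1
    ext
    · simp; ring
    · simp; ring
  set x : ℕ → ℝ := fun j => 2 * ((j₀ + 1 + j : ℤ) : ℝ) * ρ with hx
  set x' : ℕ → ℝ := fun j => (2 * ((j₀ + 1 + j : ℤ) : ℝ) + 1) * ρ - ζ * ω with hx'
  have hxa : ∀ j, x j = a + 2 * ρ + 2 * j * ρ := fun j => by
    simp only [hx]; push_cast; ring
  have hqa : ∀ j : ℕ, (2 * ((j₀ + 1 + j : ℤ) : ℝ) + 1) * ρ = x j + ρ := fun j => by
    simp only [hx]; ring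
  have hj4 : ∀ j : ℕ, j ≤ 4 * m → (j : ℝ) * ρ ≤ 4 * (m * ρ) := fun j hj => by
    have : (j : ℝ) ≤ 4 * m := by exact_mod_cast hj
    nlinarith
  have hj0 : ∀ j : ℕ, 0 ≤ (j : ℝ) * ρ := fun j => by positivity
  have hφx : ∀ j ≤ 4 * m, φ (x j) = f (x j, gam (x j)) := by
    intro j hj
    have h1 := g3 (j₀ + 1 + j) (by
      have := hxa j; have := hj0 j
      change a ≤ x j
      linarith) (by
      have := hxa j; have := hj4 j hj
      change x j ≤ b
      linarith)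
    have h2 : gam (x j) = l' * x j + c' := h1
    rw [h2]
  have hmain := osc (A := ζ / t₁ * A) (η := 2 * β * ζ / t₁) (x := x) (x' := x') (m := m)
    hφc hψc hρ (by positivity) (by
      intro j
      simp only [hx]; push_cast; ring) (by
      intro j
      have h1 := hqa j
      simp only [hx'] 
      rw [h1, hxa (j + 1), hxa j]
      push_cast
      constructor <;> linarith) (by
      intro j hj
      have h1 := hxa j
      have h2 := hj0 j
      have h3 := hj4 j hj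
      constructor <;> linarith) (by
      intro j hj
      have h1 := hxa j
      have h2 := hj0 j
      have h3 := hj4 j hj
      have hxl : a ≤ x j := by linarith
      have hxu : x j ≤ b := by linarith
      have e1 : gam (x j) = l' * x j + c' := g3 (j₀ + 1 + j) hxl hxu
      have e2 := convex_above hf hloc (convex_Icc 0 t₁) (x j, gam (x j)) (ω, ω * σ)
        (fun t ht => H4 (x j) hxl hxu t ht.1 ht.2)
      have e3 := e2.2 (left_mem_Icc.2 ht₁.le) (right_mem_Icc.2 ht₁.le)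
        (sub_nonneg.2 ((div_le_one ht₁).2 hζt)) (div_nonneg hζ0.le ht₁.le) (by ring)
      have e4 : (1 - ζ / t₁) • (0:ℝ) + (ζ / t₁) • t₁ = ζ := by
        simp only [smul_eq_mul, mul_zero, zero_add]
        field_simp
      rw [e4] at e3
      simp only [zero_smul, add_zero, smul_eq_mul] at e3
      have e5 : (x j, gam (x j)) + ζ • (ω, ω * σ) = (x j + ζ * ω, l' * x j + c' + ζ * (ω * σ)) := by
        rw [e1]; ext <;> simp
      have e6 : (x j, gam (x j)) + t₁ • (ω, ω * σ) = (x j + t₁ * ω, gam (x j) + t₁ * (ω * σ)) := by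
        ext <;> simp
      rw [e5, e6] at e3
      have e7 := H1 (x j) hxl hxu
      have e8 : φ (x j) = f (x j, gam (x j)) := hφx j hj
      rw [e8]
      have e9 : ψ (x j) = f (x j + ζ * ω, l' * x j + c' + ζ * (ω * σ)) := rfl
      rw [e9]
      have e10 : ζ / t₁ * (f (x j + t₁ * ω, gam (x j) + t₁ * (ω * σ)) - f (x j, gam (x j)))
          ≤ ζ / t₁ * A := mul_le_mul_of_nonneg_left e7 (by positivity)
      nlinarith) (by
      intro j hj
      have h1 := hxa j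
      have h2 := hj0 j
      have h3 := hj4 (j + 1) hj
      push_cast at h3
      set q := (2 * ((j₀ + 1 + j : ℤ) : ℝ) + 1) * ρ with hq
      have hqx : q = x j + ρ := hqa j
      have hxl : a ≤ q := by linarith
      have hxu : q ≤ b := by linarith
      have e1 : gam q = l' * q + c' + sn * ρ := g4 (j₀ + 1 + j) hxl hxu
      have e2 := convex_below hf hloc (convex_Icc (-t₁) 0) (q, gam q) (ω, ω * σ)
        (fun t ht => by
          have := H5 q hxl hxu (-t) (by linarith [ht.2]) (by linarith [ht.1])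
          simpa using this)
      have e3 := e2.2 (right_mem_Icc.2 (by linarith : -t₁ ≤ 0)) (left_mem_Icc.2 (by linarith : -t₁ ≤ 0))
        (sub_nonneg.2 ((div_le_one ht₁).2 hζt)) (div_nonneg hζ0.le ht₁.le) (by ring)
      have e4 : (1 - ζ / t₁) • (0:ℝ) + (ζ / t₁) • (-t₁) = -ζ := by
        simp only [smul_eq_mul, mul_zero, zero_add]
        field_simp
      rw [e4] at e3
      simp only [zero_smul, add_zero, smul_eq_mul] at e3
      have hx'q : x' j = q - ζ * ω := rfl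
      have e5 : (q, gam q) + (-ζ) • (ω, ω * σ) = (x' j, l' * x' j + c') := by
        rw [e1, hx'q]
        have h3 : sn * ρ = ζ * (ω * σ) - l' * (ζ * ω) := by rw [← hζθ, hθ]; ring
        ext
        · simp; ring
        · simp; linarith
      have e6 : (q, gam q) + (-t₁) • (ω, ω * σ) = (q - t₁ * ω, gam q - t₁ * (ω * σ)) := by
        ext <;> simp <;> ring
      rw [e5, e6] at e3
      have e7 := H2 q hxl hxu
      have e8 : φ (x' j) = f (x' j, l' * x' j + c') := rfl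
      rw [e8]
      have e9 : ψ (x' j) = f (q, gam q) := by
        simp only [hψ]
        have h3 : sn * ρ = ζ * (ω * σ) - l' * (ζ * ω) := by rw [← hζθ, hθ]; ring
        rw [e1, hx'q]
        congr 1
        ext
        · simp
        · simp; linarith
      rw [e9]
      have e10 : ζ / t₁ * (A + 2 * β) ≤
          ζ / t₁ * (f (q, gam q) - f (q - t₁ * ω, gam q - t₁ * (ω * σ))) :=
        mul_le_mul_of_nonneg_left e7 (by positivity)
      have e11 : ζ / t₁ * (A + 2 * β) = ζ / t₁ * A + 2 * β * ζ / t₁ := by ring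
      nlinarith)
  have hval : ∀ j ≤ 4 * m, |φ (x j) - c₀| ≤ 1 := by
    intro j hj
    have h1 := hxa j
    have h2 := hj0 j
    have h3 := hj4 j hj
    rw [hφx j hj]
    exact H3 (x j) (by linarith) (by linarith)
  have v1 := abs_le.1 (hval (4 * m) le_rfl)
  have v2 := abs_le.1 (hval (2 * m) (by omega))
  have v3 := abs_le.1 (hval 0 (by omega))
  have hfin : 8 * (m : ℝ) ^ 2 * (2 * β * ζ / t₁) ≤ 4 := by linarith
  have h1 : 8 * (m : ℝ) ^ 2 * (2 * β * ζ) ≤ 4 * t₁ := by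
    have : 8 * (m : ℝ) ^ 2 * (2 * β * ζ / t₁) = 8 * (m : ℝ) ^ 2 * (2 * β * ζ) / t₁ := by ring
    rw [this, div_le_iff₀ ht₁] at hfin
    exact hfin
  have h2 : 16 * m * sn * rn * β = 16 * (8 * (m : ℝ) ^ 2 * (2 * β * ζ)) * θ := by
    rw [hrn]
    have : 16 * (8 * (m : ℝ) ^ 2 * (2 * β * ζ)) * θ = 256 * (m : ℝ) ^ 2 * β * (ζ * θ) := by ring
    rw [this, hζθ]
    ring
  rw [h2]
  have h3 : 16 * (8 * (m : ℝ) ^ 2 * (2 * β * ζ)) * θ ≤ 16 * (4 * t₁) * θ := by gcongr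
  have h4 : 16 * (4 * t₁) * θ ≤ 16 * (4 * t₁) * U := by gcongr
  linarith

end Pool.Agent.V1169.Graph
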