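import Pool.Agent.V1169.Graph3

/-! The sawtooth graph is `c`-removable: conclusion. -/

set_option autoImplicit false

open Set Filter Topology MeasureTheory

namespace Pool.Agent.V1169.Graph

theorem core {f : ℝ × ℝ → ℝ} (hf : Continuous f) (hloc : LocallyConvexOn Grᶜ f) {σ : ℝ} {N : ℕ}
    (hgood : ∀ l ∈ Lam (N + 1), S (N + 1) < |σ - l|) {x₀ : ℝ} (hx₀ : ∀ k : ℤ, x₀ ≠ k * r N)
    {δ : ℝ} (hδ : 0 < δ) (hcon : ∀ η, 0 < η → η < δ →
      f (x₀ - η, gam x₀ - η * σ) + f (x₀ + η, gam x₀ + η * σ) < 2 * f (x₀, gam x₀)) : False := by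
  have hrN := r_pos N
  set k : ℤ := ⌊x₀ / r N⌋ with hk
  have hk1 : k * r N < x₀ := by
    have h1 : (k : ℝ) ≤ x₀ / r N := Int.floor_le _
    rw [le_div_iff₀ hrN] at h1
    exact lt_of_le_of_ne h1 (fun h => hx₀ k h.symm)
  have hk2 : x₀ < (k + 1) * r N := by
    have h1 : x₀ / r N < k + 1 := Int.lt_floor_add_one _
    rwa [div_lt_iff₀ hrN] at h1
  obtain ⟨l, hl, c, -, hlip, -, -⟩ := edge N k
  obtain ⟨ω, hω, hωS⟩ : ∃ ω : ℝ, (ω = 1 ∨ ω = -1) ∧ S (N + 1) < ω * (σ - l) := by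
    have h1 := hgood l hl
    rcases le_total 0 (σ - l) with h2 | h2
    · rw [abs_of_nonneg h2] at h1
      exact ⟨1, Or.inl rfl, by linarith⟩
    · rw [abs_of_nonpos h2] at h1
      exact ⟨-1, Or.inr rfl, by linarith⟩
  have hωabs : |ω| = 1 := by rcases hω with rfl | rfl <;> simp
  have hωsq : ω * ω = 1 := by rcases hω with rfl | rfl <;> norm_num
  set ε₀ := ω * (σ - l) - S (N + 1) with hε₀
  have hε₀0 : 0 < ε₀ := by linarith
  -- transversality
  have htrans : ∀ x y t : ℝ, k * r N ≤ x → x ≤ (k + 1) * r N → k * r N ≤ y → y ≤ (k + 1) * r N →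
      0 ≤ t → y = x + t * ω → gam y ≤ gam x + t * (ω * σ) := by
    intro x y t h1 h2 h3 h4 ht hy
    have h5 := hlip y x h3 h4 h1 h2
    have h6 : y - x = t * ω := by linarith
    rw [h6, abs_mul, hωabs, abs_of_nonneg ht, mul_one] at h5
    have h7 := (abs_le.1 h5).2
    have h8 : 0 ≤ t * ε₀ := mul_nonneg ht hε₀0.le
    have h9 : t * ε₀ = t * (ω * σ) - l * (t * ω) - S (N + 1) * t := by rw [hε₀]; ring
    linarith
  set δ₀ := min (x₀ - k * r N) ((k + 1) * r N - x₀) / 2 with hδ₀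
  have hδ₀0 : 0 < δ₀ := by
    have : 0 < min (x₀ - k * r N) ((k + 1) * r N - x₀) := lt_min (by linarith) (by linarith)
    linarith
  have hδ₀1 : 2 * δ₀ ≤ x₀ - k * r N := by
    have : min (x₀ - k * r N) ((k + 1) * r N - x₀) ≤ x₀ - k * r N := min_le_left _ _
    linarith
  have hδ₀2 : 2 * δ₀ ≤ (k + 1) * r N - x₀ := by
    have : min (x₀ - k * r N) ((k + 1) * r N - x₀) ≤ (k + 1) * r N - x₀ := min_le_right _ _
    linarith
  set t₁ := min δ₀ (δ / 2) with ht₁
  have ht₁0 : 0 < t₁ := lt_min hδ₀0 (by linarith)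
  have ht₁1 : t₁ ≤ δ₀ := min_le_left _ _
  have ht₁2 : t₁ < δ := (min_le_right _ _).trans_lt (by linarith)
  set Fp : ℝ × ℝ → ℝ := fun z => f (z.1 + t₁ * ω, z.2 + t₁ * (ω * σ)) - f z with hFp
  set Fm : ℝ × ℝ → ℝ := fun z => f z - f (z.1 - t₁ * ω, z.2 - t₁ * (ω * σ)) with hFm
  have hFpc : Continuous Fp := by fun_prop
  have hFmc : Continuous Fm := by fun_prop
  set p : ℝ × ℝ := (x₀, gam x₀) with hp
  have hgap : Fp p < Fm p := by
    have h1 := hcon t₁ ht₁0 ht₁2
    simp only [hFp, hFm, hp]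
    rcases hω with hω | hω
    · rw [hω]
      simp only [mul_one, one_mul]
      linarith
    · rw [hω]
      have e1 : x₀ + t₁ * (-1) = x₀ - t₁ := by ring
      have e2 : gam x₀ + t₁ * (-1 * σ) = gam x₀ - t₁ * σ := by ring
      have e3 : x₀ - t₁ * (-1) = x₀ + t₁ := by ring
      have e4 : gam x₀ - t₁ * (-1 * σ) = gam x₀ + t₁ * σ := by ring
      rw [e1, e2, e3, e4]
      linarith
  set β := (Fm p - Fp p) / 4 with hβ
  have hβ0 : 0 < β := by linarith
  set A := Fp p + β with hA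
  have hev : ∀ᶠ x in 𝓝 x₀, Fp (x, gam x) < A ∧ A + 2 * β < Fm (x, gam x) ∧
      |f (x, gam x) - f p| < 1 := by
    have hc : Continuous fun x : ℝ => (x, gam x) := continuous_id.prodMk continuous_gam
    have e1 : ∀ᶠ x in 𝓝 x₀, Fp (x, gam x) < A :=
      (hFpc.comp hc).continuousAt.eventually_lt continuousAt_const (by
        change Fp p < A
        linarith)
    have e2 : ∀ᶠ x in 𝓝 x₀, A + 2 * β < Fm (x, gam x) :=
      continuousAt_const.eventually_lt (hFmc.comp hc).continuousAt (by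
        change A + 2 * β < Fm p
        linarith)
    have e3 : ∀ᶠ x in 𝓝 x₀, |f (x, gam x) - f p| < 1 := by
      have h1 : Continuous fun x : ℝ => |f (x, gam x) - f p| := by
        have := hf.comp hc
        exact (this.sub continuous_const).abs
      refine h1.continuousAt.eventually_lt continuousAt_const ?_
      simp [hp]
    filter_upwards [e1, e2, e3] with x h1 h2 h3 using ⟨h1, h2, h3⟩
  obtain ⟨δ₁, hδ₁0, hδ₁⟩ := Metric.eventually_nhds_iff.1 hev
  set U : ℝ := |σ| + 4 / 3 with hU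
  have hU0 : 0 < U := by positivity
  -- choose a level
  obtain ⟨n, hn1, hr1, hr2, hs1, hbig⟩ : ∃ n : ℕ, 1 ≤ n ∧ r n < t₁ ∧ r n < δ₁ ∧
      s (n + 1) < ε₀ ∧ 64 * U * t₁ / β <
        (2 : ℝ) ^ (4 ^ (n + 1) - 4 ^ n) * s (n + 1) * r n := by
    have e1 := tendsto_r.eventually_lt_const ht₁0
    have e2 := tendsto_r.eventually_lt_const hδ₁0
    have e3 := (tendsto_s.comp (tendsto_add_atTop_nat 1)).eventually_lt_const hε₀0
    have e4 := tendsto_big.eventually_gt_atTop (64 * U * t₁ / β)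
    obtain ⟨n, h2, h3, h4, h5, h6⟩ :=
      ((eventually_ge_atTop 1).and (e1.and (e2.and (e3.and e4)))).exists
    exact ⟨n, h2, h3, h4, h5, h6⟩
  have hrn := r_pos n
  have hρ := r_pos (n + 1)
  have hsn := s_pos (n + 1)
  set k' : ℤ := ⌊x₀ / r n⌋ with hk'
  have hk'1 : k' * r n ≤ x₀ := by
    have h1 : (k' : ℝ) ≤ x₀ / r n := Int.floor_le _
    rwa [le_div_iff₀ hrn] at h1
  have hk'2 : x₀ < (k' + 1) * r n := by
    have h1 : x₀ / r n < k' + 1 := Int.lt_floor_add_one _
    rwa [div_lt_iff₀ hrn] at h1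
  have hnear : ∀ x, k' * r n ≤ x → x ≤ (k' + 1) * r n → |x - x₀| ≤ r n := by
    intro x h1 h2
    rw [abs_le]
    constructor <;> nlinarith
  obtain ⟨m, hm, hrρ, hR⟩ := teeth hn1
  have hm1 : (1 : ℝ) ≤ m := by exact_mod_cast hm
  obtain ⟨l', hl', c', g1, -, g3, g4⟩ := edge n k'
  have hinN : ∀ x, |x - x₀| ≤ 2 * δ₀ → k * r N ≤ x ∧ x ≤ (k + 1) * r N := by
    intro x hx
    have := abs_le.1 hx
    constructor <;> linarith
  -- slope comparison
  have hll : |l' - l| ≤ S (N + 1) := by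
    set ρ := r (n + 1) with hρdef
    have hρm : ρ ≤ m * ρ := le_mul_of_one_le_left hρ.le hm1
    set j₀ : ℤ := k' * (8 * m) with hj₀
    have hj₀' : (k' : ℝ) * r n = 2 * (j₀ : ℝ) * ρ := by
      rw [hrρ, hj₀]
      push_cast
      ring
    have hj₀'' : ((k' : ℝ) + 1) * r n = 2 * (j₀ : ℝ) * ρ + 16 * (m * ρ) := by
      rw [add_mul, hj₀', one_mul, hrρ]
      ring
    have c1 : (k' : ℝ) * r n ≤ 2 * (j₀ : ℝ) * ρ := hj₀'.le
    have c2 : 2 * (j₀ : ℝ) * ρ ≤ ((k' : ℝ) + 1) * r n := by rw [hj₀'']; linarith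
    have c0 : 2 * ((j₀ + 1 : ℤ) : ℝ) * ρ = 2 * (j₀ : ℝ) * ρ + 2 * ρ := by push_cast; ring
    have c3 : (k' : ℝ) * r n ≤ 2 * ((j₀ + 1 : ℤ) : ℝ) * ρ := by rw [c0]; linarith
    have c4 : 2 * ((j₀ + 1 : ℤ) : ℝ) * ρ ≤ ((k' : ℝ) + 1) * r n := by rw [hj₀'', c0]; linarith
    have e1 := g3 j₀ c1 c2
    have e2 := g3 (j₀ + 1) c3 c4
    have a1 := hinN (2 * (j₀ : ℝ) * ρ) (by
      have := hnear (2 * (j₀ : ℝ) * ρ) c1 c2
      linarith)
    have a2 := hinN (2 * ((j₀ + 1 : ℤ) : ℝ) * ρ) (by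
      have := hnear (2 * ((j₀ + 1 : ℤ) : ℝ) * ρ) c3 c4
      linarith)
    have e3 := hlip _ _ a2.1 a2.2 a1.1 a1.2
    rw [e1, e2] at e3
    have e4 : 2 * ((j₀ + 1 : ℤ) : ℝ) * ρ - 2 * (j₀ : ℝ) * ρ = 2 * ρ := by push_cast; ring
    have e5 : l' * (2 * ((j₀ + 1 : ℤ) : ℝ) * ρ) + c' - (l' * (2 * (j₀ : ℝ) * ρ) + c')
        - l * (2 * ((j₀ + 1 : ℤ) : ℝ) * ρ - 2 * (j₀ : ℝ) * ρ) = (l' - l) * (2 * ρ) := by
      push_cast; ring
    rw [e5, e4, abs_mul, abs_of_pos (by linarith : (0:ℝ) < 2 * ρ)] at e3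
    exact le_of_mul_le_mul_right e3 (by linarith)
  have hθ1 : ε₀ ≤ ω * (σ - l') := by
    have e1 : ω * (σ - l') = ω * (σ - l) - ω * (l' - l) := by ring
    have e2 : ω * (l' - l) ≤ |l' - l| := by
      refine (le_abs_self _).trans ?_
      rw [abs_mul, hωabs, one_mul]
    linarith
  have hθ2 : ω * (σ - l') ≤ U := by
    have e1 : ω * (σ - l') ≤ |σ - l'| := by
      refine (le_abs_self _).trans ?_
      rw [abs_mul, hωabs, one_mul]
    have e2 := abs_sub σ l'
    have e3 := abs_Lam (n + 1) l' hl'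
    have e4 := S_pos (n + 1)
    linarith
  have hδ₁' : ∀ x, k' * r n ≤ x → x ≤ (k' + 1) * r n → Fp (x, gam x) < A ∧
      A + 2 * β < Fm (x, gam x) ∧ |f (x, gam x) - f p| < 1 := by
    intro x h1 h2
    refine hδ₁ ?_
    rw [Real.dist_eq]
    exact (hnear x h1 h2).trans_lt hr2
  have hshift : ∀ x, k' * r n ≤ x → x ≤ (k' + 1) * r n → ∀ t, |t| ≤ t₁ →
      k * r N ≤ x + t * ω ∧ x + t * ω ≤ (k + 1) * r N := by
    intro x h1 h2 t ht
    refine hinN _ ?_
    have e1 : x + t * ω - x₀ = (x - x₀) + t * ω := by ring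
    rw [e1]
    refine (abs_add_le _ _).trans ?_
    rw [abs_mul, hωabs, mul_one]
    have := hnear x h1 h2
    linarith
  have hfin := core2 hf hloc (σ := σ) (ω := ω) (t₁ := t₁) (β := β) (A := A) (c₀ := f p)
    (ρ := r (n + 1)) (sn := s (n + 1)) (rn := r n) (l' := l') (c' := c') (θ := ω * (σ - l'))
    (U := U) (k' := k') (m := m) hm hωsq hρ hsn hrρ ht₁0 hr1.le hβ0 g1 g3 g4
    (fun x h1 h2 => (hδ₁' x h1 h2).1.le) (fun x h1 h2 => (hδ₁' x h1 h2).2.1.le)
    (fun x h1 h2 => (hδ₁' x h1 h2).2.2.le)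
    (fun x h1 h2 t ht0 ht1 => by
      have a1 := hshift x h1 h2 0 (by rw [abs_zero]; exact ht₁0.le)
      rw [zero_mul, add_zero] at a1
      have a2 := hshift x h1 h2 t (by rw [abs_of_nonneg ht0]; exact ht1)
      exact htrans x _ t a1.1 a1.2 a2.1 a2.2 ht0 rfl)
    (fun x h1 h2 t ht0 ht1 => by
      have a1 := hshift x h1 h2 0 (by rw [abs_zero]; exact ht₁0.le)
      rw [zero_mul, add_zero] at a1
      have a2 := hshift x h1 h2 (-t) (by rw [abs_neg, abs_of_nonneg ht0]; exact ht1)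
      have e1 : x + -t * ω = x - t * ω := by ring
      rw [e1] at a2
      have := htrans (x - t * ω) x t a2.1 a2.2 a1.1 a1.2 ht0 (by ring)
      linarith)
    rfl (hε₀0.trans_le hθ1) (hs1.trans_le hθ1) hθ2
  rw [div_lt_iff₀ hβ0, hR] at hbig
  linarith

theorem isGraph_removable : CRemovable Gr := by
  refine ⟨isClosed_Gr, fun f hf hloc => ?_⟩
  -- good slopes
  have hgood : ∀ (σ : ℝ) (N : ℕ), (∀ l ∈ Lam (N + 1), S (N + 1) < |σ - l|) → ∀ c : ℝ,
      ConvexOn ℝ univ fun x => f (x, σ * x + c) := by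
    intro σ N hN
    set bad : Set ℝ := range fun k : ℤ => gam (k * r N) - σ * (k * r N) with hbad
    have hD : Dense badᶜ := (countable_range _).dense_compl ℝ
    refine fun c => ?_
    have hcl : IsClosed {c : ℝ | ConvexOn ℝ univ fun x => f (x, σ * x + c)} := by
      have : {c : ℝ | ConvexOn ℝ univ fun x => f (x, σ * x + c)} = ⋂ (x : ℝ) (y : ℝ) (p : ℝ) (q : ℝ)
          (_ : 0 ≤ p) (_ : 0 ≤ q) (_ : p + q = 1), {c : ℝ | f (p • x + q • y, σ * (p • x + q • y) + c)
            ≤ p • f (x, σ * x + c) + q • f (y, σ * y + c)} := by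
        ext c
        simp only [mem_ofPred_eq, mem_iInter]
        constructor
        · intro h x y p q hp hq hpq
          exact h.2 (mem_univ x) (mem_univ y) hp hq hpq
        · intro h
          exact ⟨convex_univ, fun x _ y _ p q hp hq hpq => h x y p q hp hq hpq⟩
      rw [this]
      refine isClosed_iInter fun x => isClosed_iInter fun y => isClosed_iInter fun p =>
        isClosed_iInter fun q => isClosed_iInter fun _ => isClosed_iInter fun _ =>
        isClosed_iInter fun _ => isClosed_le (by fun_prop) (by fun_prop)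
    have hsub : badᶜ ⊆ {c : ℝ | ConvexOn ℝ univ fun x => f (x, σ * x + c)} := by
      intro c hc
      change ConvexOn ℝ univ fun x => f (x, σ * x + c)
      have hcont : Continuous fun x => f (x, σ * x + c) := by fun_prop
      refine convexOn_of_sym convex_univ hcont.continuousOn fun x₀ _ δ hδ => ?_
      by_contra hcon
      push Not at hcon
      by_cases hx : (x₀, σ * x₀ + c) ∈ Gr
      · have hx' : σ * x₀ + c = gam x₀ := hx
        refine core hf hloc hN (x₀ := x₀) ?_ hδ ?_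
        · intro k hk
          refine hc ⟨k, ?_⟩
          simp only
          rw [← hk]
          linarith
        · intro η h1 h2
          have h3 := hcon η h1 h2
          rw [← hx']
          have e1 : σ * (x₀ - η) + c = σ * x₀ + c - η * σ := by ring
          have e2 : σ * (x₀ + η) + c = σ * x₀ + c + η * σ := by ring
          rw [e1, e2] at h3
          exact h3
      · obtain ⟨V, hVo, -, hzV, -, hVf⟩ := hloc _ hx
        have e0 : (0, c) + x₀ • ((1 : ℝ), σ) = (x₀, σ * x₀ + c) := by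
          ext
          · simp
          · simp; ring
        obtain ⟨δ', hδ', hconv⟩ := local_line hVo hVf (0, c) (1, σ) x₀ (by rw [e0]; exact hzV)
        have hm : 0 < min δ δ' := lt_min hδ hδ'
        have hm1 : min δ δ' ≤ δ := min_le_left _ _
        have hm2 : min δ δ' ≤ δ' := min_le_right _ _
        set η := min δ δ' / 2 with hη
        have h1 := hconv.2 (⟨by linarith, by linarith⟩ : x₀ - η ∈ Ioo (x₀ - δ') (x₀ + δ'))
          (⟨by linarith, by linarith⟩ : x₀ + η ∈ Ioo (x₀ - δ') (x₀ + δ'))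
          (by norm_num : (0:ℝ) ≤ 1/2) (by norm_num : (0:ℝ) ≤ 1/2) (by norm_num)
        have h2 : (1/2 : ℝ) • (x₀ - η) + (1/2 : ℝ) • (x₀ + η) = x₀ := by
          simp only [smul_eq_mul]; ring
        rw [h2] at h1
        have e3 : ∀ t : ℝ, (0, c) + t • ((1 : ℝ), σ) = (t, σ * t + c) := by
          intro t
          ext
          · simp
          · simp; ring
        simp only [smul_eq_mul, e3] at h1
        have h3 := hcon η (by linarith) (by linarith)
        linarith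
    exact hcl.closure_subset_iff.2 hsub (hD c)
  -- all slopes
  have hall : ∀ σ c : ℝ, ConvexOn ℝ univ fun x => f (x, σ * x + c) := by
    intro σ c
    refine ⟨convex_univ, fun x _ y _ p q hp hq hpq => ?_⟩
    have hcl : IsClosed {σ : ℝ | f (p • x + q • y, σ * (p • x + q • y) + c)
        ≤ p • f (x, σ * x + c) + q • f (y, σ * y + c)} :=
      isClosed_le (by fun_prop) (by fun_prop)
    have hmem : σ ∈ closure {σ : ℝ | f (p • x + q • y, σ * (p • x + q • y) + c)
        ≤ p • f (x, σ * x + c) + q • f (y, σ * y + c)} := by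
      rw [Metric.mem_closure_iff]
      intro ε hε
      obtain ⟨σ', hσ', N, hN⟩ := exists_good (show σ < σ + ε by linarith)
      refine ⟨σ', (hgood σ' N hN c).2 (mem_univ x) (mem_univ y) hp hq hpq, ?_⟩
      rw [Real.dist_eq, abs_lt]
      constructor <;> linarith [hσ'.1, hσ'.2]
    rwa [hcl.closure_eq] at hmem
  -- conclusion
  refine ⟨convex_univ, fun z _ w _ p q hp hq hpq => ?_⟩
  -- perturb `w` so that the segment is not vertical
  have key : ∀ e : ℝ, z.1 ≠ w.1 + e → f (p • z + q • (w + (e, 0))) ≤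
      p • f z + q • f (w + (e, 0)) := by
    intro e he
    set σ := (w.2 - z.2) / (w.1 + e - z.1) with hσ
    have hne : w.1 + e - z.1 ≠ 0 := sub_ne_zero.2 (Ne.symm he)
    set c := z.2 - σ * z.1 with hc
    have h1 := (hall σ c).2 (mem_univ z.1) (mem_univ (w.1 + e)) hp hq hpq
    beta_reduce at h1
    have e1 : (z.1, σ * z.1 + c) = z := by
      ext
      · rfl
      · simp only [hc]; ring
    have e2 : (w.1 + e, σ * (w.1 + e) + c) = w + (e, 0) := by
      have : σ * (w.1 + e - z.1) = w.2 - z.2 := by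
        rw [hσ]; field_simp
      ext
      · rfl
      · simp only [hc, Prod.snd_add, add_zero]; linarith
    rw [e1, e2] at h1
    have e3 : (p • z.1 + q • (w.1 + e), σ * (p • z.1 + q • (w.1 + e)) + c)
        = p • z + q • (w + (e, 0)) := by
      rw [← e2]
      have hp' : p = 1 - q := by linarith
      ext
      · simp
      · simp only [smul_eq_mul, Prod.snd_add, Prod.smul_snd]
        rw [hp', hc]
        ring
    rw [e3] at h1
    exact h1
  have hclosed : IsClosed {e : ℝ | f (p • z + q • (w + (e, 0))) ≤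
      p • f z + q • f (w + (e, 0))} := isClosed_le (by fun_prop) (by fun_prop)
  have hdense : Dense ({z.1 - w.1}ᶜ : Set ℝ) := dense_compl_singleton _
  have hsub : ({z.1 - w.1}ᶜ : Set ℝ) ⊆ {e : ℝ | f (p • z + q • (w + (e, 0))) ≤
      p • f z + q • f (w + (e, 0))} := by
    intro e he
    refine key e fun h => he ?_
    rw [mem_singleton_iff]
    linarith
  have h0 : f (p • z + q • (w + ((0:ℝ), (0:ℝ)))) ≤ p • f z + q • f (w + ((0:ℝ), (0:ℝ))) :=
    hclosed.closure_subset_iff.2 hsub (hdense 0)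
  have e0 : w + ((0:ℝ), (0:ℝ)) = w := by ext <;> simp
  rw [e0] at h0
  exact h0

/-- Closed subsets of `c`-removable sets are `c`-removable. -/
theorem CRemovable.mono {A B : Set (ℝ × ℝ)} (hB : CRemovable B) (hA : IsClosed A) (hAB : A ⊆ B) :
    CRemovable A := by
  refine ⟨hA, fun f hf hloc => hB.2 f hf fun z hz => ?_⟩
  obtain ⟨V, hVo, hVc, hzV, hVA, hVf⟩ := hloc z fun h => hz (hAB h)
  obtain ⟨δ, hδ, hball⟩ := Metric.isOpen_iff.1 hB.1.isOpen_compl z hz
  exact ⟨V ∩ Metric.ball z δ, hVo.inter Metric.isOpen_ball, hVc.inter (convex_ball _ _),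
    ⟨hzV, Metric.mem_ball_self hδ⟩, fun w hw => hball hw.2,
    hVf.subset inter_subset_left (hVc.inter (convex_ball _ _))⟩

end Pool.Agent.V1169.Graph
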