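import Pool.Agent.TH222.QP7

/-! Blaschke products preserve suprema; domination of a Blaschke product by one with a sequence of
zeros; division by a Blaschke product with simple zeros. -/

set_option autoImplicit false

open Filter Topology Metric MeasureTheory Set Pool.Agent.TH222.QP

namespace Pool.Agent.V1169.Irr

lemma sup_bf {a : ℂ} (ha : ‖a‖ < 1) {g : ℂ → ℂ} (hg : DifferentiableOn ℂ g (ball 0 1)) {M : ℝ}
    (hM : ∀ z, ‖z‖ < 1 → ‖bf a z * g z‖ ≤ M) {z : ℂ} (hz : ‖z‖ < 1) : ‖g z‖ ≤ M := by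
  have hM0 : 0 ≤ M := (norm_nonneg _).trans (hM z hz)
  set C : ℝ := 1 / (1 - ‖a‖) ^ 2 with hC
  have hlim : Tendsto (fun r : ℝ => ‖g z‖ * (1 - C * (1 - r ^ 2))) (𝓝[<] 1) (𝓝 (‖g z‖ * (1 - C * (1 - 1 ^ 2)))) := by
    have : Continuous fun r : ℝ => ‖g z‖ * (1 - C * (1 - r ^ 2)) := by fun_prop
    exact (this.tendsto 1).mono_left nhdsWithin_le_nhds
  have h1 : ‖g z‖ * (1 - C * (1 - 1 ^ 2)) ≤ M := by
    refine le_of_tendsto hlim ?_
    have e1 : ∀ᶠ r : ℝ in 𝓝[<] 1, ‖z‖ < r := by
      filter_upwards [Ioo_mem_nhdsLT hz] with r hr using hr.1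
    have e2 : ∀ᶠ r : ℝ in 𝓝[<] 1, 0 < 1 - C * (1 - r ^ 2) := by
      have : Continuous fun r : ℝ => 1 - C * (1 - r ^ 2) := by fun_prop
      have h2 := (this.tendsto 1).mono_left (nhdsWithin_le_nhds (s := Iio 1))
      refine h2.eventually_const_lt ?_
      norm_num
    filter_upwards [e1, e2, self_mem_nhdsWithin] with r hr1 hr2 hr3
    have hr3' : r < 1 := hr3
    have hr0 : 0 < r := lt_of_le_of_lt (norm_nonneg z) hr1
    have hsub : closedBall (0:ℂ) r ⊆ ball 0 1 := closedBall_subset_ball hr3'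
    have hd : DiffContOnCl ℂ g (ball 0 r) := by
      refine DifferentiableOn.diffContOnCl ?_
      rw [closure_ball _ hr0.ne']
      exact hg.mono hsub
    have hfr : ∀ w ∈ frontier (ball (0:ℂ) r), ‖g w‖ ≤ M / (1 - C * (1 - r ^ 2)) := by
      intro w hw
      rw [frontier_ball _ hr0.ne', mem_sphere_zero_iff_norm] at hw
      have hw1 : ‖w‖ < 1 := by rw [hw]; exact hr3'
      have h2 := one_sub_bf_le ha hw1
      rw [hw] at h2
      have h3 := hM w hw1
      rw [norm_mul] at h3
      rw [le_div_iff₀ hr2]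
      have h4 : 1 - C * (1 - r ^ 2) ≤ ‖bf a w‖ := by rw [hC]; linarith
      calc ‖g w‖ * (1 - C * (1 - r ^ 2)) ≤ ‖g w‖ * ‖bf a w‖ :=
            mul_le_mul_of_nonneg_left h4 (norm_nonneg _)
        _ ≤ M := by rw [mul_comm]; exact h3
    have h5 := Complex.norm_le_of_forall_mem_frontier_norm_le isBounded_ball hd hfr
      (z := z) (subset_closure (mem_ball_zero_iff.2 hr1))
    rwa [le_div_iff₀ hr2] at h5
  simpa using h1

lemma sup_prod {β : ℕ → ℂ} (h : BSeq β) (n : ℕ) {g : ℂ → ℂ} (hg : DifferentiableOn ℂ g (ball 0 1))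
    {M : ℝ} (hM : ∀ z, ‖z‖ < 1 → ‖(∏ k ∈ Finset.range n, bf (β k) z) * g z‖ ≤ M) :
    ∀ z, ‖z‖ < 1 → ‖g z‖ ≤ M := by
  induction n generalizing g with
  | zero =>
    intro z hz
    simpa using hM z hz
  | succ n ih =>
    have h1 := ih (g := fun z => bf (β n) z * g z) ((differentiableOn_bf (h.lt_one n)).mul hg)
      (fun z hz => by
        have := hM z hz
        rw [Finset.prod_range_succ, mul_assoc] at this
        exact this)
    intro z hz
    exact sup_bf (h.lt_one n) hg h1 hz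

lemma sup_B {β : ℕ → ℂ} (h : BSeq β) {g : ℂ → ℂ} (hg : DifferentiableOn ℂ g (ball 0 1)) {M : ℝ}
    (hM : ∀ z, ‖z‖ < 1 → ‖B β z * g z‖ ≤ M) : ∀ z, ‖z‖ < 1 → ‖g z‖ ≤ M := by
  intro z hz
  have h1 : ∀ n, ‖B (fun k => β (k + n)) z * g z‖ ≤ M := by
    intro n
    refine sup_prod h n (g := fun z => B (fun k => β (k + n)) z * g z)
      (((h.shift n).differentiableOn).mul hg) (fun w hw => ?_) z hz
    rw [← mul_assoc, ← h.B_split n hw]
    exact hM w hw
  have h2 := ((h.tendsto_tail hz).mul_const (g z)).norm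
  rw [one_mul] at h2
  exact le_of_tendsto h2 (Eventually.of_forall h1)

lemma sup_B_pow {β : ℕ → ℂ} (h : BSeq β) (n : ℕ) {g : ℂ → ℂ}
    (hg : DifferentiableOn ℂ g (ball 0 1)) {M : ℝ}
    (hM : ∀ z, ‖z‖ < 1 → ‖B β z ^ n * g z‖ ≤ M) : ∀ z, ‖z‖ < 1 → ‖g z‖ ≤ M := by
  induction n generalizing g with
  | zero =>
    intro z hz
    simpa using hM z hz
  | succ n ih =>
    refine sup_B h hg (ih (g := fun z => B β z * g z) (h.differentiableOn.mul hg) fun z hz => ?_)
    have := hM z hz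
    rw [pow_succ, mul_assoc] at this
    exact this

open Classical in
/-- A Blaschke product dominates the Blaschke product of a sequence. -/
lemma exists_dominated {b : ℂ → ℂ} (hb : IsBlaschke b) : ∃ α : ℕ → ℂ, BSeq α ∧
    ∀ z, ‖z‖ < 1 → ‖B α z‖ ≤ ‖b z‖ := by
  obtain ⟨ι, a, c, ha, hs, hc, h⟩ := hb
  set α : ℕ → ℂ := fun n => if hn : n ∈ ι then a ⟨n, hn⟩ else ((1 - (1 / 2) ^ (n + 1) : ℝ) : ℂ) with hα
  have hα1 : ∀ j : ι, α j = a j := fun j => by
    simp only [hα]
    rw [dif_pos j.2]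
  have hα2 : ∀ j : (ιᶜ : Set ℕ), α j = ((1 - (1 / 2) ^ ((j : ℕ) + 1) : ℝ) : ℂ) := fun j => by
    simp only [hα]
    rw [dif_neg j.2]
  have hpow : ∀ n : ℕ, (0:ℝ) < (1 / 2) ^ (n + 1) ∧ ((1:ℝ) / 2) ^ (n + 1) ≤ 1 := fun n =>
    ⟨by positivity, pow_le_one₀ (by norm_num) (by norm_num)⟩
  have hnorm2 : ∀ j : (ιᶜ : Set ℕ), ‖α j‖ = 1 - (1 / 2) ^ ((j : ℕ) + 1) := fun j => by
    rw [hα2 j, Complex.norm_real, Real.norm_of_nonneg (by linarith [(hpow j).2])]
  have hBS : BSeq α := by
    refine ⟨fun n => ?_, ?_⟩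
    · by_cases hn : n ∈ ι
      · have := hα1 ⟨n, hn⟩
        simp only at this
        rw [this]
        exact ha _
      · have := hnorm2 ⟨n, hn⟩
        simp only at this
        rw [this]
        linarith [(hpow n).1]
    · rw [← summable_subtype_and_compl (s := ι)]
      constructor
      · refine hs.congr fun j => ?_
        rw [hα1 j]
      · have hg : Summable fun n : ℕ => ((1:ℝ) / 2) ^ (n + 1) := by
          have := (summable_nat_add_iff (f := fun n : ℕ => ((1:ℝ) / 2) ^ n) 1).2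
            (summable_geometric_of_lt_one (by norm_num) (by norm_num))
          exact this
        refine (hg.subtype (ιᶜ : Set ℕ)).congr fun j => ?_
        rw [hnorm2 j]
        simp [Function.comp]
  refine ⟨α, hBS, fun z hz => ?_⟩
  have hlt2 : ∀ j : (ιᶜ : Set ℕ), ‖α j‖ < 1 := fun j => hBS.lt_one j
  have hs2 : Summable fun j : (ιᶜ : Set ℕ) => 1 - ‖α j‖ :=
    (summable_subtype_and_compl (s := ι)).2 hBS.summable |>.2
  have hs1 : Summable fun j : ι => 1 - ‖α j‖ :=
    (summable_subtype_and_compl (s := ι)).2 hBS.summable |>.1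
  have m1 : Multipliable fun j : ι => bf (α j) z :=
    multipliable_bf (a := fun j : ι => α j) (fun j => hBS.lt_one j) hs1 hz
  have m2 : Multipliable fun j : (ιᶜ : Set ℕ) => bf (α j) z := multipliable_bf hlt2 hs2 hz
  have h1 : B α z = (∏' j : ι, bf (α j) z) * ∏' j : (ιᶜ : Set ℕ), bf (α j) z := by
    exact (Multipliable.tprod_mul_tprod_compl (f := fun k => bf (α k) z) (s := ι) m1 m2).symm
  rw [h1, h z hz, norm_mul, norm_mul, hc, one_mul]
  have h2 : ‖∏' j : (ιᶜ : Set ℕ), bf (α j) z‖ ≤ 1 := by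
    refine le_of_tendsto (m2.hasProd.norm) (Eventually.of_forall fun s => ?_)
    exact Finset.prod_le_one (fun i _ => norm_nonneg _) (fun i _ => norm_bf_le (hlt2 i) hz.le)
  have h3 : (∏' j : ι, bf (α j) z) = ∏' j : ι, bf (a j) z := by
    refine tprod_congr fun j => ?_
    rw [hα1 j]
  rw [h3]
  exact mul_le_of_le_one_right (norm_nonneg _) h2

/-- Zeros are simple. -/
lemma factor {β : ℕ → ℂ} (hinj : Function.Injective β) (h : BSeq β) (k : ℕ) :
    ∃ R : ℂ → ℂ, DifferentiableOn ℂ R (ball 0 1) ∧ R (β k) ≠ 0 ∧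
      ∀ z, ‖z‖ < 1 → B β z = bf (β k) z * R z := by
  refine ⟨fun z => (∏ j ∈ Finset.range k, bf (β j) z) * B (fun j => β (j + (k + 1))) z, ?_, ?_, ?_⟩
  · refine DifferentiableOn.mul ?_ (h.shift (k + 1)).differentiableOn
    exact DifferentiableOn.fun_finsetProd fun j _ => differentiableOn_bf (h.lt_one j)
  · refine mul_ne_zero (Finset.prod_ne_zero_iff.2 fun j hj => ?_)
      ((h.shift (k + 1)).B_ne_zero (h.lt_one k) fun j hj => ?_)
    · intro h0
      have := hinj (bf_eq_zero (h.lt_one j) (h.lt_one k) h0)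
      rw [Finset.mem_range] at hj
      omega
    · have := hinj hj
      omega
  · intro z hz
    rw [h.B_split (k + 1) hz, Finset.prod_range_succ]
    ring

lemma deriv_B_ne {β : ℕ → ℂ} (hinj : Function.Injective β) (h : BSeq β) (k : ℕ) :
    deriv (B β) (β k) ≠ 0 := by
  obtain ⟨R, hR, hR0, hBR⟩ := factor hinj h k
  have hmem : ball (0:ℂ) 1 ∈ 𝓝 (β k) := isOpen_ball.mem_nhds (mem_ball_zero_iff.2 (h.lt_one k))
  have h1 : B β =ᶠ[𝓝 (β k)] fun z => bf (β k) z * R z := by
    filter_upwards [hmem] with z hz using hBR z (mem_ball_zero_iff.1 hz)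
  rw [h1.deriv_eq]
  have hb : DifferentiableAt ℂ (bf (β k)) (β k) := (differentiableOn_bf (h.lt_one k)).differentiableAt hmem
  have hRd : DifferentiableAt ℂ R (β k) := hR.differentiableAt hmem
  rw [deriv_fun_mul hb hRd, bf_self, zero_mul, add_zero]
  refine mul_ne_zero ?_ hR0
  by_cases h0 : β k = 0
  · have : bf (β k) = fun z => z := by
      funext z
      rw [bf, if_pos h0]
    rw [this, deriv_id'']
    exact one_ne_zero
  · have hd := den_ne (h.lt_one k) (h.lt_one k).le
    have e1 : bf (β k) = fun z => (‖β k‖ : ℂ) / β k * ((β k - z) / (1 - (starRingEnd ℂ) (β k) * z)) := by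
      funext z
      rw [bf, if_neg h0]
    have h2 : HasDerivAt (fun z => (‖β k‖ : ℂ) / β k * ((β k - z) / (1 - (starRingEnd ℂ) (β k) * z)))
        ((‖β k‖ : ℂ) / β k * (((-1) * (1 - (starRingEnd ℂ) (β k) * β k) -
          (β k - β k) * (-((starRingEnd ℂ) (β k) * 1))) / (1 - (starRingEnd ℂ) (β k) * β k) ^ 2)) (β k) := by
      refine HasDerivAt.const_mul _ (HasDerivAt.div ?_ ?_ hd)
      · exact (hasDerivAt_id (β k)).const_sub (β k)
      · exact ((hasDerivAt_id (β k)).const_mul _).const_sub 1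
    rw [e1, h2.deriv, sub_self, zero_mul, sub_zero]
    refine mul_ne_zero (div_ne_zero ?_ h0) (div_ne_zero (mul_ne_zero (by norm_num) hd) (pow_ne_zero 2 hd))
    exact_mod_cast (norm_ne_zero_iff.2 h0)

/-- Division by a Blaschke product with simple zeros. -/
lemma exists_div {β : ℕ → ℂ} (hinj : Function.Injective β) (h : BSeq β) {D : ℂ → ℂ}
    (hD : DifferentiableOn ℂ D (ball 0 1)) (hz0 : ∀ z, ‖z‖ < 1 → B β z = 0 → D z = 0) :
    ∃ g : ℂ → ℂ, DifferentiableOn ℂ g (ball 0 1) ∧ ∀ z, ‖z‖ < 1 → D z = g z * B β z := by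
  set g : ℂ → ℂ := fun z => if B β z = 0 then deriv D z / deriv (B β) z else D z / B β z with hg
  refine ⟨g, ?_, ?_⟩
  · intro z hz
    have hz1 : ‖z‖ < 1 := mem_ball_zero_iff.1 hz
    have hmem : ball (0:ℂ) 1 ∈ 𝓝 z := isOpen_ball.mem_nhds hz
    have hDz : DifferentiableAt ℂ D z := hD.differentiableAt hmem
    have hBz : DifferentiableAt ℂ (B β) z := h.differentiableOn.differentiableAt hmem
    by_cases h0 : B β z = 0
    · obtain ⟨k, hk⟩ : ∃ k, z = β k := by
        by_contra hne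
        push Not at hne
        exact h.B_ne_zero hz1 hne h0
      have hder : deriv (B β) z ≠ 0 := by rw [hk]; exact deriv_B_ne hinj h k
      have hDs : DifferentiableAt ℂ (dslope D z) z :=
        ((Complex.differentiableOn_dslope hmem).2 hD).differentiableAt hmem
      have hBs : DifferentiableAt ℂ (dslope (B β) z) z :=
        ((Complex.differentiableOn_dslope hmem).2 h.differentiableOn).differentiableAt hmem
      have hBs0 : dslope (B β) z z ≠ 0 := by rw [dslope_same]; exact hder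
      have hq : DifferentiableAt ℂ (fun w => dslope D z w / dslope (B β) z w) z := hDs.div hBs hBs0
      have heq : g =ᶠ[𝓝 z] fun w => dslope D z w / dslope (B β) z w := by
        have hne : ∀ᶠ w in 𝓝 z, dslope (B β) z w ≠ 0 := hBs.continuousAt.eventually_ne hBs0
        filter_upwards [hne] with w hw
        by_cases hwz : w = z
        · subst hwz
          simp only [hg, if_pos h0, dslope_same]
        · rw [dslope_of_ne _ hwz] at hw
          rw [dslope_of_ne _ hwz, dslope_of_ne _ hwz]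
          rw [slope_def_field, h0, sub_zero] at hw
          rw [slope_def_field, slope_def_field, h0, hz0 z hz1 h0, sub_zero, sub_zero]
          have hwz' : w - z ≠ 0 := sub_ne_zero.2 hwz
          have hBw : B β w ≠ 0 := fun h1 => hw (by rw [h1, zero_div])
          simp only [hg, if_neg hBw]
          field_simp
      exact (heq.differentiableAt_iff.2 hq).differentiableWithinAt
    · have heq : g =ᶠ[𝓝 z] fun w => D w / B β w := by
        filter_upwards [hBz.continuousAt.eventually_ne h0] with w hw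
        simp only [hg, if_neg hw]
      exact (heq.differentiableAt_iff.2 (hDz.div hBz h0)).differentiableWithinAt
  · intro z hz
    by_cases h0 : B β z = 0
    · rw [h0, mul_zero, hz0 z hz h0]
    · simp only [hg, if_neg h0]
      rw [div_mul_cancel₀ _ h0]

end Pool.Agent.V1169.Irr
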