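import Pool.Agent.V1169.Irr1

/-! Mean values, and functions on the covering surface. -/

set_option autoImplicit false

open Filter Topology Metric MeasureTheory Set Pool.Agent.TH222.QP

namespace Pool.Agent.V1169.Irr

lemma mean_value {u : ℂ → ℂ} (hu : DifferentiableOn ℂ u (ball 0 1)) {q : ℂ} (hq : ‖q‖ < 1) (k : ℕ) :
    ∫ t, u (gm q k t) ∂mu = (2 * Real.pi : ℝ) • u q := by
  have hr0 := rk_pos k
  have hr1 := rk_lt k
  have hr : |rk k| = rk k := abs_of_pos hr0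
  have hsub : closedBall (0:ℂ) (rk k) ⊆ ball 0 1 := closedBall_subset_ball hr1
  have hC : DifferentiableOn ℂ (fun z => u (mob q z)) (ball 0 1) :=
    hu.comp (differentiableOn_mob hq) (mapsTo_mob hq)
  have hd : DiffContOnCl ℂ (fun z => u (mob q z)) (ball 0 |rk k|) := by
    rw [hr]
    refine DifferentiableOn.diffContOnCl ?_
    rw [closure_ball _ hr0.ne']
    exact hC.mono hsub
  have hm := hd.circleAverage
  have h2 := circleAverage_mu (fun z => u (mob q z)) 0 (rk k)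
  rw [hm, mob_zero] at h2
  exact h2.symm

lemma continuous_comp_gm {u : ℂ → ℂ} (hu : ContinuousOn u (ball 0 1)) {q : ℂ} (hq : ‖q‖ < 1) (k : ℕ) :
    Continuous fun t => u (gm q k t) :=
  hu.comp_continuous (continuous_gm hq k) fun t => mem_ball_zero_iff.2 (norm_gm_lt hq k t)

lemma center {β α : ℕ → ℂ} (h : BSeq β) (h' : BSeq α) {u v : ℂ → ℂ}
    (hu : DifferentiableOn ℂ u (ball 0 1)) (hv : DifferentiableOn ℂ v (ball 0 1)) {K : ℝ}
    (hK0 : 0 ≤ K)
    (hK : ∀ z, ‖z‖ < 1 → ‖u z - (starRingEnd ℂ) (v z)‖ ≤ K * ((1 - ‖B β z‖) + (1 - ‖B α z‖)))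
    {q : ℂ} (hq : ‖q‖ < 1) : u q = (starRingEnd ℂ) (v q) := by
  have hmean : ∀ k, ∫ t, (u (gm q k t) - (starRingEnd ℂ) (v (gm q k t))) ∂mu
      = (2 * Real.pi : ℝ) • (u q - (starRingEnd ℂ) (v q)) := by
    intro k
    have c1 := continuous_comp_gm hu.continuousOn hq k
    have c2 := continuous_comp_gm hv.continuousOn hq k
    have i1 : Integrable (fun t => u (gm q k t)) mu := by
      rw [mu]
      exact (c1.integrableOn_Icc (a := 0) (b := 2 * Real.pi)).mono_set Ioc_subset_Icc_self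
    have c3 : Continuous fun t => (starRingEnd ℂ) (v (gm q k t)) := Complex.continuous_conj.comp c2
    have i2 : Integrable (fun t => (starRingEnd ℂ) (v (gm q k t))) mu := by
      rw [mu]
      exact (c3.integrableOn_Icc (a := 0) (b := 2 * Real.pi)).mono_set Ioc_subset_Icc_self
    rw [integral_sub i1 i2, integral_conj, mean_value hu hq k, mean_value hv hq k]
    simp only [Complex.real_smul, map_mul, Complex.conj_ofReal]
    ring
  have hle : ∀ k, ‖(2 * Real.pi : ℝ) • (u q - (starRingEnd ℂ) (v q))‖ₑ ≤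
      ENNReal.ofReal K * (∫⁻ t, ENNReal.ofReal (1 - ‖B β (gm q k t)‖) ∂mu +
        ∫⁻ t, ENNReal.ofReal (1 - ‖B α (gm q k t)‖) ∂mu) := by
    intro k
    rw [← hmean k]
    refine (enorm_integral_le_lintegral_enorm _).trans ?_
    have hm1 : Measurable fun t => ENNReal.ofReal (1 - ‖B β (gm q k t)‖) := by
      have := (continuous_comp_gm h.differentiableOn.continuousOn hq k).norm
      exact ENNReal.measurable_ofReal.comp (measurable_const.sub this.measurable)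
    rw [← lintegral_add_left hm1, ← lintegral_const_mul' _ _ ENNReal.ofReal_ne_top]
    refine lintegral_mono fun t => ?_
    have hz := norm_gm_lt hq k t
    have e1 := hK _ hz
    have e2 := h.norm_B_le hz
    have e3 := h'.norm_B_le hz
    rw [← ofReal_norm, ← ENNReal.ofReal_add (by linarith) (by linarith), ← ENNReal.ofReal_mul hK0]
    exact ENNReal.ofReal_le_ofReal e1
  have hlim : Tendsto (fun k => ENNReal.ofReal K * (∫⁻ t, ENNReal.ofReal (1 - ‖B β (gm q k t)‖) ∂mu +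
        ∫⁻ t, ENNReal.ofReal (1 - ‖B α (gm q k t)‖) ∂mu)) atTop (𝓝 0) := by
    have e1 := ENNReal.Tendsto.const_mul ((tendsto_B h hq).add (tendsto_B h' hq))
      (Or.inr (ENNReal.ofReal_ne_top (r := K)))
    simpa using e1
  have h0 : ‖(2 * Real.pi : ℝ) • (u q - (starRingEnd ℂ) (v q))‖ₑ ≤ 0 :=
    ge_of_tendsto' hlim hle
  have h1 : (2 * Real.pi : ℝ) • (u q - (starRingEnd ℂ) (v q)) = 0 := by
    rwa [nonpos_iff_eq_zero, enorm_eq_zero] at h0
  rcases smul_eq_zero.1 h1 with h2 | h2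
  · exact absurd h2 (by positivity)
  · exact sub_eq_zero.1 h2

/-! ### Holomorphic functions on the surface -/

section
variable {β : ℕ → ℂ}

lemma Hol.mul {f g : Cover β → ℂ} (hf : Hol β f) (hg : Hol β g) : Hol β fun p => f p * g p := by
  intro p
  obtain ⟨V, F, hV, hp, hF, he⟩ := hf p
  obtain ⟨W, G, hW, hpW, hG, heG⟩ := hg p
  exact ⟨V ∩ W, fun x => F x * G x, hV.inter hW, ⟨hp, hpW⟩,
    (hF.mono inter_subset_left).mul (hG.mono inter_subset_right),
    fun x hx => by simp only [he x hx.1, heG x hx.2]⟩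

lemma Hol.comp_sig {f : Cover β → ℂ} (hf : Hol β f) : Hol β fun p => f (sig p) := by
  intro p
  obtain ⟨V, F, hV, hp, hF, he⟩ := hf (sig p)
  have hc : Continuous fun x : ℂ × ℂ => (x.1, -x.2) := by fun_prop
  refine ⟨(fun x : ℂ × ℂ => (x.1, -x.2)) ⁻¹' V, fun x => F (x.1, -x.2), hV.preimage hc, hp, ?_,
    fun x hx => he (sig x) hx⟩
  have hd : Differentiable ℂ fun x : ℂ × ℂ => (x.1, -x.2) := by fun_prop
  exact hF.comp hd.differentiableOn fun x hx => hx

lemma Hol.of_phi {u : ℂ → ℂ} (hu : DifferentiableOn ℂ u (ball 0 1)) : Hol β fun p => u p.phi := by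
  intro p
  refine ⟨{x : ℂ × ℂ | ‖x.1‖ < 1}, fun x => u x.1, ?_, p.norm_phi_lt, ?_, fun x _ => rfl⟩
  · exact isOpen_lt (by fun_prop) continuous_const
  · exact hu.comp differentiableOn_fst fun x hx => mem_ball_zero_iff.2 hx

lemma Hol.theta : Hol β fun p => p.theta := fun _ =>
  ⟨univ, fun x => x.2, isOpen_univ, mem_univ _, differentiableOn_snd, fun _ _ => rfl⟩

lemma Hol.const (c : ℂ) : Hol β fun _ => c := fun _ =>
  ⟨univ, fun _ => c, isOpen_univ, mem_univ _, differentiableOn_const _, fun _ _ => rfl⟩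

lemma sig_sig (p : Cover β) : sig (sig p) = p := by
  cases p
  simp [sig]

/-- Multiplication by a quasi-proper map preserves bounds. -/
lemma QuasiProper.le {θ : Cover β → ℂ} (hθ : QuasiProper β θ) {f : Cover β → ℂ} (hf : Hol β f)
    {M : ℝ} (hM0 : 0 ≤ M) (hM : ∀ p, ‖θ p * f p‖ ≤ M) (p : Cover β) : ‖f p‖ ≤ M := by
  have h1 := hθ.2.2 f hf
  have h2 : ‖f p‖ₑ ≤ ENNReal.ofReal M := by
    refine (le_iSup (fun p => ‖f p‖ₑ) p).trans ?_
    rw [h1]
    refine iSup_le fun q => ?_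
    rw [← ofReal_norm]
    exact ENNReal.ofReal_le_ofReal (hM q)
  rwa [← ofReal_norm, ENNReal.ofReal_le_ofReal_iff hM0] at h2

/-- The maximum property from bounds by `1`. -/
lemma quasiProper_of' {θ : Cover β → ℂ} (hθ : Hol β θ) (hθ1 : ∀ p, ‖θ p‖ < 1)
    (hmax : ∀ f : Cover β → ℂ, Hol β f → (∀ p, ‖θ p * f p‖ ≤ 1) → ∀ p, ‖f p‖ ≤ 1) :
    QuasiProper β θ := by
  refine ⟨hθ, hθ1, fun f hf => le_antisymm ?_ ?_⟩
  · refine iSup_le fun p => ?_
    set M : ENNReal := ⨆ p, ‖θ p * f p‖ₑ with hM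
    by_cases hMt : M = ⊤
    · rw [hMt]; exact le_top
    refine ENNReal.le_of_forall_pos_le_add fun ε hε _ => ?_
    set m : ℝ := M.toReal + ε with hm
    have hm0 : 0 < m := by
      have h1 : (0:ℝ) < ε := by exact_mod_cast hε
      have := ENNReal.toReal_nonneg (a := M)
      linarith
    have hmM : M + ε = ENNReal.ofReal m := by
      rw [hm, ENNReal.ofReal_add ENNReal.toReal_nonneg (by positivity), ENNReal.ofReal_toReal hMt,
        ENNReal.ofReal_coe_nnreal]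
    have h1 := hmax (fun p => (m : ℂ)⁻¹ * f p) (hf.const_mul _) (fun p => ?_) p
    · rw [norm_mul, norm_inv, Complex.norm_real, Real.norm_of_nonneg hm0.le,
        inv_mul_le_iff₀ hm0, mul_one] at h1
      rw [hmM, ← ofReal_norm]
      exact ENNReal.ofReal_le_ofReal h1
    · have h2 : ‖θ p * f p‖ₑ ≤ M := le_iSup (fun p => ‖θ p * f p‖ₑ) p
      have h3 : ‖θ p * f p‖ₑ ≤ ENNReal.ofReal m := by
        rw [← hmM]; exact h2.trans le_self_add
      rw [← ofReal_norm, ENNReal.ofReal_le_ofReal_iff hm0.le] at h3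
      rw [mul_left_comm, norm_mul, norm_inv, Complex.norm_real, Real.norm_of_nonneg hm0.le,
        inv_mul_le_iff₀ hm0, mul_one]
      exact h3
  · refine iSup_mono fun p => ?_
    rw [enorm_mul]
    have h1 : ‖θ p‖ₑ ≤ 1 := by
      rw [← ofReal_norm, ENNReal.ofReal_le_one]
      exact (hθ1 p).le
    calc ‖θ p‖ₑ * ‖f p‖ₑ ≤ 1 * ‖f p‖ₑ := by gcongr
      _ = ‖f p‖ₑ := one_mul _

end

/-! ### Pointwise algebra -/

/-- Real estimate used twice. -/
lemma avg_le {x y : ℝ} (hx : 0 ≤ x) (hx1 : x ≤ 1) (hy : 0 ≤ y) (hy1 : y ≤ 1) :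
    ((1 - x ^ 2) + (1 - y ^ 2)) / 2 ≤ 1 - (x * y) ^ 2 := by
  have hx2 : x ^ 2 ≤ 1 := pow_le_one₀ hx hx1
  have hy2 : y ^ 2 ≤ 1 := pow_le_one₀ hy hy1
  have h2 : x ^ 2 * y ^ 2 ≤ x ^ 2 := mul_le_of_le_one_right (sq_nonneg x) hy2
  have h3 : x ^ 2 * y ^ 2 ≤ y ^ 2 := mul_le_of_le_one_left (sq_nonneg y) hx2
  rw [mul_pow]
  linarith

lemma conj_mul' (a : ℂ) : a * (starRingEnd ℂ) a = ((‖a‖ ^ 2 : ℝ) : ℂ) := by
  rw [Complex.mul_conj, Complex.normSq_eq_norm_sq]

lemma est_even {a a' : ℂ} (ha : ‖a‖ ≤ 1) (ha' : ‖a'‖ ≤ 1) :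
    ‖(a + a') / 2 - a * a' * (starRingEnd ℂ) ((a + a') / 2)‖ ≤ 1 - ‖a * a'‖ ^ 2 := by
  have h1 := conj_mul' a
  have h2 := conj_mul' a'
  have e : (a + a') / 2 - a * a' * (starRingEnd ℂ) ((a + a') / 2)
      = (a' * ((1 - ‖a‖ ^ 2 : ℝ) : ℂ) + a * ((1 - ‖a'‖ ^ 2 : ℝ) : ℂ)) / 2 := by
    simp only [map_div₀, map_add, map_ofNat]
    push_cast at h1 h2 ⊢
    linear_combination (-a' / 2) * h1 + (-a / 2) * h2
  rw [e, norm_div, norm_mul, Complex.norm_ofNat] 
  refine le_trans ?_ (avg_le (norm_nonneg a) ha (norm_nonneg a') ha')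
  refine div_le_div_of_nonneg_right ?_ (by norm_num)
  refine (norm_add_le _ _).trans ?_
  have n1 : 0 ≤ 1 - ‖a‖ ^ 2 := by nlinarith [norm_nonneg a]
  have n2 : 0 ≤ 1 - ‖a'‖ ^ 2 := by nlinarith [norm_nonneg a']
  rw [norm_mul, norm_mul, Complex.norm_real, Complex.norm_real, Real.norm_of_nonneg n1,
    Real.norm_of_nonneg n2]
  have := mul_le_of_le_one_left n1 ha'
  have := mul_le_of_le_one_left n2 ha
  linarith

lemma est_odd {a a' : ℂ} (ha : ‖a‖ ≤ 1) (ha' : ‖a'‖ ≤ 1) :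
    ‖(a - a') / 2 + a * a' * (starRingEnd ℂ) ((a - a') / 2)‖ ≤ 1 - ‖a * a'‖ ^ 2 := by
  have h1 := conj_mul' a
  have h2 := conj_mul' a'
  have e : (a - a') / 2 + a * a' * (starRingEnd ℂ) ((a - a') / 2)
      = (a * ((1 - ‖a'‖ ^ 2 : ℝ) : ℂ) - a' * ((1 - ‖a‖ ^ 2 : ℝ) : ℂ)) / 2 := by
    simp only [map_div₀, map_sub, map_ofNat]
    push_cast at h1 h2 ⊢
    linear_combination (a' / 2) * h1 + (-a / 2) * h2
  rw [e, norm_div, norm_mul, Complex.norm_ofNat] 
  refine le_trans ?_ (avg_le (norm_nonneg a) ha (norm_nonneg a') ha')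
  refine div_le_div_of_nonneg_right ?_ (by norm_num)
  refine (norm_sub_le _ _).trans ?_
  have n1 : 0 ≤ 1 - ‖a‖ ^ 2 := by nlinarith [norm_nonneg a]
  have n2 : 0 ≤ 1 - ‖a'‖ ^ 2 := by nlinarith [norm_nonneg a']
  rw [norm_mul, norm_mul, Complex.norm_real, Complex.norm_real, Real.norm_of_nonneg n1,
    Real.norm_of_nonneg n2]
  have := mul_le_of_le_one_left n1 ha'
  have := mul_le_of_le_one_left n2 ha
  linarith

end Pool.Agent.V1169.Irr
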