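import Pool.Agent.V1169.Irr2

/-! Irreducibility of the Frostman shifts of the square root of a Blaschke product. -/

set_option autoImplicit false

open Filter Topology Metric MeasureTheory Set Pool.Agent.TH222.QP

namespace Pool.Agent.V1169.Irr

/-- The map `(ξ - ϑ) / (1 - conj ξ ϑ)`. -/
noncomputable def thx (β : ℕ → ℂ) (ξ : ℂ) (p : Cover β) : ℂ :=
  (ξ - p.theta) / (1 - (starRingEnd ℂ) ξ * p.theta)

variable {β : ℕ → ℂ}

lemma thx_eq (ξ : ℂ) (p : Cover β) : thx β ξ p = -bx ξ p.theta := by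
  unfold thx bx
  ring

lemma norm_thx_lt (h : BSeq β) {ξ : ℂ} (hξ : ‖ξ‖ < 1) (p : Cover β) : ‖thx β ξ p‖ < 1 := by
  rw [thx_eq, norm_neg]
  exact norm_bx_lt hξ (p.norm_theta_lt h)

lemma thx_hol (h : BSeq β) {ξ : ℂ} (hξ : ‖ξ‖ < 1) : Hol β (thx β ξ) := by
  intro p
  refine ⟨{x : ℂ × ℂ | ‖x.2‖ < 1}, fun x => (ξ - x.2) / (1 - (starRingEnd ℂ) ξ * x.2), ?_,
    p.norm_theta_lt h, ?_, fun x _ => rfl⟩
  · exact isOpen_lt (by fun_prop) continuous_const
  · intro x hx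
    have hd := den_ne hξ (le_of_lt (show ‖x.2‖ < 1 from hx))
    have : DifferentiableAt ℂ (fun x : ℂ × ℂ => (ξ - x.2) / (1 - (starRingEnd ℂ) ξ * x.2)) x := by
      fun_prop (disch := exact hd)
    exact this.differentiableWithinAt

lemma thx_mul_sig (h : BSeq β) {ξ : ℂ} (hξ : ‖ξ‖ < 1) (p : Cover β) : thx β ξ p * thx β ξ (sig p) =
    (ξ ^ 2 - B β p.phi) / (1 - (starRingEnd ℂ) ξ ^ 2 * B β p.phi) := by
  have h1 := den_ne hξ (p.norm_theta_lt h).le
  have h2 := den_ne hξ ((sig p).norm_theta_lt h).le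
  have e : (sig p).theta = -p.theta := rfl
  rw [e] at h2
  unfold thx
  rw [e, ← p.theta_sq, div_mul_div_comm]
  congr 1
  · ring
  · ring

/-- Quasi-properness. -/
theorem quasiProper_thx (h : BSeq β) {ξ : ℂ} (hξ : ‖ξ‖ < 1)
    (hN : IsBlaschke fun z => (ξ ^ 2 - B β z) / (1 - (starRingEnd ℂ) ξ ^ 2 * B β z)) :
    QuasiProper β (thx β ξ) := by
  obtain ⟨α, hα, hdom⟩ := exists_dominated hN
  refine quasiProper_of' (thx_hol h hξ) (norm_thx_lt h hξ) fun f hf hb p => ?_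
  -- the norm times `f` is bounded by one
  have hNf : ∀ p : Cover β, ‖B α p.phi * f p‖ ≤ 1 := by
    intro p
    have h1 := hdom p.phi p.norm_phi_lt
    rw [← thx_mul_sig h hξ p] at h1
    rw [norm_mul]
    have h2 := hb p
    rw [norm_mul] at h1 h2
    have h3 := (norm_thx_lt h hξ (sig p)).le
    calc ‖B α p.phi‖ * ‖f p‖ ≤ ‖thx β ξ p‖ * ‖thx β ξ (sig p)‖ * ‖f p‖ := by gcongr
      _ = (‖thx β ξ p‖ * ‖f p‖) * ‖thx β ξ (sig p)‖ := by ring
      _ ≤ 1 * 1 := mul_le_mul h2 h3 (norm_nonneg _) zero_le_one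
      _ = 1 := one_mul 1
  have hn : ∀ n : ℕ, ∀ z, ‖z‖ < 1 → ‖Sn f n z‖ ≤ 2 := by
    intro n
    refine sup_B_pow hα n (Sn_differentiableOn h hf n) fun z hz => ?_
    have hp : ‖z‖ < 1 ∧ (wv β z) ^ 2 = B β z := ⟨hz, wv_sq β z⟩
    have hp' : ‖z‖ < 1 ∧ (-wv β z) ^ 2 = B β z := ⟨hz, by rw [neg_sq]; exact wv_sq β z⟩
    rw [Sn, fe_eq f hp, fe_eq f hp', mul_add, ← mul_pow, ← mul_pow]
    refine (norm_add_le _ _).trans ?_
    have h1 := hNf ⟨z, wv β z, hp.1, hp.2⟩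
    have h2 := hNf ⟨z, -wv β z, hp'.1, hp'.2⟩
    rw [norm_pow, norm_pow]
    have h3 : ‖B α z * f ⟨z, wv β z, hp.1, hp.2⟩‖ ^ n ≤ 1 := pow_le_one₀ (norm_nonneg _) h1
    have h4 : ‖B α z * f ⟨z, -wv β z, hp'.1, hp'.2⟩‖ ^ n ≤ 1 := pow_le_one₀ (norm_nonneg _) h2
    linarith
  have hp2 : (-p.theta) ^ 2 = B β p.phi := by rw [neg_sq]; exact p.theta_sq
  have h1 : ∀ n : ℕ, ‖f p ^ n + f ⟨p.phi, -p.theta, p.norm_phi_lt, hp2⟩ ^ n‖ ≤ 2 := by
    intro n
    have h2 := hn n p.phi p.norm_phi_lt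
    rw [Sn_eq f n p.theta_sq, fe_eq f ⟨p.norm_phi_lt, p.theta_sq⟩,
      fe_eq f ⟨p.norm_phi_lt, hp2⟩] at h2
    exact h2
  exact power_sum h1

/-- Even and odd parts. -/
lemma parts (hinj : Function.Injective β) (h : BSeq β) {f : Cover β → ℂ} (hf : Hol β f) :
    ∃ u v : ℂ → ℂ, DifferentiableOn ℂ u (ball 0 1) ∧ DifferentiableOn ℂ v (ball 0 1) ∧
      (∀ p : Cover β, f p = u p.phi + v p.phi * p.theta) := by
  have hS1 := Sn_differentiableOn h hf 1
  have hft : Hol β fun p => f p * p.theta := Hol.mul hf Hol.theta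
  have hS2 := Sn_differentiableOn h hft 1
  have key : ∀ p : Cover β, Sn f 1 p.phi = f p + f (sig p) ∧
      Sn (fun p => f p * p.theta) 1 p.phi = (f p - f (sig p)) * p.theta := by
    intro p
    have hp2 : (-p.theta) ^ 2 = B β p.phi := by rw [neg_sq]; exact p.theta_sq
    constructor
    · rw [Sn_eq f 1 p.theta_sq, fe_eq f ⟨p.norm_phi_lt, p.theta_sq⟩,
        fe_eq f ⟨p.norm_phi_lt, hp2⟩, pow_one, pow_one]
      rfl
    · rw [Sn_eq _ 1 p.theta_sq, fe_eq _ ⟨p.norm_phi_lt, p.theta_sq⟩,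
        fe_eq _ ⟨p.norm_phi_lt, hp2⟩, pow_one, pow_one]
      have : f ⟨p.phi, -p.theta, p.norm_phi_lt, hp2⟩ = f (sig p) := rfl
      simp only [this]
      ring
  obtain ⟨g, hg, hgB⟩ := exists_div hinj h hS2 (fun z hz h0 => by
    have h1 := (key ⟨z, 0, hz, by rw [h0]; ring⟩).2
    simp only [mul_zero] at h1
    exact h1)
  refine ⟨fun z => Sn f 1 z / 2, fun z => g z / 2, hS1.div_const 2, hg.div_const 2, fun p => ?_⟩
  obtain ⟨h1, h2⟩ := key p
  have h3 := hgB p.phi p.norm_phi_lt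
  rw [h2, ← p.theta_sq] at h3
  simp only [h1]
  by_cases h0 : p.theta = 0
  · have : sig p = p := by
      cases p
      simp only at h0
      subst h0
      simp [sig]
    rw [h0, this]
    ring
  · have h4 : f p - f (sig p) = g p.phi * p.theta := by
      have : (f p - f (sig p)) * p.theta = (g p.phi * p.theta) * p.theta := by
        rw [h3]; ring
      exact mul_right_cancel₀ h0 this
    linear_combination (1 / 2 : ℂ) * h4

/-- Functions on the disc agreeing off the zeros of `B` agree. -/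
lemma eq_of_mul_theta {u : ℂ → ℂ} (h : BSeq β) (hu : DifferentiableOn ℂ u (ball 0 1))
    (h0 : ∀ p : Cover β, u p.phi * p.theta = 0) : ∀ z, ‖z‖ < 1 → u z = 0 := by
  intro z hz
  have hd : Dense (range β)ᶜ := (countable_range β).dense_compl ℝ
  have hcl : z ∈ closure ((range β)ᶜ ∩ ball 0 1) := by
    have := hd.open_subset_closure_inter (isOpen_ball (x := (0:ℂ)) (ε := 1))
      (mem_ball_zero_iff.2 hz)
    rwa [inter_comm] at this
  have hc : ContinuousWithinAt u ((range β)ᶜ ∩ ball 0 1) z := by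
    have h1 : ContinuousAt u z := hu.continuousOn.continuousAt
      (isOpen_ball.mem_nhds (mem_ball_zero_iff.2 hz))
    exact h1.continuousWithinAt
  have := hc.mem_closure hcl (t := {0}) fun q hq => ?_
  · rwa [isClosed_singleton.closure_eq] at this
  · have hq1 : ‖q‖ < 1 := mem_ball_zero_iff.1 hq.2
    have h1 := h0 ⟨q, wv β q, hq1, wv_sq β q⟩
    rcases mul_eq_zero.1 h1 with h2 | h2
    · exact h2
    · exfalso
      have h3 : wv β q = 0 := h2
      have h4 := wv_sq β q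
      rw [h3] at h4
      exact h.B_ne_zero hq1 (fun k hk => hq.1 ⟨k, hk.symm⟩) (by rw [← h4]; ring)

/-- The final algebra at a branch point. -/
lemma final_algebra {ξ c d g0 q0 P0 : ℂ} (hξ0 : ξ ≠ 0) (hc : ‖c‖ < 1) (hd : ‖d‖ < 1) (hcd : ξ = c * d)
    (h1 : -q0 = (starRingEnd ℂ) c) (h2 : c ^ 2 * q0 = -(c + ξ * g0))
    (h3 : P0 = (starRingEnd ℂ) ((starRingEnd ℂ) ξ * c - g0)) (h4 : c ^ 2 * P0 = ξ * c) : False := by
  have hc0 : c ≠ 0 := by
    rintro rfl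
    exact hξ0 (by rw [hcd, zero_mul])
  set c2 := (starRingEnd ℂ) ξ * c - g0 with hc2
  have h5 : c * (starRingEnd ℂ) c2 = ξ := by
    have : c * (c * (starRingEnd ℂ) c2) = c * ξ := by
      rw [← h3]
      linear_combination h4
    exact mul_left_cancel₀ hc0 this
  have h6 : c * (starRingEnd ℂ) c = 1 + ξ * (starRingEnd ℂ) ξ - c2 * (starRingEnd ℂ) c2 := by
    have : c * (c * (starRingEnd ℂ) c) = c * (1 + ξ * (starRingEnd ℂ) ξ - c2 * (starRingEnd ℂ) c2) := by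
      rw [← h1]
      have hg : g0 = (starRingEnd ℂ) ξ * c - c2 := by rw [hc2]; ring
      rw [hg] at h2
      linear_combination -h2 + c2 * h5
    exact mul_left_cancel₀ hc0 this
  rw [conj_mul', conj_mul', conj_mul'] at h6
  have h7 : ‖c‖ ^ 2 = 1 + ‖ξ‖ ^ 2 - ‖c2‖ ^ 2 := by exact_mod_cast h6
  have h8 : ‖c‖ * ‖c2‖ = ‖ξ‖ := by
    rw [← h5, norm_mul, RCLike.norm_conj]
  have h9 : ‖ξ‖ = ‖c‖ * ‖d‖ := by rw [hcd, norm_mul]
  have hcpos : 0 < ‖c‖ := norm_pos_iff.2 hc0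
  have h10 : ‖c2‖ = ‖d‖ := by
    have : ‖c‖ * ‖c2‖ = ‖c‖ * ‖d‖ := by rw [h8, h9]
    exact mul_left_cancel₀ hcpos.ne' this
  rw [h10, h9] at h7
  have h11 : (1 - ‖c‖ ^ 2) * (1 - ‖d‖ ^ 2) = 0 := by nlinarith
  have h12 : 0 < 1 - ‖c‖ ^ 2 := by nlinarith [norm_nonneg c]
  have h13 : 0 < 1 - ‖d‖ ^ 2 := by nlinarith [norm_nonneg d]
  exact (mul_pos h12 h13).ne' h11

end Pool.Agent.V1169.Irr
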