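import Pool.Agent.V1169.Conv

/-! A one-dimensional comparison lemma: a continuous function with second differences bounded below
by a multiple of `h ^ 2`, and nonnegative off a null set, is convex. -/

set_option autoImplicit false

open Set Filter Topology MeasureTheory

namespace Pool.Agent.V1169

/-- The tent integrand. -/
noncomputable def tent (x h t : ℝ) : ℝ := max (x - h - t) 0 + max (x + h - t) 0 - 2 * max (x - t) 0

theorem tent_nonneg (x h t : ℝ) : 0 ≤ tent x h t := by
  unfold tent
  rcases le_total (x - h - t) 0 with h1 | h1 <;> rcases le_total (x + h - t) 0 with h2 | h2 <;>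
    rcases le_total (x - t) 0 with h3 | h3 <;> simp only [h1, h2, h3, max_eq_left, max_eq_right]
    <;> linarith

theorem tent_ge {x h t : ℝ} (hh : 0 < h) (ht : t ∈ Ioo (x - h / 2) (x + h / 2)) :
    h / 2 ≤ tent x h t := by
  unfold tent
  obtain ⟨h4, h5⟩ := ht
  rcases le_total (x - h - t) 0 with h1 | h1 <;> rcases le_total (x + h - t) 0 with h2 | h2 <;>
    rcases le_total (x - t) 0 with h3 | h3 <;> simp only [h1, h2, h3, max_eq_left, max_eq_right]
    <;> linarith

theorem continuous_tent (x h : ℝ) : Continuous (tent x h) := by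
  unfold tent
  fun_prop

theorem convexOn_of_null {A : Set ℝ} (hA : volume A = 0) {R C : ℝ} (hC : 0 ≤ C) {M : ℝ → ℝ}
    (hM : Continuous M)
    (h1 : ∀ x ∈ Ioo (-R) R, ∀ h, 0 < h → h < 1 → 2 * M x ≤ M (x - h) + M (x + h) + C * h ^ 2)
    (h2 : ∀ x ∉ A, ∃ δ > 0, ∀ h, 0 < h → h < δ → 2 * M x ≤ M (x - h) + M (x + h)) :
    ConvexOn ℝ (Ioo (-R) R) M := by
  have key : ∀ ε : ℝ, 0 < ε → ∃ u : ℝ → ℝ, (∀ x ∈ Ioo (-R) R, 0 ≤ u x ∧ u x ≤ 2 * R * ε) ∧
      ConvexOn ℝ (Ioo (-R) R) (fun x => M x + 2 * C * u x) := by
    intro ε hε
    obtain ⟨U, hAU, hUo, hUε⟩ := A.exists_isOpen_lt_of_lt (ENNReal.ofReal ε)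
      (by rw [hA]; exact ENNReal.ofReal_pos.2 hε) (μ := volume)
    set V : Set ℝ := U ∩ Ioo (-R) R with hV
    have hVo : IsOpen V := hUo.inter isOpen_Ioo
    have hVm : MeasurableSet V := hVo.measurableSet
    have hVε : volume V ≤ ENNReal.ofReal ε := (measure_mono inter_subset_left).trans hUε.le
    have hVr : volume.real V ≤ ε := ENNReal.toReal_le_of_le_ofReal hε.le hVε
    have hVf : volume V ≠ ⊤ := (hVε.trans_lt ENNReal.ofReal_lt_top).ne
    have hint : ∀ g : ℝ → ℝ, Continuous g → IntegrableOn g V := by
      intro g hg
      have : IntegrableOn g (Icc (-R) R) := hg.continuousOn.integrableOn_compact isCompact_Icc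
      exact this.mono_set (fun x hx => Ioo_subset_Icc_self hx.2)
    have hmax : ∀ x : ℝ, Continuous fun t : ℝ => max (x - t) 0 := fun x => by fun_prop
    refine ⟨fun x => ∫ t in V, max (x - t) 0, ?_, ?_⟩
    · intro x hx
      refine ⟨integral_nonneg fun t => le_max_right _ _, ?_⟩
      have : ∫ t in V, max (x - t) 0 ≤ ∫ t in V, (2 * R : ℝ) := by
        refine setIntegral_mono_on (hint _ (hmax x)) (hint _ continuous_const) hVm ?_
        intro t ht
        have h3 := ht.2.1
        have h4 := hx.2
        have h5 := hx.1
        exact max_le (by linarith) (by linarith)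
      rw [setIntegral_const, smul_eq_mul] at this
      have hR : 0 ≤ 2 * R := by
        have h4 := hx.2
        have h5 := hx.1
        linarith
      nlinarith
    · have hucont : Continuous fun x => ∫ t in V, max (x - t) 0 := by
        have hl : ∀ x y : ℝ, |(∫ t in V, max (x - t) 0) - ∫ t in V, max (y - t) 0|
            ≤ volume.real V * |x - y| := by
          intro x y
          rw [← integral_sub (hint _ (hmax x)) (hint _ (hmax y))]
          rw [← Real.norm_eq_abs]
          have := norm_setIntegral_le_of_norm_le_const (μ := volume) (s := V)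
            (f := fun t => max (x - t) 0 - max (y - t) 0) (C := |x - y|)
            (lt_top_iff_ne_top.2 hVf) (fun t _ => by
              rw [Real.norm_eq_abs]
              refine (abs_max_sub_max_le_abs _ _ _).trans ?_
              rw [show x - t - (y - t) = x - y by ring])
          rw [mul_comm]
          exact this
        have hL : LipschitzWith (volume.real V).toNNReal fun x => ∫ t in V, max (x - t) 0 := by
          refine LipschitzWith.of_dist_le_mul fun x y => ?_
          rw [Real.dist_eq, Real.dist_eq, Real.coe_toNNReal _ measureReal_nonneg]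
          exact hl x y
        exact hL.continuous
      have hdiff : ∀ x h : ℝ, (∫ t in V, max (x - h - t) 0) + (∫ t in V, max (x + h - t) 0)
          - 2 * (∫ t in V, max (x - t) 0) = ∫ t in V, tent x h t := by
        intro x h
        unfold tent
        rw [integral_sub, integral_add, integral_const_mul]
        · exact hint _ (hmax _)
        · exact hint _ (hmax _)
        · exact (hint _ (hmax _)).add (hint _ (hmax _))
        · exact (hint _ (hmax _)).const_mul _
      refine convexOn_of_sym (convex_Ioo _ _)
        (hM.add (continuous_const.mul hucont)).continuousOn ?_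
      intro x hx δ hδ
      by_cases hxV : x ∈ V
      · obtain ⟨δ', hδ', hball⟩ := Metric.isOpen_iff.1 hVo x hxV
        rw [Real.ball_eq_Ioo] at hball
        have hm : 0 < min (min δ δ') 1 := lt_min (lt_min hδ hδ') one_pos
        have hm1 : min (min δ δ') 1 ≤ δ := (min_le_left _ _).trans (min_le_left _ _)
        have hm2 : min (min δ δ') 1 ≤ δ' := (min_le_left _ _).trans (min_le_right _ _)
        have hm3 : min (min δ δ') 1 ≤ 1 := min_le_right _ _
        set h := min (min δ δ') 1 / 2 with hh
        have hh0 : 0 < h := by linarith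
        refine ⟨h, hh0, by linarith, ?_⟩
        have h3 := h1 x hx h hh0 (by linarith)
        have h4 : h / 2 * h ≤ ∫ t in V, tent x h t := by
          have h5 : Ioo (x - h / 2) (x + h / 2) ⊆ V :=
            (Ioo_subset_Ioo (by linarith) (by linarith)).trans hball
          have h6 : ∫ t in Ioo (x - h / 2) (x + h / 2), tent x h t ≤ ∫ t in V, tent x h t :=
            setIntegral_mono_set (hint _ (continuous_tent x h))
              (Eventually.of_forall fun t => tent_nonneg x h t) (ae_of_all _ h5)
          refine le_trans ?_ h6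
          have h7 : ∫ t in Ioo (x - h / 2) (x + h / 2), (h / 2 : ℝ)
              ≤ ∫ t in Ioo (x - h / 2) (x + h / 2), tent x h t := by
            refine setIntegral_mono_on ?_ ?_ measurableSet_Ioo fun t ht => tent_ge hh0 ht
            · exact (hint _ continuous_const).mono_set h5
            · exact (hint _ (continuous_tent x h)).mono_set h5
          rw [setIntegral_const, Real.volume_real_Ioo, smul_eq_mul] at h7
          rw [max_eq_left (by linarith)] at h7
          linarith
        have h8 := hdiff x h
        nlinarith
      · have hxA : x ∉ A := fun h => hxV ⟨hAU h, hx⟩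
        obtain ⟨δ', hδ', h3⟩ := h2 x hxA
        have hm : 0 < min δ δ' := lt_min hδ hδ'
        have hm1 : min δ δ' ≤ δ := min_le_left _ _
        have hm2 : min δ δ' ≤ δ' := min_le_right _ _
        refine ⟨min δ δ' / 2, by linarith, by linarith, ?_⟩
        set h := min δ δ' / 2 with hh
        have h4 := h3 h (by linarith) (by linarith)
        have h5 := hdiff x h
        have h6 : 0 ≤ ∫ t in V, tent x h t := integral_nonneg fun t => tent_nonneg x h t
        nlinarith
  choose! u hu1 hu2 using key
  have hlim : Tendsto (fun n : ℕ => (1 / ((n : ℝ) + 1))) atTop (𝓝 0) :=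
    tendsto_one_div_add_atTop_nhds_zero_nat
  refine convexOn_of_tendsto (l := atTop) (F := fun n : ℕ => fun x => M x + 2 * C * u (1 / ((n : ℝ) + 1)) x)
    (convex_Ioo _ _) (Eventually.of_forall fun n => hu2 _ (by positivity)) ?_
  intro x hx
  have h3 : Tendsto (fun n : ℕ => u (1 / ((n : ℝ) + 1)) x) atTop (𝓝 0) := by
    refine squeeze_zero (fun n => (hu1 _ (by positivity) x hx).1)
      (fun n => (hu1 _ (by positivity) x hx).2) ?_
    simpa using hlim.const_mul (2 * R)
  simpa using (h3.const_mul (2 * C)).const_add (M x)

end Pool.Agent.V1169
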