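import Pool.Agent.V1169.Null

/-! Products of a closed null set and a closed set with empty interior are `c`-removable. -/

set_option autoImplicit false

open Set Filter Topology MeasureTheory

namespace Pool.Agent.V1169

theorem lip_of_convex {g : ℝ → ℝ} (hg : ConvexOn ℝ univ g) {T B : ℝ} 
    (hB : ∀ x ∈ Icc (-(T + 2)) (T + 2), |g x| ≤ B) {x y : ℝ} (hx : x ∈ Icc (-T) T)
    (hy : y ∈ Icc (-T) T) : |g x - g y| ≤ (2 * B) * |x - y| := by
  have h1 := (hg.subset (subset_univ (Metric.ball 0 (T + 2))) (convex_ball _ _)).lipschitzOnWith_of_abs_le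
    (ε := 1) one_pos (M := B) (fun a ha => by
      rw [Real.dist_eq, sub_zero] at ha
      exact hB a ⟨by linarith [(abs_lt.1 ha).1], (abs_lt.1 ha).2.le⟩)
  have hx' : x ∈ Metric.ball (0:ℝ) (T + 2 - 1) := by
    rw [Metric.mem_ball, Real.dist_eq, sub_zero, abs_lt]
    constructor <;> linarith [hx.1, hx.2]
  have hy' : y ∈ Metric.ball (0:ℝ) (T + 2 - 1) := by
    rw [Metric.mem_ball, Real.dist_eq, sub_zero, abs_lt]
    constructor <;> linarith [hy.1, hy.2]
  have hB0 : 0 ≤ 2 * B / 1 := by
    have := hB x ⟨by linarith [hx.1], by linarith [hx.2]⟩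
    have := abs_nonneg (g x)
    linarith
  have h2 := h1.dist_le_mul x hx' y hy'
  rw [Real.coe_toNNReal _ hB0, Real.dist_eq, Real.dist_eq, div_one] at h2
  exact h2

theorem exists_lip {f : ℝ × ℝ → ℝ} (hf : Continuous f)
    (hfx : ∀ y, ConvexOn ℝ univ fun x => f (x, y)) (hfy : ∀ x, ConvexOn ℝ univ fun y => f (x, y))
    (T : ℝ) : ∃ L : ℝ, 0 ≤ L ∧ ∀ x ∈ Icc (-T) T, ∀ x' ∈ Icc (-T) T, ∀ y ∈ Icc (-T) T,
      ∀ y' ∈ Icc (-T) T, |f (x, y) - f (x', y')| ≤ L * (|x - x'| + |y - y'|) := by
  have hcomp : IsCompact (Icc (-(T + 2)) (T + 2) ×ˢ Icc (-(T + 2)) (T + 2)) :=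
    isCompact_Icc.prod isCompact_Icc
  obtain ⟨B, hB⟩ := hcomp.exists_bound_of_continuousOn hf.continuousOn
  refine ⟨2 * max B 0, by positivity, ?_⟩
  intro x hx x' hx' y hy y' hy'
  have hsub : Icc (-T) T ⊆ Icc (-(T + 2)) (T + 2) := Icc_subset_Icc (by linarith) (by linarith)
  have h1 := lip_of_convex (hfx y) (T := T) (B := max B 0) (fun a ha => by
    rw [← Real.norm_eq_abs]
    exact (hB (a, y) ⟨ha, hsub hy⟩).trans (le_max_left _ _)) hx hx'
  have h2 := lip_of_convex (hfy x') (T := T) (B := max B 0) (fun a ha => by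
    rw [← Real.norm_eq_abs]
    exact (hB (x', a) ⟨hsub hx', ha⟩).trans (le_max_left _ _)) hy hy'
  have h3 := abs_sub_le (f (x, y)) (f (x', y)) (f (x', y'))
  nlinarith

/-- Convexity along lines of a given slope, from averages. -/
theorem convexOn_of_averages {f : ℝ × ℝ → ℝ} (hf : Continuous f) (σ : ℝ)
    (h : ∀ c d : ℝ, c < d → ConvexOn ℝ univ fun x => ∫ s in c..d, f (x, σ * x + s)) (c : ℝ) :
    ConvexOn ℝ univ fun x => f (x, σ * x + c) := by
  refine ⟨convex_univ, fun x _ y _ p q hp hq hpq => ?_⟩
  by_contra hcon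
  push Not at hcon
  set D : ℝ → ℝ := fun s => p * f (x, σ * x + s) + q * f (y, σ * y + s)
    - f (p • x + q • y, σ * (p • x + q • y) + s) with hD
  have hDc : Continuous D := by
    rw [hD]
    fun_prop
  have hD0 : D c < 0 := by
    simp only [hD]
    simp only [smul_eq_mul] at hcon ⊢
    linarith
  have hev : ∀ᶠ s in 𝓝 c, D s < D c / 2 := hDc.continuousAt.eventually_lt continuousAt_const
    (by linarith)
  obtain ⟨δ, hδ, hδ'⟩ := Metric.eventually_nhds_iff.1 hev
  have h1 := (h c (c + δ / 2) (by linarith)).2 (mem_univ x) (mem_univ y) hp hq hpq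
  simp only [smul_eq_mul] at h1
  have hi : ∀ z a b : ℝ, IntervalIntegrable (fun s => f (z, σ * z + s)) volume a b := by
    intro z a b
    have hcz : Continuous fun s => f (z, σ * z + s) := by fun_prop
    exact hcz.intervalIntegrable a b
  have h2 : ∫ s in c..(c + δ / 2), D s = p * (∫ s in c..(c + δ / 2), f (x, σ * x + s))
      + q * (∫ s in c..(c + δ / 2), f (y, σ * y + s))
      - ∫ s in c..(c + δ / 2), f (p * x + q * y, σ * (p * x + q * y) + s) := by
    simp only [hD, smul_eq_mul]
    rw [intervalIntegral.integral_sub, intervalIntegral.integral_add,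
      intervalIntegral.integral_const_mul, intervalIntegral.integral_const_mul]
    · exact (hi x _ _).const_mul p
    · exact (hi y _ _).const_mul q
    · exact ((hi x _ _).const_mul p).add ((hi y _ _).const_mul q)
    · exact hi _ _ _
  have h3 : ∫ s in c..(c + δ / 2), D s ≤ ∫ s in c..(c + δ / 2), (D c / 2 : ℝ) := by
    refine intervalIntegral.integral_mono_on (by linarith) (hDc.intervalIntegrable _ _)
      (continuous_const.intervalIntegrable _ _) fun s hs => ?_
    refine (hδ' ?_).le
    rw [Real.dist_eq, abs_lt]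
    constructor <;> linarith [hs.1, hs.2]
  rw [intervalIntegral.integral_const, smul_eq_mul] at h3
  have h4 : (c + δ / 2 - c) * (D c / 2) < 0 := mul_neg_of_pos_of_neg (by linarith) (by linarith)
  linarith

theorem convexOn_slope {A : Set ℝ} (hA : volume A = 0) (hAc : IsClosed A)
    {f : ℝ × ℝ → ℝ} (hf : Continuous f)
    (hfx : ∀ y, ConvexOn ℝ univ fun x => f (x, y)) (hfy : ∀ x, ConvexOn ℝ univ fun y => f (x, y))
    (σ : ℝ)
    (hloc : ∀ (c a b : ℝ), Ioo a b ⊆ Aᶜ → ConvexOn ℝ (Ioo a b) fun x => f (x, σ * x + c)) (c : ℝ) :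
    ConvexOn ℝ univ fun x => f (x, σ * x + c) := by
  refine convexOn_of_averages hf σ (fun c d hcd => ?_) c
  set M : ℝ → ℝ := fun x => ∫ s in c..d, f (x, σ * x + s) with hM
  have hMc : Continuous M := by
    refine intervalIntegral.continuous_parametric_intervalIntegral_of_continuous' ?_ c d
    fun_prop
  have hi : ∀ z w a b : ℝ, IntervalIntegrable (fun s => f (z, w + s)) volume a b := by
    intro z w a b
    have hcz : Continuous fun s => f (z, w + s) := by fun_prop
    exact hcz.intervalIntegrable a b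
  have h2 : ∀ x ∉ A, ∃ δ > 0, ∀ h, 0 < h → h < δ → 2 * M x ≤ M (x - h) + M (x + h) := by
    intro x hx
    obtain ⟨δ, hδ, hball⟩ := Metric.isOpen_iff.1 hAc.isOpen_compl x hx
    rw [Real.ball_eq_Ioo] at hball
    refine ⟨δ, hδ, fun h hh hhδ => ?_⟩
    simp only [hM]
    rw [← intervalIntegral.integral_const_mul, ← intervalIntegral.integral_add (hi _ _ _ _) (hi _ _ _ _)]
    refine intervalIntegral.integral_mono_on hcd.le ((hi _ _ _ _).const_mul 2)
      ((hi _ _ _ _).add (hi _ _ _ _)) fun s _ => ?_
    have h3 := (hloc s _ _ hball).2 (⟨by linarith, by linarith⟩ : x - h ∈ Ioo (x - δ) (x + δ))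
      (⟨by linarith, by linarith⟩ : x + h ∈ Ioo (x - δ) (x + δ))
      (by norm_num : (0:ℝ) ≤ 1/2) (by norm_num : (0:ℝ) ≤ 1/2) (by norm_num)
    have h4 : (1/2 : ℝ) • (x - h) + (1/2 : ℝ) • (x + h) = x := by
      simp only [smul_eq_mul]; ring
    rw [h4] at h3
    simp only [smul_eq_mul] at h3
    linarith
  have hR : ∀ R : ℝ, 0 < R → ConvexOn ℝ (Ioo (-R) R) M := by
    intro R hR0
    set T : ℝ := |σ| * R + |σ| + |c| + |d| + R + 1 with hT
    obtain ⟨L, hL0, hL⟩ := exists_lip hf hfx hfy T
    refine convexOn_of_null hA (C := 4 * L * |σ| * (1 + |σ|)) (by positivity) hMc ?_ h2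
    intro x hx h hh0 hh1
    have hcx : |σ * x| ≤ |σ| * R := by
      rw [abs_mul]
      exact mul_le_mul_of_nonneg_left (abs_le.2 ⟨hx.1.le, hx.2.le⟩) (abs_nonneg _)
    have hsh : |σ * h| ≤ |σ| := by
      rw [abs_mul, abs_of_pos hh0]
      nlinarith [abs_nonneg σ]
    have hplus : ∀ a : ℝ, |a| ≤ |σ| * R + |c| + |d| → ∀ s : ℝ, |s| ≤ |σ| * h →
        |f (x + h, a + s) - f (x - h, a - s)| ≤ L * (2 * h + 2 * (|σ| * h)) := by
      intro a ha s hs
      have hs' : |s| ≤ |σ| := hs.trans (by nlinarith [abs_nonneg σ])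
      have hσR : 0 ≤ |σ| * R := by positivity
      have ha' := abs_le.1 ha
      have hs'' := abs_le.1 hs'
      have hc0 := abs_nonneg c
      have hd0 := abs_nonneg d
      have hσ0 := abs_nonneg σ
      have h5 := hL (x + h) ⟨by linarith [hx.1], by linarith [hx.2]⟩ (x - h)
        ⟨by linarith [hx.1], by linarith [hx.2]⟩ (a + s) ⟨by linarith, by linarith⟩
        (a - s) ⟨by linarith, by linarith⟩
      refine h5.trans (mul_le_mul_of_nonneg_left ?_ hL0)
      have h6 : |x + h - (x - h)| = 2 * h := by
        rw [show x + h - (x - h) = 2 * h by ring, abs_of_pos (by linarith)]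
      have h7 : |a + s - (a - s)| = 2 * |s| := by
        rw [show a + s - (a - s) = 2 * s by ring, abs_mul, abs_two]
      rw [h6, h7]
      linarith
    -- boundary terms
    have hbd : ∀ e : ℝ, |e| ≤ |c| + |d| →
        |(∫ y in e..(e + σ * h), f (x + h, σ * x + y)) + ∫ y in e..(e - σ * h), f (x - h, σ * x + y)|
          ≤ L * (2 * h + 2 * (|σ| * h)) * (|σ| * h) := by
      intro e he
      have e1 : ∫ y in e..(e + σ * h), f (x + h, σ * x + y)
          = ∫ s in (0:ℝ)..(σ * h), f (x + h, (σ * x + e) + s) := by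
        have := intervalIntegral.integral_comp_add_left (a := 0) (b := σ * h)
          (fun y => f (x + h, σ * x + y)) e
        rw [add_zero] at this
        rw [← this]
        refine intervalIntegral.integral_congr fun s _ => ?_
        simp only [add_assoc]
      have e2 : ∫ y in e..(e - σ * h), f (x - h, σ * x + y)
          = - ∫ s in (0:ℝ)..(σ * h), f (x - h, (σ * x + e) - s) := by
        have := intervalIntegral.integral_comp_sub_left (a := 0) (b := σ * h)
          (fun y => f (x - h, σ * x + y)) e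
        rw [sub_zero] at this
        rw [intervalIntegral.integral_symm, ← this]
        refine congrArg Neg.neg (intervalIntegral.integral_congr fun s _ => ?_)
        simp only [add_sub_assoc]
      rw [e1, e2, ← sub_eq_add_neg, ← intervalIntegral.integral_sub]
      · have := intervalIntegral.norm_integral_le_of_norm_le_const
          (f := fun s => f (x + h, (σ * x + e) + s) - f (x - h, (σ * x + e) - s))
          (a := 0) (b := σ * h) (C := L * (2 * h + 2 * (|σ| * h))) (fun s hs => by
            rw [Real.norm_eq_abs]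
            refine hplus _ ?_ s ?_
            · refine (abs_add_le _ _).trans ?_
              linarith
            · rw [uIoc, mem_Ioc] at hs
              have h8 : |s| ≤ |σ * h| := by
                rcases le_total 0 (σ * h) with h9 | h9
                · rw [min_eq_left h9, max_eq_right h9] at hs
                  rw [abs_of_pos hs.1, abs_of_nonneg h9]
                  exact hs.2
                · rw [min_eq_right h9, max_eq_left h9] at hs
                  rw [abs_of_nonpos hs.2, abs_of_nonpos h9]
                  linarith [hs.1]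
              rw [abs_mul, abs_of_pos hh0] at h8
              exact h8)
        rw [Real.norm_eq_abs, sub_zero, abs_mul, abs_of_pos hh0] at this
        exact this
      · exact hi _ _ _ _
      · have hcz : Continuous fun s => f (x - h, (σ * x + e) - s) := by fun_prop
        exact hcz.intervalIntegrable _ _
    have hMp : M (x + h) = (∫ y in c..d, f (x + h, σ * x + y))
        + (∫ y in d..(d + σ * h), f (x + h, σ * x + y))
        - ∫ y in c..(c + σ * h), f (x + h, σ * x + y) := by
      have e1 : M (x + h) = ∫ y in (c + σ * h)..(d + σ * h), f (x + h, σ * x + y) := by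
        rw [← intervalIntegral.integral_comp_add_right (fun y => f (x + h, σ * x + y)) (σ * h)]
        refine intervalIntegral.integral_congr fun s _ => ?_
        ring_nf
      rw [e1]
      have e2 := intervalIntegral.integral_add_adjacent_intervals
        (hi (x + h) (σ * x) c (c + σ * h)) (hi (x + h) (σ * x) (c + σ * h) (d + σ * h))
      have e3 := intervalIntegral.integral_add_adjacent_intervals
        (hi (x + h) (σ * x) c d) (hi (x + h) (σ * x) d (d + σ * h))
      linarith
    have hMm : M (x - h) = (∫ y in c..d, f (x - h, σ * x + y))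
        + (∫ y in d..(d - σ * h), f (x - h, σ * x + y))
        - ∫ y in c..(c - σ * h), f (x - h, σ * x + y) := by
      have e1 : M (x - h) = ∫ y in (c - σ * h)..(d - σ * h), f (x - h, σ * x + y) := by
        rw [← intervalIntegral.integral_comp_sub_right (fun y => f (x - h, σ * x + y)) (σ * h)]
        refine intervalIntegral.integral_congr fun s _ => ?_
        ring_nf
      rw [e1]
      have e2 := intervalIntegral.integral_add_adjacent_intervals
        (hi (x - h) (σ * x) c (c - σ * h)) (hi (x - h) (σ * x) (c - σ * h) (d - σ * h))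
      have e3 := intervalIntegral.integral_add_adjacent_intervals
        (hi (x - h) (σ * x) c d) (hi (x - h) (σ * x) d (d - σ * h))
      linarith
    have hmain : 2 * M x ≤ (∫ y in c..d, f (x + h, σ * x + y)) + ∫ y in c..d, f (x - h, σ * x + y) := by
      simp only [hM]
      rw [← intervalIntegral.integral_const_mul,
        ← intervalIntegral.integral_add (hi _ _ _ _) (hi _ _ _ _)]
      refine intervalIntegral.integral_mono_on hcd.le ((hi _ _ _ _).const_mul 2)
        ((hi _ _ _ _).add (hi _ _ _ _)) fun s _ => ?_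
      have h3 := (hfx (σ * x + s)).2 (mem_univ (x - h)) (mem_univ (x + h))
        (by norm_num : (0:ℝ) ≤ 1/2) (by norm_num : (0:ℝ) ≤ 1/2) (by norm_num)
      have h4 : (1/2 : ℝ) • (x - h) + (1/2 : ℝ) • (x + h) = x := by
        simp only [smul_eq_mul]; ring
      rw [h4] at h3
      simp only [smul_eq_mul] at h3
      linarith
    have hb1 := (abs_le.1 (hbd c (by linarith [abs_nonneg d]))).2
    have hb2 := (abs_le.1 (hbd d (by linarith [abs_nonneg c]))).1
    have hfin : 4 * L * |σ| * (1 + |σ|) * h ^ 2 = 2 * (L * (2 * h + 2 * (|σ| * h)) * (|σ| * h)) := by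
      ring
    rw [hfin, hMp, hMm]
    linarith
  refine ⟨convex_univ, fun x _ y _ p q hp hq hpq => ?_⟩
  have hxy : ∀ z : ℝ, |z| ≤ |x| + |y| → z ∈ Ioo (-(|x| + |y| + 1)) (|x| + |y| + 1) := by
    intro z hz
    have := abs_le.1 hz
    constructor <;> linarith
  exact (hR (|x| + |y| + 1) (by positivity)).2 (hxy x (by linarith [abs_nonneg y]))
    (hxy y (by linarith [abs_nonneg x])) hp hq hpq

/-- A function convex along all lines of the form `y = σ x + c` and all vertical lines is convex. -/
theorem convexOn_of_slopes {f : ℝ × ℝ → ℝ}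
    (hfy : ∀ x, ConvexOn ℝ univ fun y => f (x, y))
    (hs : ∀ σ c : ℝ, ConvexOn ℝ univ fun x => f (x, σ * x + c)) : ConvexOn ℝ univ f := by
  refine convexOn_of_lines fun z v => ?_
  by_cases hv : v.1 = 0
  · have h1 := (hfy z.1).comp_affineMap (AffineMap.lineMap z.2 (z.2 + v.2))
    refine (h1.congr fun s _ => ?_)
    simp only [Function.comp, AffineMap.lineMap_apply, vsub_eq_sub, smul_eq_mul, vadd_eq_add]
    congr 1
    ext
    · simp [hv]
    · simp; ring
  · have h1 := (hs (v.2 / v.1) (z.2 - v.2 / v.1 * z.1)).comp_affineMap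
      (AffineMap.lineMap z.1 (z.1 + v.1))
    refine (h1.congr fun s _ => ?_)
    simp only [Function.comp, AffineMap.lineMap_apply, vsub_eq_sub, smul_eq_mul, vadd_eq_add]
    congr 1
    ext
    · simp; ring
    · simp; field_simp; ring

theorem convexOn_closure_param {g : ℝ → ℝ → ℝ} (hg : Continuous fun p : ℝ × ℝ => g p.1 p.2)
    {D : Set ℝ} (hD : Dense D) (h : ∀ c ∈ D, ConvexOn ℝ univ (g c)) (c : ℝ) :
    ConvexOn ℝ univ (g c) := by
  refine ⟨convex_univ, fun x _ y _ p q hp hq hpq => ?_⟩
  have hcl : IsClosed {c : ℝ | g c (p • x + q • y) ≤ p • g c x + q • g c y} := by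
    have e : ∀ w : ℝ, Continuous fun c => g c w := fun w =>
      hg.comp (by fun_prop : Continuous fun c : ℝ => (c, w))
    exact isClosed_le (e _) (((e x).const_smul p).add ((e y).const_smul q))
  have : closure D ⊆ {c : ℝ | g c (p • x + q • y) ≤ p • g c x + q • g c y} :=
    closure_minimal (fun c hc => (h c hc).2 (mem_univ x) (mem_univ y) hp hq hpq) hcl
  exact this (hD c)

/-- **Products of a closed null set and a closed set with empty interior are `c`-removable.** -/
theorem cRemovable_prod {A B : Set ℝ} (hAc : IsClosed A) (hA : volume A = 0) (hBc : IsClosed B)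
    (hB : interior B = ∅) : CRemovable (A ×ˢ B) := by
  refine ⟨hAc.prod hBc, fun f hf hloc => ?_⟩
  have hAi : interior A = ∅ := by
    by_contra hne
    have hne' := Set.nonempty_iff_ne_empty.2 hne
    have := isOpen_interior.measure_pos volume hne'
    exact absurd (measure_mono_null interior_subset hA) this.ne'
  have hAd : Dense Aᶜ := interior_eq_empty_iff_dense_compl.1 hAi
  have hBd : Dense Bᶜ := interior_eq_empty_iff_dense_compl.1 hB
  -- local convexity along a line missing the set
  have hline : ∀ (z v : ℝ × ℝ) (t : ℝ), z + t • v ∉ A ×ˢ B →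
      ∃ δ > 0, ConvexOn ℝ (Ioo (t - δ) (t + δ)) fun s : ℝ => f (z + s • v) := by
    intro z v t ht
    obtain ⟨V, hVo, -, hzV, -, hVf⟩ := hloc _ ht
    exact local_line hVo hVf z v t hzV
  have hfx : ∀ y, ConvexOn ℝ univ fun x => f (x, y) := by
    refine convexOn_closure_param (g := fun y x => f (x, y)) (by fun_prop) hBd fun y hy => ?_
    refine convexOn_univ_of_local (by fun_prop) fun x => ?_
    obtain ⟨δ, hδ, h⟩ := hline (0, y) (1, 0) x (by
      have : y ∉ B := hy
      simp [this])
    refine ⟨δ, hδ, ?_⟩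
    simpa using h
  have hfy : ∀ x, ConvexOn ℝ univ fun y => f (x, y) := by
    refine convexOn_closure_param (g := fun x y => f (x, y)) (by fun_prop) hAd fun x hx => ?_
    refine convexOn_univ_of_local (by fun_prop) fun y => ?_
    obtain ⟨δ, hδ, h⟩ := hline (x, 0) (0, 1) y (by
      have : x ∉ A := hx
      simp [this])
    refine ⟨δ, hδ, ?_⟩
    simpa using h
  refine convexOn_of_slopes hfy fun σ c => ?_
  refine convexOn_slope hA hAc hf hfx hfy σ (fun c a b hab => ?_) c
  refine convexOn_of_local (convex_Ioo _ _) (by fun_prop) fun x hx => ?_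
  obtain ⟨δ, hδ, h⟩ := hline (0, c) (1, σ) x (by
    have := hab hx
    simp only [mem_compl_iff] at this
    simp [this])
  refine ⟨δ, hδ, ?_⟩
  have e : (fun s : ℝ => f ((0, c) + s • ((1 : ℝ), σ))) = fun x => f (x, σ * x + c) := by
    funext s
    congr 1
    ext <;> simp
    ring
  rw [e] at h
  exact h

end Pool.Agent.V1169
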